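import Pool.Agent.H35.K2S.Stab

/-!
# Rounding with a shift

Two near functions `α`, `β` (one of the exact point, one of the line) have equal roundings off an
event of small share, for a suitable shift of the grid.
-/

set_option autoImplicit false

namespace Pool.STB65

open Finset Real
open Pool.Agent.H49.Ent Pool.Agent.H32.Dense Pool.STK Pool.KA Pool.K2S

/-- Shifted integer divisions differ for few shifts. -/
theorem div_card {n : ℕ} (hn : 0 < n) (a : ℤ) (d : ℕ) :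
    ((range n).filter fun j : ℕ => (a + (j : ℤ)) / (n : ℤ) ≠ (a + d + (j : ℤ)) / (n : ℤ)).card ≤ d := by
  classical
  have hn' : (0 : ℤ) < n := by exact_mod_cast hn
  induction d with
  | zero => simp
  | succ d ih =>
    have h1 : ((range n).filter fun j : ℕ => (a + (j : ℤ)) / (n : ℤ) ≠
        (a + (d + 1 : ℕ) + (j : ℤ)) / (n : ℤ)) ⊆
        ((range n).filter fun j : ℕ => (a + (j : ℤ)) / (n : ℤ) ≠ (a + d + (j : ℤ)) / (n : ℤ)) ∪
        ((range n).filter fun j : ℕ => (a + d + (j : ℤ)) / (n : ℤ) ≠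
          (a + d + 1 + (j : ℤ)) / (n : ℤ)) := by
      intro j hj
      rw [mem_union, mem_filter, mem_filter]
      rw [mem_filter] at hj
      obtain ⟨h1, h2⟩ := hj
      by_contra hc
      push Not at hc
      have h3 := hc.1 h1
      have h4 := hc.2 h1
      apply h2
      rw [h3, h4]
      congr 1
      push_cast
      ring
    have h2 : ((range n).filter fun j : ℕ => (a + d + (j : ℤ)) / (n : ℤ) ≠
        (a + d + 1 + (j : ℤ)) / (n : ℤ)).card ≤ 1 := by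
      rw [Finset.card_le_one]
      have key : ∀ j ∈ ((range n).filter fun j : ℕ => (a + d + (j : ℤ)) / (n : ℤ) ≠
        (a + d + 1 + (j : ℤ)) / (n : ℤ)), (n : ℤ) ∣ a + d + 1 + (j : ℤ) := by
        intro j hj
        rw [mem_filter] at hj
        by_contra hc
        apply hj.2
        have h5 : (a + d + 1 + (j : ℤ)) % n ≠ 0 := fun h => hc (Int.dvd_of_emod_eq_zero h)
        have h6 := Int.emod_nonneg (a + d + 1 + (j : ℤ)) hn'.ne'
        have h7 := Int.emod_lt_of_pos (a + d + 1 + (j : ℤ)) hn'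
        have h8 := Int.mul_ediv_add_emod (a + d + 1 + (j : ℤ)) n
        have h9 : a + d + (j : ℤ) = ((a + d + 1 + (j : ℤ)) % n - 1) +
            n * ((a + d + 1 + (j : ℤ)) / n) := by linarith
        rw [h9, Int.add_mul_ediv_left _ _ hn'.ne', Int.ediv_eq_zero_of_lt (by omega) (by omega),
          zero_add]
      intro j hj j' hj'
      have k1 := key j hj
      have k2 := key j' hj'
      rw [mem_filter, mem_range] at hj hj'
      have k3 : (n : ℤ) ∣ (j : ℤ) - j' := by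
        have := dvd_sub k1 k2
        rwa [show a + d + 1 + (j : ℤ) - (a + d + 1 + (j' : ℤ)) = (j : ℤ) - j' by ring] at this
      have k4 : (j : ℤ) - j' = 0 := by
        refine Int.eq_zero_of_abs_lt_dvd k3 ?_
        rw [abs_lt]
        constructor <;> omega
      omega
    exact (card_le_card h1).trans ((card_union_le _ _).trans (by omega))

/-- Near numbers have different shifted integer parts for few shifts. -/
theorem floor_card {n : ℕ} (hn : 0 < n) (x y : ℝ) :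
    (((range n).filter fun j : ℕ => ⌊x + (j : ℝ) / n⌋ ≠ ⌊y + (j : ℝ) / n⌋).card : ℝ) ≤
      n * |x - y| + 1 := by
  classical
  have hn0 : (0 : ℝ) < n := by exact_mod_cast hn
  have hfl : ∀ (z : ℝ) (j : ℕ), ⌊z + (j : ℝ) / n⌋ = (⌊(n : ℝ) * z⌋ + (j : ℤ)) / (n : ℤ) := by
    intro z j
    rw [← Int.floor_add_intCast, ← Int.natCast_mul_floor_div_cancel hn.ne' (z + (j : ℝ) / n)]
    congr 2
    push_cast
    field_simp
  wlog hxy : ⌊(n : ℝ) * x⌋ ≤ ⌊(n : ℝ) * y⌋ generalizing x y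
  · have h1 := this y x (by omega)
    rw [abs_sub_comm] at h1
    refine le_trans (le_of_eq ?_) h1
    congr 2
    ext j
    rw [mem_filter, mem_filter]
    exact ⟨fun h => ⟨h.1, h.2.symm⟩, fun h => ⟨h.1, h.2.symm⟩⟩
  obtain ⟨d, hd⟩ := Int.eq_ofNat_of_zero_le (sub_nonneg.2 hxy)
  have h1 := div_card hn ⌊(n : ℝ) * x⌋ d
  have h2 : ⌊(n : ℝ) * x⌋ + (d : ℤ) = ⌊(n : ℝ) * y⌋ := by omega
  rw [h2] at h1
  have h3 : ((range n).filter fun j : ℕ => ⌊x + (j : ℝ) / n⌋ ≠ ⌊y + (j : ℝ) / n⌋) =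
      ((range n).filter fun j : ℕ => (⌊(n : ℝ) * x⌋ + (j : ℤ)) / (n : ℤ) ≠
        (⌊(n : ℝ) * y⌋ + (j : ℤ)) / (n : ℤ)) := by
    ext j
    rw [mem_filter, mem_filter, hfl, hfl]
  rw [h3]
  have h4 : ((d : ℤ) : ℝ) ≤ n * |x - y| + 1 := by
    have e1 := Int.floor_le ((n : ℝ) * y)
    have e2 := Int.lt_floor_add_one ((n : ℝ) * x)
    have e3 : ((d : ℤ) : ℝ) = (⌊(n : ℝ) * y⌋ : ℝ) - ⌊(n : ℝ) * x⌋ := by
      have : (d : ℤ) = ⌊(n : ℝ) * y⌋ - ⌊(n : ℝ) * x⌋ := by omega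
      rw [this]
      push_cast
      ring
    have e4 : (n : ℝ) * y - n * x ≤ n * |x - y| := by
      rw [← mul_sub, abs_sub_comm]
      exact mul_le_mul_of_nonneg_left (le_abs_self _) hn0.le
    rw [e3]
    linarith
  have h5 : ((((range n).filter fun j : ℕ => (⌊(n : ℝ) * x⌋ + (j : ℤ)) / (n : ℤ) ≠
      (⌊(n : ℝ) * y⌋ + (j : ℤ)) / (n : ℤ)).card : ℕ) : ℝ) ≤ (d : ℝ) := by exact_mod_cast h1
  exact h5.trans (by exact_mod_cast h4)

/-- **Rounding with a shift**: one pair of functions. -/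
theorem rnd_one {Ω : Type} [Fintype Ω] {p : Ω → ℝ} (hp : ∀ ω, 0 ≤ p ω) (B : Ω → Prop)
    (x y : Ω → ℝ) {ε ε' : ℝ} (hε : ε < ε') (h : ∀ ω, B ω → |x ω - y ω| ≤ ε) :
    ∃ θ : ℝ, 0 ≤ θ ∧ θ ≤ 1 ∧
      Pe p (fun ω => B ω ∧ ⌊x ω + θ⌋ ≠ ⌊y ω + θ⌋) ≤ ε' * Pe p B := by
  classical
  obtain ⟨n, hn⟩ := exists_nat_gt (1 / (ε' - ε))
  have hd : 0 < ε' - ε := by linarith
  have hn0 : (0 : ℝ) < n := (one_div_pos.2 hd).trans hn
  have hn' : 0 < n := by exact_mod_cast hn0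
  have hn1 : 1 ≤ (ε' - ε) * n := by
    rw [div_lt_iff₀ hd] at hn
    linarith
  have hPe : ∀ A : Ω → Prop, Pe p A =
      ∑ ω, @ite ℝ (A ω) (Classical.propDecidable _) (p ω) 0 := fun A => Pe_eq p A
  have hsum : ∑ j ∈ range n, Pe p (fun ω => B ω ∧ ⌊x ω + (j : ℝ) / n⌋ ≠ ⌊y ω + (j : ℝ) / n⌋) ≤
      n * (ε' * Pe p B) := by
    have h1 : ∀ j : ℕ, Pe p (fun ω => B ω ∧ ⌊x ω + (j : ℝ) / n⌋ ≠ ⌊y ω + (j : ℝ) / n⌋) =
        ∑ ω, if B ω then (if ⌊x ω + (j : ℝ) / n⌋ ≠ ⌊y ω + (j : ℝ) / n⌋ then p ω else 0) else 0 := by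
      intro j
      rw [hPe]
      refine Finset.sum_congr rfl fun ω _ => ?_
      by_cases h2 : B ω
      · simp [h2]
      · simp [h2]
    simp_rw [h1]
    rw [Finset.sum_comm, hPe, Finset.mul_sum, Finset.mul_sum]
    refine Finset.sum_le_sum fun ω _ => ?_
    by_cases h2 : B ω
    · simp only [h2, if_true]
      rw [← Finset.sum_filter, Finset.sum_const, nsmul_eq_mul]
      have h3 := floor_card hn' (x ω) (y ω)
      have h4 := mul_le_mul_of_nonneg_left (h ω h2) hn0.le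
      have h5 : (((range n).filter fun j : ℕ => ⌊x ω + (j : ℝ) / n⌋ ≠ ⌊y ω + (j : ℝ) / n⌋).card : ℝ) ≤
          n * ε' := by nlinarith
      calc _ ≤ (n * ε') * p ω := mul_le_mul_of_nonneg_right h5 (hp ω)
        _ = _ := by ring
    · simp [h2]
  by_contra hc
  push Not at hc
  have h2 : ∑ j ∈ range n, (ε' * Pe p B) <
      ∑ j ∈ range n, Pe p (fun ω => B ω ∧ ⌊x ω + (j : ℝ) / n⌋ ≠ ⌊y ω + (j : ℝ) / n⌋) := by
    refine Finset.sum_lt_sum_of_nonempty ⟨0, mem_range.2 hn'⟩ fun j hj => ?_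
    refine hc _ (by positivity) ?_
    rw [div_le_one hn0]
    exact_mod_cast (mem_range.1 hj).le
  rw [Finset.sum_const, card_range, nsmul_eq_mul] at h2
  linarith

/-- **Rounding with a shift**: finitely many pairs of functions. -/
theorem rnd_all {Ω ι : Type} [Fintype Ω] {p : Ω → ℝ} (hp : ∀ ω, 0 ≤ p ω) (B : Ω → Prop)
    (I : Finset ι) (x y : ι → Ω → ℝ) {ε ε' : ℝ} (hε : ε < ε')
    (h : ∀ i ∈ I, ∀ ω, B ω → |x i ω - y i ω| ≤ ε) :
    ∃ θ : ι → ℝ, (∀ i, 0 ≤ θ i ∧ θ i ≤ 1) ∧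
      (1 - I.card * ε') * Pe p B ≤
        Pe p (fun ω => B ω ∧ ∀ i ∈ I, ⌊x i ω + θ i⌋ = ⌊y i ω + θ i⌋) := by
  classical
  have hex : ∀ i, ∃ θ : ℝ, (0 ≤ θ ∧ θ ≤ 1) ∧ (i ∈ I →
      Pe p (fun ω => B ω ∧ ⌊x i ω + θ⌋ ≠ ⌊y i ω + θ⌋) ≤ ε' * Pe p B) := by
    intro i
    by_cases hi : i ∈ I
    · obtain ⟨θ, h1, h2, h3⟩ := rnd_one hp B (x i) (y i) hε (h i hi)
      exact ⟨θ, ⟨h1, h2⟩, fun _ => h3⟩
    · exact ⟨0, ⟨le_rfl, zero_le_one⟩, fun h => absurd h hi⟩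
  choose θ hθ hθ2 using hex
  refine ⟨θ, hθ, ?_⟩
  have hPe : ∀ A : Ω → Prop, Pe p A =
      ∑ ω, @ite ℝ (A ω) (Classical.propDecidable _) (p ω) 0 := fun A => Pe_eq p A
  have key : Pe p B ≤ Pe p (fun ω => B ω ∧ ∀ i ∈ I, ⌊x i ω + θ i⌋ = ⌊y i ω + θ i⌋) +
      ∑ i ∈ I, Pe p (fun ω => B ω ∧ ⌊x i ω + θ i⌋ ≠ ⌊y i ω + θ i⌋) := by
    simp_rw [hPe]
    rw [Finset.sum_comm, ← Finset.sum_add_distrib]
    refine Finset.sum_le_sum fun ω _ => ?_
    have h0 : ∀ i ∈ I, (0 : ℝ) ≤ @ite ℝ (B ω ∧ ⌊x i ω + θ i⌋ ≠ ⌊y i ω + θ i⌋)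
        (Classical.propDecidable _) (p ω) 0 := by
      intro i _
      split_ifs
      exacts [hp ω, le_rfl]
    by_cases h1 : B ω
    · by_cases h2 : ∀ i ∈ I, ⌊x i ω + θ i⌋ = ⌊y i ω + θ i⌋
      · rw [if_pos h1, if_pos ⟨h1, h2⟩]
        have := Finset.sum_nonneg h0
        linarith
      · have h3 := h2
        push Not at h3
        obtain ⟨i, hi, h4⟩ := h3
        rw [if_pos h1, if_neg fun h => h2 h.2, zero_add]
        have h5 := Finset.single_le_sum h0 hi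
        rw [if_pos ⟨h1, h4⟩] at h5
        exact h5
    · rw [if_neg h1, if_neg fun h => h1 h.1, zero_add]
      exact Finset.sum_nonneg h0
  have h3 : ∑ i ∈ I, Pe p (fun ω => B ω ∧ ⌊x i ω + θ i⌋ ≠ ⌊y i ω + θ i⌋) ≤
      I.card * (ε' * Pe p B) := by
    refine (Finset.sum_le_sum fun i hi => hθ2 i hi).trans (le_of_eq ?_)
    rw [Finset.sum_const, nsmul_eq_mul]
  linarith

end Pool.STB65
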