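import Pool.Agent.H65.STB.Jt0
import Pool.Agent.H65.NFT.Rem
import Pool.Agent.H82.STB.Bld

/-!
# Time, heights and frames

`st`: the start of a window as a relative time; `rt_st`. `uni_der`: one variable. `hq`: the polynomial
of a line in transversal coordinates; `ka`: its truncation, in absolute coordinates.
-/

set_option autoImplicit false

namespace Pool.STB65

open Finset Real MvPolynomial
open Pool.Agent.H49.Ent Pool.Agent.H32.Dense Pool.STK Pool.KA Pool.KSAT Pool.K2S Pool.PB Pool.S6C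
open Pool.GEN
open Pool.STB (V3 Po Bx Hb)
open Pool.PB.Trl (rt rt_mem t_rt)
open Pool.FLF (Fam.sub)

variable {m J : ℕ}

/-! ### The time -/

/-- The start of the window of the data `s`, as a time relative to a window longer by `2 ^ d`. -/
noncomputable def st {F : Fam m J} (d : ℕ) (s : LnT F) : ℝ := ((s.2.2 % 2 ^ d : ℕ) : ℝ) / 2 ^ d

/-- The data of the longer window. -/
def crs {F : Fam m J} (d : ℕ) (s : LnT F) : LnT F := (s.1, s.2.1, s.2.2 / 2 ^ d)

theorem crs_slam (F : Fam m J) {W₀ d : ℕ} (h : W₀ + d ≤ J) (ω : F.Ω) :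
    crs d (slam F (W₀ + d) ω) = slam F W₀ ω := by
  have h1 := T1_div F h ω
  show (F.l ω, F.Z ω, F.T1 (W₀ + d) ω / 2 ^ d) = (F.l ω, F.Z ω, F.T1 W₀ ω)
  rw [h1]

theorem rt_st (F : Fam m J) {W₀ d : ℕ} (h : W₀ + d ≤ J) (ω : F.Ω) :
    rt F W₀ ω = st d (slam F (W₀ + d) ω) + rt F (W₀ + d) ω / 2 ^ d := by
  have h1 := t_rt F (show W₀ ≤ J by omega) ω
  have h2 := t_rt F h ω
  have h3 : F.T1 W₀ ω = F.T1 (W₀ + d) ω / 2 ^ d := T1_div F h ω
  have h4 : (slam F W₀ ω).2.2 = F.T1 W₀ ω := rfl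
  have h5 : (slam F (W₀ + d) ω).2.2 = F.T1 (W₀ + d) ω := rfl
  have h6 := Nat.div_add_mod (F.T1 (W₀ + d) ω) (2 ^ d)
  have h7 : (F.T1 (W₀ + d) ω : ℝ) = 2 ^ d * F.T1 W₀ ω + ((F.T1 (W₀ + d) ω % 2 ^ d : ℕ) : ℝ) := by
    rw [h3]
    exact_mod_cast h6.symm
  rw [h4] at h1
  rw [h5] at h2
  unfold st
  rw [h5]
  rw [h2, pow_add, div_eq_div_iff (by positivity) (by positivity)] at h1
  have h8 : (0 : ℝ) < 2 ^ W₀ := by positivity
  have h9 : (0 : ℝ) < 2 ^ d := by positivity
  rw [h7] at h1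
  have h10 : ((F.T1 (W₀ + d) ω % 2 ^ d : ℕ) : ℝ) + rt F (W₀ + d) ω = rt F W₀ ω * 2 ^ d := by
    have : 2 ^ W₀ * (((F.T1 (W₀ + d) ω % 2 ^ d : ℕ) : ℝ) + rt F (W₀ + d) ω) =
        2 ^ W₀ * (rt F W₀ ω * 2 ^ d) := by linarith
    exact mul_left_cancel₀ h8.ne' this
  rw [← add_div, h10]
  field_simp

theorem st_mem {F : Fam m J} (d : ℕ) (s : LnT F) : st d s ∈ Set.Icc (0 : ℝ) 1 := by
  unfold st
  refine ⟨by positivity, ?_⟩
  rw [div_le_one (by positivity)]
  exact_mod_cast (Nat.mod_lt s.2.2 (y := 2 ^ d) (by positivity)).le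

theorem rt_dg (F : Fam m J) {W k : ℕ} (h : W + k ≤ J) (ω : F.Ω) :
    rt F W ω = (Pool.STB82.dg F W k ω + rt F (W + k) ω) / 2 ^ k := by
  rw [rt_st F h ω]
  unfold st
  rw [← add_div]
  rfl

/-- Two samples of one line and window. -/
theorem rt_two (F : Fam m J) {W₀ d k : ℕ} (h : W₀ + d + k ≤ J) {ω ω' : F.Ω}
    (hs : slam F (W₀ + d) ω = slam F (W₀ + d) ω') :
    |(rt F W₀ ω' - rt F W₀ ω) - ((Pool.STB82.dg F (W₀ + d) k ω' : ℝ) -
      Pool.STB82.dg F (W₀ + d) k ω) / 2 ^ (d + k)| ≤ 1 / 2 ^ (d + k) := by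
  rw [rt_st F (show W₀ + d ≤ J by omega) ω, rt_st F (show W₀ + d ≤ J by omega) ω', hs, rt_dg F h ω,
    rt_dg F h ω']
  have h1 := rt_mem F (W₀ + d + k) ω
  have h2 := rt_mem F (W₀ + d + k) ω'
  have h3 : (st d (slam F (W₀ + d) ω') + (Pool.STB82.dg F (W₀ + d) k ω' +
      rt F (W₀ + d + k) ω') / 2 ^ k / 2 ^ d - (st d (slam F (W₀ + d) ω') +
        (Pool.STB82.dg F (W₀ + d) k ω + rt F (W₀ + d + k) ω) / 2 ^ k / 2 ^ d)) -
      ((Pool.STB82.dg F (W₀ + d) k ω' : ℝ) - Pool.STB82.dg F (W₀ + d) k ω) / 2 ^ (d + k) =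
      (rt F (W₀ + d + k) ω' - rt F (W₀ + d + k) ω) / 2 ^ (d + k) := by
    rw [pow_add]
    field_simp
    ring
  rw [h3, abs_div, abs_of_pos (by positivity : (0 : ℝ) < 2 ^ (d + k))]
  refine div_le_div_of_nonneg_right ?_ (by positivity)
  rw [abs_le]
  constructor <;> linarith [h1.1, h1.2, h2.1, h2.2]

/-! ### One variable -/

/-- Values and derivatives near the interval. -/
theorem uni_der (K : ℕ) : ∃ C : ℝ, 1 ≤ C ∧ ∀ (p : Polynomial ℝ) (M : ℝ), p.natDegree ≤ K →
    (∀ t ∈ Set.Icc (0 : ℝ) 1, |p.eval t| ≤ M) → ∀ t, |t| ≤ 2 →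
      |p.eval t| ≤ C * M ∧ |(Polynomial.derivative p).eval t| ≤ C * M := by
  obtain ⟨C, hC, hc⟩ := Pool.KAL.TAY.coef_bound K
  refine ⟨1 + (K + 1) * (C * ((K + 1) * 2 ^ K)), by
    have : (0 : ℝ) ≤ (K + 1) * (C * ((K + 1) * 2 ^ K)) := by positivity
    linarith, fun p M hp hM t ht => ?_⟩
  have hM0 : 0 ≤ M := (abs_nonneg _).trans (hM 0 ⟨le_rfl, zero_le_one⟩)
  have hco := hc p M hp (fun t h0 h1 => hM t ⟨h0, h1⟩)
  have h2K : (1 : ℝ) ≤ 2 ^ K := one_le_pow₀ (by norm_num)
  have hpw : ∀ n ≤ K, |t ^ n| ≤ 2 ^ K := by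
    intro n hn
    rw [abs_pow]
    exact (pow_le_pow_left₀ (abs_nonneg _) ht n).trans (pow_le_pow_right₀ (by norm_num) hn)
  have hK0 : (0 : ℝ) ≤ K := Nat.cast_nonneg K
  have hsum : ∀ a : ℕ → ℝ, (∀ n ∈ range (K + 1), |a n| ≤ C * M * ((K + 1) * 2 ^ K)) →
      |∑ n ∈ range (K + 1), a n| ≤ (1 + (K + 1) * (C * ((K + 1) * 2 ^ K))) * M := by
    intro a ha
    refine (Finset.abs_sum_le_sum_abs _ _).trans ((Finset.sum_le_sum ha).trans ?_)
    rw [Finset.sum_const, card_range, nsmul_eq_mul]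
    push_cast
    nlinarith
  constructor
  · rw [Polynomial.eval_eq_sum_range' (Nat.lt_succ_of_le hp)]
    refine hsum _ fun n hn => ?_
    have hn' : n ≤ K := Nat.lt_succ_iff.1 (mem_range.1 hn)
    rw [abs_mul]
    refine mul_le_mul (hco n hn') ((hpw n hn').trans ?_) (abs_nonneg _) (by positivity)
    nlinarith
  · have hd : (Polynomial.derivative p).natDegree < K + 1 :=
      lt_of_le_of_lt ((Polynomial.natDegree_derivative_le p).trans (Nat.sub_le _ _))
        (Nat.lt_succ_of_le hp)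
    rw [Polynomial.eval_eq_sum_range' hd]
    refine hsum _ fun n hn => ?_
    have hn' : n ≤ K := Nat.lt_succ_iff.1 (mem_range.1 hn)
    rw [abs_mul, Polynomial.coeff_derivative, abs_mul]
    have h1 : |p.coeff (n + 1)| ≤ C * M := by
      rcases Nat.lt_or_ge K (n + 1) with h | h
      · rw [Polynomial.coeff_eq_zero_of_natDegree_lt (by omega), abs_zero]
        positivity
      · exact hco (n + 1) h
    have h2 : |(n : ℝ) + 1| ≤ K + 1 := by
      rw [abs_of_nonneg (by positivity)]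
      have : (n : ℝ) ≤ K := by exact_mod_cast hn'
      linarith
    have h3 := hpw n hn'
    calc |p.coeff (n + 1)| * |(n : ℝ) + 1| * |t ^ n| ≤ C * M * (K + 1) * 2 ^ K :=
          mul_le_mul (mul_le_mul h1 h2 (abs_nonneg _) (by positivity)) h3 (abs_nonneg _)
            (by positivity)
      _ = _ := by ring

/-- Polynomials are Lipschitz. -/
theorem pol_lip (p : Polynomial ℝ) {a b M : ℝ} (h : ∀ t ∈ Set.Icc a b,
    |(Polynomial.derivative p).eval t| ≤ M) {x y : ℝ} (hx : x ∈ Set.Icc a b)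
    (hy : y ∈ Set.Icc a b) : |p.eval y - p.eval x| ≤ M * |y - x| := by
  have h1 := (convex_Icc a b).norm_image_sub_le_of_norm_hasDerivWithin_le
    (f := fun t => p.eval t) (f' := fun t => (Polynomial.derivative p).eval t) (C := M)
    (fun t _ => (p.hasDerivAt t).hasDerivWithinAt) (fun t ht => by
      rw [Real.norm_eq_abs]
      exact h t ht) hx hy
  rwa [Real.norm_eq_abs, Real.norm_eq_abs] at h1

/-! ### Heights -/

/-- A polynomial of one variable in the variable `0`. -/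
noncomputable def px (p : Polynomial ℝ) : Po := Polynomial.aeval (X 0 : Po) p

theorem eval_px (p : Polynomial ℝ) (q : V3) : eval q (px p) = p.eval (q 0) := by
  unfold px
  induction p using Polynomial.induction_on' with
  | add p r hp hr => rw [map_add, map_add, hp, hr, Polynomial.eval_add]
  | monomial n a =>
    rw [Polynomial.aeval_monomial, map_mul, map_pow, eval_X, Polynomial.eval_monomial]
    congr 1
    exact eval_C a

theorem deg_px {p : Polynomial ℝ} {K : ℕ} (h : p.natDegree ≤ K) : (px p).totalDegree ≤ K := by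
  unfold px
  rw [Polynomial.aeval_eq_sum_range' (Nat.lt_succ_of_le h)]
  refine (totalDegree_finsetSum _ _).trans (Finset.sup_le fun n hn => ?_)
  refine (totalDegree_smul_le _ _).trans ?_
  refine (totalDegree_pow _ _).trans ?_
  rw [totalDegree_X, mul_one]
  exact Nat.lt_succ_iff.1 (mem_range.1 hn)

/-- The polynomial in the coordinates over a path. -/
noncomputable def shp (h : Fin 3 → Polynomial ℝ) (k : Po) : Po :=
  bind₁ (fun i => if i = 0 then X 0 else X i + px (h i)) k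

/-- The inverse change of coordinates. -/
noncomputable def shm (h : Fin 3 → Polynomial ℝ) (k : Po) : Po :=
  bind₁ (fun i => if i = 0 then X 0 else X i - px (h i)) k

theorem eval_shp (h : Fin 3 → Polynomial ℝ) (k : Po) (q : V3) : eval q (shp h k) =
    eval (fun i => if i = 0 then q 0 else q i + (h i).eval (q 0)) k := by
  unfold shp
  rw [eval, eval₂Hom_bind₁]
  congr 1
  congr 1
  funext j
  show eval q (if j = 0 then X 0 else X j + px (h j)) = _
  split_ifs with hj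
  · rw [eval_X]
  · rw [map_add, eval_X, eval_px]

theorem eval_shm (h : Fin 3 → Polynomial ℝ) (k : Po) (q : V3) : eval q (shm h k) =
    eval (fun i => if i = 0 then q 0 else q i - (h i).eval (q 0)) k := by
  unfold shm
  rw [eval, eval₂Hom_bind₁]
  congr 1
  congr 1
  funext j
  show eval q (if j = 0 then X 0 else X j - px (h j)) = _
  split_ifs with hj
  · rw [eval_X]
  · rw [map_sub, eval_X, eval_px]

theorem deg_shp {h : Fin 3 → Polynomial ℝ} {k : Po} {K D : ℕ} (hK : 1 ≤ K)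
    (hh : ∀ i, (h i).natDegree ≤ K) (hk : k.totalDegree ≤ D) : (shp h k).totalDegree ≤ K * D := by
  unfold shp
  refine (Pool.KS3.SML.totalDegree_bind_le _ K (fun i => ?_) k).trans (Nat.mul_le_mul_left _ hk)
  split_ifs with hj
  · rw [totalDegree_X]
    exact hK
  · refine (totalDegree_add _ _).trans (max_le ?_ (deg_px (hh i)))
    rw [totalDegree_X]
    exact hK

theorem deg_shm {h : Fin 3 → Polynomial ℝ} {k : Po} {K D : ℕ} (hK : 1 ≤ K)
    (hh : ∀ i, (h i).natDegree ≤ K) (hk : k.totalDegree ≤ D) : (shm h k).totalDegree ≤ K * D := by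
  unfold shm
  refine (Pool.KS3.SML.totalDegree_bind_le _ K (fun i => ?_) k).trans (Nat.mul_le_mul_left _ hk)
  split_ifs with hj
  · rw [totalDegree_X]
    exact hK
  · refine (totalDegree_sub _ _).trans (max_le ?_ (deg_px (hh i)))
    rw [totalDegree_X]
    exact hK

/-- **The truncation of the polynomial of a line**, transversal orders at most `b`. -/
noncomputable def ka (K' b : ℕ) (h : Fin 3 → Polynomial ℝ) (k : Po) : Po :=
  shm h (trl K' b (shp h k))

theorem deg_ka {K' b : ℕ} {h : Fin 3 → Polynomial ℝ} {k : Po} {K D : ℕ} (hK : 1 ≤ K)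
    (hh : ∀ i, (h i).natDegree ≤ K) (hk : k.totalDegree ≤ D) :
    (ka K' b h k).totalDegree ≤ K * (K * D) :=
  deg_shm hK hh (deg_trl K' b (deg_shp hK hh hk))

/-- The shift of a height. -/
noncomputable def ash (h : Fin 3 → Polynomial ℝ) (τ : ℝ) (j : Fin 3) (x : ℝ) : ℝ :=
  (h j).eval (τ + x) - (h j).eval τ

/-- The point of a path. -/
noncomputable def lp (h : Fin 3 → Polynomial ℝ) (τ : ℝ) : V3 := fun j => (h j).eval τ

theorem ash_zero (h : Fin 3 → Polynomial ℝ) (τ : ℝ) (j : Fin 3) : ash h τ j 0 = 0 := by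
  unfold ash
  rw [add_zero, sub_self]

/-- The polynomial of a line in the frame of a point. -/
theorem frame_k {h : Fin 3 → Polynomial ℝ} (h0 : h 0 = Polynomial.X) (k : Po) (τ : ℝ) (r : V3) :
    eval (lp h τ + r) k = eval (psi τ (ash h τ 1) (ash h τ 2) r) (shp h k) := by
  rw [eval_shp]
  congr 2
  funext i
  fin_cases i
  · simp [lp, psi, h0]
  · simp [lp, psi, ash]
    ring
  · simp [lp, psi, ash]
    ring

theorem frame_ka {h : Fin 3 → Polynomial ℝ} (h0 : h 0 = Polynomial.X) (K' b : ℕ) (k : Po) (τ : ℝ)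
    (r : V3) : eval (lp h τ + r) (ka K' b h k) =
      eval (psi τ (ash h τ 1) (ash h τ 2) r) (trl K' b (shp h k)) := by
  unfold ka
  rw [eval_shm]
  congr 2
  funext i
  fin_cases i
  · simp [lp, psi, h0]
  · simp [lp, psi, ash, h0]
    ring
  · simp [lp, psi, ash, h0]
    ring

end Pool.STB65
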