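import Pool.Agent.H65.STB.Evt
import Pool.Agent.H65.STB.Rnd

/-!
# The positions in closed coordinates

`InpP`: positions which are heights of lines over closed charts, in natural units of a low window
`W₀`, with a visible approximation. `pos_ev`: on a large sub-event, for all the windows
`W + i k`, `i < n`, a closed centre, a closed position with the unit `2 ^ (-k)` behind the window, and
the motion along a line is the rounded velocity of the line.
-/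

set_option autoImplicit false

namespace Pool.STB65

open Finset Real MvPolynomial
open Pool.Agent.H49.Ent Pool.Agent.H32.Dense Pool.STK Pool.KA Pool.KSAT Pool.K2S Pool.PB Pool.S6C
open Pool.GEN Pool.D2Con Pool.D2A Pool.RCD
open Pool.STB (V3 Po Bx Hb)
open Pool.PB.Trl (rt rt_mem t_rt)
open Pool.STB82 (dg dg_lt dg_nonneg)

variable {m J : ℕ}

/-- **The positions**, in natural units of the window `W₀`; `n` windows of `k` digits behind
`W₀ + d`. -/
structure InpP (F : Fam m J) (B : F.Ω → Prop) (W₀ d k n K : ℕ) (Y : ℝ) (y : F.Ω → V3)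
    (yt : PtT F → V3) (h : LnT F → Fin 3 → Polynomial ℝ) : Prop where
  hd : ∀ s j, (h s j).natDegree ≤ K
  yh : ∀ ω, B ω → ∀ j, y ω j = (h (slam F W₀ ω) j).eval (rt F W₀ ω)
  vel : ∀ ω, B ω → ∀ j, ∀ τ ∈ Set.Icc (0 : ℝ) 1,
    |(Polynomial.derivative (h (slam F W₀ ω) j)).eval τ| ≤ Y
  vis : ∀ ω, B ω → ∀ j, |yt (ptr F J ω) j - y ω j| ≤ Y / 2 ^ (d + n * k)

/-- The scale of the window `W₀ + d + i k`. -/
noncomputable def Rs (d k : ℕ) (σ : ℝ) (i : ℕ) : ℝ := 2 ^ (d + i * k) / σ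

theorem Rs_pos {d k : ℕ} {σ : ℝ} (hσ : 0 < σ) (i : ℕ) : 0 < Rs d k σ i := by
  unfold Rs
  positivity

/-- Vectors with entries in `2 ^ (-k) ℤ`, at most one. -/
noncomputable def grd (k : ℕ) : Finset V3 :=
  (Fintype.piFinset fun _ : Fin 3 => Finset.Icc (-(2 ^ k : ℤ)) (2 ^ k)).image
    fun z j => (z j : ℝ) / 2 ^ k

theorem card_grd (k : ℕ) : (grd k).card ≤ (2 * 2 ^ k + 1) ^ 3 := by
  unfold grd
  refine Finset.card_image_le.trans (le_of_eq ?_)
  rw [Fintype.card_piFinset, Finset.prod_const, Finset.card_univ, Fintype.card_fin]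
  congr 1
  rw [Int.card_Icc]
  have : (2 : ℤ) ^ k + 1 - -2 ^ k = ((2 * 2 ^ k + 1 : ℕ) : ℤ) := by
    push_cast
    ring
  rw [this, Int.toNat_natCast]

/-- The rounded vector, if it is small. -/
noncomputable def rv (k : ℕ) (v : V3) : V3 :=
  open Classical in if Bx (1 / 2) v then fun j => (⌊(2 : ℝ) ^ k * v j⌋ : ℝ) / 2 ^ k else 0

theorem rv_grd (k : ℕ) (v : V3) : rv k v ∈ grd k := by
  classical
  unfold rv grd
  rw [Finset.mem_image]
  have h2k : (0 : ℝ) < 2 ^ k := by positivity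
  have h1k : (1 : ℝ) ≤ 2 ^ k := one_le_pow₀ (by norm_num)
  by_cases h : Bx (1 / 2) v
  · rw [if_pos h]
    refine ⟨fun j => ⌊(2 : ℝ) ^ k * v j⌋, Fintype.mem_piFinset.2 fun j => ?_, rfl⟩
    have h3 := abs_le.1 (h j)
    rw [Finset.mem_Icc]
    constructor
    · refine Int.le_floor.2 ?_
      push_cast
      nlinarith [h3.1]
    · have h4 : (⌊(2 : ℝ) ^ k * v j⌋ : ℝ) ≤ 2 ^ k * v j := Int.floor_le _
      have h5 : (⌊(2 : ℝ) ^ k * v j⌋ : ℝ) ≤ ((2 ^ k : ℤ) : ℝ) := by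
        push_cast
        nlinarith [h3.2]
      exact_mod_cast h5
  · rw [if_neg h]
    refine ⟨fun _ => 0, Fintype.mem_piFinset.2 fun j => ?_, ?_⟩
    · rw [Finset.mem_Icc]
      constructor
      · have : (0 : ℤ) ≤ 2 ^ k := by positivity
        omega
      · positivity
    · funext j
      simp

theorem rv_near {k : ℕ} {v : V3} (h : Bx (1 / 2) v) : Bx (1 / 2 ^ k) (rv k v - v) := by
  classical
  intro j
  unfold rv
  rw [if_pos h]
  show |(⌊(2 : ℝ) ^ k * v j⌋ : ℝ) / 2 ^ k - v j| ≤ 1 / 2 ^ k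
  have h2k : (0 : ℝ) < 2 ^ k := by positivity
  have h1 := Int.floor_le ((2 : ℝ) ^ k * v j)
  have h2 := Int.lt_floor_add_one ((2 : ℝ) ^ k * v j)
  have h3 : (⌊(2 : ℝ) ^ k * v j⌋ : ℝ) / 2 ^ k - v j = (⌊(2 : ℝ) ^ k * v j⌋ - 2 ^ k * v j) / 2 ^ k := by
    field_simp
  rw [h3, abs_div, abs_of_pos h2k]
  refine div_le_div_of_nonneg_right ?_ h2k.le
  rw [abs_le]
  constructor <;> linarith

theorem grd_bx {k : ℕ} {v : V3} (h : v ∈ grd k) : Bx 1 v := by
  unfold grd at h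
  rw [Finset.mem_image] at h
  obtain ⟨z, hz, rfl⟩ := h
  intro j
  have h1 := Finset.mem_Icc.1 (Fintype.mem_piFinset.1 hz j)
  have h2k : (0 : ℝ) < 2 ^ k := by positivity
  show |(z j : ℝ) / 2 ^ k| ≤ 1
  rw [abs_div, abs_of_pos h2k, div_le_one h2k, abs_le]
  have h3 : ((-(2 ^ k : ℤ) : ℤ) : ℝ) ≤ z j := by exact_mod_cast h1.1
  have h4 : (z j : ℝ) ≤ ((2 ^ k : ℤ) : ℝ) := by exact_mod_cast h1.2
  push_cast at h3 h4
  exact ⟨h3, h4⟩

/-- **The output.** -/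
structure PosO (F : Fam m J) (B : F.Ω → Prop) (W₀ d k n : ℕ) (σ K : ℝ) (y : F.Ω → V3)
    (h : LnT F → Fin 3 → Polynomial ℝ) (ctr xo : ℕ → F.Ω → V3) (D₁ : LnT F → V3) : Prop where
  cc : ∀ i < n, Cl2 (slam F (W₀ + d + i * k)) (fun ω => ptr F J ω) B (ctr i)
  cx : ∀ i < n, Cl2 (slam F (W₀ + d + i * k + k)) (fun ω => ptr F J ω) B (xo i)
  q1 : ∀ i < n, ∀ ω, B ω → Bx (1 / 2) (Rs d k σ i • (y ω - ctr i ω))
  qx : ∀ i < n, ∀ ω, B ω → Bx (2 / 2 ^ k) (xo i ω - Rs d k σ i • (y ω - ctr i ω))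
  x1 : ∀ i < n, ∀ ω, B ω → Bx 1 (xo i ω)
  dg : ∀ s, D₁ s ∈ grd k
  dv : ∀ ω, B ω → ∀ j, |D₁ (slam F (W₀ + d) ω) j - (1 / σ) *
    (Polynomial.derivative (h (slam F W₀ ω) j)).eval (st d (slam F (W₀ + d) ω))| ≤ 1 / 2 ^ k
  pos : ∀ i < n, ∀ ω ω', B ω → B ω' →
    slam F (W₀ + d + i * k) ω = slam F (W₀ + d + i * k) ω' →
    Bx (K / 2 ^ k) (xo i ω' - xo i ω - (((Pool.STB82.dg F (W₀ + d + i * k) k ω' : ℝ) -
      Pool.STB82.dg F (W₀ + d + i * k) k ω) / 2 ^ k) • D₁ (slam F (W₀ + d) ω))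

theorem fl_bd (x θ : ℝ) : |x - ((⌊x + θ⌋ : ℝ) - θ)| ≤ 1 := by
  have h1 := Int.floor_le (x + θ)
  have h2 := Int.lt_floor_add_one (x + θ)
  rw [abs_le]
  constructor <;> linarith

/-- The first digits of the time. -/
theorem slam_eq_of_le (F : Fam m J) {W W' : ℕ} (h : W ≤ W') (hJ : W' ≤ J) {ω ω' : F.Ω}
    (hs : slam F W' ω = slam F W' ω') : slam F W ω = slam F W ω' := by
  have h1 := crs_slam F (W₀ := W) (d := W' - W) (by omega) ω
  have h2 := crs_slam F (W₀ := W) (d := W' - W) (by omega) ω'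
  rw [show W + (W' - W) = W' by omega] at h1 h2
  rw [← h1, ← h2, hs]

/-- **The positions in closed coordinates.** -/
theorem pos_ev (K : ℕ) : ∃ C : ℝ, 1 ≤ C ∧ ∀ {m J : ℕ} (F : Fam m J) (B : F.Ω → Prop)
    (W₀ d k n : ℕ) (Y σ : ℝ) (y : F.Ω → V3) (yt : PtT F → V3)
    (h : LnT F → Fin 3 → Polynomial ℝ), InpP F B W₀ d k n K Y y yt h → W₀ + d + n * k ≤ J →
    k ≤ d → 2 ≤ k → 1 ≤ Y → 108 * n * Y ≤ σ → 4 * Y ≤ σ →
    ∃ (B' : F.Ω → Prop) (ctr xo : ℕ → F.Ω → V3) (D₁ : LnT F → V3), Sub B' B ∧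
      Pe F.p B ≤ 2 * Pe F.p B' ∧ PosO F B' W₀ d k n σ (C * Y + 7) y h ctr xo D₁ := by
  classical
  obtain ⟨C, hC, hu⟩ := uni_der K
  refine ⟨C, hC, ?_⟩
  intro m J F B W₀ d k n Y σ y yt h I hJ hkd hk2 hY hσn hσ
  have hσ0 : 0 < σ := by linarith
  have hp := Pe_nonneg F.isLaw
  have hM0 : (0 : ℝ) < 2 ^ k := by positivity
  have hM4 : (4 : ℝ) ≤ 2 ^ k := by
    calc (4 : ℝ) = 2 ^ 2 := by norm_num
      _ ≤ 2 ^ k := pow_le_pow_right₀ (by norm_num) hk2
  have hYσ : Y / σ ≤ 1 / 4 := by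
    rw [div_le_iff₀ hσ0]
    linarith
  -- the start of a window
  obtain ⟨lin, hlin⟩ : ∃ lin : ℕ → LnT F → Fin 3 → ℝ, lin = fun e s j =>
      (h (crs e s) j).eval (st e s) := ⟨_, rfl⟩
  have hlip : ∀ ω, B ω → ∀ j, ∀ a ∈ Set.Icc (0 : ℝ) 1, ∀ b ∈ Set.Icc (0 : ℝ) 1,
      |(h (slam F W₀ ω) j).eval b - (h (slam F W₀ ω) j).eval a| ≤ Y * |b - a| :=
    fun ω hω j a ha b hb => pol_lip _ (I.vel ω hω j) ha hb
  have hstart : ∀ ω, B ω → ∀ j, ∀ e, W₀ + e ≤ J →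
      |y ω j - lin e (slam F (W₀ + e) ω) j| ≤ Y / 2 ^ e := by
    intro ω hω j e he
    rw [hlin]
    show |y ω j - (h (crs e (slam F (W₀ + e) ω)) j).eval (st e (slam F (W₀ + e) ω))| ≤ _
    rw [crs_slam F he, I.yh ω hω]
    refine (hlip ω hω j _ (st_mem _ _) _ (rt_mem F W₀ ω)).trans ?_
    have h1 := rt_st F he ω
    have h2 := rt_mem F (W₀ + e) ω
    have h3 : rt F W₀ ω - st e (slam F (W₀ + e) ω) = rt F (W₀ + e) ω / 2 ^ e := by
      rw [h1]
      ring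
    rw [h3, abs_div, abs_of_nonneg h2.1, abs_of_pos (by positivity : (0 : ℝ) < 2 ^ e),
      ← mul_div_assoc]
    refine div_le_div_of_nonneg_right ?_ (by positivity)
    nlinarith [h2.2]
  have hRe : ∀ i, Rs d k σ i * (1 / 2 ^ (d + i * k)) = 1 / σ := by
    intro i
    unfold Rs
    field_simp
  have hRn : ∀ i < n, Rs d k σ i * (1 / 2 ^ (d + n * k)) ≤ 1 / (σ * 2 ^ k) := by
    intro i hi
    have e1 : (i + 1) * k ≤ n * k := Nat.mul_le_mul_right _ hi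
    have e2 : (2 : ℝ) ^ (d + i * k) * 2 ^ k ≤ 2 ^ (d + n * k) := by
      rw [← pow_add]
      refine pow_le_pow_right₀ (by norm_num) ?_
      have : (i + 1) * k = i * k + k := by ring
      omega
    unfold Rs
    rw [div_mul_div_comm, mul_one, div_le_div_iff₀ (by positivity) (by positivity)]
    nlinarith
  have hRk : ∀ i, Rs d k σ i * (1 / 2 ^ (d + i * k + k)) = 1 / (σ * 2 ^ k) := by
    intro i
    unfold Rs
    rw [pow_add 2 (d + i * k) k]
    field_simp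
  -- the centres
  obtain ⟨ι, hι⟩ : ∃ ι : Finset (ℕ × Fin 3), ι = range n ×ˢ univ := ⟨_, rfl⟩
  have hιc : (ι.card : ℝ) = 3 * n := by
    rw [hι, Finset.card_product, card_range, Finset.card_univ, Fintype.card_fin]
    push_cast
    ring
  have hιm : ∀ i < n, ∀ j : Fin 3, (i, j) ∈ ι := fun i hi j => by
    rw [hι]
    exact Finset.mem_product.2 ⟨mem_range.2 hi, Finset.mem_univ _⟩
  have hJi : ∀ i < n, W₀ + (d + i * k) + k ≤ J := by
    intro i hi
    have e1 : (i + 1) * k ≤ n * k := Nat.mul_le_mul_right _ hi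
    have e2 : (i + 1) * k = i * k + k := by ring
    omega
  obtain ⟨θ, hθ, hB₁⟩ := rnd_all F.isLaw.nonneg B ι
    (fun ij ω => 4 * Rs d k σ ij.1 * yt (ptr F J ω) ij.2)
    (fun ij ω => 4 * Rs d k σ ij.1 * lin (d + ij.1 * k) (slam F (W₀ + (d + ij.1 * k)) ω) ij.2)
    (ε := 8 * Y / σ) (ε' := 9 * Y / σ)
    (div_lt_div_of_pos_right (by linarith) hσ0) (by
      rintro ⟨i, j⟩ hij ω hω
      have hi : i < n := by
        rw [hι] at hij
        exact mem_range.1 (Finset.mem_product.1 hij).1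
      show |4 * Rs d k σ i * yt (ptr F J ω) j -
        4 * Rs d k σ i * lin (d + i * k) (slam F (W₀ + (d + i * k)) ω) j| ≤ _
      have hR := Rs_pos (d := d) (k := k) hσ0 i
      rw [← mul_sub, abs_mul, abs_of_pos (by positivity)]
      have e1 := I.vis ω hω j
      have e2 := hstart ω hω j (d + i * k) (by have := hJi i hi; omega)
      have e3 : |yt (ptr F J ω) j - lin (d + i * k) (slam F (W₀ + (d + i * k)) ω) j| ≤
          Y / 2 ^ (d + n * k) + Y / 2 ^ (d + i * k) :=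
        (abs_sub_le _ (y ω j) _).trans (add_le_add e1 e2)
      have e4 : Rs d k σ i * (Y / 2 ^ (d + n * k)) ≤ Y / σ := by
        have e5 : Rs d k σ i * (Y / 2 ^ (d + n * k)) = Y * (Rs d k σ i * (1 / 2 ^ (d + n * k))) := by
          ring
        rw [e5]
        have e6 : 1 / (σ * 2 ^ k) ≤ 1 / σ :=
          one_div_le_one_div_of_le hσ0 (le_mul_of_one_le_right hσ0.le (by linarith))
        calc Y * (Rs d k σ i * (1 / 2 ^ (d + n * k))) ≤ Y * (1 / σ) :=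
              mul_le_mul_of_nonneg_left ((hRn i hi).trans e6) (by linarith)
          _ = Y / σ := by ring
      have e5 : Rs d k σ i * (Y / 2 ^ (d + i * k)) = Y / σ := by
        have : Rs d k σ i * (Y / 2 ^ (d + i * k)) = Y * (Rs d k σ i * (1 / 2 ^ (d + i * k))) := by
          ring
        rw [this, hRe i]
        ring
      calc 4 * Rs d k σ i * |yt (ptr F J ω) j - lin (d + i * k) (slam F (W₀ + (d + i * k)) ω) j| ≤
          4 * Rs d k σ i * (Y / 2 ^ (d + n * k) + Y / 2 ^ (d + i * k)) :=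
            mul_le_mul_of_nonneg_left e3 (by positivity)
        _ = 4 * (Rs d k σ i * (Y / 2 ^ (d + n * k)) + Rs d k σ i * (Y / 2 ^ (d + i * k))) := by ring
        _ ≤ 4 * (Y / σ + Y / σ) := by
            rw [e5]
            linarith
        _ = 8 * Y / σ := by ring)
  obtain ⟨B₁, hB₁e⟩ : ∃ B₁ : F.Ω → Prop, B₁ = fun ω => B ω ∧ ∀ ij ∈ ι,
      ⌊4 * Rs d k σ ij.1 * yt (ptr F J ω) ij.2 + θ ij⌋ =
        ⌊4 * Rs d k σ ij.1 * lin (d + ij.1 * k) (slam F (W₀ + (d + ij.1 * k)) ω) ij.2 + θ ij⌋ :=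
    ⟨_, rfl⟩
  have hB₁s : Sub B₁ B := fun ω hω => by
    rw [hB₁e] at hω
    exact hω.1
  have hB₁q : ∀ ω, B₁ ω → ∀ i < n, ∀ j, ⌊4 * Rs d k σ i * yt (ptr F J ω) j + θ (i, j)⌋ =
      ⌊4 * Rs d k σ i * lin (d + i * k) (slam F (W₀ + (d + i * k)) ω) j + θ (i, j)⌋ :=
    fun ω hω i hi j => by
      rw [hB₁e] at hω
      exact hω.2 (i, j) (hιm i hi j)
  have hB₁P : (1 - 3 * n * (9 * Y / σ)) * Pe F.p B ≤ Pe F.p B₁ := by
    rw [hB₁e, ← hιc]
    exact hB₁
  obtain ⟨ctr, hctr⟩ : ∃ ctr : ℕ → F.Ω → V3, ctr = fun i ω j =>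
      ((⌊4 * Rs d k σ i * yt (ptr F J ω) j + θ (i, j)⌋ : ℝ) - θ (i, j)) / (4 * Rs d k σ i) :=
    ⟨_, rfl⟩
  have hcc : ∀ i < n, Cl2 (slam F (W₀ + d + i * k)) (fun ω => ptr F J ω) B₁ (ctr i) := by
    intro i hi
    refine ⟨⟨fun s j => ((⌊4 * Rs d k σ i * lin (d + i * k) s j + θ (i, j)⌋ : ℝ) - θ (i, j)) /
      (4 * Rs d k σ i), fun ω hω => ?_⟩, ⟨fun p j =>
        ((⌊4 * Rs d k σ i * yt p j + θ (i, j)⌋ : ℝ) - θ (i, j)) / (4 * Rs d k σ i),
        fun ω _ => by rw [hctr]⟩⟩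
    rw [hctr]
    funext j
    show ((⌊4 * Rs d k σ i * yt (ptr F J ω) j + θ (i, j)⌋ : ℝ) - θ (i, j)) / (4 * Rs d k σ i) =
      ((⌊4 * Rs d k σ i * lin (d + i * k) (slam F (W₀ + d + i * k) ω) j + θ (i, j)⌋ : ℝ) -
        θ (i, j)) / (4 * Rs d k σ i)
    rw [hB₁q ω hω i hi j, show W₀ + (d + i * k) = W₀ + d + i * k by ring]
  have hcy : ∀ i < n, ∀ ω, B₁ ω → ∀ j, |Rs d k σ i * (yt (ptr F J ω) j - ctr i ω j)| ≤ 1 / 4 := by
    intro i hi ω hω j
    have hR := Rs_pos (d := d) (k := k) hσ0 i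
    have h1 := fl_bd (4 * Rs d k σ i * yt (ptr F J ω) j) (θ (i, j))
    rw [hctr]
    show |Rs d k σ i * (yt (ptr F J ω) j -
      ((⌊4 * Rs d k σ i * yt (ptr F J ω) j + θ (i, j)⌋ : ℝ) - θ (i, j)) / (4 * Rs d k σ i))| ≤ _
    have h2 : Rs d k σ i * (yt (ptr F J ω) j -
        ((⌊4 * Rs d k σ i * yt (ptr F J ω) j + θ (i, j)⌋ : ℝ) - θ (i, j)) / (4 * Rs d k σ i)) =
        (4 * Rs d k σ i * yt (ptr F J ω) j -
          ((⌊4 * Rs d k σ i * yt (ptr F J ω) j + θ (i, j)⌋ : ℝ) - θ (i, j))) / 4 := by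
      field_simp
    rw [h2, abs_div, abs_of_pos (by norm_num : (0 : ℝ) < 4)]
    exact div_le_div_of_nonneg_right h1 (by norm_num)
  have hRvis : ∀ i < n, ∀ ω, B ω → ∀ j, Rs d k σ i * |yt (ptr F J ω) j - y ω j| ≤
      Y / (σ * 2 ^ k) := by
    intro i hi ω hω j
    have hR := Rs_pos (d := d) (k := k) hσ0 i
    calc Rs d k σ i * |yt (ptr F J ω) j - y ω j| ≤ Rs d k σ i * (Y / 2 ^ (d + n * k)) :=
          mul_le_mul_of_nonneg_left (I.vis ω hω j) hR.le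
      _ = Y * (Rs d k σ i * (1 / 2 ^ (d + n * k))) := by ring
      _ ≤ Y * (1 / (σ * 2 ^ k)) := mul_le_mul_of_nonneg_left (hRn i hi) (by linarith)
      _ = _ := by ring
  have hYσM : Y / (σ * 2 ^ k) ≤ 1 / 4 / 2 ^ k := by
    rw [← div_div]
    exact div_le_div_of_nonneg_right hYσ hM0.le
  -- the positions
  obtain ⟨θ', hθ', hB₂⟩ := rnd_all F.isLaw.nonneg B₁ ι
    (fun ij ω => 2 ^ k * (Rs d k σ ij.1 * (yt (ptr F J ω) ij.2 - ctr ij.1 ω ij.2)))
    (fun ij ω => 2 ^ k * (Rs d k σ ij.1 * (lin (d + ij.1 * k + k)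
      (slam F (W₀ + (d + ij.1 * k + k)) ω) ij.2 - ctr ij.1 ω ij.2)))
    (ε := 2 * Y / σ) (ε' := 9 * Y / σ)
    (div_lt_div_of_pos_right (by linarith) hσ0) (by
      rintro ⟨i, j⟩ hij ω hω
      have hi : i < n := by
        rw [hι] at hij
        exact mem_range.1 (Finset.mem_product.1 hij).1
      show |2 ^ k * (Rs d k σ i * (yt (ptr F J ω) j - ctr i ω j)) -
        2 ^ k * (Rs d k σ i * (lin (d + i * k + k) (slam F (W₀ + (d + i * k + k)) ω) j -
          ctr i ω j))| ≤ _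
      have hR := Rs_pos (d := d) (k := k) hσ0 i
      have e0 : 2 ^ k * (Rs d k σ i * (yt (ptr F J ω) j - ctr i ω j)) -
          2 ^ k * (Rs d k σ i * (lin (d + i * k + k) (slam F (W₀ + (d + i * k + k)) ω) j -
            ctr i ω j)) = 2 ^ k * (Rs d k σ i * (yt (ptr F J ω) j -
              lin (d + i * k + k) (slam F (W₀ + (d + i * k + k)) ω) j)) := by ring
      rw [e0, abs_mul, abs_of_pos hM0, abs_mul, abs_of_pos hR]
      have e1 := hRvis i hi ω (hB₁s ω hω) j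
      have e2 := hstart ω (hB₁s ω hω) j (d + i * k + k) (by have := hJi i hi; omega)
      have e3 : |yt (ptr F J ω) j - lin (d + i * k + k) (slam F (W₀ + (d + i * k + k)) ω) j| ≤
          |yt (ptr F J ω) j - y ω j| + Y / 2 ^ (d + i * k + k) :=
        (abs_sub_le _ (y ω j) _).trans (add_le_add le_rfl e2)
      have e5 : Rs d k σ i * (Y / 2 ^ (d + i * k + k)) = Y / (σ * 2 ^ k) := by
        have : Rs d k σ i * (Y / 2 ^ (d + i * k + k)) =
            Y * (Rs d k σ i * (1 / 2 ^ (d + i * k + k))) := by ring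
        rw [this, hRk i]
        ring
      calc 2 ^ k * (Rs d k σ i * |yt (ptr F J ω) j -
            lin (d + i * k + k) (slam F (W₀ + (d + i * k + k)) ω) j|) ≤
          2 ^ k * (Rs d k σ i * (|yt (ptr F J ω) j - y ω j| + Y / 2 ^ (d + i * k + k))) :=
            mul_le_mul_of_nonneg_left (mul_le_mul_of_nonneg_left e3 hR.le) hM0.le
        _ = 2 ^ k * (Rs d k σ i * |yt (ptr F J ω) j - y ω j| +
            Rs d k σ i * (Y / 2 ^ (d + i * k + k))) := by ring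
        _ ≤ 2 ^ k * (Y / (σ * 2 ^ k) + Y / (σ * 2 ^ k)) := by
            rw [e5]
            exact mul_le_mul_of_nonneg_left (by linarith) hM0.le
        _ = 2 * Y / σ := by
            field_simp
            ring)
  obtain ⟨B₂, hB₂e⟩ : ∃ B₂ : F.Ω → Prop, B₂ = fun ω => B₁ ω ∧ ∀ ij ∈ ι,
      ⌊2 ^ k * (Rs d k σ ij.1 * (yt (ptr F J ω) ij.2 - ctr ij.1 ω ij.2)) + θ' ij⌋ =
        ⌊2 ^ k * (Rs d k σ ij.1 * (lin (d + ij.1 * k + k)
          (slam F (W₀ + (d + ij.1 * k + k)) ω) ij.2 - ctr ij.1 ω ij.2)) + θ' ij⌋ := ⟨_, rfl⟩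
  have hB₂s : Sub B₂ B₁ := fun ω hω => by
    rw [hB₂e] at hω
    exact hω.1
  have hB₂q : ∀ ω, B₂ ω → ∀ i < n, ∀ j,
      ⌊2 ^ k * (Rs d k σ i * (yt (ptr F J ω) j - ctr i ω j)) + θ' (i, j)⌋ =
      ⌊2 ^ k * (Rs d k σ i * (lin (d + i * k + k) (slam F (W₀ + (d + i * k + k)) ω) j -
        ctr i ω j)) + θ' (i, j)⌋ := fun ω hω i hi j => by
    rw [hB₂e] at hω
    exact hω.2 (i, j) (hιm i hi j)
  have hB₂P : (1 - 3 * n * (9 * Y / σ)) * Pe F.p B₁ ≤ Pe F.p B₂ := by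
    rw [hB₂e, ← hιc]
    exact hB₂
  obtain ⟨xo, hxo⟩ : ∃ xo : ℕ → F.Ω → V3, xo = fun i ω j =>
      ((⌊2 ^ k * (Rs d k σ i * (yt (ptr F J ω) j - ctr i ω j)) + θ' (i, j)⌋ : ℝ) -
        θ' (i, j)) / 2 ^ k := ⟨_, rfl⟩
  have hshare : 3 * n * (9 * Y / σ) ≤ 1 / 4 := by
    rw [← mul_div_assoc, div_le_iff₀ hσ0]
    linarith
  have hcc₂ : ∀ i < n, Cl2 (slam F (W₀ + d + i * k)) (fun ω => ptr F J ω) B₂ (ctr i) :=
    fun i hi => (hcc i hi).sub hB₂s
  have hcx : ∀ i < n, Cl2 (slam F (W₀ + d + i * k + k)) (fun ω => ptr F J ω) B₂ (xo i) := by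
    intro i hi
    obtain ⟨⟨φ, hφ⟩, ψ, hψ⟩ := hcc₂ i hi
    refine ⟨⟨fun s j => ((⌊2 ^ k * (Rs d k σ i * (lin (d + i * k + k) s j - φ (crs k s) j)) +
      θ' (i, j)⌋ : ℝ) - θ' (i, j)) / 2 ^ k, fun ω hω => ?_⟩, ⟨fun p j =>
        ((⌊2 ^ k * (Rs d k σ i * (yt p j - ψ p j)) + θ' (i, j)⌋ : ℝ) - θ' (i, j)) / 2 ^ k,
        fun ω hω => ?_⟩⟩
    · rw [hxo]
      funext j
      show ((⌊2 ^ k * (Rs d k σ i * (yt (ptr F J ω) j - ctr i ω j)) + θ' (i, j)⌋ : ℝ) -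
        θ' (i, j)) / 2 ^ k = ((⌊2 ^ k * (Rs d k σ i * (lin (d + i * k + k)
          (slam F (W₀ + d + i * k + k) ω) j - φ (crs k (slam F (W₀ + d + i * k + k) ω)) j)) +
            θ' (i, j)⌋ : ℝ) - θ' (i, j)) / 2 ^ k
      rw [hB₂q ω hω i hi j, show W₀ + (d + i * k + k) = W₀ + d + i * k + k by ring,
        crs_slam F (by have := hJi i hi; omega) ω, ← hφ ω hω]
    · rw [hxo]
      funext j
      show ((⌊2 ^ k * (Rs d k σ i * (yt (ptr F J ω) j - ctr i ω j)) + θ' (i, j)⌋ : ℝ) -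
        θ' (i, j)) / 2 ^ k = ((⌊2 ^ k * (Rs d k σ i * (yt (ptr F J ω) j - ψ (ptr F J ω) j)) +
          θ' (i, j)⌋ : ℝ) - θ' (i, j)) / 2 ^ k
      rw [← hψ ω hω]
  have hqv : ∀ i < n, ∀ ω, B₂ ω → ∀ j,
      |Rs d k σ i * (yt (ptr F J ω) j - ctr i ω j) - Rs d k σ i * (y ω j - ctr i ω j)| ≤
        1 / 4 / 2 ^ k := by
    intro i hi ω hω j
    have hR := Rs_pos (d := d) (k := k) hσ0 i
    rw [← mul_sub, sub_sub_sub_cancel_right, abs_mul, abs_of_pos hR]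
    exact (hRvis i hi ω (hB₁s ω (hB₂s ω hω)) j).trans hYσM
  have h4M : (1 : ℝ) / 4 / 2 ^ k ≤ 1 / 4 := div_le_self (by norm_num) (by linarith)
  have hq1 : ∀ i < n, ∀ ω, B₂ ω → Bx (1 / 2) (Rs d k σ i • (y ω - ctr i ω)) := by
    intro i hi ω hω j
    have e1 := hqv i hi ω hω j
    have e2 := hcy i hi ω (hB₂s ω hω) j
    show |Rs d k σ i * (y ω j - ctr i ω j)| ≤ 1 / 2
    have k1 := abs_le.1 e1
    have k2 := abs_le.1 e2
    rw [abs_le]
    constructor <;> linarith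
  have hqx : ∀ i < n, ∀ ω, B₂ ω → Bx (2 / 2 ^ k) (xo i ω - Rs d k σ i • (y ω - ctr i ω)) := by
    intro i hi ω hω j
    have e1 := hqv i hi ω hω j
    have e2 := fl_bd (2 ^ k * (Rs d k σ i * (yt (ptr F J ω) j - ctr i ω j))) (θ' (i, j))
    rw [hxo]
    show |((⌊2 ^ k * (Rs d k σ i * (yt (ptr F J ω) j - ctr i ω j)) + θ' (i, j)⌋ : ℝ) -
        θ' (i, j)) / 2 ^ k - Rs d k σ i * (y ω j - ctr i ω j)| ≤ 2 / 2 ^ k
    have e3 : |Rs d k σ i * (yt (ptr F J ω) j - ctr i ω j) -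
        ((⌊2 ^ k * (Rs d k σ i * (yt (ptr F J ω) j - ctr i ω j)) + θ' (i, j)⌋ : ℝ) -
        θ' (i, j)) / 2 ^ k| ≤ 1 / 2 ^ k := by
      have e4 : Rs d k σ i * (yt (ptr F J ω) j - ctr i ω j) -
          ((⌊2 ^ k * (Rs d k σ i * (yt (ptr F J ω) j - ctr i ω j)) + θ' (i, j)⌋ : ℝ) -
          θ' (i, j)) / 2 ^ k = (2 ^ k * (Rs d k σ i * (yt (ptr F J ω) j - ctr i ω j)) -
          ((⌊2 ^ k * (Rs d k σ i * (yt (ptr F J ω) j - ctr i ω j)) + θ' (i, j)⌋ : ℝ) -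
          θ' (i, j))) / 2 ^ k := by
        field_simp
      rw [e4, abs_div, abs_of_pos hM0]
      exact div_le_div_of_nonneg_right e2 hM0.le
    have k1 := abs_le.1 e1
    have k2 := abs_le.1 e3
    have k3 : (2 : ℝ) / 2 ^ k = 2 * (1 / 2 ^ k) := by ring
    have k4 : (1 : ℝ) / 4 / 2 ^ k = 1 / 4 * (1 / 2 ^ k) := by ring
    have k5 : (0 : ℝ) < 1 / 2 ^ k := by positivity
    rw [abs_le, k3]
    rw [k4] at k1
    constructor <;> linarith
  -- the directions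
  obtain ⟨D₁, hD₁⟩ : ∃ D₁ : LnT F → V3, D₁ = fun s => rv k fun j =>
      (1 / σ) * (Polynomial.derivative (h (crs d s) j)).eval (st d s) := ⟨_, rfl⟩
  have hvel : ∀ ω, B ω → Bx (1 / 2) fun j => (1 / σ) *
      (Polynomial.derivative (h (slam F W₀ ω) j)).eval (st d (slam F (W₀ + d) ω)) := by
    intro ω hω j
    have e1 := I.vel ω hω j _ (st_mem d (slam F (W₀ + d) ω))
    rw [abs_mul, abs_of_pos (by positivity)]
    calc 1 / σ * _ ≤ 1 / σ * Y := mul_le_mul_of_nonneg_left e1 (by positivity)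
      _ = Y / σ := by ring
      _ ≤ 1 / 2 := by linarith
  have hdJ : W₀ + d ≤ J := by omega
  have hDe : ∀ ω, D₁ (slam F (W₀ + d) ω) = rv k fun j => (1 / σ) *
      (Polynomial.derivative (h (slam F W₀ ω) j)).eval (st d (slam F (W₀ + d) ω)) := by
    intro ω
    rw [hD₁]
    show rv k (fun j => (1 / σ) * (Polynomial.derivative (h (crs d (slam F (W₀ + d) ω)) j)).eval
      (st d (slam F (W₀ + d) ω))) = _
    rw [crs_slam F hdJ]
  have hdv : ∀ ω, B ω → ∀ j, |D₁ (slam F (W₀ + d) ω) j - (1 / σ) *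
      (Polynomial.derivative (h (slam F W₀ ω) j)).eval (st d (slam F (W₀ + d) ω))| ≤
        1 / 2 ^ k := by
    intro ω hω j
    rw [hDe]
    exact rv_near (hvel ω hω) j
  refine ⟨B₂, ctr, xo, D₁, fun ω hω => hB₁s ω (hB₂s ω hω), ?_, hcc₂, hcx, hq1, hqx, ?_, ?_, ?_, ?_⟩
  · have e1 : (3 / 4 : ℝ) * Pe F.p B ≤ Pe F.p B₁ := by
      refine le_trans (mul_le_mul_of_nonneg_right ?_ (hp B)) hB₁P
      linarith
    have e2 : (3 / 4 : ℝ) * Pe F.p B₁ ≤ Pe F.p B₂ := by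
      refine le_trans (mul_le_mul_of_nonneg_right ?_ (hp B₁)) hB₂P
      linarith
    linarith [hp B]
  · intro i hi ω hω
    have e1 : xo i ω = (xo i ω - Rs d k σ i • (y ω - ctr i ω)) +
        Rs d k σ i • (y ω - ctr i ω) := by abel
    rw [e1]
    refine bxm (bxa (hqx i hi ω hω) (hq1 i hi ω hω)) ?_
    have : (2 : ℝ) / 2 ^ k ≤ 1 / 2 := by
      rw [div_le_iff₀ hM0]
      linarith
    linarith
  · intro s
    rw [hD₁]
    exact rv_grd _ _
  · exact fun ω hω => hdv ω (hB₁s ω (hB₂s ω hω))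
  · intro i hi ω ω' hω hω' hs
    have hωB := hB₁s ω (hB₂s ω hω)
    have hω'B := hB₁s ω' (hB₂s ω' hω')
    have hJi' := hJi i hi
    have hW : slam F (W₀ + d) ω = slam F (W₀ + d) ω' :=
      slam_eq_of_le F (by omega) (by omega) hs
    have hW₀ : slam F W₀ ω = slam F W₀ ω' := slam_eq_of_le F (by omega) (by omega) hs
    have hcen : ctr i ω = ctr i ω' := by
      obtain ⟨⟨φ, hφ⟩, -⟩ := hcc₂ i hi
      rw [hφ ω hω, hφ ω' hω', hs]
    intro j
    obtain ⟨P, hP⟩ : ∃ P, P = h (slam F W₀ ω) j := ⟨_, rfl⟩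
    have hPd : P.natDegree ≤ K := by
      rw [hP]
      exact I.hd _ _
    have hy1 : y ω j = P.eval (rt F W₀ ω) := by rw [hP, I.yh ω hωB]
    have hy2 : y ω' j = P.eval (rt F W₀ ω') := by rw [hP, I.yh ω' hω'B, hW₀]
    obtain ⟨τ, hτ⟩ : ∃ τ, τ = st d (slam F (W₀ + d) ω) := ⟨_, rfl⟩
    have hvP : ∀ t ∈ Set.Icc (0 : ℝ) 1, |(Polynomial.derivative P).eval t| ≤ Y := by
      rw [hP]
      exact I.vel ω hωB j
    have hτm : τ ∈ Set.Icc (0 : ℝ) 1 := by
      rw [hτ]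
      exact st_mem _ _
    -- the second derivative
    have hv2 : ∀ t ∈ Set.Icc (0 : ℝ) 1,
        |(Polynomial.derivative (Polynomial.derivative P)).eval t| ≤ C * Y := by
      intro t ht
      exact (hu (Polynomial.derivative P) Y ((Polynomial.natDegree_derivative_le P).trans
        ((Nat.sub_le _ _).trans hPd)) hvP t (abs_le.2 ⟨by linarith [ht.1], by linarith [ht.2]⟩)).2
    -- the times in the window `W₀ + d`
    obtain ⟨ρ, hρ⟩ : ∃ ρ : ℝ, ρ = 1 / 2 ^ d := ⟨_, rfl⟩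
    have hρ0 : 0 < ρ := by rw [hρ]; positivity
    have htm : ∀ ν, slam F (W₀ + d) ν = slam F (W₀ + d) ω → rt F W₀ ν ∈ Set.Icc τ (τ + ρ) := by
      intro ν hν
      have h1 := rt_st F hdJ ν
      have h2 := rt_mem F (W₀ + d) ν
      rw [hν, ← hτ] at h1
      have h3 : rt F (W₀ + d) ν / 2 ^ d ≤ ρ := by
        rw [hρ]
        exact div_le_div_of_nonneg_right h2.2 (by positivity)
      have h4 : 0 ≤ rt F (W₀ + d) ν / 2 ^ d := div_nonneg h2.1 (by positivity)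
      rw [h1]
      exact ⟨by linarith, by linarith⟩
    have ht1 := htm ω rfl
    have ht2 := htm ω' hW.symm
    have hrt1 := rt_mem F W₀ ω
    have hrt2 := rt_mem F W₀ ω'
    -- the motion
    have hmo : |P.eval (rt F W₀ ω') - P.eval (rt F W₀ ω) -
        (Polynomial.derivative P).eval τ * (rt F W₀ ω' - rt F W₀ ω)| ≤
          C * Y * ρ * |rt F W₀ ω' - rt F W₀ ω| := by
      obtain ⟨g, hg⟩ : ∃ g : Polynomial ℝ, g = P -
          Polynomial.C ((Polynomial.derivative P).eval τ) * Polynomial.X := ⟨_, rfl⟩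
      have hgd : ∀ t ∈ Set.Icc τ (min (τ + ρ) 1), |(Polynomial.derivative g).eval t| ≤
          C * Y * ρ := by
        intro t ht
        have e1 : (Polynomial.derivative g).eval t = (Polynomial.derivative P).eval t -
            (Polynomial.derivative P).eval τ := by
          rw [hg, Polynomial.derivative_sub, Polynomial.derivative_C_mul,
            Polynomial.derivative_X, mul_one, Polynomial.eval_sub, Polynomial.eval_C]
        rw [e1]
        have e2 := pol_lip (Polynomial.derivative P) hv2 hτm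
          (show t ∈ Set.Icc (0 : ℝ) 1 from ⟨hτm.1.trans ht.1, ht.2.trans (min_le_right _ _)⟩)
        refine e2.trans (mul_le_mul_of_nonneg_left ?_ (by positivity))
        rw [abs_of_nonneg (by linarith [ht.1])]
        linarith [ht.2.trans (min_le_left (τ + ρ) (1 : ℝ))]
      have e3 := pol_lip g hgd (x := rt F W₀ ω) (y := rt F W₀ ω')
        ⟨ht1.1, le_min ht1.2 hrt1.2⟩ ⟨ht2.1, le_min ht2.2 hrt2.2⟩
      have e4 : g.eval (rt F W₀ ω') - g.eval (rt F W₀ ω) = P.eval (rt F W₀ ω') -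
          P.eval (rt F W₀ ω) -
          (Polynomial.derivative P).eval τ * (rt F W₀ ω' - rt F W₀ ω) := by
        rw [hg]
        simp only [Polynomial.eval_sub, Polynomial.eval_mul, Polynomial.eval_C, Polynomial.eval_X]
        ring
      rwa [e4] at e3
    -- the times
    have hs' : slam F (W₀ + (d + i * k)) ω = slam F (W₀ + (d + i * k)) ω' := by
      rw [show W₀ + (d + i * k) = W₀ + d + i * k by ring]
      exact hs
    have hti := rt_two F (W₀ := W₀) (d := d + i * k) (k := k) (by omega) hs'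
    rw [show W₀ + (d + i * k) = W₀ + d + i * k by ring] at hti
    obtain ⟨D, hD⟩ : ∃ D : ℝ, D = (Pool.STB82.dg F (W₀ + d + i * k) k ω' : ℝ) -
        Pool.STB82.dg F (W₀ + d + i * k) k ω := ⟨_, rfl⟩
    have hDb : |D| ≤ 2 ^ k := by
      have a1 : (0 : ℝ) ≤ Pool.STB82.dg F (W₀ + d + i * k) k ω := by
        exact_mod_cast dg_nonneg F (W₀ + d + i * k) k ω
      have a2 : (0 : ℝ) ≤ Pool.STB82.dg F (W₀ + d + i * k) k ω' := by
        exact_mod_cast dg_nonneg F (W₀ + d + i * k) k ω'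
      have a3 : (Pool.STB82.dg F (W₀ + d + i * k) k ω : ℝ) ≤ 2 ^ k := by
        exact_mod_cast (dg_lt F (W₀ + d + i * k) k ω).le
      have a4 : (Pool.STB82.dg F (W₀ + d + i * k) k ω' : ℝ) ≤ 2 ^ k := by
        exact_mod_cast (dg_lt F (W₀ + d + i * k) k ω').le
      rw [hD, abs_le]
      constructor <;> linarith
    rw [← hD] at hti
    have hR := Rs_pos (d := d) (k := k) hσ0 i
    obtain ⟨δ, hδ⟩ : ∃ δ : ℝ, δ = rt F W₀ ω' - rt F W₀ ω := ⟨_, rfl⟩
    rw [← hδ] at hti hmo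
    obtain ⟨v, hv⟩ : ∃ v : ℝ, v = (Polynomial.derivative P).eval τ := ⟨_, rfl⟩
    rw [← hv] at hmo
    have hvY : |v| ≤ Y := by
      rw [hv]
      exact hvP τ hτm
    have hDv : |D₁ (slam F (W₀ + d) ω) j - 1 / σ * v| ≤ 1 / 2 ^ k := by
      have := hdv ω hωB j
      rwa [← hP, ← hτ, ← hv] at this
    have hx1 := hqx i hi ω hω j
    have hx2 := hqx i hi ω' hω' j
    have e1 : (xo i ω' - xo i ω - (D / 2 ^ k) • D₁ (slam F (W₀ + d) ω)) j =
        (xo i ω' - Rs d k σ i • (y ω' - ctr i ω')) j -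
        (xo i ω - Rs d k σ i • (y ω - ctr i ω)) j +
        Rs d k σ i * (P.eval (rt F W₀ ω') - P.eval (rt F W₀ ω) - v * δ) +
        Rs d k σ i * v * (δ - D / 2 ^ (d + i * k + k)) -
        (D / 2 ^ k) * (D₁ (slam F (W₀ + d) ω) j - 1 / σ * v) := by
      simp only [Pi.sub_apply, Pi.smul_apply, smul_eq_mul]
      rw [hy1, hy2, hcen]
      have e2 : Rs d k σ i * v * (D / 2 ^ (d + i * k + k)) = (D / 2 ^ k) * (1 / σ * v) := by
        unfold Rs
        rw [pow_add 2 (d + i * k) k]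
        field_simp
      rw [mul_sub (Rs d k σ i * v), e2]
      ring
    rw [← hD]
    show |(xo i ω' - xo i ω - (D / 2 ^ k) • D₁ (slam F (W₀ + d) ω)) j| ≤ _
    rw [e1]
    have hδb : |δ| ≤ 1 / 2 ^ (d + i * k) := by
      have a1 := rt_st F (W₀ := W₀) (d := d + i * k) (by omega) ω
      have a2 := rt_st F (W₀ := W₀) (d := d + i * k) (by omega) ω'
      have a3 := rt_mem F (W₀ + (d + i * k)) ω
      have a4 := rt_mem F (W₀ + (d + i * k)) ω'
      have a5 : δ = (rt F (W₀ + (d + i * k)) ω' - rt F (W₀ + (d + i * k)) ω) /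
          2 ^ (d + i * k) := by
        rw [hδ, a1, a2, hs']
        ring
      rw [a5, abs_div, abs_of_pos (by positivity : (0 : ℝ) < 2 ^ (d + i * k))]
      refine div_le_div_of_nonneg_right ?_ (by positivity)
      rw [abs_le]
      constructor <;> linarith [a3.1, a3.2, a4.1, a4.2]
    have f1 : |Rs d k σ i * (P.eval (rt F W₀ ω') - P.eval (rt F W₀ ω) - v * δ)| ≤
        C * Y / 2 ^ k := by
      rw [abs_mul, abs_of_pos hR]
      have a1 : Rs d k σ i * |δ| ≤ 1 := by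
        calc Rs d k σ i * |δ| ≤ Rs d k σ i * (1 / 2 ^ (d + i * k)) :=
              mul_le_mul_of_nonneg_left hδb hR.le
          _ = 1 / σ := hRe i
          _ ≤ 1 := by
              rw [div_le_one hσ0]
              linarith
      have a2 : ρ ≤ 1 / 2 ^ k := by
        rw [hρ]
        exact one_div_le_one_div_of_le (by positivity) (pow_le_pow_right₀ (by norm_num) hkd)
      calc Rs d k σ i * |P.eval (rt F W₀ ω') - P.eval (rt F W₀ ω) - v * δ| ≤
          Rs d k σ i * (C * Y * ρ * |δ|) := mul_le_mul_of_nonneg_left hmo hR.le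
        _ = C * Y * ρ * (Rs d k σ i * |δ|) := by ring
        _ ≤ C * Y * (1 / 2 ^ k) * 1 := by
            refine mul_le_mul (mul_le_mul_of_nonneg_left a2 (by positivity)) a1 (by positivity)
              (by positivity)
        _ = _ := by ring
    have f2 : |Rs d k σ i * v * (δ - D / 2 ^ (d + i * k + k))| ≤ 1 / 2 ^ k := by
      rw [abs_mul, abs_mul, abs_of_pos hR]
      calc Rs d k σ i * |v| * |δ - D / 2 ^ (d + i * k + k)| ≤
          Rs d k σ i * Y * (1 / 2 ^ (d + i * k + k)) := by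
            refine mul_le_mul (mul_le_mul_of_nonneg_left hvY hR.le) hti (abs_nonneg _)
              (by positivity)
        _ = Y * (Rs d k σ i * (1 / 2 ^ (d + i * k + k))) := by ring
        _ = Y / σ * (1 / 2 ^ k) := by
            rw [hRk i]
            field_simp
        _ ≤ 1 * (1 / 2 ^ k) := mul_le_mul_of_nonneg_right (by linarith) (by positivity)
        _ = _ := one_mul _
    have f3 : |(D / 2 ^ k) * (D₁ (slam F (W₀ + d) ω) j - 1 / σ * v)| ≤ 1 / 2 ^ k := by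
      rw [abs_mul, abs_div, abs_of_pos hM0]
      have : |D| / 2 ^ k ≤ 1 := by
        rw [div_le_one hM0]
        exact hDb
      calc |D| / 2 ^ k * _ ≤ 1 * (1 / 2 ^ k) := mul_le_mul this hDv (abs_nonneg _) (by norm_num)
        _ = _ := one_mul _
    have k1 := abs_le.1 f1
    have k2 := abs_le.1 f2
    have k3 := abs_le.1 f3
    have k4 := abs_le.1 hx1
    have k5 := abs_le.1 hx2
    have k6 : (C * Y + 7) / 2 ^ k = C * Y / 2 ^ k + 7 * (1 / 2 ^ k) := by ring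
    have k7 : (2 : ℝ) / 2 ^ k = 2 * (1 / 2 ^ k) := by ring
    have k8 : (0 : ℝ) < 1 / 2 ^ k := by positivity
    rw [k7] at k4 k5
    rw [abs_le, k6]
    constructor <;> linarith

end Pool.STB65
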