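import Pool.Agent.H65.STB.Dwn
import Pool.Agent.H65.STB.Pos

/-!
# The truncated polynomial of a line is natural on its window

`InpF`: a chain of visible polynomials over balls, near closed ones, and the polynomial of a line
which is near the last one. `nat_ev`: on a large sub-event the truncation of the polynomial of
the line is bounded on the window and near all the polynomials of the chain.
-/

set_option autoImplicit false

namespace Pool.STB65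

open Finset Real MvPolynomial
open Pool.Agent.H49.Ent Pool.Agent.H32.Dense Pool.STK Pool.KA Pool.KSAT Pool.K2S Pool.PB Pool.S6C
open Pool.GEN Pool.D2Con Pool.D2A Pool.RCD
open Pool.STB (V3 Po Bx Hb hom_smul)
open Pool.PB.Trl (rt rt_mem t_rt)
open Pool.FLF (Fam.sub)
open Pool.NFT33 (rem_evs)

variable {m J : ℕ}

/-- **The polynomials** of the target: `f j` over the balls of radius `W₀ + e j`, `kf` over the
line. -/
structure InpF (F : Fam m J) (B : F.Ω → Prop) (W₀ N K b : ℕ) (Y : ℝ) (y : F.Ω → V3) (e : ℕ → ℕ)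
    (f : ℕ → PtT F → Po) (f' : ℕ → LnT F → Po) (kf : LnT F → Po) : Prop where
  fd : ∀ j p, (f j p).totalDegree ≤ K
  kd : ∀ s, (kf s).totalDegree ≤ K
  em : ∀ j < N, e j ≤ e (j + 1) ∧ (2 : ℝ) ^ e (j + 1) ≤ Y * 2 ^ e j
  f0 : ∀ ω, B ω → ∀ r, Bx 1 r → |eval (y ω + r) (f 0 (ptr F J ω))| ≤ Y
  ch : ∀ ω, B ω → ∀ j < N, ∀ r, Bx (1 / 2 ^ e (j + 1)) r →
    |eval (y ω + r) (f (j + 1) (ptr F J ω)) - eval (y ω + r) (f j (ptr F J ω))| ≤
      Y * (1 / 2 ^ e j) ^ b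
  nr : ∀ ω, B ω → ∀ r, Bx (1 / 2 ^ e N) r →
    |eval (y ω + r) (kf (slam F W₀ ω)) - eval (y ω + r) (f N (ptr F J ω))| ≤
      Y * (1 / 2 ^ e N) ^ b
  fd' : ∀ j s, (f' j s).totalDegree ≤ K
  agr : ∀ j ≤ N, ∀ ω, B ω → ∀ r, Bx (1 / 2 ^ e j) r →
    |eval (y ω + r) (f j (ptr F J ω)) - eval (y ω + r) (f' j (slam F (W₀ + e j) ω))| ≤
      Y * (1 / 2 ^ e j) ^ b

theorem InpF.sub {F : Fam m J} {B B' : F.Ω → Prop} {W₀ N K b : ℕ} {Y : ℝ} {y : F.Ω → V3}
    {e : ℕ → ℕ} {f : ℕ → PtT F → Po} {f' : ℕ → LnT F → Po} {kf : LnT F → Po}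
    (h : InpF F B W₀ N K b Y y e f f' kf) (hB : Sub B' B) : InpF F B' W₀ N K b Y y e f f' kf :=
  ⟨h.fd, h.kd, h.em, fun ω hω => h.f0 ω (hB ω hω), fun ω hω => h.ch ω (hB ω hω),
    fun ω hω => h.nr ω (hB ω hω), h.fd', fun j hj ω hω => h.agr j hj ω (hB ω hω)⟩

theorem InpP.sub {F : Fam m J} {B B' : F.Ω → Prop} {W₀ d k n K : ℕ} {Y : ℝ} {y : F.Ω → V3}
    {yt : PtT F → V3} {h : LnT F → Fin 3 → Polynomial ℝ} (hp : InpP F B W₀ d k n K Y y yt h)
    (hB : Sub B' B) : InpP F B' W₀ d k n K Y y yt h :=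
  ⟨hp.hd, fun ω hω => hp.yh ω (hB ω hω), fun ω hω => hp.vel ω (hB ω hω),
    fun ω hω => hp.vis ω (hB ω hω)⟩

/-- A polynomial along the time. -/
noncomputable def tml (P : Po) (η : V3) : Polynomial ℝ :=
  aeval (fun i : Fin 3 => if i = 0 then Polynomial.X else Polynomial.C (η i)) P

theorem eval_tml (P : Po) (η : V3) (τ : ℝ) :
    (tml P η).eval τ = eval (fun i => if i = 0 then τ else η i) P := by
  unfold tml
  rw [Pool.KBX.eval_aeval_poly]
  congr 1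
  congr 1
  funext i
  split_ifs with h
  · rw [Polynomial.eval_X]
  · rw [Polynomial.eval_C]

theorem deg_tml {P : Po} {K : ℕ} (h : P.totalDegree ≤ K) (η : V3) : (tml P η).natDegree ≤ K := by
  unfold tml
  refine Pool.KBX.natDegree_aeval_le P _ (fun i => ?_) h
  split_ifs
  · exact Polynomial.natDegree_X_le
  · rw [Polynomial.natDegree_C]
    exact Nat.zero_le _

/-- The point with the coordinate `0` replaced. -/
theorem pt_zero (η : V3) : (fun i : Fin 3 => if i = 0 then η 0 else η i) = η := by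
  funext i
  split_ifs with h
  · rw [h]
  · rfl

theorem mul_pow_le {Y c : ℝ} (hY : 0 ≤ Y) (hc : c ≤ Y) (a : ℕ) : c * Y ^ a ≤ Y ^ (a + 1) := by
  rw [pow_succ, mul_comm]
  exact mul_le_mul_of_nonneg_left hc (by positivity)

/-- **The truncation is natural.** -/
theorem nat_evE (m K b : ℕ) (hK : 1 ≤ K) (hbK : b ≤ K) : ∃ E : ℕ, ∀ N : ℕ, ∃ C : ℝ, 1 ≤ C ∧
    ∀ {J : ℕ} (F : Fam m J) (B : F.Ω → Prop) (hB : 0 < Pe F.p B) (W₀ : ℕ) (Y θ : ℝ)
      (y : F.Ω → V3) (h : LnT F → Fin 3 → Polynomial ℝ) (e : ℕ → ℕ) (f : ℕ → PtT F → Po)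
      (f' : ℕ → LnT F → Po) (kf : LnT F → Po),
      InpF F B W₀ N K b Y y e f f' kf → (∀ s j, (h s j).natDegree ≤ K) →
      (∀ s, h s 0 = Polynomial.X) →
      (∀ ω, B ω → ∀ j, y ω j = (h (slam F W₀ ω) j).eval (rt F W₀ ω)) →
      (∀ ω, B ω → ∀ j, ∀ τ ∈ Set.Icc (0 : ℝ) 1,
        |(Polynomial.derivative (h (slam F W₀ ω) j)).eval τ| ≤ Y) →
      W₀ ≤ J → C ≤ Y → 0 ≤ θ → (Fam.sub F B hB).Tm θ →
      C * (θ + 1) ≤ ((J : ℝ) - W₀) * Real.log 2 → Real.exp (C * (θ + 1)) ≤ Y →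
      ∃ B' : F.Ω → Prop, Sub B' B ∧ Pe F.p B / 2 ≤ Pe F.p B' ∧ ∀ ω, B' ω →
        (∀ τ ∈ Set.Icc (0 : ℝ) 1, ∀ s, Bx 1 s → |eval (lp (h (slam F W₀ ω)) τ + s)
          (ka (K * K) b (h (slam F W₀ ω)) (kf (slam F W₀ ω)))| ≤ Y ^ E) ∧
        ∀ j ≤ N, ∀ r, Bx (1 / 2 ^ e j) r → |eval (y ω + r)
          (ka (K * K) b (h (slam F W₀ ω)) (kf (slam F W₀ ω))) -
            eval (y ω + r) (f j (ptr F J ω))| ≤ Y ^ E * (1 / 2 ^ e j) ^ b := by
  classical
  obtain ⟨K', hK'⟩ : ∃ K', K' = K * K := ⟨_, rfl⟩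
  obtain ⟨K₂, hK₂⟩ : ∃ K₂, K₂ = K * (K * K) := ⟨_, rfl⟩
  have hKK' : K ≤ K' := by rw [hK']; nlinarith
  have hKK₂ : K ≤ K₂ := by rw [hK₂]; nlinarith [Nat.mul_le_mul hK hK]
  obtain ⟨C₁, hC₁, hrem⟩ := rem_evs m K'
  obtain ⟨C₂, hC₂, huni⟩ := uni_der K
  obtain ⟨C₄, hC₄, hnat⟩ := nat_one K' b (hbK.trans hKK')
  obtain ⟨C₅, hC₅, hgr⟩ := grow_at K'
  obtain ⟨E₁, hE₁⟩ : ∃ E₁, E₁ = (b + 6 + 3 * K') + ((b + 2) * (K' + 1) + 1) := ⟨_, rfl⟩
  refine ⟨E₁ + (b + 1), fun N => ?_⟩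
  obtain ⟨C₃, hC₃, hchain⟩ := chain_hc K b N
  obtain ⟨C₆, hC₆, hdown⟩ := down K₂ b N
  obtain ⟨C, hC⟩ : ∃ C : ℝ, C = C₁ + C₂ + C₃ + C₄ + C₅ + C₆ + (b + 1) + 2 := ⟨_, rfl⟩
  have hb0 : (0 : ℝ) ≤ b := Nat.cast_nonneg b
  refine ⟨C, by rw [hC]; linarith, ?_⟩
  intro J F B hB W₀ Y θ y h e f f' kf hin hd h0 hy hv hW hCY hθ hTm hJ hexp
  have y1 : C₁ ≤ Y := by linarith
  have y2 : C₂ ≤ Y := by linarith
  have y3 : C₃ ≤ Y := by linarith
  have y4 : C₄ ≤ Y := by linarith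
  have y5 : C₅ ≤ Y := by linarith
  have y6 : C₆ ≤ Y := by linarith
  have y7 : (b : ℝ) + 1 ≤ Y := by linarith
  have hY1 : 1 ≤ Y := by linarith
  have hY9 : 9 ≤ Y := by linarith
  have hY0 : 0 ≤ Y := by linarith
  have pY : ∀ {a c : ℕ}, a ≤ c → Y ^ a ≤ Y ^ c := fun h => pow_le_pow_right₀ hY1 h
  have hpY : ∀ a : ℕ, 1 ≤ Y ^ a := fun a => one_le_pow₀ hY1
  have hε : ∀ j : ℕ, (0 : ℝ) < 1 / 2 ^ e j ∧ (1 : ℝ) / 2 ^ e j ≤ 1 := by
    intro j
    refine ⟨by positivity, ?_⟩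
    rw [div_le_one (by positivity)]
    exact one_le_pow₀ (by norm_num)
  have hΘ : ∀ j < N, (1 : ℝ) / 2 ^ e (j + 1) ≤ 1 / 2 ^ e j ∧
      (1 : ℝ) / 2 ^ e j ≤ Y * (1 / 2 ^ e (j + 1)) := by
    intro j hj
    obtain ⟨e1, e2⟩ := hin.em j hj
    refine ⟨one_div_le_one_div_of_le (by positivity) (pow_le_pow_right₀ (by norm_num) e1), ?_⟩
    rw [mul_one_div, div_le_div_iff₀ (by positivity) (by positivity), one_mul]
    exact e2
  -- the heights
  have hder : ∀ ω, B ω → ∀ j t, |t| ≤ 2 →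
      |(Polynomial.derivative (h (slam F W₀ ω) j)).eval t| ≤ Y ^ 2 := by
    intro ω hω j t ht
    have h1 := (huni (Polynomial.derivative (h (slam F W₀ ω) j)) Y
      ((Polynomial.natDegree_derivative_le _).trans ((Nat.sub_le _ _).trans (hd _ _)))
      (hv ω hω j) t ht).1
    refine h1.trans ?_
    rw [sq]
    exact mul_le_mul_of_nonneg_right y2 hY0
  have hash : ∀ ω, B ω → ∀ τ ∈ Set.Icc (0 : ℝ) 1, ∀ j x, |x| ≤ 1 →
      |ash (h (slam F W₀ ω)) τ j x| ≤ Y ^ 2 * |x| := by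
    intro ω hω τ hτ j x hx
    have hx' := abs_le.1 hx
    have h1 := pol_lip (h (slam F W₀ ω) j) (a := -1) (b := 2) (M := Y ^ 2) (fun t ht =>
      hder ω hω j t (by
        rw [abs_le]
        constructor <;> linarith [ht.1, ht.2])) (x := τ) (y := τ + x)
      ⟨by linarith [hτ.1], by linarith [hτ.2]⟩ ⟨by linarith [hτ.1], by linarith [hτ.2]⟩
    rw [add_sub_cancel_left] at h1
    exact h1
  have hylp : ∀ ω, B ω → y ω = lp (h (slam F W₀ ω)) (rt F W₀ ω) := fun ω hω =>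
    funext fun j => hy ω hω j
  -- the samples
  obtain ⟨U, hU⟩ : ∃ U : ℝ, U = Y ^ (b + 2) := ⟨_, rfl⟩
  have hU1 : 1 ≤ U := by rw [hU]; exact hpY _
  have hsam : ∀ ω, B ω →
      (∀ n ≤ b, ∀ η : V3, (∀ i, i ≠ 0 → |η i| ≤ 1) → η 0 = rt F W₀ ω →
        |eval η (thc K' n (shp (h (slam F W₀ ω)) (kf (slam F W₀ ω))))| ≤ C₄ * U) ∧
      ∀ r, Bx (1 / 2 ^ e N) r → |eval (y ω + r) (kf (slam F W₀ ω)) - eval (y ω + r)
        (ka K' b (h (slam F W₀ ω)) (kf (slam F W₀ ω)))| ≤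
          C₄ * U ^ (K' + 1) * (1 / 2 ^ e N) ^ b := by
    intro ω hω
    obtain ⟨hs, hhs⟩ : ∃ hs, hs = h (slam F W₀ ω) := ⟨_, rfl⟩
    obtain ⟨k, hk⟩ : ∃ k, k = kf (slam F W₀ ω) := ⟨_, rfl⟩
    have hyω := hylp ω hω
    have haω := hash ω hω (rt F W₀ ω) (rt_mem F W₀ ω)
    have hnr := hin.nr ω hω
    have hs0 : hs 0 = Polynomial.X := by rw [hhs]; exact h0 _
    rw [← hhs] at hyω haω ⊢
    rw [← hk] at hnr ⊢
    have hkd : k.totalDegree ≤ K := by rw [hk]; exact hin.kd _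
    have hQd : (shp hs k).totalDegree ≤ K' := by
      rw [hK']
      exact deg_shp hK (fun i => by rw [hhs]; exact hd _ i) hkd
    have hcomp := hchain (fun j => trs (y ω) (f j (ptr F J ω))) (fun j => 1 / 2 ^ e j) Y Y
      (fun j _ => (deg_trs _ _).trans (hin.fd j _)) (fun j _ => hε j) hY1 hY1 hΘ
      (fun q hq => by
        rw [eval_trs, add_comm]
        exact hin.f0 ω hω q hq)
      (fun j hj q hq => by
        rw [eval_trs, eval_trs, add_comm]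
        exact hin.ch ω hω j hj q hq)
    obtain ⟨r1, r2⟩ := hnat (shp hs k) (trs (y ω) k) (trs (y ω) (f N (ptr F J ω))) (rt F W₀ ω)
      (1 / 2 ^ e N) U (ash hs (rt F W₀ ω) 1) (ash hs (rt F W₀ ω) 2) hQd
      ((deg_trs _ _).trans (hkd.trans hKK')) ((deg_trs _ _).trans ((hin.fd N _).trans hKK'))
      (hε N).1 (hε N).2 hU1 (ash_zero _ _ _) (ash_zero _ _ _)
      (fun x hx => by
        have h3 : ∀ j, |ash hs (rt F W₀ ω) j x| ≤ U * (1 / 2 ^ e N) := by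
          intro j
          refine (haω j x (hx.trans (hε N).2)).trans ?_
          refine mul_le_mul ?_ hx (abs_nonneg _) (by linarith)
          rw [hU]
          exact pY (by omega)
        exact ⟨h3 1, h3 2⟩)
      (fun r => by
        rw [eval_trs, add_comm, hyω]
        exact frame_k hs0 k _ r)
      (fun r hr => by
        rw [eval_trs, eval_trs, add_comm]
        refine (hnr r hr).trans (mul_le_mul_of_nonneg_right ?_ (by positivity))
        rw [hU]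
        calc Y = Y ^ 1 := (pow_one Y).symm
          _ ≤ _ := pY (by omega))
      (fun n r hr => by
        refine (hcomp n r hr).trans (mul_le_mul_of_nonneg_right ?_ (by positivity))
        rw [hU]
        calc C₃ * Y * Y ^ b = C₃ * Y ^ (b + 1) := by rw [pow_succ]; ring
          _ ≤ _ := mul_pow_le hY0 y3 (b + 1))
    refine ⟨r1, fun r hr => ?_⟩
    have h3 := r2 r hr
    rw [eval_trs, add_comm] at h3
    rw [hyω, frame_ka hs0, ← hyω]
    exact h3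
  -- all times
  obtain ⟨ι, hι⟩ : ∃ ι : Type, ι = {p : ℕ × V3 // p.1 ≤ b ∧ ∀ i, i ≠ 0 → |p.2 i| ≤ 1} := ⟨_, rfl⟩
  subst hι
  have hU4 : 0 < C₄ * U := by positivity
  obtain ⟨B', hB', hP', hall⟩ := hrem F B hB W₀
    (ι := {p : ℕ × V3 // p.1 ≤ b ∧ ∀ i, i ≠ 0 → |p.2 i| ≤ 1})
    (fun s a => tml (thc K' a.1.1 (shp (h s) (kf s))) a.1.2) (fun _ => C₄ * U) θ hW
    (fun s a => deg_tml (deg_thc K' _ (by
      rw [hK']
      exact deg_shp hK (fun i => hd s i) (hin.kd s))) _) (fun _ => hU4) hθ hTm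
    (by
      have : C₁ * (θ + 1) ≤ C * (θ + 1) := by
        refine mul_le_mul_of_nonneg_right ?_ (by linarith)
        rw [hC]
        linarith
      linarith)
    (fun ω hω a => by
      rw [eval_tml]
      refine (hsam ω hω).1 a.1.1 a.2.1 _ (fun i hi => ?_) ?_
      · rw [if_neg hi]
        exact a.2.2 i hi
      · exact if_pos rfl)
  refine ⟨B', hB', hP', fun ω hω => ?_⟩
  have hωB := hB' ω hω
  obtain ⟨hs, hhs⟩ : ∃ hs, hs = h (slam F W₀ ω) := ⟨_, rfl⟩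
  obtain ⟨k, hk⟩ : ∃ k, k = kf (slam F W₀ ω) := ⟨_, rfl⟩
  obtain ⟨s1, s2⟩ := hsam ω hωB
  have hyω := hylp ω hωB
  have haω := hash ω hωB
  have hs0 : hs 0 = Polynomial.X := by rw [hhs]; exact h0 _
  have hkd : k.totalDegree ≤ K := by rw [hk]; exact hin.kd _
  have hQd : (shp hs k).totalDegree ≤ K' := by
    rw [hK']
    exact deg_shp hK (fun i => by rw [hhs]; exact hd _ i) hkd
  have hthc : ∀ n ≤ b, ∀ η : V3, (∀ i, i ≠ 0 → |η i| ≤ 1) → η 0 ∈ Set.Icc (0 : ℝ) 1 →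
      |eval η (thc K' n (shp hs k))| ≤ Y ^ (b + 4) := by
    intro n hn η hη hη0
    have h1 := hall ω hω ⟨(n, η), hn, hη⟩ (η 0) hη0
    rw [eval_tml, pt_zero, ← hhs, ← hk] at h1
    refine h1.trans ?_
    have h2 : Real.exp (C₁ * (θ + 1)) ≤ Y := by
      refine le_trans (Real.exp_le_exp.2 ?_) hexp
      refine mul_le_mul_of_nonneg_right ?_ (by linarith)
      rw [hC]
      linarith
    calc Real.exp (C₁ * (θ + 1)) * (C₄ * U) ≤ Y * Y ^ (b + 3) := by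
          refine mul_le_mul h2 ?_ hU4.le hY0
          rw [hU]
          exact mul_pow_le hY0 y4 (b + 2)
      _ = _ := by rw [← pow_succ']
  rw [← hhs, ← hk, ← hK']
  rw [← hhs] at hyω haω
  rw [← hhs, ← hk] at s2
  have htrl : ∀ η : V3, Bx (1 / 2) (η - fun i => if i = 0 then 1 / 2 else 0) →
      |eval η (trl K' b (shp hs k))| ≤ Y ^ (b + 5) := by
    intro η hη
    have h1 := abs_le.1 (hη 0)
    rw [Pi.sub_apply, if_pos rfl] at h1
    rw [eval_trl]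
    refine (Finset.abs_sum_le_sum_abs _ _).trans ?_
    have h2 : ∀ n ∈ range (b + 1), |eval η (thc K' n (shp hs k))| ≤ Y ^ (b + 4) := by
      intro n hn
      refine hthc n (Nat.lt_succ_iff.1 (mem_range.1 hn)) η (fun i hi => ?_)
        ⟨by linarith [h1.1], by linarith [h1.2]⟩
      have h3 := hη i
      rw [Pi.sub_apply, if_neg hi, sub_zero] at h3
      linarith
    refine (Finset.sum_le_sum h2).trans ?_
    rw [Finset.sum_const, card_range, nsmul_eq_mul]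
    push_cast
    exact mul_pow_le hY0 y7 (b + 4)
  have hnatB : ∀ τ ∈ Set.Icc (0 : ℝ) 1, ∀ s, Bx 1 s →
      |eval (lp hs τ + s) (ka K' b hs k)| ≤ Y ^ (b + 6 + 3 * K') := by
    intro τ hτ s hs1
    rw [frame_ka hs0]
    have h1 := hgr (trl K' b (shp hs k)) 0 (fun i => if i = 0 then 1 / 2 else 0) (Y ^ (b + 5))
      (1 / 2) (1 + Y ^ 2) (deg_trl K' b hQd) (by rw [totalDegree_zero]; exact Nat.zero_le _)
      (by norm_num) (by nlinarith) (fun q hq => by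
        rw [map_zero, sub_zero]
        exact htrl q hq) (psi τ (ash hs τ 1) (ash hs τ 2) s) (fun i => by
        have a0 := abs_le.1 (hs1 0)
        have b0 := hτ.1
        have b1 := hτ.2
        have hsi : ∀ i, |ash hs τ i (s 0)| ≤ Y ^ 2 := fun i =>
          (haω τ hτ i (s 0) (hs1 0)).trans (mul_le_of_le_one_right (by positivity) (hs1 0))
        have hY4 : 4 ≤ Y ^ 2 := by nlinarith
        rw [Pi.sub_apply]
        fin_cases i
        · simp only [psi, Fin.zero_eta, Fin.isValue, ite_true]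
          rw [abs_le]
          constructor <;> linarith [a0.1, a0.2]
        · have h3 := hsi 1
          have h4 := hs1 1
          simp only [psi, Fin.mk_one, Fin.isValue, one_ne_zero, ite_false, ite_true, sub_zero]
          refine (abs_sub _ _).trans ?_
          linarith
        · have h3 := hsi 2
          have h4 := hs1 2
          simp only [psi, Fin.reduceFinMk, Fin.isValue, Fin.reduceEq, ite_false, sub_zero]
          refine (abs_sub _ _).trans ?_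
          linarith)
    rw [map_zero, sub_zero] at h1
    refine h1.trans ?_
    have h2 : (1 + Y ^ 2) / (1 / 2) ≤ Y ^ 3 := by
      have h4 : (1 : ℝ) ≤ Y ^ 2 := hpY 2
      have h5 : Y ^ 3 = Y ^ 2 * Y := by ring
      rw [h5]
      nlinarith
    calc C₅ * Y ^ (b + 5) * ((1 + Y ^ 2) / (1 / 2)) ^ K' ≤ Y ^ (b + 6) * (Y ^ 3) ^ K' :=
          mul_le_mul (mul_pow_le hY0 y5 (b + 5)) (pow_le_pow_left₀ (by positivity) h2 _)
            (by positivity) (by positivity)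
      _ = _ := by rw [← pow_mul, ← pow_add]
  refine ⟨fun τ hτ s hs1 => (hnatB τ hτ s hs1).trans (pY (by omega)), ?_⟩
  -- down the chain
  have hT1 : ∀ q, Bx 1 q → |eval q (trs (y ω) (ka K' b hs k))| ≤ Y ^ E₁ := by
    intro q hq
    rw [eval_trs, add_comm, hyω]
    exact (hnatB _ (rt_mem F W₀ ω) q hq).trans (pY (by omega))
  have hlast : ∀ q, Bx (1 / 2 ^ e N) q → |eval q (trs (y ω) (ka K' b hs k)) -
      eval q (trs (y ω) (f N (ptr F J ω)))| ≤ Y ^ E₁ * (1 / 2 ^ e N) ^ b := by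
    intro q hq
    rw [eval_trs, eval_trs, add_comm q]
    have h1 := s2 q hq
    have h2 := hin.nr ω hωB q hq
    rw [← hk] at h2
    have e1 : eval (y ω + q) (ka K' b hs k) - eval (y ω + q) (f N (ptr F J ω)) =
        (eval (y ω + q) k - eval (y ω + q) (f N (ptr F J ω))) -
        (eval (y ω + q) k - eval (y ω + q) (ka K' b hs k)) := by ring
    rw [e1]
    refine (abs_sub _ _).trans ((add_le_add h2 h1).trans ?_)
    rw [← add_mul]
    refine mul_le_mul_of_nonneg_right ?_ (by positivity)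
    have h3 : C₄ * U ^ (K' + 1) ≤ Y ^ ((b + 2) * (K' + 1) + 1) := by
      rw [hU, ← pow_mul]
      exact mul_pow_le hY0 y4 _
    have h4 : Y ^ ((b + 2) * (K' + 1) + 1 + 1) ≤ Y ^ E₁ := pY (by omega)
    have h5 : Y ≤ Y ^ ((b + 2) * (K' + 1) + 1) := by
      calc Y = Y ^ 1 := (pow_one Y).symm
        _ ≤ _ := pY (by omega)
    have h6 : Y ^ ((b + 2) * (K' + 1) + 1 + 1) = Y * Y ^ ((b + 2) * (K' + 1) + 1) := pow_succ' _ _
    have h7 := hpY ((b + 2) * (K' + 1) + 1)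
    have h8 : 2 * Y ^ ((b + 2) * (K' + 1) + 1) ≤ Y * Y ^ ((b + 2) * (K' + 1) + 1) :=
      mul_le_mul_of_nonneg_right (by linarith) (by linarith)
    linarith
  intro j hj r hr
  have h1 := hdown (fun j => trs (y ω) (f j (ptr F J ω))) (trs (y ω) (ka K' b hs k))
    (fun j => 1 / 2 ^ e j) (Y ^ E₁) Y ((deg_trs _ _).trans (by
      rw [hK₂]
      exact deg_ka hK (fun i => by rw [hhs]; exact hd _ i) hkd))
    (fun j _ => (deg_trs _ _).trans ((hin.fd j _).trans hKK₂)) (fun j _ => hε j) (hpY _) hY1 hΘ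
    (fun q hq => by
      rw [eval_trs, add_comm]
      refine (hin.f0 ω hωB q hq).trans ?_
      calc Y = Y ^ 1 := (pow_one Y).symm
        _ ≤ _ := pY (by omega))
    (fun j hj q hq => by
      rw [eval_trs, eval_trs, add_comm]
      refine (hin.ch ω hωB j hj q hq).trans (mul_le_mul_of_nonneg_right ?_ (by positivity))
      calc Y = Y ^ 1 := (pow_one Y).symm
        _ ≤ _ := pY (by omega)) hT1 hlast j hj r hr
  rw [eval_trs, eval_trs, add_comm r] at h1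
  refine h1.trans (mul_le_mul_of_nonneg_right ?_ (by positivity))
  calc C₆ * Y ^ E₁ * Y ^ b ≤ Y ^ (E₁ + 1) * Y ^ b :=
        mul_le_mul_of_nonneg_right (mul_pow_le hY0 y6 E₁) (by positivity)
    _ = _ := by rw [← pow_add]; congr 1; ring

/-- The same, with the exponent after the number of the balls. -/
theorem nat_ev (m K b N : ℕ) (hK : 1 ≤ K) (hbK : b ≤ K) : ∃ (C : ℝ) (E : ℕ), 1 ≤ C ∧
    ∀ {J : ℕ} (F : Fam m J) (B : F.Ω → Prop) (hB : 0 < Pe F.p B) (W₀ : ℕ) (Y θ : ℝ)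
      (y : F.Ω → V3) (h : LnT F → Fin 3 → Polynomial ℝ) (e : ℕ → ℕ) (f : ℕ → PtT F → Po)
      (f' : ℕ → LnT F → Po) (kf : LnT F → Po),
      InpF F B W₀ N K b Y y e f f' kf → (∀ s j, (h s j).natDegree ≤ K) →
      (∀ s, h s 0 = Polynomial.X) →
      (∀ ω, B ω → ∀ j, y ω j = (h (slam F W₀ ω) j).eval (rt F W₀ ω)) →
      (∀ ω, B ω → ∀ j, ∀ τ ∈ Set.Icc (0 : ℝ) 1,
        |(Polynomial.derivative (h (slam F W₀ ω) j)).eval τ| ≤ Y) →
      W₀ ≤ J → C ≤ Y → 0 ≤ θ → (Fam.sub F B hB).Tm θ →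
      C * (θ + 1) ≤ ((J : ℝ) - W₀) * Real.log 2 → Real.exp (C * (θ + 1)) ≤ Y →
      ∃ B' : F.Ω → Prop, Sub B' B ∧ Pe F.p B / 2 ≤ Pe F.p B' ∧ ∀ ω, B' ω →
        (∀ τ ∈ Set.Icc (0 : ℝ) 1, ∀ s, Bx 1 s → |eval (lp (h (slam F W₀ ω)) τ + s)
          (ka (K * K) b (h (slam F W₀ ω)) (kf (slam F W₀ ω)))| ≤ Y ^ E) ∧
        ∀ j ≤ N, ∀ r, Bx (1 / 2 ^ e j) r → |eval (y ω + r)
          (ka (K * K) b (h (slam F W₀ ω)) (kf (slam F W₀ ω))) -
            eval (y ω + r) (f j (ptr F J ω))| ≤ Y ^ E * (1 / 2 ^ e j) ^ b := by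
  obtain ⟨E, h⟩ := nat_evE m K b hK hbK
  obtain ⟨C, h1, h2⟩ := h N
  exact ⟨C, E, h1, h2⟩

end Pool.STB65
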