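import Pool.Agent.H82.STB.Ibx

/-!
# The natural boxes of the balls contain the small boxes, with a constant independent of the list

`cl_lip0`, `vdlz`: as `cl_lip`, `vdil`, with the length of the list at most the allowance.
-/

set_option autoImplicit false

namespace Pool.STB65

open Finset Real MvPolynomial
open Pool.Agent.H49.Ent Pool.Agent.H32.Dense Pool.STK Pool.KA Pool.KSAT Pool.K2S Pool.PB Pool.S6C
open Pool.GEN Pool.CHT Pool.NVX
open Pool.STB (V3 Po Bx)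
open Pool.STB77 (Inc vpl vpt vnr ypt vnr_none vnr_zero vnr_one)
open Pool.STB82 (cl_lipz)

variable {m J : ℕ}

/-- **The own coordinate of the closed label** near the sample. -/
theorem cl_lip0 (D : ℕ) : ∃ C : ℕ, ∀ {m J : ℕ} {F : Fam m J} {c : ℕ → Fin m} {N W s v : ℕ}
    {A : ℕ → ℕ} {e : ℕ → ℕ} {g : ℕ → ℕ → ℕ} {B : F.Ω → Prop}
    {G : ℕ → PtT F → ℕ → MvPolynomial (Option (Fin m)) ℝ}
    {H : ℕ → LnT F → ℕ → MvPolynomial (Option (Fin m)) ℝ}
    {pP : PtT F → ℕ → MvPolynomial (Option (Fin m)) ℝ}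
    {pH : LnT F → ℕ → MvPolynomial (Option (Fin m)) ℝ} {k a : ℕ} {ω : F.Ω}
    {b : Option (Fin m) → ℝ},
    Inc F c D N W s v A e g B G H pP pH → N ≤ s → k ≤ N → B ω → A k ≤ a →
    |b none - F.t ω| ≤ 1 / 2 ^ a → |b (some (c 0)) - F.x ω (c 0)| ≤ 1 / 2 ^ a →
    |(eval b (pP (ptr F J ω) 1) - eval b (G k (ptr F J ω) 1)) -
      (eval (bt F ω) (pP (ptr F J ω) 1) - eval (bt F ω) (G k (ptr F J ω) 1))| ≤
      2 ^ (C * (s + v + 1)) / 2 ^ (g 0 1 + (a - W)) := by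
  obtain ⟨C, h⟩ := cl_lipz D
  refine ⟨C, ?_⟩
  intro m J F c N W s v A e g B G H pP pH k a ω b I hNs hk hω hka hb0 hb1
  have h1 := h (z := 0) I hNs hk hω hka hb0 (by rw [pow_zero]; exact hb1)
  rwa [Nat.add_zero] at h1

/-- **The natural boxes of the balls** contain the small boxes in absolute coordinates, up to a
dilation. -/
theorem vdlz (D : ℕ) : ∃ C : ℕ, ∀ {m J : ℕ} {F : Fam m J} {c : ℕ → Fin m} {N W s v : ℕ}
    {A : ℕ → ℕ} {e : ℕ → ℕ} {g : ℕ → ℕ → ℕ} {B : F.Ω → Prop}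
    {G : ℕ → PtT F → ℕ → MvPolynomial (Option (Fin m)) ℝ}
    {H : ℕ → LnT F → ℕ → MvPolynomial (Option (Fin m)) ℝ}
    {pP : PtT F → ℕ → MvPolynomial (Option (Fin m)) ℝ}
    {pH : LnT F → ℕ → MvPolynomial (Option (Fin m)) ℝ} {k : ℕ} {ω : F.Ω} {r : V3} {M : ℝ}
    {Q : MvPolynomial (Option (Fin m)) ℝ},
    Inc F c D N W s v A e g B G H pP pH → N ≤ s → k ≤ N → B ω → Bx (1 / 2 ^ (A k - W)) r →
    Q.totalDegree ≤ D → DepC c 2 Q → 0 ≤ M →
    (∀ b, NBx c (G k (ptr F J ω)) (g k) (A k) (F.t ω) 2 b → |eval b Q| ≤ M) →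
    |eval (vnr F c W (g 0 1) (pP (ptr F J ω) 1) ω r) Q| ≤ 2 ^ (C * (s + v + 1)) * M := by
  obtain ⟨C₁, hcl⟩ := cl_lip0 D
  obtain ⟨c₀, D₁, hD₁, hdil⟩ := nbx_dil 3 (fun _ => D)
  refine ⟨c₀ + (C₁ + 3) * D₁, ?_⟩
  intro m J F c N W s v A e g B G H pP pH k ω r M Q I hNs hk hω hr hQ hQd hM hQM
  have pw : ∀ {x y : ℕ}, x ≤ y → (2 : ℝ) ^ x ≤ 2 ^ y := fun h => pow_le_pow_right₀ (by norm_num) h
  have hok := I.ok k hk
  have hWA := I.AmW hk
  have hWJ : W ≤ J := hWA.trans (I.AJ k hk)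
  obtain ⟨b, hb⟩ : ∃ b, b = vnr F c W (g 0 1) (pP (ptr F J ω) 1) ω r := ⟨_, rfl⟩
  have e2 : (1 : ℝ) / 2 ^ (A k - W) / 2 ^ W = 1 / 2 ^ A k := by
    rw [div_div, ← pow_add, Nat.sub_add_cancel hWA]
  have hbn : |b none - F.t ω| ≤ 1 / 2 ^ A k := by
    rw [hb, vnr_none hWJ, add_sub_cancel_left, abs_div, abs_of_pos (by positivity : (0:ℝ) < 2 ^ W),
      ← e2]
    exact div_le_div_of_nonneg_right (hr 0) (by positivity)
  have hb0 : |b (some (c 0)) - F.x ω (c 0)| ≤ 1 / 2 ^ A k := by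
    rw [hb, vnr_zero, add_sub_cancel_left, abs_div, abs_of_pos (by positivity : (0:ℝ) < 2 ^ W),
      ← e2]
    exact div_le_div_of_nonneg_right (hr 1) (by positivity)
  have h1 := I.pln hk hω hbn hb0
  have h2 := hcl I hNs hk hω le_rfl hbn hb0
  have hb1 : b (some (c 1)) = F.x ω (c 1) + (eval b (pP (ptr F J ω) 1) -
      eval (bt F ω) (pP (ptr F J ω) 1)) + r 2 / 2 ^ g 0 1 := by
    rw [hb]
    exact vnr_one (I.inj.mono fun x (hx : x < 2) => show x < 3 by omega) (I.pe _ 1) ω r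
  have h3 : |b (some (c 1)) - eval b (G k (ptr F J ω) 1)| ≤
      2 ^ ((C₁ + 3) * (s + v + 1)) / 2 ^ g k 1 := by
    have h4 := hok.pos ω hω 1 (by norm_num)
    have h5 : |r 2 / 2 ^ g 0 1| ≤ 2 ^ s / 2 ^ g k 1 := by
      rw [abs_div, abs_of_pos (by positivity : (0:ℝ) < 2 ^ g 0 1)]
      refine (div_le_div_of_nonneg_right (hr 2) (by positivity)).trans ?_
      rw [div_div, ← pow_add, div_le_div_iff₀ (by positivity) (by positivity), one_mul, ← pow_add]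
      exact pw (by have := I.n1 k hk; omega)
    have h6 : (2 : ℝ) ^ (C₁ * (s + v + 1)) / 2 ^ (g 0 1 + (A k - W)) ≤
        2 ^ (C₁ * (s + v + 1) + s) / 2 ^ g k 1 := by
      rw [div_le_div_iff₀ (by positivity) (by positivity), ← pow_add, ← pow_add]
      exact pw (by have := I.n1 k hk; omega)
    have e1 : b (some (c 1)) - eval b (G k (ptr F J ω) 1) =
        (F.x ω (c 1) - eval (bt F ω) (G k (ptr F J ω) 1)) +
        ((eval b (pP (ptr F J ω) 1) - eval b (G k (ptr F J ω) 1)) -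
          (eval (bt F ω) (pP (ptr F J ω) 1) - eval (bt F ω) (G k (ptr F J ω) 1))) +
        r 2 / 2 ^ g 0 1 := by
      rw [hb1]
      ring
    rw [e1]
    refine (abs_add_le _ _).trans ?_
    have h7 := abs_add_le (F.x ω (c 1) - eval (bt F ω) (G k (ptr F J ω) 1))
      ((eval b (pP (ptr F J ω) 1) - eval b (G k (ptr F J ω) 1)) -
          (eval (bt F ω) (pP (ptr F J ω) 1) - eval (bt F ω) (G k (ptr F J ω) 1)))
    have h8 : (1 : ℝ) / 2 ^ g k 1 + 2 ^ (C₁ * (s + v + 1) + s) / 2 ^ g k 1 + 2 ^ s / 2 ^ g k 1 ≤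
        2 ^ ((C₁ + 3) * (s + v + 1)) / 2 ^ g k 1 := by
      rw [← add_div, ← add_div]
      refine div_le_div_of_nonneg_right ?_ (by positivity)
      have k1 : (1 : ℝ) ≤ 2 ^ (C₁ * (s + v + 1) + s) := one_le_pow₀ (by norm_num)
      have k2 : (2 : ℝ) ^ s ≤ 2 ^ (C₁ * (s + v + 1) + s) := pw (by omega)
      have k3 : (2 : ℝ) ^ (C₁ * (s + v + 1) + s + 2) ≤ 2 ^ ((C₁ + 3) * (s + v + 1)) :=
        pw (by nlinarith)
      rw [pow_add 2 (C₁ * (s + v + 1) + s) 2] at k3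
      linarith
    linarith
  rw [← hb]
  refine (hdil (c := c) (i := 2) (G := G k (ptr F J ω)) (Q := Q) (g := g k) (a := A k)
      (t := F.t ω) (M := M) ((C₁ + 3) * (s + v + 1)) (by norm_num)
      (I.inj.mono fun x (hx : x < 2) => show x < 3 by omega)
      (hok.degG _) (hok.depG _) hQd hQ hM hQM b hbn fun l hl => ?_).trans ?_
  · interval_cases l
    · exact h1.trans (div_le_div_of_nonneg_right (pw (by nlinarith)) (by positivity))
    · exact h3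
  · refine mul_le_mul_of_nonneg_right (pw ?_) hM
    nlinarith [Nat.zero_le (c₀ * (s + v))]

end Pool.STB65
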