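import Pool.Agent.H77.STB.Vth
import Pool.Agent.H65.STB.Knt
import Pool.Agent.H82.STB.Ins
import Pool.Agent.H65.STB.Vdz

/-!
# The input of the jets for any target over two coordinates

`vtg`: a target over the time and `c 0`, `c 1` has labels at a list of balls (visible and closed),
a closed label of the window `W`, and a closed polynomial near the label of the first ball; the input
`InpF` of `jet_ev` in absolute coordinates.
-/

set_option autoImplicit false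

namespace Pool.STB65

open Finset Real MvPolynomial
open Pool.Agent.H49.Ent Pool.Agent.H32.Dense Pool.STK Pool.KA Pool.KSAT Pool.K2S Pool.PB Pool.S6C
open Pool.GEN Pool.CHT Pool.NVX
open Pool.STB (V3 Po Bx)
open Pool.STB77 (Inc vpl vpt vnr ypt cos cos_slam vpl_deg vpl_eval)
open Pool.STB82 (yv)
open Pool.PB.Trl (rt rt_mem t_rt)

variable {m J : ℕ}

/-- The visible label of a target in absolute coordinates. -/
noncomputable def tgP (F : Fam m J) (c : ℕ → Fin m) (W g₁ g₃ : ℕ)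
    (pP : PtT F → MvPolynomial (Option (Fin m)) ℝ) (Q : PtT F → MvPolynomial (Option (Fin m)) ℝ)
    (y : PtT F) : Po := C (2 ^ g₃) * vpl c W g₁ (y.2.1 / 2 ^ (J - W)) (pP y) (Q y)

/-- The closed label of a target of the window `a`, in absolute coordinates. -/
noncomputable def tgH (F : Fam m J) (c : ℕ → Fin m) (W a g₁ g₃ : ℕ)
    (pH : LnT F → MvPolynomial (Option (Fin m)) ℝ) (Q : LnT F → MvPolynomial (Option (Fin m)) ℝ)
    (S : LnT F) : Po := C (2 ^ g₃) * vpl c W g₁ (cos F W a S).2.2 (pH (cos F W a S)) (Q S)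

/-- The closed label of a target of the window `W`, in absolute coordinates. -/
noncomputable def tgK (F : Fam m J) (c : ℕ → Fin m) (W g₁ g₃ : ℕ)
    (pH : LnT F → MvPolynomial (Option (Fin m)) ℝ) (Q : LnT F → MvPolynomial (Option (Fin m)) ℝ)
    (S : LnT F) : Po := C (2 ^ g₃) * vpl c W g₁ S.2.2 (pH S) (Q S)

theorem tgP_eval (F : Fam m J) (c : ℕ → Fin m) (W g₁ g₃ : ℕ)
    (pP : PtT F → MvPolynomial (Option (Fin m)) ℝ) (Q : PtT F → MvPolynomial (Option (Fin m)) ℝ)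
    (ω : F.Ω) (r : V3) :
    eval (ypt F c W g₁ (pP (ptr F J ω)) ω + r) (tgP F c W g₁ g₃ pP Q (ptr F J ω)) =
      2 ^ g₃ * eval (vnr F c W g₁ (pP (ptr F J ω)) ω r) (Q (ptr F J ω)) := by
  unfold tgP
  rw [map_mul, eval_C, vpl_eval]
  rfl

theorem tgH_eval (F : Fam m J) (c : ℕ → Fin m) {W a : ℕ} (hW : W ≤ a) (ha : a ≤ J) (g₁ g₃ : ℕ)
    (pH : LnT F → MvPolynomial (Option (Fin m)) ℝ) (Q : LnT F → MvPolynomial (Option (Fin m)) ℝ)
    (P : MvPolynomial (Option (Fin m)) ℝ) (ω : F.Ω) (hP : pH (slam F W ω) = P) (r : V3) :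
    eval (ypt F c W g₁ P ω + r) (tgH F c W a g₁ g₃ pH Q (slam F a ω)) =
      2 ^ g₃ * eval (vnr F c W g₁ P ω r) (Q (slam F a ω)) := by
  unfold tgH
  rw [cos_slam F hW ha, map_mul, eval_C, vpl_eval, hP]
  rfl

theorem tgK_eval (F : Fam m J) (c : ℕ → Fin m) (W g₁ g₃ : ℕ)
    (pH : LnT F → MvPolynomial (Option (Fin m)) ℝ) (Q : LnT F → MvPolynomial (Option (Fin m)) ℝ)
    (P : MvPolynomial (Option (Fin m)) ℝ) (ω : F.Ω) (hP : pH (slam F W ω) = P) (r : V3) :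
    eval (ypt F c W g₁ P ω + r) (tgK F c W g₁ g₃ pH Q (slam F W ω)) =
      2 ^ g₃ * eval (vnr F c W g₁ P ω r) (Q (slam F W ω)) := by
  unfold tgK
  rw [map_mul, eval_C, vpl_eval, hP]
  rfl

theorem tg_deg (c : ℕ → Fin m) (W g₁ g₃ T : ℕ) {D : ℕ}
    {P Q : MvPolynomial (Option (Fin m)) ℝ} (hP : P.totalDegree ≤ D) (hQ : Q.totalDegree ≤ D) :
    (C (2 ^ g₃) * vpl c W g₁ T P Q : Po).totalDegree ≤ D * (D + 1) := by
  refine (totalDegree_mul _ _).trans ?_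
  rw [totalDegree_C, zero_add]
  exact vpl_deg c W g₁ T hP hQ

/-- The two forms of the position. -/
theorem yv_ypt (F : Fam m J) (c : ℕ → Fin m) (W g₁ : ℕ)
    (pH : LnT F → MvPolynomial (Option (Fin m)) ℝ) (P : MvPolynomial (Option (Fin m)) ℝ) (ω : F.Ω)
    (hP : pH (slam F W ω) = P) : yv F c W g₁ pH ω = ypt F c W g₁ P ω := by
  funext i
  rw [← hP]
  fin_cases i <;> rfl

section

variable {F : Fam m J} {c : ℕ → Fin m} {D N W s v : ℕ} {A : ℕ → ℕ} {e : ℕ → ℕ}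
    {g : ℕ → ℕ → ℕ} {B : F.Ω → Prop} {G : ℕ → PtT F → ℕ → MvPolynomial (Option (Fin m)) ℝ}
    {H : ℕ → LnT F → ℕ → MvPolynomial (Option (Fin m)) ℝ}
    {pP : PtT F → ℕ → MvPolynomial (Option (Fin m)) ℝ}
    {pH : LnT F → ℕ → MvPolynomial (Option (Fin m)) ℝ}

/-- **A target over the two first coordinates** of a list of balls: labels `QP` (visible), `QH`
(closed, of the window of the ball), a closed label `QS` of the window `W`, and a closed polynomial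
`zP`, `zH` near the label of the first ball. -/
structure TgV (F : Fam m J) (c : ℕ → Fin m) (D N W s : ℕ) (A : ℕ → ℕ) (g : ℕ → ℕ → ℕ)
    (B : F.Ω → Prop) (G : ℕ → PtT F → ℕ → MvPolynomial (Option (Fin m)) ℝ)
    (pP : PtT F → ℕ → MvPolynomial (Option (Fin m)) ℝ) (b g₃ : ℕ)
    (QP : ℕ → PtT F → MvPolynomial (Option (Fin m)) ℝ)
    (QH : ℕ → LnT F → MvPolynomial (Option (Fin m)) ℝ)
    (QS : LnT F → MvPolynomial (Option (Fin m)) ℝ)
    (zP : PtT F → MvPolynomial (Option (Fin m)) ℝ)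
    (zH : LnT F → MvPolynomial (Option (Fin m)) ℝ) : Prop where
  dP : ∀ k ≤ N, ∀ y, (QP k y).totalDegree ≤ D
  dH : ∀ k ≤ N, ∀ y, (QH k y).totalDegree ≤ D
  dS : ∀ y, (QS y).totalDegree ≤ D
  dz : ∀ y, (zP y).totalDegree ≤ D
  dzH : ∀ y, (zH y).totalDegree ≤ D
  eP : ∀ k ≤ N, ∀ y, DepC c 2 (QP k y)
  eH : ∀ k ≤ N, ∀ y, DepC c 2 (QH k y)
  ez : ∀ y, DepC c 2 (zP y)
  zc : ∀ ω, B ω → zP (ptr F J ω) = zH (slam F W ω)
  uni : ∀ k < N, ∀ ω, B ω → ∀ b', NBx c (G (k + 1) (ptr F J ω)) (g (k + 1)) (A (k + 1)) (F.t ω)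
    2 b' → |eval b' (QP (k + 1) (ptr F J ω)) - eval b' (QP k (ptr F J ω))| ≤
      2 ^ s / 2 ^ (g₃ + b * (A k - W))
  agr : ∀ k ≤ N, ∀ ω, B ω → ∀ b', NBx c (G k (ptr F J ω)) (g k) (A k) (F.t ω) 2 b' →
    |eval b' (QP k (ptr F J ω)) - eval b' (QH k (slam F (A k) ω))| ≤
      2 ^ s / 2 ^ (g₃ + b * (A k - W))
  sta : ∀ ω, B ω → ∀ r, Bx (1 / 2 ^ (A N - W)) r →
    |eval (vnr F c W (g 0 1) (pP (ptr F J ω) 1) ω r) (QS (slam F W ω)) -
      eval (vnr F c W (g 0 1) (pP (ptr F J ω) 1) ω r) (QP N (ptr F J ω))| ≤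
        2 ^ s / 2 ^ (g₃ + b * (A N - W))
  zer : ∀ ω, B ω → ∀ b', NBx c (G 0 (ptr F J ω)) (g 0) (A 0) (F.t ω) 2 b' →
    |eval b' (QP 0 (ptr F J ω)) - eval b' (zP (ptr F J ω))| ≤ 2 ^ s / 2 ^ g₃

/-- Larger numbers. -/
theorem inc_mono (I : Inc F c D N W s v A e g B G H pP pH) {D' s' : ℕ} (hD : D ≤ D')
    (hs : s ≤ s') : Inc F c D' N W s' v A e g B G H pP pH := by
  have h1 : ∀ x : ℕ, (2 : ℝ) ^ s / 2 ^ x ≤ 2 ^ s' / 2 ^ x := fun x =>
    div_le_div_of_nonneg_right (pow_le_pow_right₀ (by norm_num) hs) (by positivity)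
  refine ⟨I.inj, I.A0, I.AJ, I.AW, I.Am, I.Av, fun k hk => ?_, fun k hk ω hω t ht =>
    (I.own k hk ω hω t ht).trans (h1 _), fun k hk l hl ω hω b hb =>
    (I.uni k hk l hl ω hω b hb).trans (h1 _), fun k hk => (I.n0 k hk).trans (by omega),
    fun k hk => (I.n1 k hk).trans (by omega), fun k hk => (I.n1' k hk).trans (by omega),
    fun y l => (I.pd y l).trans hD, fun y l => (I.hd y l).trans hD, I.pe, I.pc,
    fun ω hω l h0 h3 b hb => (I.pn ω hω l h0 h3 b hb).trans (h1 _)⟩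
  have h2 := I.ok k hk
  exact ⟨fun y i => (h2.degG y i).trans hD, fun y i => (h2.degH y i).trans hD, h2.depG, h2.depH,
    h2.pos, h2.agr, h2.lip⟩

end

/-- **The input of the jets** for a target over the two first coordinates. -/
theorem vtg (D b : ℕ) : ∃ C : ℕ, ∀ {m J : ℕ} {F : Fam m J} {c : ℕ → Fin m} {N W s v g₃ : ℕ}
    {A : ℕ → ℕ} {e : ℕ → ℕ} {g : ℕ → ℕ → ℕ} {B : F.Ω → Prop}
    {G : ℕ → PtT F → ℕ → MvPolynomial (Option (Fin m)) ℝ}
    {H : ℕ → LnT F → ℕ → MvPolynomial (Option (Fin m)) ℝ}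
    {pP : PtT F → ℕ → MvPolynomial (Option (Fin m)) ℝ}
    {pH : LnT F → ℕ → MvPolynomial (Option (Fin m)) ℝ}
    {QP : ℕ → PtT F → MvPolynomial (Option (Fin m)) ℝ}
    {QH : ℕ → LnT F → MvPolynomial (Option (Fin m)) ℝ}
    {QS : LnT F → MvPolynomial (Option (Fin m)) ℝ}
    {zP : PtT F → MvPolynomial (Option (Fin m)) ℝ}
    {zH : LnT F → MvPolynomial (Option (Fin m)) ℝ},
    Inc F c D N W s v A e g B G H pP pH → N ≤ s →
    TgV F c D N W s A g B G pP b g₃ QP QH QS zP zH →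
    InpF F B W N (D * (D + 1)) b (2 ^ (C * (s + v + 1))) (yv F c W (g 0 1) (fun S => pH S 1))
      (fun k => A k - W)
      (fun k => tgP F c W (g 0 1) g₃ (fun y => pP y 1) (fun y => QP (min k N) y - zP y))
      (fun k => tgH F c W (A (min k N)) (g 0 1) g₃ (fun S => pH S 1)
        (fun S => QH (min k N) S - zH (cos F W (A (min k N)) S)))
      (tgK F c W (g 0 1) g₃ (fun S => pH S 1) (fun S => QS S - zH S)) := by
  obtain ⟨C₁, hv⟩ := vdlz D
  refine ⟨C₁ + 1, ?_⟩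
  intro m J F c N W s v g₃ A e g B G H pP pH QP QH QS zP zH I hNs T
  have pw : ∀ {x y : ℕ}, x ≤ y → (2 : ℝ) ^ x ≤ 2 ^ y := fun h => pow_le_pow_right₀ (by norm_num) h
  have e2 : (2 : ℝ) ^ (C₁ * (s + v + 1)) * 2 ^ s ≤ 2 ^ ((C₁ + 1) * (s + v + 1)) := by
    rw [← pow_add]
    exact pw (by nlinarith)
  have hpc : ∀ ω, B ω → pH (slam F W ω) 1 = pP (ptr F J ω) 1 := fun ω hω => (I.pc ω hω 1).symm
  have hyv : ∀ ω, B ω → yv F c W (g 0 1) (fun S => pH S 1) ω =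
      ypt F c W (g 0 1) (pP (ptr F J ω) 1) ω := fun ω hω =>
    yv_ypt F c W (g 0 1) (fun S => pH S 1) _ ω (hpc ω hω)
  have num : ∀ {x : ℕ} {E : ℝ},
      |E| ≤ 2 ^ (C₁ * (s + v + 1)) * (2 ^ s / 2 ^ (g₃ + b * x)) →
      |2 ^ g₃ * E| ≤ 2 ^ ((C₁ + 1) * (s + v + 1)) * (1 / 2 ^ x) ^ b := by
    intro x E hE
    rw [abs_mul, abs_of_pos (by positivity : (0 : ℝ) < 2 ^ g₃)]
    have e3 : (2 : ℝ) ^ g₃ / 2 ^ (g₃ + b * x) = (1 / 2 ^ x) ^ b := by
      rw [one_div, inv_pow, ← pow_mul, pow_add, Nat.mul_comm x b]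
      field_simp
    calc (2 : ℝ) ^ g₃ * |E| ≤ 2 ^ g₃ * (2 ^ (C₁ * (s + v + 1)) * (2 ^ s / 2 ^ (g₃ + b * x))) :=
          mul_le_mul_of_nonneg_left hE (by positivity)
      _ = 2 ^ (C₁ * (s + v + 1)) * 2 ^ s * (2 ^ g₃ / 2 ^ (g₃ + b * x)) := by ring
      _ = 2 ^ (C₁ * (s + v + 1)) * 2 ^ s * (1 / 2 ^ x) ^ b := by rw [e3]
      _ ≤ _ := mul_le_mul_of_nonneg_right e2 (by positivity)
  have hsub : ∀ {a b' : MvPolynomial (Option (Fin m)) ℝ}, DepC c 2 a → DepC c 2 b' →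
      DepC c 2 (a - b') := fun h1 h2 x y hn hb => by
    rw [map_sub, map_sub, h1 x y hn hb, h2 x y hn hb]
  have hdeg : ∀ {a b' : MvPolynomial (Option (Fin m)) ℝ}, a.totalDegree ≤ D →
      b'.totalDegree ≤ D → (a - b').totalDegree ≤ D := fun h1 h2 =>
    (totalDegree_sub _ _).trans (max_le h1 h2)
  have cas : ∀ x y z : ℝ, x - z - (y - z) = x - y := fun x y z => by ring
  refine ⟨?_, ?_, ?_, ?_, ?_, ?_, ?_, ?_⟩
  · exact fun k y => tg_deg c W _ _ _ (I.pd y 1) (hdeg (T.dP _ (min_le_right k N) y) (T.dz y))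
  · exact fun S => tg_deg c W _ _ _ (I.hd S 1) (hdeg (T.dS S) (T.dzH S))
  · intro k hk
    have h1 := I.Am k hk
    have h2 := I.Av k hk
    refine ⟨Nat.sub_le_sub_right h1 W, ?_⟩
    rw [← pow_add]
    refine pw ?_
    have h3 : v ≤ (C₁ + 1) * (s + v + 1) := by nlinarith
    omega
  · intro ω hω r hr
    have e0 : A 0 - W = 0 := by rw [I.A0]; omega
    have h1 := hv (Q := QP 0 (ptr F J ω) - zP (ptr F J ω)) (M := 2 ^ s / 2 ^ g₃) I hNs
      (Nat.zero_le N) hω (r := r) (by rw [e0, pow_zero, div_one]; exact hr)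
      (hdeg (T.dP 0 (Nat.zero_le N) _) (T.dz _)) (hsub (T.eP 0 (Nat.zero_le N) _) (T.ez _))
      (by positivity) (fun b' hb => by
        rw [map_sub]
        exact T.zer ω hω b' hb)
    show |eval (yv F c W (g 0 1) (fun S => pH S 1) ω + r) (tgP F c W (g 0 1) g₃ (fun y => pP y 1)
      (fun y => QP (min 0 N) y - zP y) (ptr F J ω))| ≤ _
    rw [Nat.min_eq_left (Nat.zero_le N), hyv ω hω, tgP_eval F c W (g 0 1) g₃ (fun y => pP y 1)]
    refine (num (x := 0) (by rw [mul_zero, add_zero]; exact h1)).trans (le_of_eq ?_)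
    rw [pow_zero, div_one, one_pow, mul_one]
  · intro ω hω k hk r hr
    have h1 := hv (Q := QP (k + 1) (ptr F J ω) - QP k (ptr F J ω))
      (M := 2 ^ s / 2 ^ (g₃ + b * (A k - W))) I hNs (k := k + 1) (by omega) hω (r := r) hr
      (hdeg (T.dP _ (by omega) _) (T.dP _ hk.le _))
      (hsub (T.eP _ (by omega) _) (T.eP _ hk.le _)) (by positivity) (fun b' hb => by
        rw [map_sub]
        exact T.uni k hk ω hω b' hb)
    show |eval (yv F c W (g 0 1) (fun S => pH S 1) ω + r) (tgP F c W (g 0 1) g₃ (fun y => pP y 1)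
      (fun y => QP (min (k + 1) N) y - zP y) (ptr F J ω)) -
      eval (yv F c W (g 0 1) (fun S => pH S 1) ω + r) (tgP F c W (g 0 1) g₃ (fun y => pP y 1)
      (fun y => QP (min k N) y - zP y) (ptr F J ω))| ≤ _
    rw [Nat.min_eq_left hk.le, Nat.min_eq_left (show k + 1 ≤ N by omega), hyv ω hω, tgP_eval F c W (g 0 1) g₃ (fun y => pP y 1),
      tgP_eval F c W (g 0 1) g₃ (fun y => pP y 1), ← mul_sub, map_sub, map_sub, cas, ← map_sub]
    exact num h1
  · intro ω hω r hr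
    have h0 := T.sta ω hω r hr
    have h1 : |eval (vnr F c W (g 0 1) (pP (ptr F J ω) 1) ω r)
        (QS (slam F W ω) - QP N (ptr F J ω))| ≤
        2 ^ (C₁ * (s + v + 1)) * (2 ^ s / 2 ^ (g₃ + b * (A N - W))) := by
      rw [map_sub]
      exact h0.trans (le_mul_of_one_le_left (by positivity) (one_le_pow₀ (by norm_num)))
    show |eval (yv F c W (g 0 1) (fun S => pH S 1) ω + r) (tgK F c W (g 0 1) g₃ (fun S => pH S 1)
      (fun S => QS S - zH S) (slam F W ω)) -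
      eval (yv F c W (g 0 1) (fun S => pH S 1) ω + r) (tgP F c W (g 0 1) g₃ (fun y => pP y 1)
      (fun y => QP (min N N) y - zP y) (ptr F J ω))| ≤ _
    rw [Nat.min_self, hyv ω hω, tgP_eval F c W (g 0 1) g₃ (fun y => pP y 1),
      tgK_eval F c W (g 0 1) g₃ (fun S => pH S 1) _ _ ω (hpc ω hω), ← mul_sub, map_sub,
      ← T.zc ω hω, map_sub, cas, ← map_sub]
    exact num h1
  · exact fun k S => tg_deg c W _ _ _ (I.hd _ 1)
      (hdeg (T.dH _ (min_le_right k N) S) (T.dzH _))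
  · intro k hk ω hω r hr
    have h1 := hv (Q := QP k (ptr F J ω) - QH k (slam F (A k) ω))
      (M := 2 ^ s / 2 ^ (g₃ + b * (A k - W))) I hNs hk hω (r := r) hr
      (hdeg (T.dP _ hk _) (T.dH _ hk _)) (hsub (T.eP _ hk _) (T.eH _ hk _)) (by positivity)
      (fun b' hb => by
        rw [map_sub]
        exact T.agr k hk ω hω b' hb)
    have hW := I.AW k hk
    show |eval (yv F c W (g 0 1) (fun S => pH S 1) ω + r) (tgP F c W (g 0 1) g₃ (fun y => pP y 1)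
      (fun y => QP (min k N) y - zP y) (ptr F J ω)) -
      eval (yv F c W (g 0 1) (fun S => pH S 1) ω + r) (tgH F c W (A (min k N)) (g 0 1) g₃
      (fun S => pH S 1) (fun S => QH (min k N) S - zH (cos F W (A (min k N)) S))
        (slam F (W + (A k - W)) ω))| ≤ _
    rw [Nat.min_eq_left hk, show W + (A k - W) = A k by omega, hyv ω hω,
      tgP_eval F c W (g 0 1) g₃ (fun y => pP y 1),
      tgH_eval F c hW (I.AJ k hk) (g 0 1) g₃ (fun S => pH S 1) _ _ ω (hpc ω hω), ← mul_sub,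
      map_sub, cos_slam F hW (I.AJ k hk), ← T.zc ω hω, map_sub, cas, ← map_sub]
    exact num h1

end Pool.STB65
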