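import Pool.Agent.H65.STB.Ncl
import Pool.Agent.H98.STB.VbD

/-!
# The fields of the target in the event of case (B)

`VbX`: the fields of `VbE` which belong to the target. `vbe_tgt`: they follow from `N1O`.
-/

set_option autoImplicit false

namespace Pool.STB65

open Finset Real MvPolynomial
open Pool.Agent.H49.Ent Pool.Agent.H32.Dense Pool.STK Pool.KA Pool.KSAT Pool.K2S Pool.PB Pool.S6C
open Pool.GEN Pool.CHT Pool.NVX
open Pool.STB (V3 Po Bx VbT)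
open Pool.STB82 (yv)

variable {m J : ℕ}

/-- A larger degree. -/
theorem InpF.deg {F : Fam m J} {B : F.Ω → Prop} {W₀ N K K' b : ℕ} {Y : ℝ} {y : F.Ω → V3}
    {e : ℕ → ℕ} {f : ℕ → PtT F → Po} {f' : ℕ → LnT F → Po} {kf : LnT F → Po}
    (h : InpF F B W₀ N K b Y y e f f' kf) (hK : K ≤ K') :
    InpF F B W₀ N K' b Y y e f f' kf :=
  ⟨fun j p => (h.fd j p).trans hK, fun s => (h.kd s).trans hK, h.em, h.f0, h.ch, h.nr,
    fun j s => (h.fd' j s).trans hK, h.agr⟩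

/-- **The fields of the target.** -/
structure VbX (F : Fam m J) (c : ℕ → Fin m) (B : F.Ω → Prop) (K n N b Wn : ℕ) {V : Type}
    (z : PtT F → V) (z' : LnT F → V) (G : V → MvPolynomial (Option (Fin m)) ℝ) (t : VbT F) :
    Prop where
  iF : InpF F B t.W₀ N (K + 1) b (2 ^ t.y) (yv F c t.W₀ t.g1 t.Pl) t.e t.f t.f' t.kf
  hji : ∀ i < n, t.ji i ≤ N ∧ t.e (t.ji i) ≤ t.k + i * t.k + t.k ∧
    (2 : ℝ) ^ (t.k + i * t.k + t.k) ≤ 2 ^ t.y * 2 ^ t.e (t.ji i)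
  zc : ∀ ω, B ω → z (ptr F J ω) = z' (slam F Wn ω)
  Gd : ∀ ω, B ω → (G (z (ptr F J ω))).totalDegree ≤ K
  Gp : ∀ ω, B ω → DepC c 3 (G (z (ptr F J ω)))
  zd : ∀ y, (t.zP y).totalDegree ≤ K
  zp : ∀ y, DepC c 2 (t.zP y)
  zcl : ∀ ω, B ω → t.zP (ptr F J ω) = t.zH (slam F t.W₀ ω)
  val : ∀ i < n, ∀ ω, B ω → |eval (yv F c t.W₀ t.g1 t.Pl ω) (t.f (t.ji i) (ptr F J ω)) -
    2 ^ t.g₃ * (F.x ω (c 3) - eval (bt F ω) (G (z (ptr F J ω))) -
      eval (bt F ω) (t.zP (ptr F J ω)))| ≤ 2 ^ t.y * (1 / 2 ^ t.e (t.ji i)) ^ b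
  lz : ∀ ω, B ω → ∀ b : Option (Fin m) → ℝ, b none = F.t ω →
    (∀ l < 2, |b (some (c l)) - F.x ω (c l)| ≤ 1 / 2 ^ J) → ∀ l < 2,
      |eval b (pderiv (some (c l)) (t.zP (ptr F J ω)))| ≤ 2 ^ t.lz
  hlT : ∀ i < n, ∀ ω, B ω → ∀ b', NBx c (t.Gc i (ptr F J ω)) (t.gc i) (t.W₀ + t.k + i * t.k)
    (F.t ω) 3 b' → ∀ l < 3, |eval b' (pderiv (some (c l)) (G (z (ptr F J ω)) + t.zP (ptr F J ω)))| ≤
      2 ^ (t.e₁ + nlp (fun j => if j < 3 then t.gc i j else t.p b i) l 3) / 2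

/-- **The fields of the target** from the class theorem: `jb i` the ball below the window `i`, `ji i`
the ball below the end of the window `i`. -/
theorem vbe_tgt {F : Fam m J} {c : ℕ → Fin m} {B : F.Ω → Prop} {K n N b Wn : ℕ} {V : Type}
    {z : PtT F → V} {z' : LnT F → V} {G : V → MvPolynomial (Option (Fin m)) ℝ} {t : VbT F}
    {D K₀ s v y e X gS : ℕ} {A ee : ℕ → ℕ} {g : ℕ → ℕ → ℕ}
    {Gn : ℕ → PtT F → ℕ → MvPolynomial (Option (Fin m)) ℝ}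
    {Hn : ℕ → LnT F → ℕ → MvPolynomial (Option (Fin m)) ℝ}
    {pP : PtT F → ℕ → MvPolynomial (Option (Fin m)) ℝ}
    {pH : LnT F → ℕ → MvPolynomial (Option (Fin m)) ℝ} {xP : PtT F → ℝ} {xH : LnT F → ℝ}
    (O : N1O F c D K₀ b N t.W₀ s v y e X t.g₃ gS A ee g B Gn Hn pP pH xP xH (fun y => G (z y))
      t.zP t.zH t.f t.f' t.kf)
    (h1 : t.g1 = g 0 1) (hPl : t.Pl = fun S => pH S 1) (he : t.e = fun k => A k - t.W₀)
    (hy : y ≤ t.y) (hK : K₀ ≤ K + 1) (hD : D ≤ K)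
    (hGd : ∀ ω, B ω → (G (z (ptr F J ω))).totalDegree ≤ K)
    (hGp : ∀ ω, B ω → DepC c 3 (G (z (ptr F J ω))))
    (hzc : ∀ ω, B ω → z (ptr F J ω) = z' (slam F Wn ω)) (jb : ℕ → ℕ)
    (hjb : ∀ i < n, jb i ≤ N ∧ A (jb i) ≤ t.W₀ + t.k + i * t.k ∧ t.Gc i = Gn (jb i) ∧
      t.gc i = g (jb i))
    (hji : ∀ i < n, t.ji i ≤ N ∧ A (t.ji i) ≤ t.W₀ + (t.k + i * t.k + t.k) ∧
      t.W₀ + (t.k + i * t.k + t.k) ≤ t.y + A (t.ji i))
    (hlz : ∀ l < 2, X + nlp (fun j => if j < 3 then g 0 j else t.g₃) l 3 ≤ t.lz)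
    (hnl : ∀ i < n, ∀ l < 3, X + nlp (fun j => if j < 3 then g 0 j else t.g₃) l 3 + 1 ≤
      t.e₁ + nlp (fun j => if j < 3 then t.gc i j else t.p b i) l 3) :
    VbX F c B K n N b Wn z z' G t := by
  have pw : ∀ {x y : ℕ}, x ≤ y → (2 : ℝ) ^ x ≤ 2 ^ y := fun h => pow_le_pow_right₀ (by norm_num) h
  have hyv : yv F c t.W₀ t.g1 t.Pl = yv F c t.W₀ (g 0 1) (fun S => pH S 1) := by rw [h1, hPl]
  have hA : ∀ k ≤ N, t.W₀ ≤ A k := fun k hk => O.inc.AW k hk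
  exact
    { iF := by
        rw [hyv, he]
        exact (O.inp.up (pw hy)).deg hK
      hji := fun i hi => by
        obtain ⟨j1, j2, j3⟩ := hji i hi
        have := hA _ j1
        refine ⟨j1, ?_, ?_⟩
        · rw [he]
          show A (t.ji i) - t.W₀ ≤ _
          omega
        · rw [he, ← pow_add]
          refine pw ?_
          show _ ≤ t.y + (A (t.ji i) - t.W₀)
          omega
      zc := hzc
      Gd := hGd
      Gp := hGp
      zd := fun y => (O.zd y).trans hD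
      zp := O.ze
      zcl := O.zc
      val := fun i hi ω hω => by
        obtain ⟨j1, j2, j3⟩ := hji i hi
        have h2 := O.val (t.ji i) j1 ω hω
        rw [map_add, ← sub_sub] at h2
        rw [hyv, he]
        exact h2.trans (mul_le_mul_of_nonneg_right (pw hy) (by positivity))
      lz := fun ω hω b' hb hb' l hl => (O.gz ω hω b' hb hb' l hl).trans (pw (hlz l hl))
      hlT := fun i hi ω hω b' hb l hl => by
        obtain ⟨j1, j2, j3, j4⟩ := hjb i hi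
        have h2 := O.gT (jb i) j1 ω hω b' (by
          rw [j3, j4] at hb
          exact ⟨hb.1.trans (one_div_le_one_div_of_le (by positivity) (pw j2)), hb.2⟩) l hl
        refine h2.trans ?_
        rw [le_div_iff₀ (by norm_num), ← pow_succ]
        exact pw (hnl i hi l hl) }

end Pool.STB65
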