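import Pool.Agent.H65.STB.Vn1
import Pool.Agent.H77.STB.Mix

/-!
# The blind slopes on the boxes

`two_dir`: two labels of a target of one node and their derivatives in the last coordinate are near.
`bl_one`: the derivative in the last coordinate of a label of a node, from a second label which is
blind at the samples. `tgt_fat`: a label of a coarser node as a label of a finer node. `mx_node`: the
mixed derivative of the label of a static node, from a blind label of a ball.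
-/

set_option autoImplicit false

namespace Pool.STB65

open Finset Real MvPolynomial
open Pool.Agent.H49.Ent Pool.Agent.H32.Dense Pool.STK Pool.KA Pool.KSAT Pool.K2S Pool.PB Pool.S6C
open Pool.GEN Pool.CHT Pool.NVX
open Pool.SHR (dir dir_sub)
open Pool.STB77 (Tgt lab_chain last_dir mix_lab cos cos_slam)

variable {m J : ℕ}

/-- **Two labels of a target of one node** and their derivatives in the last coordinate. -/
theorem two_dir (D r : ℕ) (hD : 1 ≤ D) : ∃ C : ℕ, ∀ {m J : ℕ} {F : Fam m J} {c : ℕ → Fin m}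
    {i a w e h q q' : ℕ} {κ : ℝ} {g : ℕ → ℕ} {B₀ B : F.Ω → Prop}
    {G : PtT F → ℕ → MvPolynomial (Option (Fin m)) ℝ}
    {H : LnT F → ℕ → MvPolynomial (Option (Fin m)) ℝ} {y : F.Ω → ℝ}
    {P P' : PtT F → MvPolynomial (Option (Fin m)) ℝ}
    {R R' : LnT F → MvPolynomial (Option (Fin m)) ℝ}, i + 1 < r →
    Set.InjOn c (Set.Iio (i + 1)) → 0 < κ → 0 < Pe F.p B₀ → Sub B B₀ →
    RelvF F c (i + 1) a w g D h κ B₀ G → ChOK F c (i + 1) (fun _ => D) a w e g B G H →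
    Tgt F c (i + 1) D a w q g B G y P R → Tgt F c (i + 1) D a w q' g B G y P' R' →
    ∃ B' : F.Ω → Prop, Sub B' B ∧ Pe F.p B ≤ Pe F.p B' + κ * 2 ^ r * Pe F.p B₀ ∧ ∀ ω, B' ω →
      ∀ b, NBx c (G (ptr F J ω)) g a (F.t ω) (i + 1) b →
        |eval b (P (ptr F J ω)) - eval b (P' (ptr F J ω))| ≤
          2 ^ (C * (h + 1)) * (1 / 2 ^ q + 1 / 2 ^ q') ∧
        |eval b (dir (ek (c i)) (P (ptr F J ω))) - eval b (dir (ek (c i)) (P' (ptr F J ω)))| ≤
          2 ^ (C * (h + 1)) * (1 / 2 ^ q + 1 / 2 ^ q') * 2 ^ g i := by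
  obtain ⟨C₁, hch⟩ := lab_chain D r hD
  obtain ⟨C₂, hla⟩ := last_dir D r
  refine ⟨C₁ + C₂, ?_⟩
  intro m J F c i a w e h q q' κ g B₀ B G H y P P' R R' hi hc hκ hP₀ hB hR hL hT hT'
  have pw : ∀ {x y : ℕ}, x ≤ y → (2 : ℝ) ^ x ≤ 2 ^ y := fun h => pow_le_pow_right₀ (by norm_num) h
  obtain ⟨B', h1, h2, h3⟩ := hch (F := F) (c := c) (i := i + 1) (w := w) (e := e) (h := h)
    (κ := κ) 1 (a := fun _ => a) (q := fun k => if k = 0 then q' else q) (g := fun _ => g)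
    (B₀ := B₀) (B := B) (G := fun _ => G) (H := fun _ => H) (y := y)
    (P := fun k => if k = 0 then P' else P) (R := fun k => if k = 0 then R' else R) hi hc hκ hP₀
    hB (fun _ _ => le_rfl) (fun _ _ => hR) (fun _ _ => hL) (fun k _ => by
      by_cases hk : k = 0
      · simp only [hk, if_true]
        exact hT'
      · simp only [hk, if_false]
        exact hT)
  refine ⟨B', h1, by simpa using h2, fun ω hω b hb => ?_⟩
  obtain ⟨M, hM⟩ : ∃ M : ℝ, M = 2 ^ (C₁ * (h + 1)) * (1 / 2 ^ q + 1 / 2 ^ q') := ⟨_, rfl⟩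
  have hM0 : 0 ≤ M := by rw [hM]; positivity
  have h4 : ∀ b, NBx c (G (ptr F J ω)) g a (F.t ω) (i + 1) b →
      |eval b (P (ptr F J ω) - P' (ptr F J ω))| ≤ M := by
    intro b hb
    have h5 := h3 ω hω 0 (by norm_num) b hb
    simp only [if_true, Nat.zero_add, one_ne_zero, if_false] at h5
    rw [map_sub, hM]
    exact h5
  have h6 : (2 : ℝ) ^ (C₁ * (h + 1)) ≤ 2 ^ ((C₁ + C₂) * (h + 1)) := pw (by nlinarith)
  have h7 : (2 : ℝ) ^ C₂ * 2 ^ (C₁ * (h + 1)) ≤ 2 ^ ((C₁ + C₂) * (h + 1)) := by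
    rw [← pow_add]
    exact pw (by nlinarith)
  have hq : (0 : ℝ) ≤ 1 / 2 ^ q + 1 / 2 ^ q' := by positivity
  constructor
  · have h5 := h4 b hb
    rw [map_sub] at h5
    rw [hM] at h5
    exact h5.trans (mul_le_mul_of_nonneg_right h6 hq)
  · have h5 := hla (c := c) (i := i) (a := a) (g := g) (t := F.t ω) (M := M)
      (G := G (ptr F J ω)) (P := P (ptr F J ω) - P' (ptr F J ω)) (b := b) hi hc (hL.degG _)
      (hL.depG _) (fun x z hn hx => by
        rw [map_sub, map_sub, hT.depP _ x z hn hx, hT'.depP _ x z hn hx])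
      ((totalDegree_sub _ _).trans (max_le (hT.degP _) (hT'.degP _))) hM0 hb h4
    rw [dir_sub, map_sub] at h5
    refine h5.trans ?_
    rw [hM]
    calc (2 : ℝ) ^ C₂ * (2 ^ (C₁ * (h + 1)) * (1 / 2 ^ q + 1 / 2 ^ q') * 2 ^ g i) =
        2 ^ C₂ * 2 ^ (C₁ * (h + 1)) * ((1 / 2 ^ q + 1 / 2 ^ q') * 2 ^ g i) := by ring
      _ ≤ 2 ^ ((C₁ + C₂) * (h + 1)) * ((1 / 2 ^ q + 1 / 2 ^ q') * 2 ^ g i) :=
        mul_le_mul_of_nonneg_right h7 (by positivity)
      _ = _ := by ring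

/-- **The derivative in the last coordinate of a label of a node**, from a second label of the
target which is blind at the samples. -/
theorem bl_one (D r : ℕ) (hD : 1 ≤ D) : ∃ C : ℕ, ∀ {m J : ℕ} {F : Fam m J} {c : ℕ → Fin m}
    {i a w e h q q' : ℕ} {κ M : ℝ} {g : ℕ → ℕ} {B₀ B : F.Ω → Prop}
    {G : PtT F → ℕ → MvPolynomial (Option (Fin m)) ℝ}
    {H : LnT F → ℕ → MvPolynomial (Option (Fin m)) ℝ} {y : F.Ω → ℝ}
    {P P' : PtT F → MvPolynomial (Option (Fin m)) ℝ}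
    {R R' : LnT F → MvPolynomial (Option (Fin m)) ℝ}
    {Gx : PtT F → MvPolynomial (Option (Fin m)) ℝ}
    {Gl : LnT F → MvPolynomial (Option (Fin m)) ℝ}, i + 1 < r →
    Set.InjOn c (Set.Iio (i + 1)) → 0 < κ → 0 < Pe F.p B₀ → Sub B B₀ →
    RelvF F c (i + 1) a w g D h κ B₀ G → ChOK F c (i + 1) (fun _ => D) a w e g B G H →
    Tgt F c (i + 1) D a w q g B G y P R → Tgt F c (i + 1) D a w q' g B G y P' R' →
    (∀ y, (Gx y).totalDegree ≤ D) → (∀ s, (Gl s).totalDegree ≤ D) →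
    (∀ y, DepC c (i + 1) (Gx y)) → (∀ s, DepC c (i + 1) (Gl s)) →
    (∀ ω, B ω → Gx (ptr F J ω) = Gl (slam F w ω)) → 0 < M →
    2 ^ g i / 2 ^ q ≤ M → 2 ^ g i / 2 ^ q' ≤ M →
    (∀ ω, B ω →
      |eval (bt F ω) (dir (ek (c i)) (P' (ptr F J ω) - Gx (ptr F J ω)))| ≤ M) →
    ∃ B' : F.Ω → Prop, Sub B' B ∧ Pe F.p B ≤ Pe F.p B' + 2 * (κ * 2 ^ r * Pe F.p B₀) ∧
      ∀ ω, B' ω → ∀ b, NBx c (G (ptr F J ω)) g a (F.t ω) (i + 1) b →
        |eval b (dir (ek (c i)) (P (ptr F J ω) - Gx (ptr F J ω)))| ≤ 2 ^ (C * (h + 1)) * M ∧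
        |eval b (dir (ek (c i)) (R (slam F w ω) - Gl (slam F w ω)))| ≤ 2 ^ (C * (h + 1)) * M := by
  obtain ⟨C₁, hmix⟩ := mix_lab D r hD
  refine ⟨C₁ + 1, ?_⟩
  intro m J F c i a w e h q q' κ M g B₀ B G H y P P' R R' Gx Gl hi hc hκ hP₀ hB hR hL hT hT' d1
    d2 d3 d4 hG hM hM1 hM2 hbl
  obtain ⟨B', h1, h2, h3⟩ := hmix (F := F) (c := c) (i := i) (w := w) (e := e) (h := h)
    (κ := κ) (M := M) 1 (a := fun _ => a) (q := fun k => if k = 0 then q else q')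
    (g := fun _ => g) (B₀ := B₀) (B := B) (G := fun _ => G) (H := fun _ => H) (y := y)
    (P := fun k => if k = 0 then P else P') (R := fun k => if k = 0 then R else R') (Gx := Gx)
    (Gl := Gl) hi hc hκ hP₀ hB (fun _ _ => le_rfl) (fun _ _ => hR) (fun _ _ => hL) (fun k _ => by
      by_cases hk : k = 0
      · simp only [hk, if_true]
        exact hT
      · simp only [hk, if_false]
        exact hT') d1 d2 d3 d4 hG hM (fun k hk => by
      by_cases hk : k = 0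
      · simp only [hk, if_true]
        exact hM1
      · simp only [hk, if_false]
        exact hM2) (fun k hk => by
      by_cases hk : k = 0
      · simp only [hk, if_true]
        exact hM1
      · simp only [hk, if_false]
        exact hM2) (fun ω hω => by
      simp only [one_ne_zero, if_false]
      exact hbl ω hω)
  refine ⟨B', h1, ?_, fun ω hω b hb => ?_⟩
  · refine h2.trans (le_of_eq ?_)
    norm_num
  · obtain ⟨k1, k2⟩ := h3 ω hω b hb
    simp only [if_true] at k1 k2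
    have e1 : ((1 : ℕ) + 1 : ℝ) * 2 ^ (C₁ * (h + 1)) * M ≤ 2 ^ ((C₁ + 1) * (h + 1)) * M := by
      refine mul_le_mul_of_nonneg_right ?_ hM.le
      calc ((1 : ℕ) + 1 : ℝ) * 2 ^ (C₁ * (h + 1)) = 2 ^ (C₁ * (h + 1) + 1) := by
            rw [pow_succ]
            norm_num
            ring
        _ ≤ _ := pow_le_pow_right₀ (by norm_num) (by nlinarith)
    exact ⟨k1.trans e1, k2.trans e1⟩

/-- **A label of a coarser node as a label of a finer node.** -/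
theorem tgt_fat (D r : ℕ) : ∃ C : ℕ, ∀ {m J : ℕ} {F : Fam m J} {c : ℕ → Fin m}
    {i a a' w w' s q q' : ℕ} {g g' : ℕ → ℕ} {B : F.Ω → Prop}
    {G G' : PtT F → ℕ → MvPolynomial (Option (Fin m)) ℝ} {y : F.Ω → ℝ}
    {P : PtT F → MvPolynomial (Option (Fin m)) ℝ} {R : LnT F → MvPolynomial (Option (Fin m)) ℝ},
    i < r → Set.InjOn c (Set.Iio i) → a ≤ a' → w ≤ w' → w' ≤ J →
    (∀ y l, (G y l).totalDegree ≤ D) → (∀ y l, DepC c l (G y l)) → (∀ l < i, g l ≤ g' l + s) →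
    (∀ l < i, ∀ ω, B ω → ∀ b, NBx c (G' (ptr F J ω)) g' a' (F.t ω) l b →
      |eval b (G' (ptr F J ω) l) - eval b (G (ptr F J ω) l)| ≤ 2 ^ s / 2 ^ g l) →
    Tgt F c i D a w q g B G y P R → q' + C * (s + 1) ≤ q →
    Tgt F c i D a' w' q' g' B G' y P (fun S => R (cos F w w' S)) := by
  obtain ⟨c₀, D₁, hD₁, hdil⟩ := nbx_dil r (fun _ => D)
  refine ⟨c₀ + D₁, ?_⟩
  intro m J F c i a a' w w' s q q' g g' B G G' y P R hi hc ha hw hw' hdeg hdep hg hnr T hq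
  have pw : ∀ {x y : ℕ}, x ≤ y → (2 : ℝ) ^ x ≤ 2 ^ y := fun h => pow_le_pow_right₀ (by norm_num) h
  have hqq : q' ≤ q := by omega
  refine ⟨T.degP, fun S => T.degR _, T.depP, fun S => T.depR _, fun ω hω => ?_,
    fun ω hω b hb => ?_⟩
  · exact (T.pos ω hω).trans (one_div_le_one_div_of_le (by positivity) (pw hqq))
  · rw [cos_slam F hw hw']
    have h1 := hdil (c := c) (i := i) (G := G (ptr F J ω)) (g := g) (a := a) (t := F.t ω)
      (Q := P (ptr F J ω) - R (slam F w ω)) (M := 1 / 2 ^ q) (s + 1) hi hc (hdeg _) (hdep _)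
      (fun x z hn hx => by rw [map_sub, map_sub, T.depP _ x z hn hx, T.depR _ x z hn hx])
      ((totalDegree_sub _ _).trans (max_le (T.degP _) (T.degR _))) (by positivity)
      (fun b hb => by rw [map_sub]; exact T.agr ω hω b hb) b
      (hb.1.trans (one_div_le_one_div_of_le (by positivity) (pw ha))) fun l hl => by
        have h2 := hb.2 l hl
        have h3 := hnr l hl ω hω b ⟨hb.1, fun j hj => hb.2 j (hj.trans hl)⟩
        have h4 : (1 : ℝ) / 2 ^ g' l ≤ 2 ^ s / 2 ^ g l := by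
          rw [div_le_div_iff₀ (by positivity) (by positivity), one_mul, ← pow_add]
          exact pw (by have := hg l hl; omega)
        have e1 : b (some (c l)) - eval b (G (ptr F J ω) l) =
            (b (some (c l)) - eval b (G' (ptr F J ω) l)) +
            (eval b (G' (ptr F J ω) l) - eval b (G (ptr F J ω) l)) := by ring
        rw [e1]
        refine (abs_add_le _ _).trans ?_
        have e2 : (2 : ℝ) ^ (s + 1) / 2 ^ g l = 2 ^ s / 2 ^ g l + 2 ^ s / 2 ^ g l := by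
          rw [pow_succ]
          ring
        rw [e2]
        linarith
    rw [map_sub] at h1
    refine h1.trans ?_
    rw [mul_one_div, div_le_div_iff₀ (by positivity) (by positivity), one_mul, ← pow_add]
    refine pw ?_
    have h5 : c₀ + (s + 1) * D₁ ≤ (c₀ + D₁) * (s + 1) := by nlinarith [Nat.zero_le (c₀ * s)]
    omega

/-- **The mixed derivative of the label of a static node**: the labels of the target at the nodes
`0, …, n` with the window `w`, and a blind closed label of a finer node `(a', w')`. -/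
theorem mx_node (D r : ℕ) (hD : 1 ≤ D) : ∃ C : ℕ, ∀ {m J : ℕ} {F : Fam m J} {c : ℕ → Fin m}
    {i w e h s : ℕ} {κ M : ℝ} (n : ℕ) {a q : ℕ → ℕ} {g : ℕ → ℕ → ℕ} {B₀ B : F.Ω → Prop}
    {G : ℕ → PtT F → ℕ → MvPolynomial (Option (Fin m)) ℝ}
    {H : ℕ → LnT F → ℕ → MvPolynomial (Option (Fin m)) ℝ} {y : F.Ω → ℝ}
    {P : ℕ → PtT F → MvPolynomial (Option (Fin m)) ℝ}
    {R : ℕ → LnT F → MvPolynomial (Option (Fin m)) ℝ}
    {a' w' e' q' : ℕ} {g' : ℕ → ℕ} {G' : PtT F → ℕ → MvPolynomial (Option (Fin m)) ℝ}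
    {H' : LnT F → ℕ → MvPolynomial (Option (Fin m)) ℝ}
    {P' : PtT F → MvPolynomial (Option (Fin m)) ℝ}
    {R' : LnT F → MvPolynomial (Option (Fin m)) ℝ}
    {Gx : PtT F → MvPolynomial (Option (Fin m)) ℝ}
    {Gl : LnT F → MvPolynomial (Option (Fin m)) ℝ}, i + 1 < r → Set.InjOn c (Set.Iio (i + 1)) →
    0 < κ → 0 < Pe F.p B₀ → Sub B B₀ → (∀ k < n, a k ≤ a (k + 1)) →
    (∀ k ≤ n, RelvF F c (i + 1) (a k) w (g k) D h κ B₀ (G k)) →
    (∀ k ≤ n, ChOK F c (i + 1) (fun _ => D) (a k) w e (g k) B (G k) (H k)) →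
    (∀ k ≤ n, Tgt F c (i + 1) D (a k) w (q k) (g k) B (G k) y (P k) (R k)) →
    a n ≤ a' → w ≤ w' → w' ≤ J → RelvF F c (i + 1) a' w' g' D h κ B₀ G' →
    ChOK F c (i + 1) (fun _ => D) a' w' e' g' B G' H' → (∀ l < i + 1, g n l ≤ g' l + s) →
    (∀ l < i + 1, ∀ ω, B ω → ∀ b, NBx c (G' (ptr F J ω)) g' a' (F.t ω) l b →
      |eval b (G' (ptr F J ω) l) - eval b (G n (ptr F J ω) l)| ≤ 2 ^ s / 2 ^ g n l) →
    Tgt F c (i + 1) D a' w' q' g' B G' y P' R' →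
    (∀ y, (Gx y).totalDegree ≤ D) → (∀ s, (Gl s).totalDegree ≤ D) →
    (∀ y, DepC c (i + 1) (Gx y)) → (∀ s, DepC c (i + 1) (Gl s)) →
    (∀ ω, B ω → Gx (ptr F J ω) = Gl (slam F w ω)) → 0 < M →
    (∀ k < n, 2 ^ g (k + 1) i / 2 ^ q k ≤ M) → (∀ k ≤ n, 2 ^ g k i / 2 ^ q k ≤ M) →
    C * (s + 1) ≤ q n → 2 ^ (g' i + C * (s + 1)) / 2 ^ q n ≤ M → 2 ^ g' i / 2 ^ q' ≤ M →
    (∀ ω, B ω →
      |eval (bt F ω) (dir (ek (c i)) (P' (ptr F J ω) - Gx (ptr F J ω)))| ≤ M) →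
    ∃ B' : F.Ω → Prop, Sub B' B ∧
      Pe F.p B ≤ Pe F.p B' + (n + 2) * (κ * 2 ^ r * Pe F.p B₀) ∧ ∀ ω, B' ω →
        ∀ b, NBx c (G 0 (ptr F J ω)) (g 0) (a 0) (F.t ω) (i + 1) b →
          |eval b (dir (ek (c i)) (P 0 (ptr F J ω) - Gx (ptr F J ω)))| ≤
            (n + 1) * 2 ^ (C * (h + 1)) * M ∧
          |eval b (dir (ek (c i)) (R 0 (slam F w ω) - Gl (slam F w ω)))| ≤
            (n + 1) * 2 ^ (C * (h + 1)) * M := by
  obtain ⟨C₁, hmix⟩ := mix_lab D r hD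
  obtain ⟨C₂, htwo⟩ := two_dir D r hD
  obtain ⟨C₃, hfat⟩ := tgt_fat D r
  refine ⟨C₁ + C₂ + C₃ + 2, ?_⟩
  intro m J F c i w e h s κ M n a q g B₀ B G H y P R a' w' e' q' g' G' H' P' R' Gx Gl hi hc hκ hP₀
    hB ha hR hL hT haa hww hwJ hR' hL' hgg hnr hT' d1 d2 d3 d4 hG hM hM1 hM2 hq hM3 hM4 hbl
  have pw : ∀ {x y : ℕ}, x ≤ y → (2 : ℝ) ^ x ≤ 2 ^ y := fun h => pow_le_pow_right₀ (by norm_num) h
  obtain ⟨Cs, hCs⟩ : ∃ Cs, Cs = C₁ + C₂ + C₃ + 2 := ⟨_, rfl⟩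
  rw [← hCs] at hq hM3 ⊢
  have hC3 : C₃ * (s + 1) ≤ Cs * (s + 1) := Nat.mul_le_mul_right _ (by omega)
  obtain ⟨q'', hq''⟩ : ∃ q'', q'' = q n - C₃ * (s + 1) := ⟨_, rfl⟩
  have hTf := hfat (F := F) (c := c) (i := i + 1) (a := a n) (a' := a') (w := w) (w' := w')
    (s := s) (q := q n) (q' := q'') (g := g n) (g' := g') (B := B) (G := G n) (G' := G')
    (y := y) (P := P n) (R := R n) hi hc haa hww hwJ (hL n le_rfl).degG (hL n le_rfl).depG hgg hnr
    (hT n le_rfl) (by omega)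
  obtain ⟨B₁, b1, b2, b3⟩ := htwo hi hc hκ hP₀ hB hR' hL' hTf hT'
  obtain ⟨M', hM'⟩ : ∃ M' : ℝ, M' = 2 ^ (C₂ * (h + 1) + 2) * M := ⟨_, rfl⟩
  have hM'0 : 0 < M' := by rw [hM']; positivity
  have hMM' : M ≤ M' := by
    rw [hM']
    exact le_mul_of_one_le_left hM.le (one_le_pow₀ (by norm_num))
  have h5 : (2 : ℝ) ^ g' i / 2 ^ q'' ≤ M := by
    refine le_trans ?_ hM3
    rw [div_le_div_iff₀ (by positivity) (by positivity), ← pow_add, ← pow_add]
    exact pw (by omega)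
  obtain ⟨B', k1, k2, k3⟩ := hmix (M := M') n hi hc hκ hP₀ (fun ω hω => hB ω (b1 ω hω)) ha hR
    (fun k hk => (hL k hk).sub b1) (fun k hk => (hT k hk).sub b1) d1 d2 d3 d4
    (fun ω hω => hG ω (b1 ω hω)) hM'0 (fun k hk => (hM1 k hk).trans hMM')
    (fun k hk => (hM2 k hk).trans hMM') (fun ω hω => by
      have hω' := b1 ω hω
      have h1 := (b3 ω hω (bt F ω) (hL'.self hω' le_rfl)).2
      have h2 := hbl ω hω'
      rw [dir_sub, map_sub] at h2 ⊢
      have e1 : eval (bt F ω) (dir (ek (c i)) (P n (ptr F J ω))) -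
          eval (bt F ω) (dir (ek (c i)) (Gx (ptr F J ω))) =
          (eval (bt F ω) (dir (ek (c i)) (P n (ptr F J ω))) -
          eval (bt F ω) (dir (ek (c i)) (P' (ptr F J ω)))) +
          (eval (bt F ω) (dir (ek (c i)) (P' (ptr F J ω))) -
          eval (bt F ω) (dir (ek (c i)) (Gx (ptr F J ω)))) := by ring
      rw [e1]
      refine (abs_add_le _ _).trans ((add_le_add h1 h2).trans ?_)
      have e2 : (2 : ℝ) ^ (C₂ * (h + 1)) * (1 / 2 ^ q'' + 1 / 2 ^ q') * 2 ^ g' i =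
          2 ^ (C₂ * (h + 1)) * (2 ^ g' i / 2 ^ q'' + 2 ^ g' i / 2 ^ q') := by ring
      rw [e2, hM']
      have e3 : (1 : ℝ) ≤ 2 ^ (C₂ * (h + 1)) := one_le_pow₀ (by norm_num)
      have e4 : (2 : ℝ) ^ (C₂ * (h + 1)) * (2 ^ g' i / 2 ^ q'' + 2 ^ g' i / 2 ^ q') ≤
          2 ^ (C₂ * (h + 1)) * (M + M) :=
        mul_le_mul_of_nonneg_left (add_le_add h5 hM4) (by positivity)
      have e5 : M ≤ 2 ^ (C₂ * (h + 1)) * M := le_mul_of_one_le_left hM.le e3
      calc 2 ^ (C₂ * (h + 1)) * (2 ^ g' i / 2 ^ q'' + 2 ^ g' i / 2 ^ q') + M ≤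
          2 ^ (C₂ * (h + 1)) * (M + M) + 2 ^ (C₂ * (h + 1)) * M := add_le_add e4 e5
        _ ≤ _ := by
          rw [pow_add _ _ 2]
          have : 0 ≤ (2 : ℝ) ^ (C₂ * (h + 1)) * M := by positivity
          nlinarith)
  refine ⟨B', fun ω hω => b1 ω (k1 ω hω), ?_, fun ω hω b hb => ?_⟩
  · have : ((n : ℝ) + 2) * (κ * 2 ^ r * Pe F.p B₀) = (n + 1) * (κ * 2 ^ r * Pe F.p B₀) +
        κ * 2 ^ r * Pe F.p B₀ := by ring
    rw [this]
    linarith
  · obtain ⟨k4, k5⟩ := k3 ω hω b hb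
    have e1 : ((n : ℝ) + 1) * 2 ^ (C₁ * (h + 1)) * M' ≤ (n + 1) * 2 ^ (Cs * (h + 1)) * M := by
      rw [hM', ← mul_assoc, mul_assoc ((n : ℝ) + 1)]
      refine mul_le_mul_of_nonneg_right (mul_le_mul_of_nonneg_left ?_ (by positivity)) hM.le
      rw [← pow_add]
      refine pw ?_
      rw [hCs]
      nlinarith [Nat.zero_le (C₃ * (h + 1))]
    exact ⟨k4.trans e1, k5.trans e1⟩

end Pool.STB65
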