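import Pool.Agent.H65.STB.Evt

/-!
# Down the chain of balls

`down`: a natural polynomial which is near the last polynomial of a chain is near all of them.
-/

set_option autoImplicit false

namespace Pool.STB65

open Finset Real MvPolynomial
open Pool.STB (V3 Po Bx Hb hom_smul)

/-- The power of a quotient. -/
theorem pow_quo {x : ℝ} (hx : 0 < x) {b n : ℕ} (h : n ≤ b) : x ^ b * (1 / x) ^ n = x ^ (b - n) := by
  obtain ⟨d, rfl⟩ : ∃ d, b = n + d := ⟨b - n, by omega⟩
  rw [pow_add, Nat.add_sub_cancel_left, one_div, inv_pow]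
  field_simp

/-- **Down the chain.** -/
theorem down (K b N : ℕ) : ∃ C : ℝ, 1 ≤ C ∧ ∀ (f : ℕ → Po) (T : Po) (ε : ℕ → ℝ) (U Θ : ℝ),
    T.totalDegree ≤ K → (∀ i ≤ N, (f i).totalDegree ≤ K) → (∀ i ≤ N, 0 < ε i ∧ ε i ≤ 1) →
    1 ≤ U → 1 ≤ Θ → (∀ i < N, ε (i + 1) ≤ ε i ∧ ε i ≤ Θ * ε (i + 1)) →
    (∀ q, Bx 1 q → |eval q (f 0)| ≤ U) →
    (∀ i < N, ∀ q, Bx (ε (i + 1)) q → |eval q (f (i + 1)) - eval q (f i)| ≤ U * ε i ^ b) →
    (∀ q, Bx 1 q → |eval q T| ≤ U) →
    (∀ q, Bx (ε N) q → |eval q T - eval q (f N)| ≤ U * ε N ^ b) →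
    ∀ j ≤ N, ∀ q, Bx (ε j) q → |eval q T - eval q (f j)| ≤ C * U * Θ ^ b * ε j ^ b := by
  classical
  choose Cc hCc hcc using fun j => chain_hc K b j
  obtain ⟨C₁, hC₁, hnear⟩ := hc_near K
  obtain ⟨C₂, hC₂, hle⟩ := hc_le K
  obtain ⟨S, hS⟩ : ∃ S : ℝ, S = ∑ j ∈ range (N + 1), Cc j := ⟨_, rfl⟩
  have hCj : ∀ j ≤ N, Cc j ≤ S := by
    intro j hj
    rw [hS]
    exact Finset.single_le_sum (f := Cc) (fun i _ => by linarith [hCc i])
      (mem_range.2 (Nat.lt_succ_of_le hj))
  have hS1 : 1 ≤ S := (hCc 0).trans (hCj 0 (Nat.zero_le _))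
  obtain ⟨C₃, hC₃⟩ : ∃ C₃ : ℝ, C₃ = C₂ + S + (N + 1) * C₁ := ⟨_, rfl⟩
  have hN0 : (0 : ℝ) ≤ N := Nat.cast_nonneg N
  have hK0 : (0 : ℝ) ≤ K := Nat.cast_nonneg K
  have hC31 : 1 ≤ C₃ := by
    rw [hC₃]
    nlinarith
  refine ⟨(K + 1) * C₃, by nlinarith, ?_⟩
  intro f T ε U Θ hT hf hε hU hΘ hr h0 hs hTb hTn j hj q hq
  obtain ⟨hεj, hεj1⟩ := hε j hj
  have hΘb : 1 ≤ Θ ^ b := one_le_pow₀ hΘ
  obtain ⟨z, hz⟩ : ∃ z : V3, z = (ε j)⁻¹ • q := ⟨_, rfl⟩
  have hqz : q = ε j • z := by
    rw [hz, smul_smul, mul_inv_cancel₀ hεj.ne', one_smul]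
  have hz1 : Bx 1 z := by
    rw [hz]
    refine bxm (bx_smul hq (inv_nonneg.2 hεj.le)) (le_of_eq ?_)
    rw [inv_mul_cancel₀ hεj.ne']
  have hmono : ∀ i k, i ≤ k → k ≤ N → ε k ≤ ε i := by
    intro i k hik
    induction k, hik using Nat.le_induction with
    | base => exact fun _ => le_rfl
    | succ k hik ih => exact fun hk => (hr k (by omega)).1.trans (ih (by omega))
  -- one component
  have hcomp : ∀ n ∈ range (K + 1), |eval q (homogeneousComponent n T) -
      eval q (homogeneousComponent n (f j))| ≤ C₃ * U * Θ ^ b * ε j ^ b := by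
    intro n _
    rw [hqz, hom_smul (homogeneousComponent_isHomogeneous n T),
      hom_smul (homogeneousComponent_isHomogeneous n (f j)), ← mul_sub, abs_mul,
      abs_of_pos (by positivity : (0 : ℝ) < ε j ^ n)]
    rcases Nat.lt_or_ge n b with hn | hn
    · -- the low orders
      have hsum : ∀ k, j ≤ k → k ≤ N → |eval z (homogeneousComponent n (f k)) -
          eval z (homogeneousComponent n (f j))| ≤
            ((k - j : ℕ) : ℝ) * (C₁ * U * Θ ^ b * ε j ^ (b - n)) := by
        intro k hjk
        induction k, hjk using Nat.le_induction with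
        | base =>
          intro _
          simp
        | succ k hjk ih =>
          intro hk
          have h1 := ih (by omega)
          obtain ⟨e1, e1'⟩ := hε k (by omega)
          obtain ⟨e2, e2'⟩ := hε (k + 1) hk
          have h2 := hnear (f (k + 1)) (f k) (U * ε k ^ b) (ε (k + 1)) (hf _ hk) (hf _ (by omega))
            e2 (hs k (by omega)) n z hz1
          have h3 : C₁ * (U * ε k ^ b) * (1 / ε (k + 1)) ^ n ≤ C₁ * U * Θ ^ b * ε j ^ (b - n) := by
            have h4 : (1 / ε (k + 1)) ^ n ≤ Θ ^ b * (1 / ε k) ^ n := by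
              have h5 : 1 / ε (k + 1) ≤ Θ * (1 / ε k) := by
                rw [mul_one_div, div_le_div_iff₀ e2 e1, one_mul]
                exact (hr k (by omega)).2
              calc (1 / ε (k + 1)) ^ n ≤ (Θ * (1 / ε k)) ^ n := pow_le_pow_left₀ (by positivity) h5 n
                _ = Θ ^ n * (1 / ε k) ^ n := mul_pow _ _ _
                _ ≤ _ := mul_le_mul_of_nonneg_right (pow_le_pow_right₀ hΘ hn.le) (by positivity)
            have h6 : ε k ^ b * (1 / ε k) ^ n ≤ ε j ^ (b - n) := by
              rw [pow_quo e1 hn.le]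
              exact pow_le_pow_left₀ e1.le (hmono j k hjk (by omega)) _
            calc C₁ * (U * ε k ^ b) * (1 / ε (k + 1)) ^ n ≤
                C₁ * (U * ε k ^ b) * (Θ ^ b * (1 / ε k) ^ n) :=
                  mul_le_mul_of_nonneg_left h4 (by positivity)
              _ = C₁ * U * Θ ^ b * (ε k ^ b * (1 / ε k) ^ n) := by ring
              _ ≤ _ := mul_le_mul_of_nonneg_left h6 (by positivity)
          have e3 : eval z (homogeneousComponent n (f (k + 1))) -
              eval z (homogeneousComponent n (f j)) =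
              (eval z (homogeneousComponent n (f (k + 1))) -
                eval z (homogeneousComponent n (f k))) +
              (eval z (homogeneousComponent n (f k)) -
                eval z (homogeneousComponent n (f j))) := by ring
          rw [e3, show k + 1 - j = (k - j) + 1 by omega]
          refine (abs_add_le _ _).trans ?_
          push_cast
          linarith
      have h1 := hsum N hj le_rfl
      obtain ⟨e1, e1'⟩ := hε N le_rfl
      have h2 := hnear T (f N) (U * ε N ^ b) (ε N) hT (hf _ le_rfl) e1 hTn n z hz1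
      have h3 : C₁ * (U * ε N ^ b) * (1 / ε N) ^ n ≤ C₁ * U * Θ ^ b * ε j ^ (b - n) := by
        have h6 : ε N ^ b * (1 / ε N) ^ n ≤ ε j ^ (b - n) := by
          rw [pow_quo e1 hn.le]
          exact pow_le_pow_left₀ e1.le (hmono j N hj le_rfl) _
        calc C₁ * (U * ε N ^ b) * (1 / ε N) ^ n = C₁ * U * (ε N ^ b * (1 / ε N) ^ n) := by ring
          _ ≤ C₁ * U * (Θ ^ b * ε j ^ (b - n)) := by
              refine mul_le_mul_of_nonneg_left ?_ (by positivity)
              exact h6.trans (le_mul_of_one_le_left (by positivity) hΘb)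
          _ = _ := by ring
      have e3 : eval z (homogeneousComponent n T) - eval z (homogeneousComponent n (f j)) =
          (eval z (homogeneousComponent n T) - eval z (homogeneousComponent n (f N))) +
          (eval z (homogeneousComponent n (f N)) - eval z (homogeneousComponent n (f j))) := by
        ring
      have h4 : |eval z (homogeneousComponent n T) - eval z (homogeneousComponent n (f j))| ≤
          (N + 1) * C₁ * (U * Θ ^ b * ε j ^ (b - n)) := by
        rw [e3]
        refine (abs_add_le _ _).trans ?_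
        have h5 : ((N - j : ℕ) : ℝ) ≤ N := by exact_mod_cast Nat.sub_le N j
        have h6 : 0 ≤ C₁ * U * Θ ^ b * ε j ^ (b - n) := by positivity
        have h7 := mul_le_mul_of_nonneg_right h5 h6
        nlinarith
      have h5 : ε j ^ n * ε j ^ (b - n) = ε j ^ b := by
        rw [← pow_add]
        congr 1
        omega
      calc ε j ^ n * |eval z (homogeneousComponent n T) - eval z (homogeneousComponent n (f j))| ≤
          ε j ^ n * ((N + 1) * C₁ * (U * Θ ^ b * ε j ^ (b - n))) :=
            mul_le_mul_of_nonneg_left h4 (by positivity)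
        _ = (N + 1) * C₁ * (U * Θ ^ b * (ε j ^ n * ε j ^ (b - n))) := by ring
        _ = (N + 1) * C₁ * (U * Θ ^ b * ε j ^ b) := by rw [h5]
        _ ≤ C₃ * (U * Θ ^ b * ε j ^ b) := by
            refine mul_le_mul_of_nonneg_right ?_ (by positivity)
            rw [hC₃]
            linarith
        _ = _ := by ring
    · -- the high orders
      have h1 := hle T U 1 1 hT one_pos one_pos hTb n z hz1
      rw [div_one, one_pow, mul_one] at h1
      have h2 := hcc j f ε U Θ (fun i hi => hf i (by omega)) (fun i hi => hε i (by omega)) hU hΘ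
        (fun i hi => hr i (by omega)) h0 (fun i hi => hs i (by omega)) n z hz1
      have h3 : max 1 (ε j ^ b * (1 / ε j) ^ n) = ε j ^ b * (1 / ε j) ^ n := by
        refine max_eq_right ?_
        obtain ⟨d, rfl⟩ : ∃ d, n = b + d := ⟨n - b, by omega⟩
        rw [pow_add, ← mul_assoc, ← mul_pow, mul_one_div, div_self hεj.ne', one_pow, one_mul]
        exact one_le_pow₀ (by rwa [le_div_iff₀ hεj, one_mul])
      rw [h3] at h2
      have h4 : ε j ^ n ≤ ε j ^ b := pow_le_pow_of_le_one hεj.le hεj1 hn
      have h5 : ε j ^ n * (1 / ε j) ^ n = 1 := by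
        rw [← mul_pow, mul_one_div, div_self hεj.ne', one_pow]
      calc ε j ^ n * |eval z (homogeneousComponent n T) - eval z (homogeneousComponent n (f j))| ≤
          ε j ^ n * (C₂ * U + Cc j * U * Θ ^ b * (ε j ^ b * (1 / ε j) ^ n)) := by
            refine mul_le_mul_of_nonneg_left ?_ (by positivity)
            refine (abs_sub _ _).trans (add_le_add h1 h2)
        _ = ε j ^ n * (C₂ * U) + Cc j * U * Θ ^ b * ε j ^ b * (ε j ^ n * (1 / ε j) ^ n) := by ring
        _ ≤ ε j ^ b * (C₂ * U) + Cc j * U * Θ ^ b * ε j ^ b := by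
            rw [h5, mul_one]
            have := mul_le_mul_of_nonneg_right h4 (by positivity : 0 ≤ C₂ * U)
            linarith
        _ ≤ C₂ * U * Θ ^ b * ε j ^ b + S * U * Θ ^ b * ε j ^ b := by
            refine add_le_add ?_ ?_
            · calc ε j ^ b * (C₂ * U) = C₂ * U * ε j ^ b * 1 := by ring
                _ ≤ C₂ * U * ε j ^ b * Θ ^ b := mul_le_mul_of_nonneg_left hΘb (by positivity)
                _ = _ := by ring
            · refine mul_le_mul_of_nonneg_right ?_ (by positivity)
              refine mul_le_mul_of_nonneg_right ?_ (by positivity)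
              exact mul_le_mul_of_nonneg_right (hCj j hj) (by linarith)
        _ = (C₂ + S) * (U * Θ ^ b * ε j ^ b) := by ring
        _ ≤ C₃ * (U * Θ ^ b * ε j ^ b) := by
            refine mul_le_mul_of_nonneg_right ?_ (by positivity)
            rw [hC₃]
            nlinarith
        _ = _ := by ring
  rw [sum_hc T hT q, sum_hc (f j) (hf j hj) q, ← Finset.sum_sub_distrib]
  refine (Finset.abs_sum_le_sum_abs _ _).trans ((Finset.sum_le_sum hcomp).trans (le_of_eq ?_))
  rw [Finset.sum_const, card_range, nsmul_eq_mul]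
  push_cast
  ring

end Pool.STB65
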