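import Pool.Agent.H65.STB.Nso

/-!
# Gradients on the natural boxes

`seg_box`: short segments in the direction of a coordinate. `grd_box`: the derivatives of a
polynomial which is bounded on a natural box. `tgd_of`: the derivatives of the closed part of the
target.
-/

set_option autoImplicit false

namespace Pool.STB65

open Finset Real MvPolynomial
open Pool.Agent.H49.Ent Pool.Agent.H32.Dense Pool.STK Pool.KA Pool.KSAT Pool.K2S Pool.PB Pool.S6C
open Pool.GEN Pool.CHT Pool.NVX
open Pool.ALT (sbu sbu_eval sbu_deg)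
open Pool.SHR (dir mvp mvp_none mvp_some mvp_zero mvp_add dep_mvp meanv markov)

variable {m J : ℕ}

/-- **Short segments** in the direction of a coordinate. -/
theorem seg_box (D r : ℕ) : ∃ C : ℕ, ∀ {m : ℕ} {c : ℕ → Fin m} {i l a e T : ℕ} {g : ℕ → ℕ} {t : ℝ}
    {G : ℕ → MvPolynomial (Option (Fin m)) ℝ}, i < r → l < i → Set.InjOn c (Set.Iio i) →
    (∀ j, (G j).totalDegree ≤ D) → (∀ j, DepC c j (G j)) → (∀ j, l ≤ j → j < i → g j ≤ T) →
    (∀ j < i, l < j → ∀ b, NBx c G g a t j b →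
      |eval b (pderiv (some (c l)) (G j))| ≤ 2 ^ (e + nlp g l j)) →
    ∀ b, NBx c G g a t i b → ∀ s : ℝ, |s| ≤ 1 / 2 ^ (C + e + T) →
      |mvp (ek (c l)) s b none - t| ≤ 1 / 2 ^ a ∧ ∀ j < i,
        |mvp (ek (c l)) s b (some (c j)) - eval (mvp (ek (c l)) s b) (G j)| ≤ 2 ^ 1 / 2 ^ g j := by
  obtain ⟨c₀, D₁, hD₁, hdil⟩ := nbx_dil r (fun _ => D)
  refine ⟨c₀ + D₁, ?_⟩
  intro m c i l a e T g t G hi hli hc hdeg hdep hT hlip b hb
  have pw : ∀ {x y : ℕ}, x ≤ y → (2 : ℝ) ^ x ≤ 2 ^ y := fun h => pow_le_pow_right₀ (by norm_num) h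
  have hv : ∀ j < l, ek (c l) (c j) = 0 := fun j hj => ek_ne fun h => by
    have := hc (show j < i by omega) hli h
    omega
  have hv' : ∀ j < i, j ≠ l → ek (c l) (c j) = 0 := fun j hj hjl => ek_ne fun h => hjl (hc hj hli h)
  have hT0 : ∀ j, l ≤ j → j < i → (1 : ℝ) / 2 ^ (c₀ + D₁ + e + T) ≤ 1 / 2 ^ g j := fun j h1 h2 =>
    one_div_le_one_div_of_le (by positivity) (pw (by have := hT j h1 h2; omega))
  have key : ∀ n, ∀ j < n, j < i → ∀ s : ℝ, |s| ≤ 1 / 2 ^ (c₀ + D₁ + e + T) →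
      |mvp (ek (c l)) s b (some (c j)) - eval (mvp (ek (c l)) s b) (G j)| ≤ 2 ^ 1 / 2 ^ g j := by
    intro n
    induction n with
    | zero => exact fun j hj => absurd hj (Nat.not_lt_zero j)
    | succ n ih =>
      intro j hj hji s hs
      have h2 : (2 : ℝ) ^ 1 / 2 ^ g j = 1 / 2 ^ g j + 1 / 2 ^ g j := by ring
      have hb' := hb.2 j hji
      rcases lt_trichotomy j l with h | h | h
      · rw [mvp_some, dep_mvp (fun k hk => hv k (by omega)) (hdep j), hv j h, mul_zero, add_zero, h2]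
        have : (0 : ℝ) ≤ 1 / 2 ^ g j := by positivity
        linarith
      · subst h
        rw [mvp_some, dep_mvp (fun k hk => hv k hk) (hdep j), ek_self, mul_one, h2]
        have e1 : b (some (c j)) + s - eval b (G j) = (b (some (c j)) - eval b (G j)) + s := by ring
        rw [e1]
        exact (abs_add_le _ _).trans (add_le_add hb' (hs.trans (hT0 j le_rfl hji)))
      · rw [mvp_some, hv' j hji (by omega), mul_zero, add_zero]
        have h3 : |eval (mvp (ek (c l)) s b) (G j) - eval b (G j) - 0 * s| ≤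
            2 ^ (c₀ + D₁ + (e + nlp g l j)) * |s| := by
          refine Pool.SHR.meanv (ek (c l)) b (G j) (x := 0) fun s' hs' => ?_
          rw [sub_zero, dir_ek]
          have h4 := hdil (c := c) (i := j) (G := G) (Q := pderiv (some (c l)) (G j)) (g := g)
            (a := a) (t := t) (M := 2 ^ (e + nlp g l j)) 1 (by omega)
            (hc.mono fun x (hx : x < j) => show x < i by omega) hdeg hdep ((hdep j).pderiv l)
            (Pool.KS3.SML.totalDegree_pderiv_le _ _ D ((hdeg j).trans (Nat.le_succ _)))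
            (by positivity) (hlip j hji h) (mvp (ek (c l)) s' b)
            (by rw [mvp_none]; exact hb.1) fun k hk => ih k (by omega) (by omega) s' (hs'.trans hs)
          rw [one_mul, ← pow_add] at h4
          exact h4
        rw [zero_mul, sub_zero] at h3
        have h5 : (2 : ℝ) ^ (c₀ + D₁ + (e + nlp g l j)) * |s| ≤ 1 / 2 ^ g j := by
          refine (mul_le_mul_of_nonneg_left hs (by positivity)).trans ?_
          rw [mul_one_div, div_le_div_iff₀ (by positivity) (by positivity), one_mul, ← pow_add]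
          refine pw ?_
          have h6 : (Finset.Icc l j).sup g ≤ T := Finset.sup_le fun k hk => by
            rw [Finset.mem_Icc] at hk
            exact hT k hk.1 (by omega)
          have h7 : g j ≤ (Finset.Icc l j).sup g :=
            Finset.le_sup (f := g) (Finset.mem_Icc.2 ⟨h.le, le_rfl⟩)
          unfold nlp
          omega
        have e1 : b (some (c j)) - eval (mvp (ek (c l)) s b) (G j) =
            (b (some (c j)) - eval b (G j)) - (eval (mvp (ek (c l)) s b) (G j) - eval b (G j)) := by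
          ring
        rw [e1, h2]
        exact (abs_sub _ _).trans (add_le_add hb' (h3.trans h5))
  exact fun s hs => ⟨by rw [mvp_none]; exact hb.1, fun j hj => key (j + 1) j (Nat.lt_succ_self j) hj s hs⟩

/-- **The derivatives of a polynomial which is bounded on a natural box.** -/
theorem grd_box (D r : ℕ) : ∃ C : ℕ, ∀ {m : ℕ} {c : ℕ → Fin m} {i l a e T : ℕ} {g : ℕ → ℕ} {t : ℝ}
    {G : ℕ → MvPolynomial (Option (Fin m)) ℝ} {Q : MvPolynomial (Option (Fin m)) ℝ} {M : ℝ},
    i < r → l < i → Set.InjOn c (Set.Iio i) →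
    (∀ j, (G j).totalDegree ≤ D) → (∀ j, DepC c j (G j)) → (∀ j, l ≤ j → j < i → g j ≤ T) →
    (∀ j < i, l < j → ∀ b, NBx c G g a t j b →
      |eval b (pderiv (some (c l)) (G j))| ≤ 2 ^ (e + nlp g l j)) →
    DepC c i Q → Q.totalDegree ≤ D → 0 ≤ M → (∀ b, NBx c G g a t i b → |eval b Q| ≤ M) →
    ∀ b, NBx c G g a t i b → |eval b (pderiv (some (c l)) Q)| ≤ 2 ^ (C + e + T) * M := by
  obtain ⟨C₁, hseg⟩ := seg_box D r
  obtain ⟨c₀, D₁, hD₁, hdil⟩ := nbx_dil r (fun _ => D)
  obtain ⟨Cm, hCm, hmar⟩ := markov D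
  obtain ⟨c₁, hc₁⟩ := pow_unbounded_of_one_lt Cm (one_lt_two (α := ℝ))
  refine ⟨c₁ + (c₀ + D₁) + C₁, ?_⟩
  intro m c i l a e T g t G Q M hi hli hc hdeg hdep hT hlip hQ hQd hM hQM b hb
  have h1 := hmar (ek (c l)) b Q (2 ^ (c₀ + D₁) * M) (C₁ + e + T) hQd (by positivity)
    fun s hs0 hs1 => by
      obtain ⟨k1, k2⟩ := hseg hi hli hc hdeg hdep hT hlip b hb s (by rw [abs_of_nonneg hs0]; exact hs1)
      have h2 := hdil (c := c) (i := i) (G := G) (Q := Q) (g := g) (a := a) (t := t) (M := M) 1 hi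
        hc hdeg hdep hQ hQd hM hQM (mvp (ek (c l)) s b) k1 k2
      rw [one_mul] at h2
      exact h2
  rw [dir_ek] at h1
  refine h1.trans ?_
  calc Cm * (2 ^ (c₀ + D₁) * M) * 2 ^ (C₁ + e + T) ≤
      2 ^ c₁ * (2 ^ (c₀ + D₁) * M) * 2 ^ (C₁ + e + T) := by
        have : Cm ≤ 2 ^ c₁ := hc₁.le
        gcongr
    _ = 2 ^ (c₁ + (c₀ + D₁) + C₁ + e + T) * M := by
        rw [show c₁ + (c₀ + D₁) + C₁ + e + T = c₁ + (c₀ + D₁) + (C₁ + e + T) by ring, pow_add,
          pow_add]
        ring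

end Pool.STB65
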