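import Pool.Agent.H65.STB.Jet0

/-!
# The jets of a class

`jet_ev`: the input `InpP` (positions), `InpF` (polynomials of the target); on a large sub-event, for
all the windows: closed centres, closed positions and closed Taylor polynomials behind the window,
with the rounded homogeneous polynomial of the line.
-/

set_option autoImplicit false

namespace Pool.STB65

open Finset Real MvPolynomial
open Pool.Agent.H49.Ent Pool.Agent.H32.Dense Pool.STK Pool.KA Pool.KSAT Pool.K2S Pool.PB Pool.S6C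
open Pool.GEN Pool.D2Con Pool.D2A Pool.RCD
open Pool.STB (V3 Po Bx Hb)
open Pool.PB.Trl (rt rt_mem t_rt)
open Pool.FLF (Fam.sub)
open Pool.Agent.H36.KBX (bx mem_bx support_bx coef_bound eval_bound der_bound)

variable {m J : ℕ}

/-- The unit of the target in a window. -/
noncomputable def nu (κ R : ℝ) (b : ℕ) : ℝ := κ * R⁻¹ ^ b

theorem nu_pos {κ R : ℝ} (hκ : 0 < κ) (hR : 0 < R) (b : ℕ) : 0 < nu κ R b := by
  unfold nu
  positivity

/-- The visible Taylor polynomial. -/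
noncomputable def vj (ν R : ℝ) (b : ℕ) (xo ctr : V3) (f : Po) : Po :=
  C (1 / ν) * trs (-xo) (low b (trs xo (scl R⁻¹ (trs ctr f))))

theorem eval_vj (ν R : ℝ) (b : ℕ) (xo ctr : V3) (f : Po) (q : V3) : eval q (vj ν R b xo ctr f) =
    1 / ν * eval (q - xo) (low b (trs xo (scl R⁻¹ (trs ctr f)))) := by
  unfold vj
  rw [map_mul, eval_C, eval_trs, ← sub_eq_add_neg]

theorem deg_vj (ν R : ℝ) {b : ℕ} (hb : 1 ≤ b) (xo ctr : V3) (f : Po) :
    (vj ν R b xo ctr f).totalDegree ≤ b - 1 := by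
  unfold vj
  refine (totalDegree_mul _ _).trans ?_
  rw [totalDegree_C, zero_add]
  exact (deg_trs _ _).trans (deg_low hb _)

/-- The closed Taylor polynomial. -/
noncomputable def cj (ν R : ℝ) (b : ℕ) (ctr : V3) (Kt : Po) : Po :=
  C (1 / ν) * low b (scl R⁻¹ (trs ctr Kt))

theorem eval_cj (ν R : ℝ) (b : ℕ) (ctr : V3) (Kt : Po) (q : V3) : eval q (cj ν R b ctr Kt) =
    1 / ν * eval q (low b (scl R⁻¹ (trs ctr Kt))) := by
  unfold cj
  rw [map_mul, eval_C]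

theorem deg_cj (ν R : ℝ) {b : ℕ} (hb : 1 ≤ b) (ctr : V3) (Kt : Po) :
    (cj ν R b ctr Kt).totalDegree ≤ b - 1 := by
  unfold cj
  refine (totalDegree_mul _ _).trans ?_
  rw [totalDegree_C, zero_add]
  exact deg_low hb _

/-- The homogeneous polynomial at the point `p`, in units `κ`. -/
noncomputable def hk (κ : ℝ) (b : ℕ) (p : V3) (Kt : Po) : Po :=
  C (1 / κ) * homogeneousComponent b (trs p Kt)

theorem hom_hk (κ : ℝ) (b : ℕ) (p : V3) (Kt : Po) : (hk κ b p Kt).IsHomogeneous b := by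
  unfold hk
  have h1 := (isHomogeneous_C (Fin 3) (1 / κ)).mul
    (homogeneousComponent_isHomogeneous b (trs p Kt))
  rwa [zero_add] at h1

/-- **One sample in one window, in units of the window.** -/
theorem smp_one (K b : ℕ) (hb : 1 ≤ b) : ∃ (C₀ : ℝ) (E : ℕ), 1 ≤ C₀ ∧
    ∀ (Kt f f' : Po) (p y ctr xo : V3) (Y M R ε : ℝ), Kt.totalDegree ≤ K → f.totalDegree ≤ K →
    f'.totalDegree ≤ K → C₀ ≤ Y → 2 * Y ^ (b + 2) ≤ M → M ≤ Y * R → 4 ≤ R →
    (∀ s, Bx 1 s → |eval (p + s) Kt| ≤ Y) → Bx (Y / M) (ctr - p) →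
    Bx (1 / 2) (R • (y - ctr)) → Bx (Y / M) (xo - R • (y - ctr)) → 1 / (Y * M) ≤ R * ε →
    ε ≤ Y / (M * R) → 0 < ε →
    (∀ r, Bx ε r → |eval (y + r) Kt - eval (y + r) f| ≤ Y * ε ^ b) →
    (∀ r, Bx ε r → |eval (y + r) f - eval (y + r) f'| ≤ Y * ε ^ b) →
    (∀ q, Bx 4 q → |eval q (vj (nu (Y ^ E) R b) R b xo ctr f) +
      eval (q - xo) (hk (Y ^ E) b p Kt) - 1 / nu (Y ^ E) R b * eval (ctr + R⁻¹ • q) Kt| ≤
        1 / M) ∧
    (∀ q, Bx 4 q → |eval q (vj (nu (Y ^ E) R b) R b xo ctr f) -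
      eval q (cj (nu (Y ^ E) R b) R b ctr Kt)| ≤ 1) ∧
    (∀ q, Bx 4 q → |eval q (vj (nu (Y ^ E) R b) R b xo ctr f) -
      eval q (vj (nu (Y ^ E) R b) R b xo ctr f')| ≤ 1 / M) ∧
    |eval (R • (y - ctr)) (vj (nu (Y ^ E) R b) R b xo ctr f) - eval y f / nu (Y ^ E) R b| ≤
      1 / M ∧
    (∀ α, |coeff α (hk (Y ^ E) b p Kt)| ≤ cb b) ∧
    ∀ j q, Bx 1 q → nu (Y ^ E) R b * |eval q (pderiv j (cj (nu (Y ^ E) R b) R b ctr Kt))| ≤
      Y ^ 3 / R := by
  obtain ⟨C₁, E₁, hC₁, hw⟩ := win_one K b hb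
  obtain ⟨C₂, hC₂, hcf⟩ := coef_bound 3 b
  obtain ⟨C₃, hC₃, hc⟩ := hc_le K
  obtain ⟨C₄, hC₄, hg⟩ := grow K
  obtain ⟨C₅, hC₅, hgr⟩ := clo_grad K b hb
  have hcb := cb_pos b
  obtain ⟨C₀, hC₀⟩ : ∃ C₀ : ℝ, C₀ = C₁ + C₂ + C₃ + C₄ * 2 ^ K + C₅ + 1 / cb b + 2 := ⟨_, rfl⟩
  have h2K : (1 : ℝ) ≤ 2 ^ K := one_le_pow₀ (by norm_num)
  have h42 : (1 : ℝ) ≤ C₄ * 2 ^ K := by nlinarith
  have hcb' : 0 < 1 / cb b := by positivity
  refine ⟨C₀, E₁ + 4, by rw [hC₀]; linarith, ?_⟩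
  intro Kt f f' p y ctr xo Y M R ε hKt hf hf' hY hYM hMR hR hKb hp hxs hxo hε1 hε2 hε0 hnear hagr
  have y1 : C₁ ≤ Y := by linarith
  have y2 : C₂ ≤ Y := by linarith
  have y3 : C₃ ≤ Y := by linarith
  have y4 : C₄ * 2 ^ K ≤ Y := by linarith
  have y5 : C₅ ≤ Y := by linarith
  have y6 : 1 / cb b ≤ Y := by linarith
  have hY1 : 1 ≤ Y := by linarith
  have hY0 : 0 < Y := by linarith
  have hY2 : 2 ≤ Y := by linarith
  have hR0 : 0 < R := by linarith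
  have pY : ∀ {a c : ℕ}, a ≤ c → Y ^ a ≤ Y ^ c := fun h => pow_le_pow_right₀ hY1 h
  have hpY : ∀ a : ℕ, 1 ≤ Y ^ a := fun a => one_le_pow₀ hY1
  have hM0 : 0 < M := by linarith [hpY (b + 2)]
  obtain ⟨κ, hκ⟩ : ∃ κ : ℝ, κ = Y ^ (E₁ + 4) := ⟨_, rfl⟩
  rw [← hκ]
  have hκ0 : 0 < κ := by rw [hκ]; positivity
  have hκE : Y ^ E₁ ≤ κ := by rw [hκ]; exact pY (by omega)
  obtain ⟨ν, hν⟩ : ∃ ν : ℝ, ν = nu κ R b := ⟨_, rfl⟩
  rw [← hν]
  have hν0 : 0 < ν := by rw [hν]; exact nu_pos hκ0 hR0 b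
  have hRb : 0 < R⁻¹ ^ b := by positivity
  have hνe : ν = κ * R⁻¹ ^ b := by rw [hν]; rfl
  have hd1 : 1 / ν * (Y ^ E₁ * R⁻¹ ^ b) ≤ 1 := by
    rw [one_div, inv_mul_le_iff₀ hν0, mul_one, hνe]
    exact mul_le_mul_of_nonneg_right hκE hRb.le
  have hd2 : 1 / ν * (Y ^ E₁ * R⁻¹ ^ b / M) ≤ 1 / M := by
    rw [← mul_div_assoc]
    exact div_le_div_of_nonneg_right hd1 hM0.le
  have h1ν : 0 < 1 / ν := by positivity
  obtain ⟨w1, w2, w3, w4⟩ := hw Kt f f' p y ctr xo Y M R ε hKt hf hf' y1 hYM hMR hR hKb hp hxs hxo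
    hε1 hε2 hε0 hnear hagr
  have hsc : ∀ {x y : ℝ}, |x| ≤ y → |1 / ν * x| ≤ 1 / ν * y := by
    intro x y hxy
    rw [abs_mul, abs_of_pos h1ν]
    exact mul_le_mul_of_nonneg_left hxy h1ν.le
  refine ⟨fun q hq => ?_, fun q hq => ?_, fun q hq => ?_, ?_, fun α => ?_, fun j q hq => ?_⟩
  · have h1 := (hsc (w1 q hq)).trans hd2
    have e1 : eval (q - xo) (hk κ b p Kt) = 1 / ν * (R⁻¹ ^ b *
        eval (q - xo) (homogeneousComponent b (trs p Kt))) := by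
      unfold hk
      rw [map_mul, eval_C, hνe]
      field_simp
    rw [eval_vj, e1, ← mul_add, ← mul_sub]
    exact h1
  · rw [eval_vj, eval_cj, ← mul_sub]
    exact (hsc (w2 q hq)).trans hd1
  · rw [eval_vj, eval_vj, ← mul_sub]
    exact (hsc (w3 q hq)).trans hd2
  · rw [eval_vj]
    have e1 : eval y f / ν = 1 / ν * eval y f := by ring
    rw [e1, ← mul_sub]
    exact (hsc w4).trans hd2
  · -- the homogeneous polynomial
    have h1 : ∀ q : V3, (∀ i, |q i| ≤ 1) → |eval q (hk κ b p Kt)| ≤ 1 / κ * (C₃ * Y) := by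
      intro q hq
      have h2 := hc (trs p Kt) Y 1 1 ((deg_trs _ _).trans hKt) one_pos one_pos (fun z hz => by
        rw [eval_trs, add_comm]
        exact hKb z hz) b q hq
      rw [div_one, one_pow, mul_one] at h2
      unfold hk
      rw [map_mul, eval_C, abs_mul, abs_of_pos (by positivity : (0 : ℝ) < 1 / κ)]
      exact mul_le_mul_of_nonneg_left h2 (by positivity)
    have h2 := hcf (hk κ b p Kt) _ (hom_hk κ b p Kt).totalDegree_le h1 α
    refine h2.trans ?_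
    have h3 : C₂ * (1 / κ * (C₃ * Y)) = C₂ * C₃ * Y / κ := by ring
    rw [h3, div_le_iff₀ hκ0]
    have h4 : Y ^ 4 ≤ κ := by rw [hκ]; exact pY (by omega)
    have h5 : C₂ * C₃ * Y ≤ Y ^ 3 := by
      calc C₂ * C₃ * Y ≤ Y * Y * Y :=
            mul_le_mul_of_nonneg_right (mul_le_mul y2 y3 (by linarith) hY0.le) hY0.le
        _ = Y ^ 3 := by ring
    have h6 : 1 ≤ cb b * Y := by
      rw [div_le_iff₀ hcb] at y6
      linarith
    calc C₂ * C₃ * Y ≤ Y ^ 3 := h5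
      _ = 1 * Y ^ 3 := (one_mul _).symm
      _ ≤ cb b * Y * Y ^ 3 := mul_le_mul_of_nonneg_right h6 (by positivity)
      _ = cb b * Y ^ 4 := by ring
      _ ≤ cb b * κ := mul_le_mul_of_nonneg_left h4 hcb.le
  · -- the gradient
    have hYM2 : Y / M ≤ 1 / 2 := by
      rw [div_le_iff₀ hM0]
      have : Y ≤ Y ^ (b + 2) := by
        calc Y = Y ^ 1 := (pow_one Y).symm
          _ ≤ _ := pY (by omega)
      linarith
    have h1 : ∀ q, Bx (1 / 2) q → |eval q (trs ctr Kt)| ≤ Y := by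
      intro q hq
      have e1 : q + ctr = p + (q + (ctr - p)) := by abel
      rw [eval_trs, e1]
      exact hKb _ (bxm (bxa hq hp) (by linarith))
    have h2 := hg (trs ctr Kt) Y (1 / 2) 1 ((deg_trs _ _).trans hKt) (by norm_num) (by norm_num) h1
    have h3 : ∀ q, Bx 1 q → |eval q (trs ctr Kt)| ≤ Y ^ 2 := by
      intro q hq
      refine (h2 q hq).trans ?_
      rw [show (1 : ℝ) / (1 / 2) = 2 by norm_num]
      calc C₄ * Y * 2 ^ K = C₄ * 2 ^ K * Y := by ring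
        _ ≤ Y * Y := mul_le_mul_of_nonneg_right y4 hY0.le
        _ = Y ^ 2 := by ring
    have hRi : R⁻¹ ≤ 1 := inv_le_one_of_one_le₀ (by linarith)
    have h4 := hgr (trs ctr Kt) (Y ^ 2) R⁻¹ ((deg_trs _ _).trans hKt) (by positivity) hRi h3 j q hq
    have e1 : pderiv j (cj ν R b ctr Kt) = C (1 / ν) * pderiv j (low b (scl R⁻¹ (trs ctr Kt))) := by
      unfold cj
      rw [pderiv_C_mul]
    rw [e1, map_mul, eval_C, abs_mul, abs_of_pos h1ν, ← mul_assoc, mul_one_div, div_self hν0.ne',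
      one_mul]
    refine h4.trans ?_
    calc C₅ * Y ^ 2 * R⁻¹ ≤ Y * Y ^ 2 * R⁻¹ := by
          refine mul_le_mul_of_nonneg_right ?_ (by positivity)
          exact mul_le_mul_of_nonneg_right y5 (by positivity)
      _ = Y ^ 3 / R := by ring

end Pool.STB65
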