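import Pool.Agent.H65.STB.Evt
import Pool.Agent.H36.KBX.Coef

/-!
# Rounded polynomials

`rdp`: the polynomial with rounded coefficients. `fgr`: a finite set of homogeneous polynomials.
-/

set_option autoImplicit false

namespace Pool.STB65

open Finset Real MvPolynomial
open Pool.STB (V3 Po Bx Hb)
open Pool.Agent.H36.KBX (bx mem_bx support_bx)

/-- The exponents of degree less than `b`. -/
noncomputable def sl (b : ℕ) : Finset (Fin 3 →₀ ℕ) := (bx 3 b).filter fun α => Finsupp.degree α < b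

/-- The exponents of degree `b`. -/
noncomputable def se (b : ℕ) : Finset (Fin 3 →₀ ℕ) := (bx 3 b).filter fun α => Finsupp.degree α = b

theorem bx_of_deg {b : ℕ} {α : Fin 3 →₀ ℕ} (h : Finsupp.degree α ≤ b) : α ∈ bx 3 b :=
  mem_bx.2 fun i => (Finsupp.le_degree i α).trans h

theorem mem_sl {b : ℕ} {α : Fin 3 →₀ ℕ} : α ∈ sl b ↔ Finsupp.degree α < b := by
  unfold sl
  rw [mem_filter]
  exact ⟨fun h => h.2, fun h => ⟨bx_of_deg h.le, h⟩⟩

theorem mem_se {b : ℕ} {α : Fin 3 →₀ ℕ} : α ∈ se b ↔ Finsupp.degree α = b := by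
  unfold se
  rw [mem_filter]
  exact ⟨fun h => h.2, fun h => ⟨bx_of_deg h.le, h⟩⟩

/-- **The polynomial with the rounded coefficients** `(z α - θ α) u`, `α ∈ S`. -/
noncomputable def rdp (S : Finset (Fin 3 →₀ ℕ)) (u : ℝ) (θ : (Fin 3 →₀ ℕ) → ℝ)
    (z : (Fin 3 →₀ ℕ) → ℤ) : Po := ∑ α ∈ S, monomial α (((z α : ℝ) - θ α) * u)

theorem coeff_rdp (S : Finset (Fin 3 →₀ ℕ)) (u : ℝ) (θ : (Fin 3 →₀ ℕ) → ℝ)
    (z : (Fin 3 →₀ ℕ) → ℤ) (α : Fin 3 →₀ ℕ) :
    coeff α (rdp S u θ z) = if α ∈ S then ((z α : ℝ) - θ α) * u else 0 := by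
  classical
  unfold rdp
  rw [coeff_sum]
  simp_rw [coeff_monomial]
  rw [Finset.sum_ite_eq']

theorem rdp_congr {S : Finset (Fin 3 →₀ ℕ)} {u : ℝ} {θ : (Fin 3 →₀ ℕ) → ℝ}
    {z z' : (Fin 3 →₀ ℕ) → ℤ} (h : ∀ α ∈ S, z α = z' α) : rdp S u θ z = rdp S u θ z' := by
  unfold rdp
  exact Finset.sum_congr rfl fun α hα => by rw [h α hα]

theorem deg_mono {α : Fin 3 →₀ ℕ} {c : ℝ} {n : ℕ} (h : Finsupp.degree α ≤ n) :
    (monomial α c : Po).totalDegree ≤ n := by
  refine (totalDegree_monomial_le α c).trans ?_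
  rw [Finsupp.degree_eq_sum] at h
  rwa [Finsupp.sum_fintype _ _ fun _ => rfl]

theorem deg_rdp {b : ℕ} (hb : 1 ≤ b) (u : ℝ) (θ : (Fin 3 →₀ ℕ) → ℝ) (z : (Fin 3 →₀ ℕ) → ℤ) :
    (rdp (sl b) u θ z).totalDegree ≤ b - 1 := by
  unfold rdp
  refine (totalDegree_finsetSum _ _).trans (Finset.sup_le fun α hα => deg_mono ?_)
  have := mem_sl.1 hα
  omega

theorem hom_rdp (b : ℕ) (u : ℝ) (θ : (Fin 3 →₀ ℕ) → ℝ) (z : (Fin 3 →₀ ℕ) → ℤ) :
    (rdp (se b) u θ z).IsHomogeneous b := by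
  unfold rdp
  exact IsHomogeneous.sum _ _ _ fun α hα => isHomogeneous_monomial _ (mem_se.1 hα)

/-- The coefficients of a polynomial of small degree. -/
theorem coeff_sl {b : ℕ} {P : Po} (hP : P.totalDegree ≤ b - 1) (hb : 1 ≤ b) {α : Fin 3 →₀ ℕ}
    (hα : α ∉ sl b) : coeff α P = 0 := by
  by_contra h
  have h1 := le_totalDegree (mem_support_iff.2 h)
  rw [mem_sl, not_lt, Finsupp.degree_eq_sum] at hα
  rw [Finsupp.sum_fintype _ _ fun _ => rfl] at h1
  omega

theorem coeff_se {b : ℕ} {P : Po} (hP : P.IsHomogeneous b) {α : Fin 3 →₀ ℕ}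
    (hα : α ∉ se b) : coeff α P = 0 := hP.coeff_eq_zero fun h => hα (mem_se.2 h)

/-- **Rounding**: the coefficients are near. -/
theorem rdp_near {S : Finset (Fin 3 →₀ ℕ)} {P : Po} (hP : ∀ α, α ∉ S → coeff α P = 0) {u : ℝ}
    (hu : 0 < u) (θ : (Fin 3 →₀ ℕ) → ℝ) (α : Fin 3 →₀ ℕ) :
    |coeff α (P - rdp S u θ fun α => ⌊coeff α P / u + θ α⌋)| ≤ u := by
  rw [coeff_sub, coeff_rdp]
  by_cases h : α ∈ S
  · rw [if_pos h]
    have h1 := Int.floor_le (coeff α P / u + θ α)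
    have h2 := Int.lt_floor_add_one (coeff α P / u + θ α)
    have h3 : coeff α P - ((⌊coeff α P / u + θ α⌋ : ℝ) - θ α) * u =
        (coeff α P / u + θ α - ⌊coeff α P / u + θ α⌋) * u := by
      field_simp
      ring
    rw [h3, abs_mul, abs_of_pos hu]
    refine mul_le_of_le_one_left hu.le ?_
    rw [abs_le]
    constructor <;> linarith
  · rw [if_neg h, hP α h, sub_zero, abs_zero]
    exact hu.le

theorem fl_bd' (x : ℝ) : |x - (⌊x + 0⌋ : ℝ)| ≤ 1 := by
  rw [add_zero, abs_le]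
  constructor <;> linarith [Int.floor_le x, Int.lt_floor_add_one x]

/-! ### Homogeneous polynomials -/

/-- A finite set of homogeneous polynomials. -/
noncomputable def fgr (k b : ℕ) : Finset Po :=
  open Classical in ((se b).pi fun _ => Finset.Icc (-(2 ^ k : ℤ)) (2 ^ k)).image fun z =>
    ∑ α ∈ (se b).attach, monomial α.1 ((z α.1 α.2 : ℝ) / 2 ^ k)

theorem card_fgr (k b : ℕ) : (fgr k b).card ≤ (2 * 2 ^ k + 1) ^ (se b).card := by
  classical
  unfold fgr
  refine Finset.card_image_le.trans (le_of_eq ?_)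
  rw [Finset.card_pi, Finset.prod_const]
  congr 1
  rw [Int.card_Icc]
  have : (2 : ℤ) ^ k + 1 - -2 ^ k = ((2 * 2 ^ k + 1 : ℕ) : ℤ) := by
    push_cast
    ring
  rw [this, Int.toNat_natCast]

/-- The bound of the coefficients. -/
noncomputable def cb (b : ℕ) : ℝ := 1 / (2 * ((bx 3 b).card + 1))

theorem cb_pos (b : ℕ) : 0 < cb b := by
  unfold cb
  positivity

/-- The rounded homogeneous polynomial, if it is small. -/
noncomputable def rf (k b : ℕ) (P : Po) : Po :=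
  open Classical in if ∀ α ∈ se b, |coeff α P| ≤ cb b then
    rdp (se b) (1 / 2 ^ k) (fun _ => 0) (fun α => ⌊coeff α P / (1 / 2 ^ k) + 0⌋) else 0

theorem cb_le (b : ℕ) : cb b ≤ 1 / 2 := by
  unfold cb
  refine one_div_le_one_div_of_le (by norm_num) ?_
  have : (0 : ℝ) ≤ (bx 3 b).card := Nat.cast_nonneg _
  linarith

theorem rf_fgr (k b : ℕ) (P : Po) : rf k b P ∈ fgr k b := by
  classical
  unfold rf fgr
  rw [Finset.mem_image]
  have h2k : (0 : ℝ) < 2 ^ k := by positivity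
  have h1k : (1 : ℝ) ≤ 2 ^ k := one_le_pow₀ (by norm_num)
  by_cases h : ∀ α ∈ se b, |coeff α P| ≤ cb b
  · rw [if_pos h]
    refine ⟨fun α _ => ⌊coeff α P / (1 / 2 ^ k) + 0⌋, Finset.mem_pi.2 fun α hα => ?_, ?_⟩
    · have h3 := abs_le.1 (h α hα)
      have h4 := cb_le b
      have h5 : coeff α P / (1 / 2 ^ k) + 0 = coeff α P * 2 ^ k := by
        rw [add_zero, div_div_eq_mul_div, div_one]
      rw [Finset.mem_Icc, h5]
      constructor
      · refine Int.le_floor.2 ?_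
        push_cast
        nlinarith [h3.1]
      · have h6 : (⌊coeff α P * 2 ^ k⌋ : ℝ) ≤ coeff α P * 2 ^ k := Int.floor_le _
        have h7 : (⌊coeff α P * 2 ^ k⌋ : ℝ) ≤ ((2 ^ k : ℤ) : ℝ) := by
          push_cast
          nlinarith [h3.2]
        exact_mod_cast h7
    · unfold rdp
      rw [← Finset.sum_attach (se b)]
      refine Finset.sum_congr rfl fun α _ => ?_
      congr 1
      rw [sub_zero, mul_one_div]
  · rw [if_neg h]
    refine ⟨fun _ _ => 0, Finset.mem_pi.2 fun α _ => ?_, ?_⟩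
    · rw [Finset.mem_Icc]
      constructor
      · have : (0 : ℤ) ≤ 2 ^ k := by positivity
        omega
      · positivity
    · refine Finset.sum_eq_zero fun α _ => ?_
      rw [Int.cast_zero, zero_div, monomial_zero]

theorem rf_hom (k b : ℕ) (P : Po) : (rf k b P).IsHomogeneous b := by
  unfold rf
  split_ifs
  · exact hom_rdp b _ _ _
  · exact isHomogeneous_zero _ _ _

theorem rf_near {k b : ℕ} {P : Po} (hP : P.IsHomogeneous b) (h : ∀ α, |coeff α P| ≤ cb b)
    (α : Fin 3 →₀ ℕ) : |coeff α (P - rf k b P)| ≤ 1 / 2 ^ k := by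
  unfold rf
  rw [if_pos fun α _ => h α]
  exact rdp_near (fun α hα => coeff_se hP hα) (by positivity) (fun _ => 0) α

theorem rf_hb {k b : ℕ} (hk : 1 / 2 ^ k ≤ cb b) (P : Po) : Hb b 1 (rf k b P) := by
  classical
  refine ⟨rf_hom k b P, fun q hq => ?_⟩
  have hc0 := cb_pos b
  have hco : ∀ α, |coeff α (rf k b P)| ≤ 2 * cb b := by
    intro α
    unfold rf
    by_cases h : ∀ α ∈ se b, |coeff α P| ≤ cb b
    · rw [if_pos h, coeff_rdp]
      by_cases h1 : α ∈ se b
      · rw [if_pos h1]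
        have h2k : (0 : ℝ) < 1 / 2 ^ k := by positivity
        have h2 := fl_bd' (coeff α P / (1 / 2 ^ k))
        have h3 := h α h1
        have h4 : ((⌊coeff α P / (1 / 2 ^ k) + 0⌋ : ℝ) - 0) * (1 / 2 ^ k) = coeff α P -
            (coeff α P / (1 / 2 ^ k) - ((⌊coeff α P / (1 / 2 ^ k) + 0⌋ : ℝ))) * (1 / 2 ^ k) := by
          field_simp
          ring
        rw [h4]
        refine (abs_sub _ _).trans ?_
        rw [abs_mul, abs_of_pos h2k]
        nlinarith
      · rw [if_neg h1, abs_zero]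
        positivity
    · rw [if_neg h, coeff_zero, abs_zero]
      positivity
  have h1 := Pool.Agent.H36.KBX.eval_bound (rf k b P) (rf_hom k b P).totalDegree_le (2 * cb b) 1
    le_rfl hco q hq
  refine h1.trans ?_
  rw [one_pow, mul_one]
  unfold cb
  have : (0 : ℝ) ≤ (bx 3 b).card := Nat.cast_nonneg _
  have e1 : 2 * (1 / (2 * (((bx 3 b).card : ℝ) + 1))) = 1 / (((bx 3 b).card : ℝ) + 1) := by
    field_simp
  rw [e1, mul_one_div, div_le_one (by positivity)]
  linarith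

end Pool.STB65
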