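import Pool.Agent.H65.STB.Jt0
import Pool.Agent.H36.KBX.Coef

/-!
# One sample in one window

`win_one`: the polynomial of a line is natural and near a visible polynomial at the sample; the Taylor
polynomials of the latter, in the coordinates of the window.
-/

set_option autoImplicit false

namespace Pool.STB65

open Finset Real MvPolynomial
open Pool.STB

/-- **One sample in one window.** -/
theorem win_one (K b : ℕ) (hb : 1 ≤ b) : ∃ (C₀ : ℝ) (E : ℕ), 1 ≤ C₀ ∧
    ∀ (Kt f f' : Po) (p y ctr xo : V3) (Y M R ε : ℝ), Kt.totalDegree ≤ K → f.totalDegree ≤ K →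
    f'.totalDegree ≤ K → C₀ ≤ Y → 2 * Y ^ (b + 2) ≤ M → M ≤ Y * R → 4 ≤ R →
    (∀ s, Bx 1 s → |eval (p + s) Kt| ≤ Y) → Bx (Y / M) (ctr - p) →
    Bx (1 / 2) (R • (y - ctr)) → Bx (Y / M) (xo - R • (y - ctr)) → 1 / (Y * M) ≤ R * ε →
    ε ≤ Y / (M * R) → 0 < ε →
    (∀ r, Bx ε r → |eval (y + r) Kt - eval (y + r) f| ≤ Y * ε ^ b) →
    (∀ r, Bx ε r → |eval (y + r) f - eval (y + r) f'| ≤ Y * ε ^ b) →
    (∀ q, Bx 4 q → |eval (q - xo) (low b (trs xo (scl R⁻¹ (trs ctr f)))) +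
      R⁻¹ ^ b * eval (q - xo) (homogeneousComponent b (trs p Kt)) -
        eval (ctr + R⁻¹ • q) Kt| ≤ Y ^ E * R⁻¹ ^ b / M) ∧
    (∀ q, Bx 4 q → |eval (q - xo) (low b (trs xo (scl R⁻¹ (trs ctr f)))) -
      eval q (low b (scl R⁻¹ (trs ctr Kt)))| ≤ Y ^ E * R⁻¹ ^ b) ∧
    (∀ q, Bx 4 q → |eval (q - xo) (low b (trs xo (scl R⁻¹ (trs ctr f)))) -
      eval (q - xo) (low b (trs xo (scl R⁻¹ (trs ctr f'))))| ≤ Y ^ E * R⁻¹ ^ b / M) ∧
    |eval (R • (y - ctr) - xo) (low b (trs xo (scl R⁻¹ (trs ctr f)))) - eval y f| ≤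
      Y ^ E * R⁻¹ ^ b / M := by
  obtain ⟨C₁, hC₁, hg⟩ := grow_at K
  obtain ⟨C₂, hC₂, hn⟩ := low_near K b
  obtain ⟨C₃, hC₃, hc⟩ := hc_le K
  obtain ⟨C₄, hC₄, hj⟩ := jet_one K b hb
  obtain ⟨E, hE⟩ : ∃ E, E = (b + 2) * (3 * K + 5) + 2 * K + b + 6 := ⟨_, rfl⟩
  obtain ⟨C₀, hC₀⟩ : ∃ C₀ : ℝ, C₀ = C₁ + C₂ + C₃ + C₄ + 5 ^ b + 2 ^ K + 3 := ⟨_, rfl⟩
  have h5b : (1 : ℝ) ≤ 5 ^ b := one_le_pow₀ (by norm_num)
  have h2K : (1 : ℝ) ≤ 2 ^ K := one_le_pow₀ (by norm_num)
  refine ⟨C₀, E, by rw [hC₀]; linarith, ?_⟩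
  intro Kt f f' p y ctr xo Y M R ε hKt hf hf' hY hYM hMR hR hKb hp hxs hxo hε1 hε2 hε0 hnear hagr
  have y1 : C₁ ≤ Y := by linarith
  have y2 : C₂ ≤ Y := by linarith
  have y3 : C₃ ≤ Y := by linarith
  have y4 : C₄ ≤ Y := by linarith
  have y5 : 5 ^ b ≤ Y := by linarith
  have y6 : 2 ^ K ≤ Y := by linarith
  have hY3 : 3 ≤ Y := by linarith
  have hY1 : 1 ≤ Y := by linarith
  have hY0 : 0 < Y := by linarith
  have pY : ∀ {a c : ℕ}, a ≤ c → Y ^ a ≤ Y ^ c := fun h => pow_le_pow_right₀ hY1 h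
  have hpY : ∀ a : ℕ, 1 ≤ Y ^ a := fun a => one_le_pow₀ hY1
  have hYb : Y ≤ Y ^ (b + 2) := by
    calc Y = Y ^ 1 := (pow_one Y).symm
      _ ≤ _ := pY (by omega)
  have hM0 : 0 < M := by linarith
  have hM1 : 1 ≤ M := by linarith
  have hR0 : 0 < R := by linarith
  obtain ⟨fq, hfq⟩ : ∃ fq, fq = scl R⁻¹ (trs ctr f) := ⟨_, rfl⟩
  obtain ⟨fq', hfq'⟩ : ∃ fq', fq' = scl R⁻¹ (trs ctr f') := ⟨_, rfl⟩
  obtain ⟨xs, hxsd⟩ : ∃ xs, xs = R • (y - ctr) := ⟨_, rfl⟩
  rw [← hfq, ← hfq', ← hxsd]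
  rw [← hxsd] at hxs hxo
  have efq : ∀ q, eval q fq = eval (y + R⁻¹ • (q - xs)) f := by
    intro q
    rw [hfq, eval_scl, eval_trs, hxsd, smul_sub, smul_smul, inv_mul_cancel₀ hR0.ne', one_smul]
    congr 1
    congr 1
    abel
  have efq' : ∀ q, eval q fq' = eval (y + R⁻¹ • (q - xs)) f' := by
    intro q
    rw [hfq', eval_scl, eval_trs, hxsd, smul_sub, smul_smul, inv_mul_cancel₀ hR0.ne', one_smul]
    congr 1
    congr 1
    abel
  have eKt : ∀ q : V3, ctr + R⁻¹ • q = y + R⁻¹ • (q - xs) := by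
    intro q
    rw [hxsd, smul_sub, smul_smul, inv_mul_cancel₀ hR0.ne', one_smul]
    abel
  have hfqd : fq.totalDegree ≤ K := by
    rw [hfq]
    exact (deg_scl _ _).trans ((deg_trs _ _).trans hf)
  have hfqd' : fq'.totalDegree ≤ K := by
    rw [hfq']
    exact (deg_scl _ _).trans ((deg_trs _ _).trans hf')
  -- the scale
  have hsc : ∀ q, Bx (1 / (Y * M)) (q - xs) → Bx ε (R⁻¹ • (q - xs)) := by
    intro q hq
    refine bxm (bx_smul hq (inv_nonneg.2 hR0.le)) ?_
    rw [inv_mul_le_iff₀ hR0]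
    exact hε1
  have hεb : ε ^ b ≤ Y ^ b * (1 / (M * R)) ^ b := by
    rw [← mul_pow, mul_one_div]
    exact pow_le_pow_left₀ hε0.le hε2 b
  have hYε : Y * ε ^ b ≤ Y ^ (b + 1) * (1 / (M * R)) ^ b := by
    calc Y * ε ^ b ≤ Y * (Y ^ b * (1 / (M * R)) ^ b) := mul_le_mul_of_nonneg_left hεb hY0.le
      _ = _ := by rw [pow_succ]; ring
  have hMRb : (1 / (M * R)) ^ b ≤ R⁻¹ ^ b / M := by
    have h1 : (1 / (M * R)) ^ b = (1 / M) ^ b * R⁻¹ ^ b := by
      rw [← mul_pow]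
      congr 1
      field_simp
    have hM' : (1 : ℝ) / M ≤ 1 := by
      rw [div_le_one hM0]
      exact hM1
    have hM0' : (0 : ℝ) ≤ 1 / M := by positivity
    rw [h1]
    calc (1 / M) ^ b * R⁻¹ ^ b ≤ 1 / M * R⁻¹ ^ b := by
          refine mul_le_mul_of_nonneg_right ?_ (by positivity)
          calc (1 / M) ^ b ≤ (1 / M) ^ 1 := pow_le_pow_of_le_one hM0' hM' hb
            _ = 1 / M := pow_one _
      _ = _ := by ring
  have hKl : ∀ q, eval q (trs p Kt) = eval (p + q) Kt := fun q => by rw [eval_trs, add_comm]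
  obtain ⟨j1, j2⟩ := hj (trs p Kt) fq (ctr - p) xs xo (Y ^ (b + 2)) M R
    ((deg_trs _ _).trans hKt) hfqd (by linarith) hYM
    (hMR.trans (mul_le_mul_of_nonneg_right hYb hR0.le)) hR
    (fun q hq => by
      rw [hKl]
      exact (hKb q hq).trans hYb)
    (bxm hp (div_le_div_of_nonneg_right hYb hM0.le)) hxs
    (bxm hxo (div_le_div_of_nonneg_right hYb hM0.le))
    (fun q hq => by
      have hq' : Bx (1 / (Y * M)) (q - xs) := bxm hq (by
        refine one_div_le_one_div_of_le (by positivity) ?_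
        exact mul_le_mul_of_nonneg_right hYb hM0.le)
      have h1 := hnear _ (hsc q hq')
      have e1 : p + (ctr - p + R⁻¹ • q) = y + R⁻¹ • (q - xs) := by
        rw [← eKt]
        abel
      rw [hKl, e1, efq]
      refine h1.trans (hYε.trans ?_)
      exact mul_le_mul_of_nonneg_right (pY (by omega)) (by positivity))
  have hEj : (Y ^ (b + 2)) ^ (3 * K + 5) = Y ^ ((b + 2) * (3 * K + 5)) := (pow_mul _ _ _).symm
  have e2 : ∀ q : V3, p + (ctr - p + R⁻¹ • q) = ctr + R⁻¹ • q := fun q => by abel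
  have hRb : 0 < R⁻¹ ^ b := by positivity
  refine ⟨fun q hq => ?_, fun q hq => ?_, fun q hq => ?_, ?_⟩
  · have h1 := j1 q hq
    rw [hKl, e2, hEj] at h1
    refine h1.trans ?_
    refine div_le_div_of_nonneg_right ?_ hM0.le
    exact mul_le_mul_of_nonneg_right (pY (by omega)) hRb.le
  · have h1 := j2 q hq
    have e3 : scl R⁻¹ (trs (ctr - p) (trs p Kt)) = scl R⁻¹ (trs ctr Kt) := by
      congr 1
      refine MvPolynomial.funext fun z => ?_
      rw [eval_trs, eval_trs, eval_trs]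
      congr 1
      congr 1
      abel
    rw [e3, hEj] at h1
    refine h1.trans ?_
    exact mul_le_mul_of_nonneg_right (pY (by omega)) hRb.le
  · -- the visible and the closed polynomial
    have h1 := hg fq fq' xs (Y ^ (b + 1) * (1 / (M * R)) ^ b) (1 / (Y * M)) (2 * Y / M) hfqd hfqd'
      (by positivity) (by
        rw [div_le_div_iff₀ (by positivity) hM0, one_mul]
        have : 1 ≤ 2 * Y * Y := by nlinarith
        calc M = 1 * M := (one_mul M).symm
          _ ≤ 2 * Y * Y * M := mul_le_mul_of_nonneg_right this hM0.le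
          _ = _ := by ring) (fun z hz => by
        rw [efq, efq']
        exact (hagr _ (hsc z hz)).trans hYε)
    have h2 := hn fq fq' xo (Y / M) (C₁ * (Y ^ (b + 1) * (1 / (M * R)) ^ b) *
      (2 * Y / M / (1 / (Y * M))) ^ K) 5 hfqd hfqd' (by positivity) (by
        rw [div_le_iff₀ hM0]
        linarith) (fun z hz => h1 z (by
        have e3 : z - xs = (z - xo) + (xo - xs) := by abel
        rw [e3]
        refine bxm (bxa hz hxo) (le_of_eq ?_)
        ring)) (q - xo) (by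
        have hxo1 : Bx 1 xo := by
          have e3 : xo = xs + (xo - xs) := by abel
          rw [e3]
          refine bxm (bxa hxs hxo) ?_
          have : Y / M ≤ 1 / 2 := by
            rw [div_le_iff₀ hM0]
            linarith
          linarith
        exact bxm (bxs hq hxo1) (by norm_num))
    refine h2.trans ?_
    have e4 : 2 * Y / M / (1 / (Y * M)) = 2 * Y ^ 2 := by
      field_simp
    have e5 : (5 : ℝ) / (Y / M) = 5 * M / Y := by
      field_simp
    rw [e4, e5]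
    obtain ⟨c, rfl⟩ : ∃ c, b = c + 1 := ⟨b - 1, by omega⟩
    rw [Nat.add_sub_cancel]
    have h3 : (5 * M / Y) ^ c ≤ 5 ^ c * M ^ c := by
      rw [← mul_pow]
      refine pow_le_pow_left₀ (by positivity) ?_ c
      exact div_le_self (by positivity) hY1
    have h4 : M ^ c * (1 / (M * R)) ^ (c + 1) = R⁻¹ ^ (c + 1) / M := by
      rw [one_div, mul_inv, mul_pow, pow_succ M⁻¹, inv_pow M c]
      field_simp
    have h5c : (5 : ℝ) ^ c ≤ Y := le_trans (pow_le_pow_right₀ (by norm_num) (by omega)) y5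
    calc C₂ * (C₁ * (Y ^ (c + 1 + 1) * (1 / (M * R)) ^ (c + 1)) * (2 * Y ^ 2) ^ K) *
        (5 * M / Y) ^ c ≤ C₂ * (C₁ * (Y ^ (c + 1 + 1) * (1 / (M * R)) ^ (c + 1)) *
          (2 * Y ^ 2) ^ K) * (5 ^ c * M ^ c) := mul_le_mul_of_nonneg_left h3 (by positivity)
      _ = (C₂ * C₁ * 2 ^ K * 5 ^ c) * (Y ^ (c + 2) * (Y ^ 2) ^ K) *
          (M ^ c * (1 / (M * R)) ^ (c + 1)) := by
          rw [mul_pow 2 (Y ^ 2)]
          ring
      _ ≤ Y ^ 4 * (Y ^ (c + 2) * (Y ^ 2) ^ K) * (R⁻¹ ^ (c + 1) / M) := by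
          rw [h4]
          refine mul_le_mul_of_nonneg_right ?_ (by positivity)
          refine mul_le_mul_of_nonneg_right ?_ (by positivity)
          calc C₂ * C₁ * 2 ^ K * 5 ^ c ≤ Y * Y * Y * Y := by
                refine mul_le_mul (mul_le_mul (mul_le_mul y2 y1 (by linarith) hY0.le) y6
                  (by positivity) (by positivity)) h5c (by positivity) (by positivity)
            _ = Y ^ 4 := by ring
      _ = Y ^ (4 + (c + 2 + 2 * K)) * (R⁻¹ ^ (c + 1) / M) := by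
          rw [← pow_mul, ← pow_add, ← pow_add]
      _ ≤ Y ^ E * (R⁻¹ ^ (c + 1) / M) := by
          refine mul_le_mul_of_nonneg_right (pY ?_) (by positivity)
          rw [hE]
          nlinarith
      _ = _ := by ring
  · -- the value
    have h1 := j1 xs (bxm hxs (by norm_num))
    rw [hKl, e2, hEj, eKt, sub_self, smul_zero, add_zero] at h1
    have h2 := hnear 0 (bx_zero hε0.le)
    rw [add_zero] at h2
    have hYM2 : Y / M ≤ 1 := by
      rw [div_le_one hM0]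
      linarith
    have h3 := hc (trs p Kt) Y 1 (Y / M) ((deg_trs _ _).trans hKt) one_pos (by positivity)
      (fun q hq => by
        rw [hKl]
        exact hKb q hq) b (xs - xo) (by
        have e3 : xs - xo = -(xo - xs) := by abel
        rw [e3]
        exact bxn hxo)
    rw [div_one] at h3
    have h4 : (Y / M) ^ b ≤ Y ^ b / M := by
      rw [div_pow]
      refine div_le_div_of_nonneg_left (by positivity) hM0 ?_
      calc M = M ^ 1 := (pow_one M).symm
        _ ≤ M ^ b := pow_le_pow_right₀ hM1 hb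
    have h5 : |R⁻¹ ^ b * eval (xs - xo) (homogeneousComponent b (trs p Kt))| ≤
        Y ^ (b + 2) * (R⁻¹ ^ b / M) := by
      rw [abs_mul, abs_of_pos hRb]
      calc R⁻¹ ^ b * |eval (xs - xo) (homogeneousComponent b (trs p Kt))| ≤
          R⁻¹ ^ b * (C₃ * Y * (Y / M) ^ b) := mul_le_mul_of_nonneg_left h3 hRb.le
        _ ≤ R⁻¹ ^ b * (Y * Y * (Y ^ b / M)) := by
            refine mul_le_mul_of_nonneg_left ?_ hRb.le
            exact mul_le_mul (mul_le_mul_of_nonneg_right y3 hY0.le) h4 (by positivity)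
              (by positivity)
        _ = _ := by rw [pow_add]; ring
    have h6 : |eval y Kt - eval y f| ≤ Y ^ (b + 1) * (R⁻¹ ^ b / M) :=
      h2.trans (hYε.trans (mul_le_mul_of_nonneg_left hMRb (by positivity)))
    have e3 : eval (xs - xo) (low b (trs xo fq)) - eval y f =
        (eval (xs - xo) (low b (trs xo fq)) +
          R⁻¹ ^ b * eval (xs - xo) (homogeneousComponent b (trs p Kt)) - eval y Kt) +
        (eval y Kt - eval y f) -
        R⁻¹ ^ b * eval (xs - xo) (homogeneousComponent b (trs p Kt)) := by ring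
    rw [e3]
    refine (abs_sub _ _).trans ?_
    refine (add_le_add (abs_add_le _ _) le_rfl).trans ?_
    have hRM : 0 < R⁻¹ ^ b / M := by positivity
    have h7 : Y ^ ((b + 2) * (3 * K + 5)) * R⁻¹ ^ b / M =
        Y ^ ((b + 2) * (3 * K + 5)) * (R⁻¹ ^ b / M) := by ring
    have h8 : Y ^ E * R⁻¹ ^ b / M = Y ^ E * (R⁻¹ ^ b / M) := by ring
    have h9 : Y ^ ((b + 2) * (3 * K + 5)) + Y ^ (b + 1) + Y ^ (b + 2) ≤ Y ^ E := by
      have a1 : Y ^ (b + 1) ≤ Y ^ ((b + 2) * (3 * K + 5)) := pY (by nlinarith)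
      have a2 : Y ^ (b + 2) ≤ Y ^ ((b + 2) * (3 * K + 5)) := pY (by nlinarith)
      have a3 : Y ^ ((b + 2) * (3 * K + 5) + 1) ≤ Y ^ E := pY (by omega)
      rw [pow_succ] at a3
      have a4 := hpY ((b + 2) * (3 * K + 5))
      nlinarith
    have h10 := mul_le_mul_of_nonneg_right h9 hRM.le
    rw [h7] at h1
    rw [h8]
    linarith

end Pool.STB65
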