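import Pool.Agent.H65.STB.Knt
import Pool.Agent.H65.STB.Win
import Pool.Agent.H65.STB.RdP

/-!
# Tools for the jets of a class

`fn_of`, `cl2_of`: functions of a code. `clo_grad`: the gradient of the Taylor polynomial in the
coordinates of a window. `ev_rdp`: values of rounded polynomials.
-/

set_option autoImplicit false

namespace Pool.STB65

open Finset Real MvPolynomial
open Pool.Agent.H49.Ent Pool.Agent.H32.Dense Pool.STK Pool.KA Pool.KSAT Pool.K2S Pool.PB Pool.S6C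
open Pool.GEN Pool.D2Con Pool.D2A Pool.RCD
open Pool.STB (V3 Po Bx Hb)
open Pool.Agent.H36.KBX (bx mem_bx support_bx coef_bound eval_bound der_bound)

/-- A function which is determined by a code on an event. -/
theorem fn_of {Ω S V : Type} [Nonempty V] {B : Ω → Prop} {a : Ω → S} {x : Ω → V}
    (h : ∀ ω ω', B ω → B ω' → a ω = a ω' → x ω = x ω') : ∃ φ : S → V, ∀ ω, B ω → x ω = φ (a ω) := by
  classical
  refine ⟨fun s => if h : ∃ ω, B ω ∧ a ω = s then x h.choose else Classical.arbitrary V,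
    fun ω hω => ?_⟩
  have h1 : ∃ ω', B ω' ∧ a ω' = a ω := ⟨ω, hω, rfl⟩
  show x ω = if h : ∃ ω', B ω' ∧ a ω' = a ω then x h.choose else Classical.arbitrary V
  rw [dif_pos h1]
  exact h ω _ hω h1.choose_spec.1 h1.choose_spec.2.symm

theorem cl2_of {Ω S T V : Type} [Nonempty V] {B : Ω → Prop} {a : Ω → S} {b : Ω → T} {x : Ω → V}
    (h1 : ∀ ω ω', B ω → B ω' → a ω = a ω' → x ω = x ω')
    (h2 : ∀ ω ω', B ω → B ω' → b ω = b ω' → x ω = x ω') : Cl2 a b B x :=
  ⟨fn_of h1, fn_of h2⟩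

theorem cl2_eq {Ω S T V : Type} {B : Ω → Prop} {a : Ω → S} {b : Ω → T} {x : Ω → V}
    (h : Cl2 a b B x) : (∀ ω ω', B ω → B ω' → a ω = a ω' → x ω = x ω') ∧
      ∀ ω ω', B ω → B ω' → b ω = b ω' → x ω = x ω' := by
  obtain ⟨⟨φ, hφ⟩, ψ, hψ⟩ := h
  exact ⟨fun ω ω' h1 h2 h3 => by rw [hφ ω h1, hφ ω' h2, h3],
    fun ω ω' h1 h2 h3 => by rw [hψ ω h1, hψ ω' h2, h3]⟩

/-- Values from coefficients, on the box of size `5`. -/
theorem ev_co (b : ℕ) : ∃ C : ℝ, 1 ≤ C ∧ ∀ (P : Po) (c : ℝ), P.totalDegree ≤ b →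
    (∀ α, |coeff α P| ≤ c) → ∀ q, Bx 5 q → |eval q P| ≤ C * c := by
  refine ⟨((bx 3 b).card : ℝ) * 5 ^ (3 * b), ?_, fun P c hP hc q hq => ?_⟩
  · have h1 : (1 : ℝ) ≤ (bx 3 b).card := by
      have : 0 < (bx 3 b).card := Finset.card_pos.2 ⟨0, mem_bx.2 fun i => Nat.zero_le _⟩
      exact_mod_cast this
    have h2 : (1 : ℝ) ≤ 5 ^ (3 * b) := one_le_pow₀ (by norm_num)
    nlinarith
  · refine (eval_bound P hP c 5 (by norm_num) hc q hq).trans (le_of_eq ?_)
    ring

/-- Gradients from coefficients, on the unit box. -/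
theorem grad_co (b : ℕ) : ∃ C : ℝ, 1 ≤ C ∧ ∀ (P : Po) (c : ℝ), P.totalDegree ≤ b →
    (∀ α, |coeff α P| ≤ c) → ∀ j q, Bx 1 q → |eval q (pderiv j P)| ≤ C * c := by
  refine ⟨((bx 3 b).card : ℝ) * (b + 1), ?_, fun P c hP hc j q hq => ?_⟩
  · have h1 : (1 : ℝ) ≤ (bx 3 b).card := by
      have : 0 < (bx 3 b).card := Finset.card_pos.2 ⟨0, mem_bx.2 fun i => Nat.zero_le _⟩
      exact_mod_cast this
    have h2 : (1 : ℝ) ≤ b + 1 := by linarith [(Nat.cast_nonneg b : (0 : ℝ) ≤ b)]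
    nlinarith
  · have h1 := eval_bound (pderiv j P)
      ((Pool.Agent.H50.PW.totalDegree_pderiv_le P j).trans hP) (c * (b + 1)) 1 le_rfl
      (fun α => Pool.Agent.H36.KBX.coeff_pderiv_bound P hP c hc j α) q hq
    refine h1.trans (le_of_eq ?_)
    rw [one_pow]
    ring

/-- **The gradient of the Taylor polynomial in the coordinates of a window.** -/
theorem clo_grad (K b : ℕ) (hb : 1 ≤ b) : ∃ C : ℝ, 1 ≤ C ∧ ∀ (Q : Po) (M s : ℝ),
    Q.totalDegree ≤ K → 0 < s → s ≤ 1 → (∀ q, Bx 1 q → |eval q Q| ≤ M) → ∀ j q, Bx 1 q →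
      |eval q (pderiv j (low b (scl s Q)))| ≤ C * M * s := by
  obtain ⟨C₁, hC₁, hc⟩ := hc_le K
  obtain ⟨C₂, hC₂, hd⟩ := der_bound 3 b
  have hb0 : (0 : ℝ) ≤ b := Nat.cast_nonneg b
  refine ⟨1 + C₂ * (b * C₁), by
    have : 0 ≤ C₂ * (b * C₁) := by positivity
    linarith, ?_⟩
  intro Q M s hQ hs hs1 hM j q hq
  have hM0 : 0 ≤ M := (abs_nonneg _).trans (hM 0 fun i => by simp)
  obtain ⟨P, hP⟩ : ∃ P : Po, P = low b (scl s Q) - C (coeff 0 (scl s Q)) := ⟨_, rfl⟩
  have hPd : P.totalDegree ≤ b := by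
    rw [hP]
    refine (totalDegree_sub _ _).trans (max_le ((deg_low hb _).trans (Nat.sub_le _ _)) ?_)
    rw [totalDegree_C]
    exact Nat.zero_le _
  have hPb : ∀ z : Fin 3 → ℝ, (∀ i, |z i| ≤ 1) → |eval z P| ≤ b * C₁ * M * s := by
    intro z hz
    have h1 : eval z P = ∑ n ∈ range (b - 1), eval z (homogeneousComponent (n + 1) (scl s Q)) := by
      rw [hP, map_sub, eval_low, show b = (b - 1) + 1 by omega, Finset.sum_range_succ',
        homogeneousComponent_zero, Nat.add_sub_cancel]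
      ring
    rw [h1]
    refine (Finset.abs_sum_le_sum_abs _ _).trans ?_
    have h2 : ∀ n ∈ range (b - 1), |eval z (homogeneousComponent (n + 1) (scl s Q))| ≤
        C₁ * M * s := by
      intro n _
      rw [hc_scl, abs_mul, abs_of_pos (by positivity)]
      have h3 := hc Q M 1 1 hQ one_pos one_pos hM (n + 1) z hz
      rw [div_one, one_pow, mul_one] at h3
      have h4 : s ^ (n + 1) ≤ s := by
        calc s ^ (n + 1) ≤ s ^ 1 := pow_le_pow_of_le_one hs.le hs1 (by omega)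
          _ = s := pow_one s
      calc s ^ (n + 1) * |eval z (homogeneousComponent (n + 1) Q)| ≤ s * (C₁ * M) :=
            mul_le_mul h4 h3 (abs_nonneg _) hs.le
        _ = _ := by ring
    refine (Finset.sum_le_sum h2).trans ?_
    rw [Finset.sum_const, card_range, nsmul_eq_mul]
    have h5 : ((b - 1 : ℕ) : ℝ) ≤ b := by exact_mod_cast Nat.sub_le b 1
    have h6 : 0 ≤ C₁ * M * s := by positivity
    nlinarith
  have h1 := (hd P (b * C₁ * M * s) hPd hPb q (fun i => (hq i).trans (by norm_num))).2.1 j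
  have h2 : pderiv j P = pderiv j (low b (scl s Q)) := by
    rw [hP, map_sub, pderiv_C, sub_zero]
  rw [h2] at h1
  refine h1.trans ?_
  have h6 : 0 ≤ M * s := by positivity
  nlinarith

end Pool.STB65
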