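import Pool.Agent.H65.STB.Jet0

/-!
# Rounding the Taylor polynomials

`rnj`: visible polynomials `vs`, near closed polynomials `vt` behind the windows and near `cs` up to a
constant; on a large part of the event there are closed parts `Ci` and closed remainders `Jo`.
-/

set_option autoImplicit false

namespace Pool.STB65

open Finset Real MvPolynomial
open Pool.Agent.H49.Ent Pool.Agent.H32.Dense Pool.STK Pool.KA Pool.KSAT Pool.K2S Pool.PB Pool.S6C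
open Pool.GEN Pool.D2Con Pool.D2A Pool.RCD
open Pool.STB (V3 Po Bx Hb)
open Pool.Agent.H36.KBX (bx mem_bx support_bx coef_bound eval_bound der_bound)

/-- Differences of polynomials near on the unit box have small coefficients. -/
theorem coef_diff (b : ℕ) : ∃ C : ℝ, 0 ≤ C ∧ ∀ (P Q : Po) (M : ℝ), P.totalDegree ≤ b →
    Q.totalDegree ≤ b → (∀ q, Bx 4 q → |eval q P - eval q Q| ≤ M) → ∀ α,
      |coeff α P - coeff α Q| ≤ C * M := by
  obtain ⟨C, hC, h⟩ := coef_bound 3 b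
  refine ⟨C, hC, fun P Q M hP hQ hM α => ?_⟩
  rw [← coeff_sub]
  refine h (P - Q) M ((totalDegree_sub _ _).trans (max_le hP hQ)) (fun z hz => ?_) α
  rw [map_sub]
  exact hM z fun i => (hz i).trans (by norm_num)

/-- **Rounding.** -/
theorem rnj (b : ℕ) (hb : 1 ≤ b) : ∃ C : ℝ, 1 ≤ C ∧ ∀ {Ω S T : Type} [Fintype Ω] {p : Ω → ℝ}
    (hp : ∀ ω, 0 ≤ p ω) (B : Ω → Prop) (n : ℕ) (M G : ℝ) (R ν : ℕ → ℝ) (w : Ω → T)
    (s s' : ℕ → Ω → S) (vs vt cs : ℕ → Ω → Po) (xs xo : ℕ → Ω → V3) (fv : ℕ → Ω → ℝ)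
    (H Φ : Ω → Po) (L : ℕ → Ω → V3 → ℝ), 4 ≤ M → (∀ i < n, 0 < R i) →
    (∀ i < n, 0 < ν i) →
    (∀ i < n, ν i * (C * (n + 1)) ≤ G / R i) →
    (∀ i < n, ∀ ω ω', B ω → B ω' → w ω = w ω' → vs i ω = vs i ω') →
    (∀ i < n, ∀ ω ω', B ω → B ω' → s i ω = s i ω' → cs i ω = cs i ω') →
    (∀ i < n, ∀ ω ω', B ω → B ω' → s' i ω = s' i ω' → vt i ω = vt i ω' ∧ s i ω = s i ω') →
    (∀ i ω, (vs i ω).totalDegree ≤ b - 1) → (∀ i ω, (vt i ω).totalDegree ≤ b - 1) →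
    (∀ i ω, (cs i ω).totalDegree ≤ b - 1) →
    (∀ i < n, ∀ ω, B ω → ∀ q, Bx 4 q →
      |eval q (vs i ω) + eval (q - xo i ω) (H ω) - L i ω q| ≤ 1 / M) →
    (∀ i < n, ∀ ω, B ω → ∀ q, Bx 4 q → |eval q (vs i ω) - eval q (cs i ω)| ≤ 1) →
    (∀ i < n, ∀ ω, B ω → ∀ q, Bx 4 q → |eval q (vs i ω) - eval q (vt i ω)| ≤ 1 / M) →
    (∀ i < n, ∀ ω, B ω → |eval (xs i ω) (vs i ω) - fv i ω| ≤ 1 / M) →
    (∀ i < n, ∀ ω, B ω → ∀ j q, Bx 1 q → ν i * |eval q (pderiv j (cs i ω))| ≤ G / R i) →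
    (∀ i < n, ∀ ω, B ω → Bx (1 / 2) (xs i ω)) → (∀ i < n, ∀ ω, B ω → Bx 1 (xo i ω)) →
    (∀ i < n, ∀ ω, B ω → Bx (2 / M) (xo i ω - xs i ω)) →
    (∀ ω, B ω → (H ω).totalDegree ≤ b ∧ (Φ ω).totalDegree ≤ b ∧
      ∀ α, |coeff α (H ω - Φ ω)| ≤ 1 / M) →
    (∀ i < n, ∀ ω ω', B ω → B ω' → s i ω = s i ω' → Φ ω = Φ ω' ∧ L i ω = L i ω') →
    ∃ (B' : Ω → Prop) (Jo Ci : ℕ → Ω → Po), Sub B' B ∧ Pe p B ≤ 2 * Pe p B' ∧
      (∀ i < n, Cl2 (s i) w B' (Ci i)) ∧ (∀ i < n, Cl2 (s' i) w B' (Jo i)) ∧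
      (∀ i ω, (Ci i ω).totalDegree ≤ b - 1) ∧ (∀ i ω, (Jo i ω).totalDegree ≤ b - 1) ∧
      (∀ i < n, ∀ ω, B' ω → ∀ q, Bx 1 q → |eval q (Jo i ω)| ≤ C * (n + 1)) ∧
      (∀ i < n, ∀ ω ω', B' ω → B' ω' → s i ω = s i ω' → ∀ q, Bx 4 q →
        |(eval q (Jo i ω') + eval (q - xo i ω') (Φ ω)) -
          (eval q (Jo i ω) + eval (q - xo i ω) (Φ ω))| ≤ C * (n + 1) / M) ∧
      (∀ i < n, ∀ ω, B' ω → |eval (xs i ω) (Jo i ω) + eval (xs i ω) (Ci i ω) - fv i ω| ≤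
        C * (n + 1) / M) ∧
      (∀ i < n, ∀ ω, B' ω → |eval (xo i ω) (Jo i ω) + eval (xs i ω) (Ci i ω) - fv i ω| ≤
        C * (n + 1) / M) ∧
      ∀ i < n, ∀ ω, B' ω → ∀ j q, Bx 1 q → ν i * |eval q (pderiv j (Ci i ω))| ≤
        2 * G / R i := by
  classical
  obtain ⟨c₁, hc₁, hcf⟩ := coef_diff b
  obtain ⟨c₂, hc₂, hev⟩ := ev_co b
  obtain ⟨c₃, hc₃, hgc⟩ := grad_co b
  obtain ⟨c₄, hc₄, hlip⟩ := lip_bx b
  obtain ⟨a₀, ha₀⟩ : ∃ a₀ : ℝ, a₀ = 8 * (((sl b).card : ℝ) + 1) * (c₁ + 1) := ⟨_, rfl⟩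
  have hsl0 : (0 : ℝ) ≤ (sl b).card := Nat.cast_nonneg _
  have ha₀1 : 8 ≤ a₀ := by
    rw [ha₀]
    nlinarith
  have hca2 : 0 < c₂ * a₀ := by positivity
  have hca3 : 0 < c₃ * a₀ := by positivity
  have hca4 : 0 < c₄ * (c₂ * a₀) := by positivity
  obtain ⟨C, hC⟩ : ∃ C : ℝ, C = 4 * (c₄ * (c₂ * a₀)) + 4 * (c₂ * a₀) + c₃ * a₀ + 4 + 4 * c₂ :=
    ⟨_, rfl⟩
  refine ⟨C, by rw [hC]; linarith, ?_⟩
  intro Ω S T _ p hp B n M G R ν w s s' vs vt cs xs xo fv H Φ L hM hR hν hG hvs hcs hvt dvs dvt dcs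
    h1 h2 h3 h4 h5 h6 h7 h8 h9 h10
  have hM0 : 0 < M := by linarith
  have hn0 : (0 : ℝ) ≤ n := Nat.cast_nonneg n
  obtain ⟨u, hu⟩ : ∃ u : ℝ, u = a₀ * (n + 1) := ⟨_, rfl⟩
  have hu8 : 8 ≤ u := by
    rw [hu]
    nlinarith
  have hu0 : 0 < u := by linarith
  have hb1 : b - 1 ≤ b := Nat.sub_le b 1
  obtain ⟨I, hI⟩ : ∃ I : Finset (ℕ × (Fin 3 →₀ ℕ)), I = range n ×ˢ sl b := ⟨_, rfl⟩
  have hIm : ∀ i < n, ∀ α ∈ sl b, (i, α) ∈ I := by
    intro i hi α hα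
    rw [hI, Finset.mem_product]
    exact ⟨mem_range.2 hi, hα⟩
  have hIn : ∀ a ∈ I, a.1 < n := by
    intro a ha
    rw [hI, Finset.mem_product] at ha
    exact mem_range.1 ha.1
  have hIc : (I.card : ℝ) * ((c₁ + 1) / u) ≤ 1 / 8 := by
    rw [hI, Finset.card_product, card_range, mul_div_assoc', div_le_iff₀ hu0, hu, ha₀]
    push_cast
    have e1 : 0 ≤ (c₁ + 1) := by linarith
    have e2 : (n : ℝ) * (sl b).card ≤ (n + 1) * ((sl b).card + 1) := by nlinarith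
    have e3 := mul_le_mul_of_nonneg_right e2 e1
    nlinarith
  have hεu : c₁ / u < (c₁ + 1) / u := by
    rw [div_lt_div_iff_of_pos_right hu0]
    linarith
  -- the closed part
  obtain ⟨θ₁, hθ₁, hp₁⟩ := rnd_all hp B I (fun a ω => coeff a.2 (vs a.1 ω) / u)
    (fun a ω => coeff a.2 (cs a.1 ω) / u) hεu (fun a ha ω hω => by
      rw [← sub_div, abs_div, abs_of_pos hu0]
      refine div_le_div_of_nonneg_right ?_ hu0.le
      have := hcf (vs a.1 ω) (cs a.1 ω) 1 ((dvs _ _).trans hb1) ((dcs _ _).trans hb1)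
        (h2 a.1 (hIn a ha) ω hω) a.2
      rwa [mul_one] at this)
  obtain ⟨B₁, hB₁⟩ : ∃ B₁ : Ω → Prop, B₁ = fun ω => B ω ∧ ∀ a ∈ I,
      ⌊coeff a.2 (vs a.1 ω) / u + θ₁ a⌋ = ⌊coeff a.2 (cs a.1 ω) / u + θ₁ a⌋ := ⟨_, rfl⟩
  have hB₁s : Sub B₁ B := fun ω hω => by
    rw [hB₁] at hω
    exact hω.1
  have hB₁f : ∀ ω, B₁ ω → ∀ i < n, ∀ α ∈ sl b, ⌊coeff α (vs i ω) / u + θ₁ (i, α)⌋ =
      ⌊coeff α (cs i ω) / u + θ₁ (i, α)⌋ := fun ω hω i hi α hα => by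
    rw [hB₁] at hω
    exact hω.2 (i, α) (hIm i hi α hα)
  have hB₁P : (1 - 1 / 8) * Pe p B ≤ Pe p B₁ := by
    have h0 : 0 ≤ Pe p B := by
      rw [Pe_eq]
      exact Finset.sum_nonneg fun ω _ => by
        split_ifs
        exacts [hp ω, le_rfl]
    rw [hB₁]
    refine le_trans ?_ hp₁
    refine mul_le_mul_of_nonneg_right ?_ h0
    linarith
  obtain ⟨Ci, hCi⟩ : ∃ Ci : ℕ → Ω → Po, Ci = fun i ω => rdp (sl b) u (fun α => θ₁ (i, α))
      (fun α => ⌊coeff α (vs i ω) / u + θ₁ (i, α)⌋) := ⟨_, rfl⟩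
  have dCi : ∀ i ω, (Ci i ω).totalDegree ≤ b - 1 := fun i ω => by
    rw [hCi]
    exact deg_rdp hb _ _ _
  have hCis : ∀ i < n, ∀ ω, B₁ ω → Ci i ω = rdp (sl b) u (fun α => θ₁ (i, α))
      (fun α => ⌊coeff α (cs i ω) / u + θ₁ (i, α)⌋) := by
    intro i hi ω hω
    rw [hCi]
    exact rdp_congr fun α hα => hB₁f ω hω i hi α hα
  have hCicl : ∀ i < n, ∀ ω ω', B₁ ω → B₁ ω' → s i ω = s i ω' → Ci i ω = Ci i ω' := by
    intro i hi ω ω' hω hω' hs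
    rw [hCis i hi ω hω, hCis i hi ω' hω', hcs i hi ω ω' (hB₁s ω hω) (hB₁s ω' hω') hs]
  have hCivs : ∀ i < n, ∀ ω ω', B₁ ω → B₁ ω' → w ω = w ω' → Ci i ω = Ci i ω' := by
    intro i hi ω ω' hω hω' hs
    rw [hCi]
    show rdp (sl b) u (fun α => θ₁ (i, α)) (fun α => ⌊coeff α (vs i ω) / u + θ₁ (i, α)⌋) = _
    rw [hvs i hi ω ω' (hB₁s ω hω) (hB₁s ω' hω') hs]
  have hCin : ∀ i ω α, |coeff α (vs i ω - Ci i ω)| ≤ u := by
    intro i ω α
    rw [hCi]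
    exact rdp_near (fun α hα => coeff_sl (dvs i ω) hb hα) hu0 _ α
  have hCin' : ∀ i < n, ∀ ω, B₁ ω → ∀ α, |coeff α (cs i ω - Ci i ω)| ≤ u := by
    intro i hi ω hω α
    rw [hCis i hi ω hω]
    exact rdp_near (fun α hα => coeff_sl (dcs i ω) hb hα) hu0 _ α
  -- the remainder
  have huM : 0 < u / M := by positivity
  have hdu : ∀ x : ℝ, x / M / (u / M) = x / u := fun x => by
    field_simp
  obtain ⟨θ₂, hθ₂, hp₂⟩ := rnd_all hp B₁ I (fun a ω => coeff a.2 (vs a.1 ω - Ci a.1 ω) / (u / M))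
    (fun a ω => coeff a.2 (vt a.1 ω - Ci a.1 ω) / (u / M)) hεu (fun a ha ω hω => by
      rw [← sub_div, abs_div, abs_of_pos huM, coeff_sub, coeff_sub, sub_sub_sub_cancel_right,
        ← hdu c₁]
      refine div_le_div_of_nonneg_right ?_ huM.le
      have := hcf (vs a.1 ω) (vt a.1 ω) (1 / M) ((dvs _ _).trans hb1) ((dvt _ _).trans hb1)
        (h3 a.1 (hIn a ha) ω (hB₁s ω hω)) a.2
      rwa [mul_one_div] at this)
  obtain ⟨B₂, hB₂⟩ : ∃ B₂ : Ω → Prop, B₂ = fun ω => B₁ ω ∧ ∀ a ∈ I,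
      ⌊coeff a.2 (vs a.1 ω - Ci a.1 ω) / (u / M) + θ₂ a⌋ =
        ⌊coeff a.2 (vt a.1 ω - Ci a.1 ω) / (u / M) + θ₂ a⌋ := ⟨_, rfl⟩
  have hB₂s : Sub B₂ B₁ := fun ω hω => by
    rw [hB₂] at hω
    exact hω.1
  have hB₂f : ∀ ω, B₂ ω → ∀ i < n, ∀ α ∈ sl b,
      ⌊coeff α (vs i ω - Ci i ω) / (u / M) + θ₂ (i, α)⌋ =
      ⌊coeff α (vt i ω - Ci i ω) / (u / M) + θ₂ (i, α)⌋ := fun ω hω i hi α hα => by
    rw [hB₂] at hω
    exact hω.2 (i, α) (hIm i hi α hα)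
  have hB₂P : (1 - 1 / 8) * Pe p B₁ ≤ Pe p B₂ := by
    have h0 : 0 ≤ Pe p B₁ := by
      rw [Pe_eq]
      exact Finset.sum_nonneg fun ω _ => by
        split_ifs
        exacts [hp ω, le_rfl]
    rw [hB₂]
    refine le_trans ?_ hp₂
    refine mul_le_mul_of_nonneg_right ?_ h0
    linarith
  obtain ⟨Jo, hJo⟩ : ∃ Jo : ℕ → Ω → Po, Jo = fun i ω => rdp (sl b) (u / M) (fun α => θ₂ (i, α))
      (fun α => ⌊coeff α (vs i ω - Ci i ω) / (u / M) + θ₂ (i, α)⌋) := ⟨_, rfl⟩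
  have dJo : ∀ i ω, (Jo i ω).totalDegree ≤ b - 1 := fun i ω => by
    rw [hJo]
    exact deg_rdp hb _ _ _
  have dvC : ∀ i ω, (vs i ω - Ci i ω).totalDegree ≤ b - 1 := fun i ω =>
    (totalDegree_sub _ _).trans (max_le (dvs i ω) (dCi i ω))
  have hJon : ∀ i ω α, |coeff α (vs i ω - Ci i ω - Jo i ω)| ≤ u / M := by
    intro i ω α
    rw [hJo]
    exact rdp_near (fun α hα => coeff_sl (dvC i ω) hb hα) huM _ α
  have hJoe : ∀ i ω q, Bx 5 q → |eval q (vs i ω) - eval q (Ci i ω) - eval q (Jo i ω)| ≤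
      c₂ * u / M := by
    intro i ω q hq
    have := hev (vs i ω - Ci i ω - Jo i ω) (u / M) ((totalDegree_sub _ _).trans
      (max_le ((dvC i ω).trans hb1) ((dJo i ω).trans hb1))) (hJon i ω) q hq
    rwa [map_sub, map_sub, mul_div_assoc'] at this
  have hB₂B : Sub B₂ B := fun ω hω => hB₁s ω (hB₂s ω hω)
  have hCu : c₂ * u = c₂ * a₀ * (n + 1) := by rw [hu]; ring
  have hdM : ∀ {x y : ℝ}, x ≤ y → x / M ≤ y / M := fun h => div_le_div_of_nonneg_right h hM0.le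
  have hval : ∀ i < n, ∀ ω, B₂ ω → |eval (xs i ω) (Jo i ω) + eval (xs i ω) (Ci i ω) - fv i ω| ≤
      (c₂ * u + 1) / M := by
    intro i hi ω hω
    have e1 := h4 i hi ω (hB₂B ω hω)
    have e2 := hJoe i ω (xs i ω) (bxm (h6 i hi ω (hB₂B ω hω)) (by norm_num))
    have e3 : eval (xs i ω) (Jo i ω) + eval (xs i ω) (Ci i ω) - fv i ω =
        (eval (xs i ω) (vs i ω) - fv i ω) -
        (eval (xs i ω) (vs i ω) - eval (xs i ω) (Ci i ω) - eval (xs i ω) (Jo i ω)) := by ring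
    rw [e3]
    refine (abs_sub _ _).trans ?_
    rw [add_div]
    linarith
  have hJ1 : ∀ i ω q, Bx 1 q → |eval q (Jo i ω)| ≤ 2 * (c₂ * u) := by
    intro i ω q hq
    have hq5 : Bx 5 q := bxm hq (by norm_num)
    have e1 := hJoe i ω q hq5
    have e2 := hev (vs i ω - Ci i ω) u ((dvC i ω).trans hb1) (hCin i ω) q hq5
    rw [map_sub] at e2
    have e3 : eval q (Jo i ω) = (eval q (vs i ω) - eval q (Ci i ω)) -
        (eval q (vs i ω) - eval q (Ci i ω) - eval q (Jo i ω)) := by ring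
    rw [e3]
    refine (abs_sub _ _).trans ?_
    have e4 : c₂ * u / M ≤ c₂ * u := div_le_self (by positivity) (by linarith)
    linarith
  refine ⟨B₂, Jo, Ci, hB₂B, ?_, fun i hi => cl2_of (fun ω ω' hω hω' hs =>
    hCicl i hi ω ω' (hB₂s ω hω) (hB₂s ω' hω') hs) (fun ω ω' hω hω' hs =>
    hCivs i hi ω ω' (hB₂s ω hω) (hB₂s ω' hω') hs), fun i hi => cl2_of ?_ ?_, dCi, dJo,
    fun i hi ω hω q hq => ?_, fun i hi ω ω' hω hω' hs q hq => ?_, fun i hi ω hω => ?_,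
    fun i hi ω hω => ?_, fun i hi ω hω j q hq => ?_⟩
  · have h0 : 0 ≤ Pe p B := by
      rw [Pe_eq]
      exact Finset.sum_nonneg fun ω _ => by
        split_ifs
        exacts [hp ω, le_rfl]
    linarith
  · intro ω ω' hω hω' hs
    obtain ⟨e1, e2⟩ := hvt i hi ω ω' (hB₂B ω hω) (hB₂B ω' hω') hs
    have e3 := hCicl i hi ω ω' (hB₂s ω hω) (hB₂s ω' hω') e2
    have e4 : ∀ ω, B₂ ω → Jo i ω = rdp (sl b) (u / M) (fun α => θ₂ (i, α))
        (fun α => ⌊coeff α (vt i ω - Ci i ω) / (u / M) + θ₂ (i, α)⌋) := by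
      intro ω hω
      rw [hJo]
      exact rdp_congr fun α hα => hB₂f ω hω i hi α hα
    rw [e4 ω hω, e4 ω' hω', e1, e3]
  · intro ω ω' hω hω' hs
    have e1 := hvs i hi ω ω' (hB₂B ω hω) (hB₂B ω' hω') hs
    have e3 := hCivs i hi ω ω' (hB₂s ω hω) (hB₂s ω' hω') hs
    rw [hJo]
    show rdp (sl b) (u / M) (fun α => θ₂ (i, α))
      (fun α => ⌊coeff α (vs i ω - Ci i ω) / (u / M) + θ₂ (i, α)⌋) = _
    rw [e1, e3]
  · refine (hJ1 i ω q hq).trans ?_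
    rw [hCu, ← mul_assoc, hC]
    refine mul_le_mul_of_nonneg_right ?_ (by linarith)
    linarith
  · -- the jet
    have hb' := hB₂B ω hω
    have hb'' := hB₂B ω' hω'
    have a1 := h1 i hi ω hb' q hq
    have a2 := h1 i hi ω' hb'' q hq
    obtain ⟨a3, a4⟩ := h10 i hi ω ω' hb' hb'' hs
    have hq5 : Bx 5 q := bxm hq (by norm_num)
    have a5 := hJoe i ω q hq5
    have a6 := hJoe i ω' q hq5
    have a7 := hCicl i hi ω ω' (hB₂s ω hω) (hB₂s ω' hω') hs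
    have a8 : ∀ ω, B ω → |eval (q - xo i ω) (H ω) - eval (q - xo i ω) (Φ ω)| ≤ c₂ / M := by
      intro ω hω
      obtain ⟨g1, g2, g3⟩ := h9 ω hω
      have := hev (H ω - Φ ω) (1 / M) ((totalDegree_sub _ _).trans (max_le g1 g2)) g3
        (q - xo i ω) (bxm (bxs hq (h7 i hi ω hω)) (by norm_num))
      rwa [map_sub, mul_one_div] at this
    have a9 := a8 ω hb'
    have a10 := a8 ω' hb''
    rw [← a3] at a10
    rw [← a4] at a2
    rw [← a7] at a6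
    have e1 : (eval q (Jo i ω') + eval (q - xo i ω') (Φ ω)) -
        (eval q (Jo i ω) + eval (q - xo i ω) (Φ ω)) =
        (eval q (vs i ω') + eval (q - xo i ω') (H ω') - L i ω q) -
        (eval q (vs i ω) + eval (q - xo i ω) (H ω) - L i ω q) -
        (eval q (vs i ω') - eval q (Ci i ω) - eval q (Jo i ω')) +
        (eval q (vs i ω) - eval q (Ci i ω) - eval q (Jo i ω)) -
        (eval (q - xo i ω') (H ω') - eval (q - xo i ω') (Φ ω)) +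
        (eval (q - xo i ω) (H ω) - eval (q - xo i ω) (Φ ω)) := by ring
    have e2 : |(eval q (Jo i ω') + eval (q - xo i ω') (Φ ω)) -
        (eval q (Jo i ω) + eval (q - xo i ω) (Φ ω))| ≤ 1 / M + 1 / M + c₂ * u / M + c₂ * u / M +
          c₂ / M + c₂ / M := by
      rw [e1]
      refine (abs_add_le _ _).trans (add_le_add ?_ a9)
      refine (abs_sub _ _).trans (add_le_add ?_ a10)
      refine (abs_add_le _ _).trans (add_le_add ?_ a5)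
      refine (abs_sub _ _).trans (add_le_add ?_ a6)
      exact (abs_sub _ _).trans (add_le_add a2 a1)
    refine e2.trans ?_
    have e3 : 1 / M + 1 / M + c₂ * u / M + c₂ * u / M + c₂ / M + c₂ / M =
        (2 + 2 * (c₂ * u) + 2 * c₂) / M := by ring
    rw [e3]
    refine hdM ?_
    rw [hCu, hC]
    nlinarith
  · refine (hval i hi ω hω).trans (hdM ?_)
    rw [hCu, hC]
    nlinarith
  · -- the value at the rounded position
    have e1 := hval i hi ω hω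
    have e2 := hlip (Jo i ω) (2 * (c₂ * u)) 1 (2 / M) ((dJo i ω).trans hb1) one_pos (by positivity)
      (by
        rw [div_le_div_iff₀ hM0 (by norm_num)]
        linarith) (hJ1 i ω) (xs i ω) (xo i ω - xs i ω) (h6 i hi ω (hB₂B ω hω))
      (h8 i hi ω (hB₂B ω hω))
    rw [add_sub_cancel] at e2
    have e3 : eval (xo i ω) (Jo i ω) + eval (xs i ω) (Ci i ω) - fv i ω =
        (eval (xs i ω) (Jo i ω) + eval (xs i ω) (Ci i ω) - fv i ω) +
        (eval (xo i ω) (Jo i ω) - eval (xs i ω) (Jo i ω)) := by ring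
    rw [e3]
    refine (abs_add_le _ _).trans ((add_le_add e1 e2).trans ?_)
    have e4 : (c₂ * u + 1) / M + c₄ * (2 * (c₂ * u)) * (2 / M / 1) =
        (c₂ * u + 1 + 4 * (c₄ * (c₂ * u))) / M := by ring
    rw [e4]
    refine hdM ?_
    have e5 : c₄ * (c₂ * u) = c₄ * (c₂ * a₀) * (n + 1) := by rw [hu]; ring
    rw [e5, hCu, hC]
    nlinarith
  · -- the gradient
    have e1 := h5 i hi ω (hB₂B ω hω) j q hq
    have e2 := hgc (cs i ω - Ci i ω) u ((totalDegree_sub _ _).trans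
      (max_le ((dcs i ω).trans hb1) ((dCi i ω).trans hb1))) (hCin' i hi ω (hB₂s ω hω)) j q hq
    rw [map_sub, map_sub] at e2
    have e3 : eval q (pderiv j (Ci i ω)) = eval q (pderiv j (cs i ω)) -
        (eval q (pderiv j (cs i ω)) - eval q (pderiv j (Ci i ω))) := by ring
    have e4 : |eval q (pderiv j (Ci i ω))| ≤ |eval q (pderiv j (cs i ω))| + c₃ * u := by
      rw [e3]
      exact (abs_sub _ _).trans (add_le_add le_rfl e2)
    have e5 := mul_le_mul_of_nonneg_left e4 (hν i hi).le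
    have e6 : ν i * (c₃ * u) ≤ G / R i := by
      refine le_trans ?_ (hG i hi)
      refine mul_le_mul_of_nonneg_left ?_ (hν i hi).le
      rw [hu, hC]
      nlinarith
    have e7 : 2 * G / R i = G / R i + G / R i := by ring
    rw [e7]
    rw [mul_add] at e5
    linarith

end Pool.STB65
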