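import Pool.Agent.H65.STB.Jet
import Pool.Agent.H65.STB.Rnj

/-!
# The jets of a class: the event

`JetO`: the output. `jet_ev`: from the positions `InpP` and the polynomials `InpF`, on a large
sub-event, for all the windows at once.
-/

set_option autoImplicit false

namespace Pool.STB65

open Finset Real MvPolynomial
open Pool.Agent.H49.Ent Pool.Agent.H32.Dense Pool.STK Pool.KA Pool.KSAT Pool.K2S Pool.PB Pool.S6C
open Pool.GEN Pool.D2Con Pool.D2A Pool.RCD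
open Pool.STB (V3 Po Bx Hb)
open Pool.PB.Trl (rt rt_mem t_rt)
open Pool.FLF (Fam.sub)
open Pool.Agent.H36.KBX (bx mem_bx support_bx coef_bound eval_bound der_bound)

variable {m J : ℕ}

/-- The truncated polynomial of the line. -/
noncomputable def kta {F : Fam m J} (K b : ℕ) (h : LnT F → Fin 3 → Polynomial ℝ)
    (kf : LnT F → Po) (s : LnT F) : Po := ka (K * K) b (h s) (kf s)

/-- The homogeneous polynomial of the data of the window `W₀ + d`. -/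
noncomputable def phs {F : Fam m J} (K b d k : ℕ) (κ : ℝ) (h : LnT F → Fin 3 → Polynomial ℝ)
    (kf : LnT F → Po) (s : LnT F) : Po :=
  rf k b (hk κ b (lp (h (crs d s)) (st d s)) (kta K b h kf (crs d s)))

/-- **The output**: `Jo i` the Taylor polynomials, closed behind the windows, `Ci i` their closed
parts, `Φ₁` the homogeneous polynomial of the line. -/
structure JetO (F : Fam m J) (B : F.Ω → Prop) (W₀ d k n b : ℕ) (σ κ Kc G : ℝ) (y : F.Ω → V3)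
    (f : ℕ → PtT F → Po) (ji : ℕ → ℕ) (ctr xo : ℕ → F.Ω → V3) (Jo Ci : ℕ → F.Ω → Po)
    (Φ₁ : LnT F → Po) : Prop where
  cC : ∀ i < n, Cl2 (slam F (W₀ + d + i * k)) (fun ω => ptr F J ω) B (Ci i)
  cJ : ∀ i < n, Cl2 (slam F (W₀ + d + i * k + k)) (fun ω => ptr F J ω) B (Jo i)
  dC : ∀ i ω, (Ci i ω).totalDegree ≤ b - 1
  dJ : ∀ i ω, (Jo i ω).totalDegree ≤ b - 1
  J1 : ∀ i < n, ∀ ω, B ω → ∀ q, Bx 1 q → |eval q (Jo i ω)| ≤ Kc
  ph : ∀ s, Φ₁ s ∈ fgr k b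
  hb : ∀ s, Hb b 1 (Φ₁ s)
  jet : ∀ i < n, ∀ ω ω', B ω → B ω' →
    slam F (W₀ + d + i * k) ω = slam F (W₀ + d + i * k) ω' → ∀ q, Bx 4 q →
    |(eval q (Jo i ω') + eval (q - xo i ω') (Φ₁ (slam F (W₀ + d) ω))) -
      (eval q (Jo i ω) + eval (q - xo i ω) (Φ₁ (slam F (W₀ + d) ω)))| ≤ Kc / 2 ^ k
  val : ∀ i < n, ∀ ω, B ω → |eval (Rs d k σ i • (y ω - ctr i ω)) (Jo i ω) +
    eval (Rs d k σ i • (y ω - ctr i ω)) (Ci i ω) -
      eval (y ω) (f (ji i) (ptr F J ω)) / nu κ (Rs d k σ i) b| ≤ Kc / 2 ^ k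
  valx : ∀ i < n, ∀ ω, B ω → |eval (xo i ω) (Jo i ω) +
    eval (Rs d k σ i • (y ω - ctr i ω)) (Ci i ω) -
      eval (y ω) (f (ji i) (ptr F J ω)) / nu κ (Rs d k σ i) b| ≤ Kc / 2 ^ k
  grad : ∀ i < n, ∀ ω, B ω → ∀ j q, Bx 1 q →
    nu κ (Rs d k σ i) b * |eval q (pderiv j (Ci i ω))| ≤ G / Rs d k σ i

theorem PosO.sub {F : Fam m J} {B B' : F.Ω → Prop} {W₀ d k n : ℕ} {σ K : ℝ} {y : F.Ω → V3}
    {h : LnT F → Fin 3 → Polynomial ℝ} {ctr xo : ℕ → F.Ω → V3} {D₁ : LnT F → V3}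
    (hp : PosO F B W₀ d k n σ K y h ctr xo D₁) (hB : Sub B' B) :
    PosO F B' W₀ d k n σ K y h ctr xo D₁ :=
  ⟨fun i hi => (hp.cc i hi).sub hB, fun i hi => (hp.cx i hi).sub hB,
    fun i hi ω hω => hp.q1 i hi ω (hB ω hω), fun i hi ω hω => hp.qx i hi ω (hB ω hω),
    fun i hi ω hω => hp.x1 i hi ω (hB ω hω), hp.dg, fun ω hω => hp.dv ω (hB ω hω),
    fun i hi ω ω' hω hω' => hp.pos i hi ω ω' (hB ω hω) (hB ω' hω')⟩

theorem PosO.mono {F : Fam m J} {B : F.Ω → Prop} {W₀ d k n : ℕ} {σ K K' : ℝ} {y : F.Ω → V3}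
    {h : LnT F → Fin 3 → Polynomial ℝ} {ctr xo : ℕ → F.Ω → V3} {D₁ : LnT F → V3}
    (hp : PosO F B W₀ d k n σ K y h ctr xo D₁) (hK : K ≤ K') :
    PosO F B W₀ d k n σ K' y h ctr xo D₁ :=
  ⟨hp.cc, hp.cx, hp.q1, hp.qx, hp.x1, hp.dg, hp.dv, fun i hi ω ω' hω hω' hs =>
    bxm (hp.pos i hi ω ω' hω hω' hs) (div_le_div_of_nonneg_right hK (by positivity))⟩

/-- **The jets.** -/
theorem jet_evE (m K b : ℕ) (hK : 1 ≤ K) (hb : 1 ≤ b) (hbK : b ≤ K) :
    ∃ E E' : ℕ, ∀ N : ℕ, ∃ C : ℝ, 1 ≤ C ∧ ∀ {J : ℕ} (F : Fam m J) (B : F.Ω → Prop) (hB : 0 < Pe F.p B)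
      (W₀ d k n : ℕ) (Y θ σ : ℝ) (y : F.Ω → V3) (yt : PtT F → V3)
      (h : LnT F → Fin 3 → Polynomial ℝ) (e ji : ℕ → ℕ) (f : ℕ → PtT F → Po)
      (f' : ℕ → LnT F → Po) (kf : LnT F → Po),
      InpP F B W₀ d k n K Y y yt h → (∀ s, h s 0 = Polynomial.X) →
      InpF F B W₀ N K b Y y e f f' kf →
      (∀ i < n, ji i ≤ N ∧ e (ji i) ≤ d + i * k + k ∧
        (2 : ℝ) ^ (d + i * k + k) ≤ Y * 2 ^ e (ji i)) →
      0 < n → W₀ + d + n * k ≤ J → k ≤ d → C ≤ Y → 108 * n * Y ≤ σ → 4 * Y ≤ σ → σ ≤ Y ^ 2 →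
      Y ^ E ≤ 2 ^ k → 0 ≤ θ → (Fam.sub F B hB).Tm θ →
      C * (θ + 1) ≤ ((J : ℝ) - W₀) * Real.log 2 → Real.exp (C * (θ + 1)) ≤ Y →
      ∃ (B' : F.Ω → Prop) (ctr xo : ℕ → F.Ω → V3) (D₁ : LnT F → V3) (Jo Ci : ℕ → F.Ω → Po),
        Sub B' B ∧ Pe F.p B ≤ 8 * Pe F.p B' ∧
        PosO F B' W₀ d k n σ (C * Y) y h ctr xo D₁ ∧
        JetO F B' W₀ d k n b σ (Y ^ E') (C * (n + 1)) (Y ^ E) y f ji ctr xo Jo Ci
          (phs K b d k (Y ^ E') h kf) := by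
  classical
  obtain ⟨K₂, hK₂⟩ : ∃ K₂, K₂ = K * (K * K) := ⟨_, rfl⟩
  have hKK₂ : K ≤ K₂ := by rw [hK₂]; nlinarith [Nat.mul_le_mul hK hK]
  obtain ⟨E₁, hnatE⟩ := nat_evE m K b hK hbK
  obtain ⟨C₂, hC₂, hpos⟩ := pos_ev K
  obtain ⟨C₃, E₃, hC₃, hsmp⟩ := smp_one K₂ b hb
  obtain ⟨C₄, hC₄, hrn⟩ := rnj b hb
  have hcb := cb_pos b
  have hcb' : 0 < 1 / cb b := by positivity
  obtain ⟨E', hE'⟩ : ∃ E', E' = (E₁ + 3) * E₃ := ⟨_, rfl⟩
  obtain ⟨E, hE⟩ : ∃ E, E = E' + 3 * (E₁ + 3) + (E₁ + 3) * (b + 2) + 4 := ⟨_, rfl⟩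
  refine ⟨E, E', fun N => ?_⟩
  obtain ⟨C₁, hC₁, hnat⟩ := hnatE N
  obtain ⟨C, hC⟩ : ∃ C : ℝ, C = C₁ + (C₂ + 7) + C₃ + C₄ + 1 / cb b + 2 := ⟨_, rfl⟩
  refine ⟨C, by rw [hC]; linarith, ?_⟩
  intro J F B hB W₀ d k n Y θ σ y yt h e ji f f' kf hip h0 hif hji hn hJ hkd hCY hσn hσ4 hσ2 hYk hθ hTm
    hTJ hexp
  have y1 : C₁ ≤ Y := by linarith
  have y2 : C₂ + 7 ≤ C := by linarith
  have y3 : C₃ ≤ Y := by linarith
  have y4 : C₄ ≤ C := by linarith
  have y6 : 1 / cb b ≤ Y := by linarith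
  have hY9 : 9 ≤ Y := by linarith
  have hY1 : 1 ≤ Y := by linarith
  have hY0 : 0 < Y := by linarith
  have hC0 : 0 ≤ C := by linarith
  have pY : ∀ {a c : ℕ}, a ≤ c → Y ^ a ≤ Y ^ c := fun h => pow_le_pow_right₀ hY1 h
  have hpY : ∀ a : ℕ, 1 ≤ Y ^ a := fun a => one_le_pow₀ hY1
  have hYe : ∀ a : ℕ, 1 ≤ a → Y ≤ Y ^ a := fun a ha => by
    calc Y = Y ^ 1 := (pow_one Y).symm
      _ ≤ _ := pY ha
  have hσ0 : 0 < σ := by linarith
  have hσ1 : 1 ≤ σ := by linarith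
  have hn0 : (0 : ℝ) ≤ n := Nat.cast_nonneg n
  have hnY : (n : ℝ) + 1 ≤ Y := by
    have h1 : 108 * n * Y ≤ Y * Y := by
      have : Y ^ 2 = Y * Y := sq Y
      linarith
    have h2 : 108 * (n : ℝ) ≤ Y := le_of_mul_le_mul_right h1 hY0
    linarith
  obtain ⟨M, hM⟩ : ∃ M : ℝ, M = 2 ^ k := ⟨_, rfl⟩
  have hYM : Y ^ E ≤ M := by rw [hM]; exact hYk
  have hYM1 : Y ≤ M := (hYe E (by omega)).trans hYM
  have hM0 : 0 < M := by linarith
  have hM1 : 1 ≤ M := by linarith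
  have hk2 : 2 ≤ k := by
    by_contra hcon
    have h1 : (2 : ℝ) ^ k ≤ 2 ^ 1 := pow_le_pow_right₀ (by norm_num) (by omega)
    rw [← hM] at h1
    linarith
  -- the constants of a sample
  obtain ⟨V, hV⟩ : ∃ V : ℝ, V = Y ^ (E₁ + 3) := ⟨_, rfl⟩
  have hVY : Y ≤ V := by rw [hV]; exact hYe _ (by omega)
  have hV3 : Y ^ 3 ≤ V := by rw [hV]; exact pY (by omega)
  have hVE : Y ^ E₁ ≤ V := by rw [hV]; exact pY (by omega)
  have hV0 : 0 < V := by linarith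
  have hV1 : 1 ≤ V := by linarith
  have hσV : σ + Y ≤ V := by
    have : Y ^ 3 = Y ^ 2 * Y := by ring
    nlinarith
  have hκe : V ^ E₃ = Y ^ E' := by rw [hV, hE', ← pow_mul]
  have hVM : 2 * V ^ (b + 2) ≤ M := by
    have h1 : Y ^ ((E₁ + 3) * (b + 2) + 1) ≤ Y ^ E := pY (by omega)
    rw [pow_succ, pow_mul, ← hV] at h1
    have : 0 < V ^ (b + 2) := by positivity
    nlinarith
  obtain ⟨κ, hκ⟩ : ∃ κ : ℝ, κ = V ^ E₃ := ⟨_, rfl⟩
  have hκ0 : 0 < κ := by rw [hκ]; positivity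
  have hκ1 : 1 ≤ κ := by rw [hκ]; exact one_le_pow₀ hV1
  rw [← hκe, ← hκ]
  obtain ⟨R, hR⟩ : ∃ R : ℕ → ℝ, R = Rs d k σ := ⟨_, rfl⟩
  have hR0 : ∀ i, 0 < R i := fun i => by rw [hR]; exact Rs_pos hσ0 i
  have hRM : ∀ i, M / σ ≤ R i := by
    intro i
    rw [hR, hM]
    unfold Rs
    refine div_le_div_of_nonneg_right (pow_le_pow_right₀ (by norm_num) ?_) hσ0.le
    have : 0 ≤ i * k := Nat.zero_le _
    omega
  have hMR : ∀ i, M ≤ V * R i := by
    intro i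
    have h1 := hRM i
    rw [div_le_iff₀ hσ0] at h1
    have h2 : R i * σ ≤ R i * V := mul_le_mul_of_nonneg_left (by linarith) (hR0 i).le
    linarith
  have hR4 : ∀ i, 4 ≤ R i := by
    intro i
    refine le_trans ?_ (hRM i)
    rw [le_div_iff₀ hσ0]
    have h1 : V * V ≤ V ^ (b + 2) := by
      calc V * V = V ^ 2 := (sq V).symm
        _ ≤ _ := pow_le_pow_right₀ hV1 (by omega)
    have h2 : 2 * σ ≤ V * V := by nlinarith
    linarith
  -- the natural event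
  obtain ⟨B₁, hB₁s, hB₁P, hB₁n⟩ := hnat F B hB W₀ Y θ y h e f f' kf hif hip.hd h0 hip.yh hip.vel
    (by omega) y1 hθ hTm (by
      have : C₁ * (θ + 1) ≤ C * (θ + 1) :=
        mul_le_mul_of_nonneg_right (by linarith) (by linarith)
      linarith) (by
      refine le_trans (Real.exp_le_exp.2 ?_) hexp
      exact mul_le_mul_of_nonneg_right (by linarith) (by linarith))
  -- the positions
  obtain ⟨B₂, ctr, xo, D₁, hB₂s, hB₂P, hpo⟩ := hpos F B₁ W₀ d k n Y σ y yt h (hip.sub hB₁s) hJ hkd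
    hk2 hY1 hσn hσ4
  have hB₂B : Sub B₂ B := fun ω hω => hB₁s ω (hB₂s ω hω)
  -- the data of a sample
  obtain ⟨Kt, hKt⟩ : ∃ Kt : F.Ω → Po, Kt = fun ω => kta K b h kf (slam F W₀ ω) := ⟨_, rfl⟩
  obtain ⟨p, hp⟩ : ∃ p : F.Ω → V3, p = fun ω =>
    lp (h (slam F W₀ ω)) (st d (slam F (W₀ + d) ω)) := ⟨_, rfl⟩
  obtain ⟨ν, hν⟩ : ∃ ν : ℕ → ℝ, ν = fun i => nu κ (R i) b := ⟨_, rfl⟩
  have hν0 : ∀ i, 0 < ν i := fun i => by rw [hν]; exact nu_pos hκ0 (hR0 i) b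
  obtain ⟨vs, hvs⟩ : ∃ vs : ℕ → F.Ω → Po, vs = fun i ω =>
    vj (ν i) (R i) b (xo i ω) (ctr i ω) (f (ji i) (ptr F J ω)) := ⟨_, rfl⟩
  obtain ⟨vt, hvt⟩ : ∃ vt : ℕ → F.Ω → Po, vt = fun i ω =>
    vj (ν i) (R i) b (xo i ω) (ctr i ω) (f' (ji i) (slam F (W₀ + e (ji i)) ω)) := ⟨_, rfl⟩
  obtain ⟨cs, hcs⟩ : ∃ cs : ℕ → F.Ω → Po, cs = fun i ω =>
    cj (ν i) (R i) b (ctr i ω) (Kt ω) := ⟨_, rfl⟩
  have hsam : ∀ i < n, ∀ ω, B₂ ω →
      (∀ q, Bx 4 q → |eval q (vs i ω) + eval (q - xo i ω) (hk κ b (p ω) (Kt ω)) -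
        1 / ν i * eval (ctr i ω + (R i)⁻¹ • q) (Kt ω)| ≤ 1 / M) ∧
      (∀ q, Bx 4 q → |eval q (vs i ω) - eval q (cs i ω)| ≤ 1) ∧
      (∀ q, Bx 4 q → |eval q (vs i ω) - eval q (vt i ω)| ≤ 1 / M) ∧
      |eval (R i • (y ω - ctr i ω)) (vs i ω) - eval (y ω) (f (ji i) (ptr F J ω)) / ν i| ≤
        1 / M ∧
      (∀ α, |coeff α (hk κ b (p ω) (Kt ω))| ≤ cb b) ∧
      ∀ j q, Bx 1 q → ν i * |eval q (pderiv j (cs i ω))| ≤ V ^ 3 / R i := by
    intro i hi ω hω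
    have hωB := hB₂B ω hω
    obtain ⟨n1, n2⟩ := hB₁n ω (hB₂s ω hω)
    obtain ⟨j1, j2, j3⟩ := hji i hi
    have hτ := st_mem (F := F) d (slam F (W₀ + d) ω)
    have hq1 := hpo.q1 i hi ω hω
    have hqx := hpo.qx i hi ω hω
    rw [← hR] at hq1 hqx
    have hdk : d + i * k + k ≤ d + n * k := by
      have e1 : (i + 1) * k ≤ n * k := Nat.mul_le_mul_right _ hi
      have e2 : (i + 1) * k = i * k + k := by ring
      omega
    have hMRi : M * R i = 2 ^ (d + i * k + k) / σ := by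
      rw [hM, hR]
      unfold Rs
      rw [pow_add 2 (d + i * k) k]
      ring
    have hctr : Bx (V / M) (ctr i ω - p ω) := by
      have e1 : ctr i ω - p ω = (y ω - p ω) - (y ω - ctr i ω) := by abel
      have a1 : Bx (Y / 2 ^ d) (y ω - p ω) := by
        intro j
        have b1 := hip.yh ω hωB j
        have b2 := pol_lip (h (slam F W₀ ω) j) (a := 0) (b := 1) (hip.vel ω hωB j) hτ
          (rt_mem F W₀ ω)
        have b3 : (y ω - p ω) j = (h (slam F W₀ ω) j).eval (rt F W₀ ω) -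
            (h (slam F W₀ ω) j).eval (st d (slam F (W₀ + d) ω)) := by
          rw [Pi.sub_apply, b1, hp]
          rfl
        rw [b3]
        refine b2.trans ?_
        rw [rt_st F (show W₀ + d ≤ J by omega) ω, add_sub_cancel_left]
        have b4 := rt_mem F (W₀ + d) ω
        rw [abs_of_nonneg (div_nonneg b4.1 (by positivity)), div_eq_mul_one_div Y]
        refine mul_le_mul_of_nonneg_left ?_ hY0.le
        exact div_le_div_of_nonneg_right b4.2 (by positivity)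
      have a2 : Bx (σ / 2 ^ d) (y ω - ctr i ω) := by
        have b1 : y ω - ctr i ω = (R i)⁻¹ • (R i • (y ω - ctr i ω)) := by
          rw [smul_smul, inv_mul_cancel₀ (hR0 i).ne', one_smul]
        rw [b1]
        refine bxm (bx_smul hq1 (inv_nonneg.2 (hR0 i).le)) ?_
        have b2 : (2 : ℝ) ^ d / σ ≤ R i := by
          rw [hR]
          unfold Rs
          refine div_le_div_of_nonneg_right (pow_le_pow_right₀ (by norm_num) ?_) hσ0.le
          omega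
        have b3 : (R i)⁻¹ ≤ σ / 2 ^ d := by
          rw [← inv_div]
          exact inv_anti₀ (by positivity) b2
        have b4 : 0 < (R i)⁻¹ := inv_pos.2 (hR0 i)
        linarith
      rw [e1]
      refine bxm (bxs a1 a2) ?_
      rw [← add_div]
      refine div_le_div₀ hV0.le (by linarith) hM0 ?_
      rw [hM]
      exact pow_le_pow_right₀ (by norm_num) hkd
    have hres := hsmp (Kt ω) (f (ji i) (ptr F J ω)) (f' (ji i) (slam F (W₀ + e (ji i)) ω)) (p ω)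
      (y ω) (ctr i ω) (xo i ω) V M (R i) (1 / 2 ^ e (ji i))
      (by
        rw [hKt, hK₂]
        exact deg_ka hK (fun j => hip.hd _ j) (hif.kd _))
      ((hif.fd _ _).trans hKK₂) ((hif.fd' _ _).trans hKK₂) (y3.trans hVY) hVM (hMR i) (hR4 i)
      (fun s hs => by
        rw [hKt, hp]
        exact (n1 _ hτ s hs).trans hVE) hctr hq1
      (bxm hqx (by
        rw [← hM]
        exact div_le_div_of_nonneg_right (by linarith) hM0.le))
      (by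
        rw [mul_one_div, div_le_div_iff₀ (by positivity) (by positivity), one_mul]
        have b1 : (2 : ℝ) ^ e (ji i) ≤ 2 ^ (d + i * k + k) := pow_le_pow_right₀ (by norm_num) j2
        have b2 : R i * (V * M) = V * (M * R i) := by ring
        rw [b2, hMRi, mul_div_assoc']
        rw [le_div_iff₀ hσ0]
        calc (2 : ℝ) ^ e (ji i) * σ ≤ 2 ^ (d + i * k + k) * V :=
              mul_le_mul b1 (by linarith) hσ0.le (by positivity)
          _ = _ := mul_comm _ _)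
      (by
        rw [hMRi, div_div_eq_mul_div, div_le_div_iff₀ (by positivity) (by positivity), one_mul]
        refine j3.trans ?_
        refine mul_le_mul_of_nonneg_right ?_ (by positivity)
        nlinarith)
      (by positivity)
      (fun r hr => by
        rw [hKt]
        refine (n2 _ j1 r hr).trans ?_
        exact mul_le_mul_of_nonneg_right hVE (by positivity))
      (fun r hr => (hif.agr _ j1 ω hωB r hr).trans
        (mul_le_mul_of_nonneg_right hVY (by positivity)))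
    rw [hvs, hvt, hcs, hν, hκ]
    exact hres
  -- the codes
  have hdeg : ∀ ω, (Kt ω).totalDegree ≤ K₂ := fun ω => by
    rw [hKt, hK₂]
    exact deg_ka hK (fun j => hip.hd _ j) (hif.kd _)
  have hkn : ∀ i < n, i * k + k ≤ n * k := by
    intro i hi
    have e1 : (i + 1) * k ≤ n * k := Nat.mul_le_mul_right _ hi
    have e2 : (i + 1) * k = i * k + k := by ring
    omega
  have hcl : ∀ i < n, ∀ ω ω', B₂ ω → B₂ ω' →
      slam F (W₀ + d + i * k) ω = slam F (W₀ + d + i * k) ω' → ctr i ω = ctr i ω' ∧ Kt ω = Kt ω' ∧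
        slam F (W₀ + d) ω = slam F (W₀ + d) ω' := by
    intro i hi ω ω' hω hω' hs
    have h1 := hkn i hi
    refine ⟨(cl2_eq (hpo.cc i hi)).1 ω ω' hω hω' hs, ?_,
      slam_eq_of_le F (by omega) (by omega) hs⟩
    rw [hKt]
    show kta K b h kf (slam F W₀ ω) = kta K b h kf (slam F W₀ ω')
    rw [slam_eq_of_le F (show W₀ ≤ W₀ + d + i * k by omega) (by omega) hs]
  obtain ⟨B₃, Jo, Ci, hB₃s, hB₃P, r1, r2, r3, r4, r5, r6, r7, r8, r9⟩ := hrn F.isLaw.nonneg B₂ n M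
    (κ * V ^ 3) R ν (fun ω => ptr F J ω) (fun i => slam F (W₀ + d + i * k))
    (fun i => slam F (W₀ + d + i * k + k)) vs vt cs (fun i ω => R i • (y ω - ctr i ω)) xo
    (fun i ω => eval (y ω) (f (ji i) (ptr F J ω)) / ν i)
    (fun ω => hk κ b (p ω) (Kt ω)) (fun ω => phs K b d k κ h kf (slam F (W₀ + d) ω))
    (fun i ω q => 1 / ν i * eval (ctr i ω + (R i)⁻¹ • q) (Kt ω)) (by linarith)
    (fun i _ => hR0 i) (fun i _ => hν0 i)
    (fun i _ => by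
      have e1 : ν i ≤ κ * (R i)⁻¹ := by
        rw [hν]
        show nu κ (R i) b ≤ κ * (R i)⁻¹
        unfold nu
        refine mul_le_mul_of_nonneg_left ?_ hκ0.le
        have e2 : (R i)⁻¹ ≤ 1 := inv_le_one_of_one_le₀ (by linarith [hR4 i])
        calc (R i)⁻¹ ^ b ≤ (R i)⁻¹ ^ 1 :=
              pow_le_pow_of_le_one (inv_nonneg.2 (hR0 i).le) e2 hb
          _ = _ := pow_one _
      have e3 : C₄ * (n + 1) ≤ V ^ 3 := by
        calc C₄ * (n + 1) ≤ V * V := mul_le_mul (by linarith) (by linarith) (by linarith) hV0.le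
          _ = V ^ 2 := (sq V).symm
          _ ≤ V ^ 3 := pow_le_pow_right₀ hV1 (by norm_num)
      calc ν i * (C₄ * (n + 1)) ≤ κ * (R i)⁻¹ * V ^ 3 :=
            mul_le_mul e1 e3 (by positivity) (mul_nonneg hκ0.le (inv_nonneg.2 (hR0 i).le))
        _ = _ := by ring)
    (fun i hi ω ω' hω hω' hs => by
      rw [hvs]
      show vj (ν i) (R i) b (xo i ω) (ctr i ω) (f (ji i) (ptr F J ω)) =
        vj (ν i) (R i) b (xo i ω') (ctr i ω') (f (ji i) (ptr F J ω'))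
      rw [(cl2_eq (hpo.cx i hi)).2 ω ω' hω hω' hs, (cl2_eq (hpo.cc i hi)).2 ω ω' hω hω' hs, hs])
    (fun i hi ω ω' hω hω' hs => by
      obtain ⟨e1, e2, e3⟩ := hcl i hi ω ω' hω hω' hs
      rw [hcs]
      show cj (ν i) (R i) b (ctr i ω) (Kt ω) = cj (ν i) (R i) b (ctr i ω') (Kt ω')
      rw [e1, e2])
    (fun i hi ω ω' hω hω' hs => by
      have h1 := hkn i hi
      have hs' : slam F (W₀ + d + i * k) ω = slam F (W₀ + d + i * k) ω' :=
        slam_eq_of_le F (show W₀ + d + i * k ≤ W₀ + d + i * k + k by omega) (by omega) hs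
      refine ⟨?_, hs'⟩
      obtain ⟨e1, e2, e3⟩ := hcl i hi ω ω' hω hω' hs'
      obtain ⟨j1, j2, j3⟩ := hji i hi
      rw [hvt]
      show vj (ν i) (R i) b (xo i ω) (ctr i ω) (f' (ji i) (slam F (W₀ + e (ji i)) ω)) =
        vj (ν i) (R i) b (xo i ω') (ctr i ω') (f' (ji i) (slam F (W₀ + e (ji i)) ω'))
      rw [(cl2_eq (hpo.cx i hi)).1 ω ω' hω hω' hs, e1, slam_eq_of_le F
        (show W₀ + e (ji i) ≤ W₀ + d + i * k + k by omega) (by omega) hs])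
    (fun i ω => by
      rw [hvs]
      exact deg_vj _ _ hb _ _ _)
    (fun i ω => by
      rw [hvt]
      exact deg_vj _ _ hb _ _ _)
    (fun i ω => by
      rw [hcs]
      exact deg_cj _ _ hb _ _)
    (fun i hi ω hω => (hsam i hi ω hω).1) (fun i hi ω hω => (hsam i hi ω hω).2.1)
    (fun i hi ω hω => (hsam i hi ω hω).2.2.1) (fun i hi ω hω => (hsam i hi ω hω).2.2.2.1)
    (fun i hi ω hω j q hq => by
      refine ((hsam i hi ω hω).2.2.2.2.2 j q hq).trans ?_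
      refine div_le_div_of_nonneg_right ?_ (hR0 i).le
      exact le_mul_of_one_le_left (by positivity) hκ1)
    (fun i hi ω hω => by
      have := hpo.q1 i hi ω hω
      rwa [← hR] at this)
    (fun i hi ω hω => hpo.x1 i hi ω hω)
    (fun i hi ω hω => by
      have := hpo.qx i hi ω hω
      rwa [← hR, ← hM] at this)
    (fun ω hω => ⟨(hom_hk _ _ _ _).totalDegree_le, by
      unfold phs
      exact (rf_hom _ _ _).totalDegree_le, fun α => by
      have e1 := rf_near (k := k) (hom_hk κ b (p ω) (Kt ω)) (hsam 0 hn ω hω).2.2.2.2.1 α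
      have e2 : phs K b d k κ h kf (slam F (W₀ + d) ω) = rf k b (hk κ b (p ω) (Kt ω)) := by
        unfold phs
        rw [crs_slam F (by omega) ω, hp, hKt]
      rw [e2, hM]
      exact e1⟩)
    (fun i hi ω ω' hω hω' hs => by
      obtain ⟨e1, e2, e3⟩ := hcl i hi ω ω' hω hω' hs
      refine ⟨by rw [e3], ?_⟩
      funext q
      rw [e1, e2])
  have hB₃B : Sub B₃ B := fun ω hω => hB₂B ω (hB₃s ω hω)
  have hCn : C₄ * ((n : ℝ) + 1) ≤ C * (n + 1) := mul_le_mul_of_nonneg_right y4 (by linarith)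
  have h1k : 1 / 2 ^ k ≤ cb b := by
    rw [← hM, one_div_le hM0 hcb]
    linarith
  have hGE : 2 * (κ * V ^ 3) ≤ Y ^ E := by
    have e1 : Y ^ (E' + 3 * (E₁ + 3) + 1) ≤ Y ^ E := pY (by omega)
    have e2 : Y ^ (E' + 3 * (E₁ + 3) + 1) = Y * (κ * V ^ 3) := by
      rw [pow_succ, pow_add, hκ, hκe, hV, ← pow_mul, mul_comm (E₁ + 3) 3]
      ring
    rw [e2] at e1
    have e3 : 0 < κ * V ^ 3 := by positivity
    have e4 := mul_le_mul_of_nonneg_right (show (2 : ℝ) ≤ Y by linarith) e3.le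
    linarith
  refine ⟨B₃, ctr, xo, D₁, Jo, Ci, hB₃B, ?_, (hpo.sub hB₃s).mono ?_, ?_⟩
  · linarith
  · have : (C₂ + 7) * Y ≤ C * Y := mul_le_mul_of_nonneg_right y2 hY0.le
    have e1 : 7 * 1 ≤ 7 * Y := by linarith
    nlinarith
  · refine ⟨r1, r2, r3, r4, fun i hi ω hω q hq => (r5 i hi ω hω q hq).trans hCn,
      fun s => rf_fgr k b _, fun s => rf_hb h1k _, fun i hi ω ω' hω hω' hs q hq => ?_,
      fun i hi ω hω => ?_, fun i hi ω hω => ?_, fun i hi ω hω j q hq => ?_⟩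
    · refine (r6 i hi ω ω' hω hω' hs q hq).trans ?_
      rw [← hM]
      exact div_le_div_of_nonneg_right hCn hM0.le
    · have e1 := (r7 i hi ω hω).trans (div_le_div_of_nonneg_right hCn hM0.le)
      rw [hν, hR, hM] at e1
      exact e1
    · have e1 := (r8 i hi ω hω).trans (div_le_div_of_nonneg_right hCn hM0.le)
      rw [hν, hR, hM] at e1
      exact e1
    · have e1 := (r9 i hi ω hω j q hq).trans (div_le_div_of_nonneg_right hGE (hR0 i).le)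
      rw [hν, hR] at e1
      exact e1

/-- The same, with the exponents after the number of the balls. -/
theorem jet_ev (m K b N : ℕ) (hK : 1 ≤ K) (hb : 1 ≤ b) (hbK : b ≤ K) :
    ∃ (C : ℝ) (E E' : ℕ), 1 ≤ C ∧ ∀ {J : ℕ} (F : Fam m J) (B : F.Ω → Prop) (hB : 0 < Pe F.p B)
      (W₀ d k n : ℕ) (Y θ σ : ℝ) (y : F.Ω → V3) (yt : PtT F → V3)
      (h : LnT F → Fin 3 → Polynomial ℝ) (e ji : ℕ → ℕ) (f : ℕ → PtT F → Po)
      (f' : ℕ → LnT F → Po) (kf : LnT F → Po),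
      InpP F B W₀ d k n K Y y yt h → (∀ s, h s 0 = Polynomial.X) →
      InpF F B W₀ N K b Y y e f f' kf →
      (∀ i < n, ji i ≤ N ∧ e (ji i) ≤ d + i * k + k ∧
        (2 : ℝ) ^ (d + i * k + k) ≤ Y * 2 ^ e (ji i)) →
      0 < n → W₀ + d + n * k ≤ J → k ≤ d → C ≤ Y → 108 * n * Y ≤ σ → 4 * Y ≤ σ → σ ≤ Y ^ 2 →
      Y ^ E ≤ 2 ^ k → 0 ≤ θ → (Fam.sub F B hB).Tm θ →
      C * (θ + 1) ≤ ((J : ℝ) - W₀) * Real.log 2 → Real.exp (C * (θ + 1)) ≤ Y →
      ∃ (B' : F.Ω → Prop) (ctr xo : ℕ → F.Ω → V3) (D₁ : LnT F → V3) (Jo Ci : ℕ → F.Ω → Po),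
        Sub B' B ∧ Pe F.p B ≤ 8 * Pe F.p B' ∧
        PosO F B' W₀ d k n σ (C * Y) y h ctr xo D₁ ∧
        JetO F B' W₀ d k n b σ (Y ^ E') (C * (n + 1)) (Y ^ E) y f ji ctr xo Jo Ci
          (phs K b d k (Y ^ E') h kf) := by
  obtain ⟨E, E', h⟩ := jet_evE m K b hK hb hbK
  obtain ⟨C, h1, h2⟩ := h N
  exact ⟨C, E, E', h1, h2⟩

end Pool.STB65
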