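import Pool.Agent.H65.STB.Nat

/-!
# The jet of a sample

`jet_one`: the polynomial of a line is natural on its window; on a small box around the sample it is
near a visible polynomial. Then the visible Taylor polynomial and the homogeneous polynomial of the
line give the polynomial of the line on the whole box of the window.
-/

set_option autoImplicit false

namespace Pool.STB65

open Finset Real MvPolynomial
open Pool.STB

/-- Growth around a point. -/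
theorem grow_at (K : ℕ) : ∃ C : ℝ, 1 ≤ C ∧ ∀ (P Q : Po) (x : V3) (M r ρ : ℝ), P.totalDegree ≤ K →
    Q.totalDegree ≤ K → 0 < r → r ≤ ρ → (∀ q, Bx r (q - x) → |eval q P - eval q Q| ≤ M) →
    ∀ q, Bx ρ (q - x) → |eval q P - eval q Q| ≤ C * M * (ρ / r) ^ K := by
  obtain ⟨C, hC, hg⟩ := grow K
  refine ⟨C, hC, fun P Q x M r ρ hP hQ hr hρ hM q hq => ?_⟩
  have h1 := hg (trs x (P - Q)) M r ρ ((deg_trs _ _).trans ((totalDegree_sub _ _).trans
    (max_le hP hQ))) hr hρ (fun z hz => by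
      rw [eval_trs, map_sub]
      exact hM _ (by rwa [add_sub_cancel_right])) (q - x) hq
  rwa [eval_trs, map_sub, sub_add_cancel] at h1

/-- **The jet of a sample.** -/
theorem jet_one (K b : ℕ) (hb : 1 ≤ b) : ∃ C₀ : ℝ, 1 ≤ C₀ ∧ ∀ (Kl fq : Po) (rs xs xo : V3)
    (Y M R : ℝ), Kl.totalDegree ≤ K → fq.totalDegree ≤ K → C₀ ≤ Y → 2 * Y ≤ M → M ≤ Y * R →
    4 ≤ R → (∀ q, Bx 1 q → |eval q Kl| ≤ Y) → Bx (Y / M) rs → Bx (1 / 2) xs →
    Bx (Y / M) (xo - xs) → (∀ q, Bx (1 / (Y * M)) (q - xs) →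
      |eval (rs + R⁻¹ • q) Kl - eval q fq| ≤ Y * (1 / (M * R)) ^ b) →
    (∀ q, Bx 4 q → |eval (q - xo) (low b (trs xo fq)) +
      R⁻¹ ^ b * eval (q - xo) (homogeneousComponent b Kl) - eval (rs + R⁻¹ • q) Kl| ≤
        Y ^ (3 * K + 5) * R⁻¹ ^ b / M) ∧
    ∀ q, Bx 4 q → |eval (q - xo) (low b (trs xo fq)) -
      eval q (low b (scl R⁻¹ (trs rs Kl)))| ≤ Y ^ (3 * K + 5) * R⁻¹ ^ b := by
  obtain ⟨C₁, hC₁, hg⟩ := grow_at K
  obtain ⟨C₂, hC₂, hn⟩ := low_near K b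
  obtain ⟨C₃, hC₃, he⟩ := exp_pt K b
  obtain ⟨C₄, hC₄, hp⟩ := low_pt K b
  obtain ⟨C₅, hC₅, hr⟩ := ref_pt K b
  obtain ⟨C₀, hC₀⟩ : ∃ C₀ : ℝ, C₀ = C₁ + C₂ + C₃ + C₄ + C₅ + 5 ^ b + 2 ^ (b + 1) := ⟨_, rfl⟩
  have h5b : (1 : ℝ) ≤ 5 ^ b := one_le_pow₀ (by norm_num)
  have h2b : (1 : ℝ) ≤ 2 ^ (b + 1) := one_le_pow₀ (by norm_num)
  refine ⟨C₀, by rw [hC₀]; linarith, ?_⟩
  intro Kl fq rs xs xo Y M R hKl hfq hY hYM hMR hR hKb hrs hxs hxo hcl
  have y1 : C₁ ≤ Y := by linarith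
  have y2 : C₂ ≤ Y := by linarith
  have y3 : C₃ ≤ Y := by linarith
  have y4 : C₄ ≤ Y := by linarith
  have y5 : C₅ ≤ Y := by linarith
  have y6 : 5 ^ b ≤ Y := by linarith
  have y7 : 2 ^ (b + 1) ≤ Y := by linarith
  have hY3 : 3 ≤ Y := by linarith
  have hY0 : 0 < Y := by linarith
  have hM0 : 0 < M := by linarith
  have hR0 : 0 < R := by linarith
  have hYM2 : Y / M ≤ 1 / 2 := by
    rw [div_le_iff₀ hM0]
    linarith
  -- the polynomial of the line in the coordinates of the window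
  obtain ⟨P, hP⟩ : ∃ P, P = scl R⁻¹ (trs rs Kl) := ⟨_, rfl⟩
  have hPe : ∀ q, eval q P = eval (rs + R⁻¹ • q) Kl := by
    intro q
    rw [hP, eval_scl, eval_trs, add_comm]
  have hPd : P.totalDegree ≤ K := by
    rw [hP]
    exact (deg_scl _ _).trans ((deg_trs _ _).trans hKl)
  have hPb : ∀ q, Bx (R / 2) q → |eval q P| ≤ Y := by
    intro q hq
    rw [hPe]
    refine hKb _ (bxm (bxa hrs (bx_smul hq (inv_nonneg.2 hR0.le))) ?_)
    have : R⁻¹ * (R / 2) = 1 / 2 := by field_simp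
    rw [this]
    linarith
  have hxo1 : Bx 1 xo := by
    have : xo = xs + (xo - xs) := by abel
    rw [this]
    exact bxm (bxa hxs hxo) (by linarith)
  -- the visible polynomial near the rounded position
  have hRb : 0 < R⁻¹ ^ b := by positivity
  have e0 : (1 / (M * R)) ^ b = R⁻¹ ^ b / M ^ b := by
    rw [one_div, mul_inv, mul_pow, inv_pow M]
    field_simp
  have hcl2 : ∀ q, Bx (1 / M) (q - xo) → |eval q P - eval q fq| ≤
      Y ^ (3 * K + 2) * (R⁻¹ ^ b / M ^ b) := by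
    intro q hq
    have h1 : Bx ((Y + 1) / M) (q - xs) := by
      have : q - xs = (q - xo) + (xo - xs) := by abel
      rw [this]
      refine bxm (bxa hq hxo) (le_of_eq ?_)
      ring
    have h2 := hg P fq xs (Y * (R⁻¹ ^ b / M ^ b)) (1 / (Y * M)) ((Y + 1) / M) hPd hfq
      (by positivity) (by
        refine div_le_div₀ (by positivity) (by linarith) hM0 ?_
        nlinarith) (fun z hz => by
        rw [hPe, ← e0]
        exact hcl z hz) q h1
    refine h2.trans ?_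
    have h3 : (Y + 1) / M / (1 / (Y * M)) = (Y + 1) * Y := by field_simp
    rw [h3]
    have h40 : Y + 1 ≤ Y * Y := by nlinarith
    have h4 : (Y + 1) * Y ≤ Y ^ 3 := by
      calc (Y + 1) * Y ≤ (Y * Y) * Y := mul_le_mul_of_nonneg_right h40 hY0.le
        _ = Y ^ 3 := by ring
    have h5 : ((Y + 1) * Y) ^ K ≤ Y ^ (3 * K) := by
      rw [pow_mul]
      exact pow_le_pow_left₀ (by positivity) h4 K
    calc C₁ * (Y * (R⁻¹ ^ b / M ^ b)) * ((Y + 1) * Y) ^ K ≤
        Y * (Y * (R⁻¹ ^ b / M ^ b)) * Y ^ (3 * K) := by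
          refine mul_le_mul (mul_le_mul_of_nonneg_right y1 (by positivity)) h5 (by positivity)
            (by positivity)
      _ = _ := by
          rw [pow_add]
          ring
  have h1 : ∀ q, Bx 4 q → |eval (q - xo) (low b (trs xo P)) -
      eval (q - xo) (low b (trs xo fq))| ≤ Y ^ (3 * K + 4) * R⁻¹ ^ b / M := by
    intro q hq
    have hq5 : Bx 5 (q - xo) := bxm (bxs hq hxo1) (by norm_num)
    have h2 := hn P fq xo (1 / M) (Y ^ (3 * K + 2) * (R⁻¹ ^ b / M ^ b)) 5 hPd hfq (by positivity)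
      (by
        rw [div_le_iff₀ hM0]
        linarith) hcl2 (q - xo) hq5
    refine h2.trans ?_
    have h3 : (5 / (1 / M)) ^ (b - 1) = 5 ^ (b - 1) * M ^ (b - 1) := by
      rw [← mul_pow]
      congr 1
      field_simp
    have h4 : (5 : ℝ) ^ (b - 1) ≤ Y := (pow_le_pow_right₀ (by norm_num) (by omega)).trans y6
    have h5 : M ^ b = M ^ (b - 1) * M := by
      rw [← pow_succ]
      congr 1
      omega
    rw [h3]
    have h6 : C₂ * (Y ^ (3 * K + 2) * (R⁻¹ ^ b / M ^ b)) * (5 ^ (b - 1) * M ^ (b - 1)) =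
        (C₂ * 5 ^ (b - 1)) * (Y ^ (3 * K + 2) * R⁻¹ ^ b / M) := by
      rw [h5]
      field_simp
    rw [h6]
    calc (C₂ * 5 ^ (b - 1)) * (Y ^ (3 * K + 2) * R⁻¹ ^ b / M) ≤
        (Y * Y) * (Y ^ (3 * K + 2) * R⁻¹ ^ b / M) :=
          mul_le_mul_of_nonneg_right (mul_le_mul y2 h4 (by positivity) (by positivity))
            (by positivity)
      _ = _ := by
          rw [show 3 * K + 4 = (3 * K + 2) + 2 by ring, pow_add]
          ring
  have hK1 : Y ^ 4 ≤ Y ^ (3 * K + 4) := pow_le_pow_right₀ (by linarith) (by omega)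
  have hR2 : 2 ≤ R / 2 := by linarith
  constructor
  · intro q hq
    have hq5 : Bx 5 (q - xo) := bxm (bxs hq hxo1) (by norm_num)
    have h2 := he P Y (R / 2) xo hPd hR2 hPb hxo1 (q - xo) hq5
    have h3 := hr Kl Y R⁻¹ (Y / M) rs hKl (by positivity) (by positivity) hYM2 hKb hrs (q - xo) hq5
    rw [← hP] at h3
    have h4 := h1 q hq
    rw [sub_add_cancel] at h2
    have h5 : C₃ * Y / (R / 2) ^ (b + 1) ≤ Y ^ 4 * R⁻¹ ^ b / M := by
      have e1 : (R / 2) ^ (b + 1) = R ^ b * R / 2 ^ (b + 1) := by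
        rw [div_pow, pow_succ]
      have e2 : C₃ * Y / (R / 2) ^ (b + 1) = C₃ * Y * 2 ^ (b + 1) * R⁻¹ ^ b * (1 / R) := by
        rw [e1, inv_pow]
        field_simp
      have e3 : 1 / R ≤ Y / M := by
        rw [div_le_div_iff₀ hR0 hM0]
        linarith
      rw [e2]
      calc C₃ * Y * 2 ^ (b + 1) * R⁻¹ ^ b * (1 / R) ≤ Y * Y * Y * R⁻¹ ^ b * (Y / M) := by
            refine mul_le_mul (mul_le_mul_of_nonneg_right (mul_le_mul
              (mul_le_mul_of_nonneg_right y3 hY0.le) y7 (by positivity) (by positivity))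
              hRb.le) e3 (by positivity) (by positivity)
        _ = _ := by ring
    have h6 : C₅ * Y * R⁻¹ ^ b * (Y / M) ≤ Y ^ 4 * R⁻¹ ^ b / M := by
      have : C₅ * Y * Y ≤ Y ^ 4 := by
        calc C₅ * Y * Y ≤ Y * Y * Y := by
              refine mul_le_mul_of_nonneg_right (mul_le_mul_of_nonneg_right y5 hY0.le) hY0.le
          _ = Y ^ 3 := by ring
          _ ≤ Y ^ 4 := pow_le_pow_right₀ (by linarith) (by norm_num)
      calc C₅ * Y * R⁻¹ ^ b * (Y / M) = C₅ * Y * Y * (R⁻¹ ^ b / M) := by ring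
        _ ≤ Y ^ 4 * (R⁻¹ ^ b / M) := mul_le_mul_of_nonneg_right this (by positivity)
        _ = _ := by ring
    have h7 : Y ^ 4 * R⁻¹ ^ b / M ≤ Y ^ (3 * K + 4) * R⁻¹ ^ b / M :=
      div_le_div_of_nonneg_right (mul_le_mul_of_nonneg_right hK1 hRb.le) hM0.le
    have h8 : Y ^ (3 * K + 5) * R⁻¹ ^ b / M = Y * (Y ^ (3 * K + 4) * R⁻¹ ^ b / M) := by
      rw [show 3 * K + 5 = (3 * K + 4) + 1 by ring, pow_succ]
      ring
    have h9 : 0 ≤ Y ^ (3 * K + 4) * R⁻¹ ^ b / M := by positivity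
    have h10 : 3 * (Y ^ (3 * K + 4) * R⁻¹ ^ b / M) ≤ Y * (Y ^ (3 * K + 4) * R⁻¹ ^ b / M) :=
      mul_le_mul_of_nonneg_right hY3 h9
    rw [h8, ← hPe]
    have k1 := abs_le.1 h2
    have k2 := abs_le.1 h3
    have k3 := abs_le.1 h4
    rw [abs_le]
    constructor <;> linarith
  · intro q hq
    have h2 := hp P Y (R / 2) xo hPd hR2 hPb hxo1 q hq
    have h4 := h1 q hq
    have h5 : C₄ * Y / (R / 2) ^ b ≤ Y ^ 4 * R⁻¹ ^ b := by
      have e2 : C₄ * Y / (R / 2) ^ b = C₄ * Y * 2 ^ b * R⁻¹ ^ b := by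
        rw [div_pow, inv_pow]
        field_simp
      have e3 : (2 : ℝ) ^ b ≤ Y := (pow_le_pow_right₀ (by norm_num) (by omega)).trans y7
      rw [e2]
      refine mul_le_mul_of_nonneg_right ?_ hRb.le
      calc C₄ * Y * 2 ^ b ≤ Y * Y * Y :=
            mul_le_mul (mul_le_mul_of_nonneg_right y4 hY0.le) e3 (by positivity) (by positivity)
        _ = Y ^ 3 := by ring
        _ ≤ Y ^ 4 := pow_le_pow_right₀ (by linarith) (by norm_num)
    have h6 : Y ^ (3 * K + 4) * R⁻¹ ^ b / M ≤ Y ^ (3 * K + 4) * R⁻¹ ^ b := by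
      refine div_le_self (by positivity) (by linarith)
    have h7 : Y ^ 4 * R⁻¹ ^ b ≤ Y ^ (3 * K + 4) * R⁻¹ ^ b :=
      mul_le_mul_of_nonneg_right hK1 hRb.le
    have h8 : Y ^ (3 * K + 5) * R⁻¹ ^ b = Y * (Y ^ (3 * K + 4) * R⁻¹ ^ b) := by
      rw [show 3 * K + 5 = (3 * K + 4) + 1 by ring, pow_succ]
      ring
    have h9 : 0 ≤ Y ^ (3 * K + 4) * R⁻¹ ^ b := by positivity
    have h10 : 3 * (Y ^ (3 * K + 4) * R⁻¹ ^ b) ≤ Y * (Y ^ (3 * K + 4) * R⁻¹ ^ b) :=
      mul_le_mul_of_nonneg_right hY3 h9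
    rw [h8, ← hP]
    have k1 := abs_le.1 h2
    have k3 := abs_le.1 h4
    rw [abs_le]
    constructor <;> linarith

end Pool.STB65
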