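import Pool.Agent.H65.STB.Ncl

/-!
# The mixed derivative at the samples, from a chain of nodes of one window

`mxd_ev`: nodes `δ 0, …, δ R` with the window `W` of a closed label, the first one is a ball, the radii
decrease. The derivative in the last coordinate of the difference of the closed label of the
target at the last node and the closed label is at most the sum of the natural ones of the
steps. `mxs_dn`: the property `MxS` of a class.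
-/

set_option autoImplicit false

namespace Pool.STB65

open Finset Real MvPolynomial
open Pool.Agent.H49.Ent Pool.Agent.H32.Dense Pool.STK Pool.KA Pool.KSAT Pool.K2S Pool.PB Pool.S6C
open Pool.GEN Pool.CHT Pool.NVX
open Pool.SHR (dir dir_sub)
open Pool.GRD (LbP)
open Pool.ALT (Fml)
open Pool.STB77 (Tgt Nls NodW NodF tgt_of lab_two last_dir)

variable {m J : ℕ}

/-- **The mixed derivative at the last node of a chain of nodes of one window.** -/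
theorem mxd_ev (D : ℕ) (hD : 1 ≤ D) : ∃ C : ℕ, ∀ {m J : ℕ} {F : Fam m J} {c : ℕ → Fin m}
    {Dr M s e E h q W : ℕ} {κ : ℝ} {Rl : ℕ → ℕ → Prop} {a w : ℕ → ℕ}
    {g : ℕ → ℕ → ℕ} {A B : F.Ω → Prop} {G : ℕ → PtT F → ℕ → MvPolynomial (Option (Fin m)) ℝ}
    {H : ℕ → LnT F → ℕ → MvPolynomial (Option (Fin m)) ℝ} (R : ℕ) (δ : ℕ → ℕ) {V : Type}
    {z : PtT F → V} {z' : LnT F → V} {G₁ : V → MvPolynomial (Option (Fin m)) ℝ} {M₁ : ℝ},
    Set.InjOn c (Set.Iio 3) → 0 < κ → κ * 2 ^ 4 ≤ 1 → D ≤ Dr →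
    Nls F c 3 D Dr M s Rl a w e E g h κ B G H → (∀ k ≤ R, δ k < M) →
    (∀ k ≤ R, w (δ k) = W) → (∀ k < R, Rl (δ k) (δ (k + 1))) →
    (∀ k < R, g (δ k) 3 ≤ g (δ (k + 1)) 3 + s + 1) →
    Sub B A → LbP F ((range 3).image c) (c 3) D J W q A z z' G₁ →
    (∀ k < R, (2 : ℝ) ^ g (δ (k + 1)) 2 / 2 ^ g (δ k) 3 ≤ M₁) →
    (2 : ℝ) ^ g (δ 0) 2 / 2 ^ g (δ 0) 3 ≤ M₁ → (2 : ℝ) ^ g (δ 0) 2 / 2 ^ q ≤ M₁ →
    ∃ B' : F.Ω → Prop, Sub B' B ∧ Pe F.p B ≤ 16 * Pe F.p B' ∧ ∀ ω, B' ω →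
      |eval (bt F ω) (pderiv (some (c 2)) (H (δ R) (slam F W ω) 3 - G₁ (z' (slam F W ω))))| ≤
        (R + 1) * (2 ^ (C * (h + s + 1)) * M₁) := by
  obtain ⟨C₁, hlab⟩ := lab_two D 4 hD
  obtain ⟨C₂, hla⟩ := last_dir D 4
  refine ⟨C₁ + C₂ + 3, ?_⟩
  intro m J F c Dr M s e E h q W κ Rl a w g A B G H R δ V z z' G₁ M₁ hc hκ hκ1 hDr L hδ hw hR hg hBA
    hlb h1 h2 h3
  have pw : ∀ {x y : ℕ}, x ≤ y → (2 : ℝ) ^ x ≤ 2 ^ y := fun h => pow_le_pow_right₀ (by norm_num) h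
  have hM0 : 0 ≤ M₁ := (by positivity : (0 : ℝ) ≤ 2 ^ g (δ 0) 2 / 2 ^ g (δ 0) 3).trans h2
  have nd0 := L.nod (δ 0) (hδ 0 (Nat.zero_le _))
  have ht := lbp_tgt (i := 3) (a := a (δ 0)) (g := g (δ 0)) (G := G (δ 0)) (hlb.sub hBA)
  rw [← hw 0 (Nat.zero_le _)] at ht
  obtain ⟨B', k1, k2, k3⟩ := hlab (i := 3) (κ' := 1) (by norm_num) hc (nd0.rlF.mono hDr le_rfl)
    (fun ω h => h) (by rw [one_mul]) hκ1 hκ.le nd0.lst (tgt_of nd0.top) ht
  have dep1 : ∀ v, DepC c 3 (G₁ v) := fun v b b' hn hb => hlb.dep v b b' hn fun j hj => by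
    obtain ⟨l, hl, rfl⟩ := Finset.mem_image.1 hj
    exact hb l (Finset.mem_range.1 hl)
  refine ⟨B', k1, by linarith, ?_⟩
  have hC : ∀ {x : ℕ}, x ≤ (C₁ + C₂ + 3) * (h + s + 1) →
      (2 : ℝ) ^ x * M₁ ≤ 2 ^ ((C₁ + C₂ + 3) * (h + s + 1)) * M₁ := fun hx =>
    mul_le_mul_of_nonneg_right (pw hx) hM0
  -- the first node
  have first : ∀ ω, B' ω → |eval (bt F ω) (pderiv (some (c 2)) (H (δ 0) (slam F W ω) 3 -
      G₁ (z' (slam F W ω))))| ≤ 2 ^ ((C₁ + C₂ + 3) * (h + s + 1)) * M₁ := by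
    intro ω hω
    have hB := k1 ω hω
    have hbt : NBx c (G (δ 0) (ptr F J ω)) (g (δ 0)) (a (δ 0)) (F.t ω) 3 (bt F ω) :=
      ⟨by show |F.t ω - F.t ω| ≤ _; rw [sub_self, abs_zero]; positivity,
        fun l hl => nd0.lst.pos ω hB l hl⟩
    have e1 := hla (c := c) (i := 2) (a := a (δ 0)) (g := g (δ 0)) (t := F.t ω)
      (M := 2 ^ (C₁ * (h + 1) + 1) * (1 / 2 ^ g (δ 0) 3 + 1 / 2 ^ q))
      (G := G (δ 0) (ptr F J ω)) (P := H (δ 0) (slam F W ω) 3 - G₁ (z' (slam F W ω)))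
      (b := bt F ω) (by norm_num) hc (nd0.lst.degG _) (nd0.lst.depG _)
      (fun x y hn hb => by
        rw [map_sub, map_sub, nd0.top.depH _ 3 x y hn hb, dep1 _ x y hn hb])
      ((totalDegree_sub _ _).trans (max_le (nd0.top.degH _ _) (hlb.deg _)))
      (by positivity) hbt (fun b hb => by
        have f1 := k3 ω hω b hb
        have f2 := nd0.top.agr ω hB 3 (by norm_num) b hb
        rw [hw 0 (Nat.zero_le _)] at f2
        have f3 : G₁ (z (ptr F J ω)) = G₁ (z' (slam F W ω)) := by rw [hlb.cls ω (hBA ω hB)]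
        simp only [f3] at f1
        have f4 : (1 : ℝ) / 2 ^ g (δ 0) 3 ≤
            2 ^ (C₁ * (h + 1)) * (1 / 2 ^ g (δ 0) 3 + 1 / 2 ^ q) := by
          have g1 : (1 : ℝ) ≤ 2 ^ (C₁ * (h + 1)) := one_le_pow₀ (by norm_num)
          have g2 : (0 : ℝ) ≤ 1 / 2 ^ q := by positivity
          have g3 : (0 : ℝ) ≤ 1 / 2 ^ g (δ 0) 3 := by positivity
          nlinarith
        rw [map_sub, pow_succ]
        rw [abs_le] at f1 f2 ⊢
        constructor <;> linarith [f1.1, f1.2, f2.1, f2.2])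
    rw [dir_ek] at e1
    refine e1.trans ?_
    have e2 : (2 : ℝ) ^ C₂ * (2 ^ (C₁ * (h + 1) + 1) * (1 / 2 ^ g (δ 0) 3 + 1 / 2 ^ q) *
        2 ^ g (δ 0) 2) = 2 ^ (C₂ + (C₁ * (h + 1) + 1)) *
        (2 ^ g (δ 0) 2 / 2 ^ g (δ 0) 3 + 2 ^ g (δ 0) 2 / 2 ^ q) := by
      rw [pow_add]
      ring
    rw [e2]
    have e3 : (2 : ℝ) ^ (C₂ + (C₁ * (h + 1) + 1)) *
        (2 ^ g (δ 0) 2 / 2 ^ g (δ 0) 3 + 2 ^ g (δ 0) 2 / 2 ^ q) ≤
        2 ^ (C₂ + (C₁ * (h + 1) + 1) + 1) * M₁ := by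
      rw [pow_succ, mul_assoc]
      refine mul_le_mul_of_nonneg_left (by linarith) (by positivity)
    refine e3.trans (hC ?_)
    nlinarith [Nat.zero_le (C₁ * s), Nat.zero_le (C₂ * (h + s)), Nat.zero_le h, Nat.zero_le s]
  -- the steps
  have step : ∀ k < R, ∀ ω, B' ω → |eval (bt F ω) (pderiv (some (c 2))
      (H (δ (k + 1)) (slam F W ω) 3 - H (δ k) (slam F W ω) 3))| ≤
      2 ^ ((C₁ + C₂ + 3) * (h + s + 1)) * M₁ := by
    intro k hk ω hω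
    have hB := k1 ω hω
    have nd := L.nod (δ (k + 1)) (hδ (k + 1) hk)
    have nd' := L.nod (δ k) (hδ k hk.le)
    have hbt : NBx c (G (δ (k + 1)) (ptr F J ω)) (g (δ (k + 1))) (a (δ (k + 1))) (F.t ω) 3
        (bt F ω) :=
      ⟨by show |F.t ω - F.t ω| ≤ _; rw [sub_self, abs_zero]; positivity,
        fun l hl => nd.lst.pos ω hB l hl⟩
    have e1 := hla (c := c) (i := 2) (a := a (δ (k + 1))) (g := g (δ (k + 1))) (t := F.t ω)
      (M := 2 ^ (s + 2) / 2 ^ g (δ k) 3)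
      (G := G (δ (k + 1)) (ptr F J ω)) (P := H (δ (k + 1)) (slam F W ω) 3 -
        H (δ k) (slam F W ω) 3)
      (b := bt F ω) (by norm_num) hc (nd.lst.degG _) (nd.lst.depG _)
      (fun x y hn hb => by
        rw [map_sub, map_sub, nd.top.depH _ 3 x y hn hb, nd'.top.depH _ 3 x y hn hb])
      ((totalDegree_sub _ _).trans (max_le (nd.top.degH _ _) (nd'.top.degH _ _)))
      (by positivity) hbt (fun b hb => by
        have f1 := L.two (δ k) (hδ k hk.le) (δ (k + 1)) (hδ (k + 1) hk) (hR k hk) ω hB 3 le_rfl b hb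
        have f2 := nd.top.agr ω hB 3 (by norm_num) b hb
        rw [hw k hk.le] at f1
        rw [hw (k + 1) hk] at f2
        have f3 : (1 : ℝ) / 2 ^ g (δ (k + 1)) 3 ≤ 2 ^ (s + 1) / 2 ^ g (δ k) 3 := by
          rw [div_le_div_iff₀ (by positivity) (by positivity), one_mul, ← pow_add]
          exact pw (by have := hg k hk; omega)
        have f4 : (2 : ℝ) ^ (s + 2) / 2 ^ g (δ k) 3 = 2 ^ (s + 1) / 2 ^ g (δ k) 3 +
            2 ^ (s + 1) / 2 ^ g (δ k) 3 := by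
          rw [show s + 2 = s + 1 + 1 by ring, pow_succ (n := s + 1)]
          ring
        have f5 : (2 : ℝ) ^ s / 2 ^ g (δ k) 3 ≤ 2 ^ (s + 1) / 2 ^ g (δ k) 3 :=
          div_le_div_of_nonneg_right (pw (by omega)) (by positivity)
        rw [map_sub, f4]
        rw [abs_le] at f1 f2 ⊢
        constructor <;> linarith [f1.1, f1.2, f2.1, f2.2])
    rw [dir_ek] at e1
    refine e1.trans ?_
    have e2 : (2 : ℝ) ^ C₂ * (2 ^ (s + 2) / 2 ^ g (δ k) 3 * 2 ^ g (δ (k + 1)) 2) =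
        2 ^ (C₂ + (s + 2)) * (2 ^ g (δ (k + 1)) 2 / 2 ^ g (δ k) 3) := by
      rw [pow_add]
      ring
    rw [e2]
    refine (mul_le_mul_of_nonneg_left (h1 k hk) (by positivity)).trans (hC ?_)
    nlinarith [Nat.zero_le (C₁ * (h + s)), Nat.zero_le (C₂ * (h + s)), Nat.zero_le h,
      Nat.zero_le s]
  -- the sum
  intro ω hω
  have key : ∀ k ≤ R, |eval (bt F ω) (pderiv (some (c 2)) (H (δ k) (slam F W ω) 3 -
      G₁ (z' (slam F W ω))))| ≤ (k + 1) * (2 ^ ((C₁ + C₂ + 3) * (h + s + 1)) * M₁) := by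
    intro k
    induction k with
    | zero =>
      intro _
      have := first ω hω
      push_cast
      linarith
    | succ k ih =>
      intro hk
      have f1 := ih (by omega)
      have f2 := step k (by omega) ω hω
      have f3 : eval (bt F ω) (pderiv (some (c 2)) (H (δ (k + 1)) (slam F W ω) 3 -
          G₁ (z' (slam F W ω)))) =
          eval (bt F ω) (pderiv (some (c 2)) (H (δ (k + 1)) (slam F W ω) 3 -
            H (δ k) (slam F W ω) 3)) +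
          eval (bt F ω) (pderiv (some (c 2)) (H (δ k) (slam F W ω) 3 -
            G₁ (z' (slam F W ω)))) := by
        rw [← map_add, ← map_add]
        congr 2
        ring
      rw [f3]
      refine (abs_add_le _ _).trans ?_
      push_cast
      linarith
  exact key R le_rfl

/-- **The mixed derivative at the samples, from nodes of the window of the family.** -/
theorem mxs_dn (D : ℕ) (hD : 1 ≤ D) : ∃ C : ℕ, ∀ {m : ℕ} {S : PCl m} {c : ℕ → Fin m}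
    {β : ℕ → ℝ → ℝ → ℝ} {e E w : ℝ} (_ : Set.InjOn c (Set.Iio 3)) (M : ℕ) (AA WW : ℕ → ℝ) (Dr : ℕ)
    (_ : D ≤ Dr) (s s₀ : ℝ) (_ : 0 < s) (i R : ℕ) (δ : ℕ → ℕ)
    (_ : ∀ k ≤ R, δ k < M ∧ WW (δ k) = w) (_ : ∀ k < R, AA (δ k) ≤ AA (δ (k + 1)))
    (_ : AA (δ R) ≤ AA i) (_ : w ≤ WW i)
    (_ : ∀ k ≤ R, 0 ≤ β 2 (AA (δ k)) w ∧ 0 ≤ β 3 (AA (δ k)) w)
    (_ : ∀ k < R, β 3 (AA (δ k)) w ≤ β 3 (AA (δ (k + 1))) w) (γ pN y : ℝ)
    (_ : γ ≤ β 3 (AA (δ R)) w + s₀)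
    (_ : ∀ k < R, β 2 (AA (δ (k + 1))) w ≤ β 3 (AA (δ k)) w + y)
    (_ : β 2 (AA (δ 0)) w ≤ β 3 (AA (δ 0)) w + y) (_ : β 2 (AA (δ 0)) w ≤ pN + y)
    (_ : y + C * s + γ ≤ β 2 (AA i) (WW i) + s₀) (Ψ : Fml m)
    (_ : ∀ (J : ℕ) (F : Fam m J) (A : F.Ω → Prop) (V : Type) (z : PtT F → V) (z' : LnT F → V)
      (G : V → MvPolynomial (Option (Fin m)) ℝ), Ψ J F A V z z' G →
      LbP F ((range 3).image c) (c 3) D J ⌊w * J⌋₊ ⌊pN * J⌋₊ A z z' G),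
    MxS S c D Dr M β e E s s₀ w AA WW i γ Ψ := by
  obtain ⟨C, hev⟩ := mxd_ev D hD
  refine ⟨2 * C + 3, ?_⟩
  intro m S c β e E w hc M AA WW Dr hDr s s₀ hs i R δ hδ ham haR hwi hβ0 hmon γ pN y hγ h1 h2 h3 hy Ψ
    hΨ
  obtain ⟨y', hy'⟩ : ∃ y' : ℝ, y' = y + (2 * C + 3 : ℕ) * s := ⟨_, rfl⟩
  refine ⟨δ R, y', (hδ R le_rfl).1, haR, by rw [(hδ R le_rfl).2]; exact hwi, by
    rw [(hδ R le_rfl).2]; exact hγ, by rw [hy']; exact hy, ?_⟩
  intro K₁ d ψ hK₁ hψ hd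
  obtain ⟨J₁, hJ₁⟩ := exists_nat_ge (2 / s)
  obtain ⟨J₂, hJ₂⟩ := exists_nat_ge (((C : ℝ) * Real.log 2 + Real.log (R + 1)) / (s * Real.log 2))
  obtain ⟨J₃, hJ₃⟩ := exists_nat_ge (Real.log (2 ^ 4) / ψ)
  refine ⟨16, by norm_num, 1, one_pos, max J₁ (max J₂ J₃), ?_⟩
  intro J hJ F A _ V z z' G hG B Gn Hn hBA hPe L
  have hJ1 : (J₁ : ℝ) ≤ J := by exact_mod_cast (le_max_left _ _).trans hJ
  have hJ2 : (J₂ : ℝ) ≤ J := by
    exact_mod_cast (le_max_left _ _).trans ((le_max_right _ _).trans hJ)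
  have hJ3 : (J₃ : ℝ) ≤ J := by
    exact_mod_cast (le_max_right _ _).trans ((le_max_right _ _).trans hJ)
  have hJ0 : (0 : ℝ) ≤ J := Nat.cast_nonneg J
  have l2 : 0 < Real.log 2 := Real.log_pos one_lt_two
  have j1 : 2 ≤ s * J := by
    have h4 := hJ₁.trans hJ1
    rw [div_le_iff₀ hs] at h4
    linarith
  have j2 : (C : ℝ) * Real.log 2 + Real.log (R + 1) ≤ s * J * Real.log 2 := by
    have h4 := hJ₂.trans hJ2
    rw [div_le_iff₀ (by positivity)] at h4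
    linarith
  have j3 : Real.log (2 ^ 4) ≤ ψ * J := by
    have h4 := hJ₃.trans hJ3
    rw [div_le_iff₀ hψ] at h4
    linarith
  have hκ : Real.exp (-(ψ * J)) * 2 ^ 4 ≤ 1 := by
    have h4 : Real.exp (-(ψ * J)) ≤ Real.exp (-Real.log (2 ^ 4)) :=
      Real.exp_le_exp.2 (by linarith)
    rw [Real.exp_neg (Real.log (2 ^ 4)), Real.exp_log (by positivity)] at h4
    calc Real.exp (-(ψ * J)) * 2 ^ 4 ≤ (2 ^ 4)⁻¹ * 2 ^ 4 :=
          mul_le_mul_of_nonneg_right h4 (by positivity)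
      _ = 1 := by norm_num
  have hM : ∀ {g₂ : ℕ} {B₂ x : ℝ} {g₃ : ℕ}, (g₂ : ℝ) ≤ B₂ * J → (x - s) * J < g₃ + 1 →
      B₂ ≤ x + y → (2 : ℝ) ^ g₂ / 2 ^ g₃ ≤ 2 ^ ((y + 2 * s) * J) := by
    intro g₂ B₂ x g₃ a1 a2 a3
    rw [div_le_iff₀ (by positivity), ← Real.rpow_natCast, ← Real.rpow_natCast,
      ← Real.rpow_add two_pos]
    refine Real.rpow_le_rpow_of_exponent_le one_le_two ?_
    have a4 := mul_le_mul_of_nonneg_right a3 hJ0
    nlinarith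
  have hdk : ∀ k ≤ R, ∀ l ≤ 3, 0 ≤ d (δ k) l ∧ d (δ k) l ≤ s := fun k hk l hl =>
    ⟨(hd _ (hδ k hk).1 l hl).1.le, (hd _ (hδ k hk).1 l hl).2.1⟩
  have g2 : ∀ k ≤ R, (⌊(β 2 (AA (δ k)) (WW (δ k)) - d (δ k) 2) * J⌋₊ : ℝ) ≤
      β 2 (AA (δ k)) w * J := fun k hk => by
    rw [(hδ k hk).2]
    exact fl_hi (hdk k hk 2 (by norm_num)).1 (hβ0 k hk).1
  have g3 : ∀ k ≤ R, (β 3 (AA (δ k)) w - s) * J <
      ⌊(β 3 (AA (δ k)) (WW (δ k)) - d (δ k) 3) * J⌋₊ + 1 := fun k hk => by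
    rw [(hδ k hk).2]
    exact fl_lo (hdk k hk 3 le_rfl).2
  obtain ⟨B', k1, k2, k3⟩ := hev (F := F) (A := A) (W := ⌊w * J⌋₊) (q := ⌊pN * J⌋₊) R δ
    (M₁ := 2 ^ ((y + 2 * s) * J)) hc (Real.exp_pos _) hκ hDr L (fun k hk => (hδ k hk).1)
    (fun k hk => by
      show ⌊WW (δ k) * J⌋₊ = _
      rw [(hδ k hk).2])
    (fun k hk => ⟨ham k hk, by rw [(hδ k hk.le).2, (hδ (k + 1) hk).2]⟩)
    (fun k hk => by
      have a1 := g3 (k + 1) hk
      have a2 : (⌊(β 3 (AA (δ k)) (WW (δ k)) - d (δ k) 3) * J⌋₊ : ℝ) ≤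
          β 3 (AA (δ k)) w * J := by
        rw [(hδ k hk.le).2]
        exact fl_hi (hdk k hk.le 3 le_rfl).1 (hβ0 k hk.le).2
      have a3 := mul_le_mul_of_nonneg_right (hmon k hk) hJ0
      have a4 := Nat.lt_floor_add_one (s * (J : ℝ))
      have a5 : (⌊(β 3 (AA (δ k)) (WW (δ k)) - d (δ k) 3) * J⌋₊ : ℝ) <
          ⌊(β 3 (AA (δ (k + 1))) (WW (δ (k + 1))) - d (δ (k + 1)) 3) * J⌋₊ + ⌊s * J⌋₊ + 1 + 1 := by
        linarith
      have a6 : ⌊(β 3 (AA (δ k)) (WW (δ k)) - d (δ k) 3) * J⌋₊ <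
          ⌊(β 3 (AA (δ (k + 1))) (WW (δ (k + 1))) - d (δ (k + 1)) 3) * J⌋₊ + ⌊s * J⌋₊ + 1 + 1 := by
        exact_mod_cast a5
      show ⌊(β 3 (AA (δ k)) (WW (δ k)) - d (δ k) 3) * J⌋₊ ≤
        ⌊(β 3 (AA (δ (k + 1))) (WW (δ (k + 1))) - d (δ (k + 1)) 3) * J⌋₊ + ⌊s * J⌋₊ + 1
      omega)
    hBA (hΨ J F A V z z' G hG)
    (fun k hk => hM (g2 (k + 1) hk) (g3 k hk.le) (h1 k hk))
    (hM (g2 0 (Nat.zero_le _)) (g3 0 (Nat.zero_le _)) h2)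
    (hM (g2 0 (Nat.zero_le _)) (by
      have a1 := Nat.lt_floor_add_one (pN * (J : ℝ))
      have a2 : 0 ≤ s * J := by linarith
      rw [sub_mul]
      linarith) h3)
  refine ⟨B', k1, k2, fun ω hω => ?_⟩
  have e1 := k3 ω hω
  rw [(hδ R le_rfl).2]
  refine e1.trans ?_
  have e2 : ((R : ℝ) + 1) * 2 ^ C ≤ 2 ^ (s * J) := by
    have a1 : Real.log (((R : ℝ) + 1) * 2 ^ C) ≤ Real.log (2 ^ (s * J)) := by
      rw [Real.log_mul (by positivity) (by positivity), Real.log_pow, Real.log_rpow two_pos]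
      linarith
    exact (Real.log_le_log_iff (by positivity) (by positivity)).1 a1
  have e3 : (2 : ℝ) ^ (C * (⌊s * (J : ℝ)⌋₊ + ⌊s * (J : ℝ)⌋₊ + 1)) ≤ 2 ^ (2 * C * (s * J)) * 2 ^ C := by
    have a1 := Nat.floor_le (show 0 ≤ s * (J : ℝ) by linarith)
    have hC0 : (0 : ℝ) ≤ C := Nat.cast_nonneg C
    rw [← Real.rpow_natCast 2 C, ← Real.rpow_add two_pos, ← Real.rpow_natCast]
    refine Real.rpow_le_rpow_of_exponent_le one_le_two ?_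
    push_cast
    nlinarith
  have e4 : (2 : ℝ) ^ (y' * J) = 2 ^ (s * J) * (2 ^ (2 * C * (s * J)) * 2 ^ ((y + 2 * s) * J)) := by
    rw [← Real.rpow_add two_pos, ← Real.rpow_add two_pos, hy']
    congr 1
    push_cast
    ring
  rw [e4]
  calc ((R : ℝ) + 1) * (2 ^ (C * (⌊s * (J : ℝ)⌋₊ + ⌊s * (J : ℝ)⌋₊ + 1)) * 2 ^ ((y + 2 * s) * J))
      ≤ ((R : ℝ) + 1) * ((2 ^ (2 * C * (s * J)) * 2 ^ C) * 2 ^ ((y + 2 * s) * J)) := by
        refine mul_le_mul_of_nonneg_left (mul_le_mul_of_nonneg_right e3 ?_) ?_ <;> positivity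
    _ = (((R : ℝ) + 1) * 2 ^ C) * (2 ^ (2 * C * (s * J)) * 2 ^ ((y + 2 * s) * J)) := by ring
    _ ≤ _ := mul_le_mul_of_nonneg_right e2 (by positivity)

end Pool.STB65
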