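import Pool.Agent.H65.STB.Mxd
import Pool.Agent.H98.STB.VrC

/-!
# The mixed derivative at a record, slope of `c 2` larger than the static slope

`dn_pick`: a radius at which the pairs of the window of the family are coarser than the static pair.
`mxs_rec`: the property `MxS` of `n1_rec`, at the base window given by this radius.
-/

set_option autoImplicit false

namespace Pool.STB65

open Finset Real MvPolynomial
open Pool.Agent.H49.Ent Pool.Agent.H32.Dense Pool.STK Pool.KA Pool.KSAT Pool.K2S Pool.PB Pool.S6C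
open Pool.GEN Pool.RCD Pool.LA91 Pool.PKG
open Pool.GRD (LbP)
open Pool.ALT (AlO Fml NzF)
open Pool.STB77 (NodF Nls)
open Pool.STB (nAA nWW nι nσ LsN GrN nAA_ext nWW_ext ball_at ball_zero pair_at box_in lv_lin lv_sta
  lv_mono nι_le)

section

variable {m : ℕ} {S : PCl m} {al : ℝ} {g₀ : ℝ → ℝ} {P₀ : List (Fin m) × Fin m → ℝ → ℝ → ℝ}
  {θ : ℝ} {P₂ : ℕ → List (Fin m) × Fin m → ℝ → ℝ → ℝ} {θ₂ Eb e₂ : ℕ → ℝ}
  {c : ℕ → Fin m} {Pt : ℝ → ℝ → ℝ} {r : ℝ → ℝ} {h K₀ g : ℝ} {L T : ℕ → ℝ → ℝ → ℝ}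
  {Sl : ℕ → ℝ} {κ : ℕ → Kg} {G : Set ℝ} {S₀ N₀ : ℕ} {A V : ℕ → ℝ} {S₂ N' : ℕ} {V' : ℕ → ℝ}
  {K ε q t : ℝ}
  (R : RecG S al g₀ P₀ θ P₂ θ₂ Eb e₂ c Pt r h K₀ g L T Sl κ G S₀ N₀ A V S₂ N' V' K ε q t)
include R

/-- **A good radius**: the last one, or one where the natural slope of the pairs of the window is
maximal. -/
theorem dn_pick {l : ℕ} (hl : l < m) {b v₀ ρ : ℝ} (hab : b ≤ Sl l) (hρ : 0 < ρ) {N R₁ R₂ : ℕ} (hN : N ≤ R₁) (h12 : R₁ ≤ R₂) (hv : -K ≤ v₀)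
    (hv2 : v₀ + R₂ * ρ ≤ K)
    (hnum : Sl l * (N * ρ) + 4 * ε ≤ (Sl l - b) * (((R₂ : ℝ) - R₁) * ρ)) :
    ∃ R' : ℕ, R₁ ≤ R' ∧ R' ≤ R₂ ∧ ∀ k ≤ R', L l (t + (v₀ + k * ρ) * q) (t + v₀ * q) +
      b * (((R' : ℝ) - k) * ρ * q) ≤
        L l (t + (v₀ + R' * ρ) * q) (t + (v₀ + ((R' : ℝ) - N) * ρ) * q) := by
  have hq := R.q0
  have hρq : 0 < ρ * q := mul_pos hρ hq
  obtain ⟨φ, hφ⟩ : ∃ φ : ℕ → ℝ, φ = fun k : ℕ => L l (t + (v₀ + k * ρ) * q) (t + v₀ * q) -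
    b * (k * ρ * q) := ⟨_, rfl⟩
  obtain ⟨k₀, hk₀, hmax⟩ := Finset.exists_max_image (Finset.range (R₂ + 1)) φ
    ⟨0, Finset.mem_range.2 (Nat.succ_pos _)⟩
  have hk₀' : k₀ ≤ R₂ := by have := Finset.mem_range.1 hk₀; omega
  have hmax' : ∀ k ≤ R₂, φ k ≤ φ k₀ := fun k hk => hmax k (Finset.mem_range.2 (by omega))
  have hbox : ∀ x : ℝ, 0 ≤ x → x ≤ R₂ → -K ≤ v₀ + x * ρ ∧ v₀ + x * ρ ≤ K := by
    intro x h0 h1
    have h2 := mul_le_mul_of_nonneg_right h1 hρ.le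
    have h3 : 0 ≤ x * ρ := mul_nonneg h0 hρ.le
    exact ⟨by linarith, by linarith⟩
  have hle : ∀ {x y : ℝ}, x ≤ y → t + (v₀ + x * ρ) * q ≤ t + (v₀ + y * ρ) * q := by
    intro x y h1
    have h2 := mul_le_mul_of_nonneg_right h1 hρ.le
    have h3 := mul_le_mul_of_nonneg_right (show v₀ + x * ρ ≤ v₀ + y * ρ by linarith) hq.le
    linarith
  have e0 : t + (v₀ + 0 * ρ) * q = t + v₀ * q := by ring
  have bv := box_in R (o := v₀) hv (by have := (hbox 0 le_rfl (by positivity)).2; linarith)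
  -- monotone windows
  have hmw : ∀ {k : ℕ}, N ≤ k → k ≤ R₂ →
      L l (t + (v₀ + k * ρ) * q) (t + v₀ * q) ≤
        L l (t + (v₀ + k * ρ) * q) (t + (v₀ + ((k : ℝ) - N) * ρ) * q) := by
    intro k h1 h2
    have hk : (N : ℝ) ≤ k := by exact_mod_cast h1
    have hk2 : (k : ℝ) ≤ R₂ := by exact_mod_cast h2
    have hN0 : (0 : ℝ) ≤ N := Nat.cast_nonneg N
    refine lv_mono R hl bv.2.1.le ?_ le_rfl ?_ (hle (by linarith)) ?_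
    · rw [← e0]; exact hle (by linarith)
    · rw [← e0]; exact hle (by linarith)
    · exact (box_in R (hbox k (by linarith) hk2).1 (hbox k (by linarith) hk2).2).2.2.le
  rcases Nat.lt_or_ge k₀ R₁ with hc | hc
  · -- the last radius
    refine ⟨R₂, h12, le_rfl, fun k hk => ?_⟩
    have h1 := hmax' k hk
    rw [hφ] at h1
    have hk0 : (k₀ : ℝ) ≤ R₁ := by exact_mod_cast hc.le
    have hk0' : (0 : ℝ) ≤ k₀ := Nat.cast_nonneg _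
    have hR12 : (R₁ : ℝ) ≤ R₂ := by exact_mod_cast h12
    have hNR : (N : ℝ) ≤ R₁ := by exact_mod_cast hN
    have hN0 : (0 : ℝ) ≤ N := Nat.cast_nonneg N
    have b0 := hbox k₀ hk0' (by linarith)
    have b1 := hbox ((R₂ : ℝ) - N) (by linarith) (by linarith)
    have b2 := hbox R₂ (by linarith) le_rfl
    -- the levels
    have h2 : L l (t + (v₀ + k₀ * ρ) * q) (t + v₀ * q) ≤
        L l (t + (v₀ + k₀ * ρ) * q) (t + (v₀ + k₀ * ρ) * q) := by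
      refine lv_mono R hl bv.2.1.le ?_ le_rfl ?_ le_rfl (box_in R b0.1 b0.2).2.2.le
      · rw [← e0]; exact hle hk0'
      · rw [← e0]; exact hle hk0'
    have h3 := abs_le.1 (lv_lin R hl bv.1 (box_in R b0.1 b0.2).1)
    have h4 := abs_le.1 (lv_lin R hl bv.1 (box_in R b1.1 b1.2).1)
    have h5 : L l (t + (v₀ + ((R₂ : ℝ) - N) * ρ) * q) (t + (v₀ + ((R₂ : ℝ) - N) * ρ) * q) ≤
        L l (t + (v₀ + R₂ * ρ) * q) (t + (v₀ + ((R₂ : ℝ) - N) * ρ) * q) :=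
      lv_mono R hl (box_in R b1.1 b1.2).2.1.le le_rfl (hle (by linarith)) le_rfl
        (hle (by linarith)) (box_in R b2.1 b2.2).2.2.le
    have e1 : t + (v₀ + k₀ * ρ) * q - (t + v₀ * q) = k₀ * (ρ * q) := by ring
    have e2 : t + (v₀ + ((R₂ : ℝ) - N) * ρ) * q - (t + v₀ * q) = (R₂ - N) * (ρ * q) := by ring
    rw [e1] at h3
    rw [e2] at h4
    have h6 : (Sl l - b) * (k₀ * (ρ * q)) ≤ (Sl l - b) * (R₁ * (ρ * q)) :=
      mul_le_mul_of_nonneg_left (mul_le_mul_of_nonneg_right hk0 hρq.le) (by linarith)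
    have h7 := mul_le_mul_of_nonneg_right hnum hq.le
    have h8 := h3.2
    have h9 := h4.1
    simp only at h1
    nlinarith
  · refine ⟨k₀, hc, hk₀', fun k hk => ?_⟩
    have h1 := hmax' k (hk.trans hk₀')
    rw [hφ] at h1
    have h2 := hmw (hN.trans hc) hk₀'
    simp only at h1
    have e1 : b * (((k₀ : ℝ) - k) * ρ * q) = b * (k₀ * ρ * q) - b * (k * ρ * q) := by ring
    rw [e1]
    linarith

end

/-- **The property `MxS` at a record**: the pairs of the window `t + v₀ q` of the family with the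
radii `t + (v₀ + k ρ) q`, `k ≤ R'`, are in the list of the nodes; the static pair has the radius of
the last one and the window `t + (v₀ + (R' - N) ρ) q`. -/
theorem mxs_at (D : ℕ) (hD : 1 ≤ D) : ∃ C : ℕ, ∀ {m : ℕ} {S : PCl m} {al : ℝ}
    {g₀ : ℝ → ℝ} {P₀ : List (Fin m) × Fin m → ℝ → ℝ → ℝ} {θ : ℝ}
    {P₂ : ℕ → List (Fin m) × Fin m → ℝ → ℝ → ℝ} {θ₂ Eb e₂ : ℕ → ℝ}
    {c : ℕ → Fin m} {Pt : ℝ → ℝ → ℝ} {r : ℝ → ℝ} {h Kn g : ℝ} {L T : ℕ → ℝ → ℝ → ℝ}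
    {Sl : ℕ → ℝ} {κ : ℕ → Kg} {G : Set ℝ} {S₀ N₀ : ℕ} {A V : ℕ → ℝ} {S₂ N' : ℕ} {V' : ℕ → ℝ}
    {K ε q t : ℝ}
    (_ : RecG S al g₀ P₀ θ P₂ θ₂ Eb e₂ c Pt r h Kn g L T Sl κ G S₀ N₀ A V S₂ N' V' K ε q t)
    {b : ℕ} (_ : 3 < m) (_ : Sl 3 = b) (_ : κ 3 = .sta) (_ : 0 ≤ ε)
    {v₀ y ρ : ℝ} {Ng P pc N M' Nx R' : ℕ} {Ax Vx : ℕ → ℝ}
    (_ : LsN (v₀ + ((R' : ℝ) - N) * ρ) y ρ Ng P Nx Ax Vx N₀ A V N' V' K)
    (_ : GrN y ρ Ng P pc N M') (_ : N ≤ R') (_ : R' < Nx)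
    (_ : ∀ k ≤ R', Ax k = v₀ + k * ρ ∧ Vx k = v₀)
    (_ : ∀ k ≤ R', L 2 (t + (v₀ + k * ρ) * q) (t + v₀ * q) + b * (((R' : ℝ) - k) * ρ * q) ≤
      L 2 (t + (v₀ + R' * ρ) * q) (t + (v₀ + ((R' : ℝ) - N) * ρ) * q))
    {Dr : ℕ} (_ : D ≤ Dr) {s s₀ pN x : ℝ} (_ : 0 < s)
    (_ : L 3 (t + v₀ * q) (t + v₀ * q) ≤ pN + x) (_ : 0 ≤ x)
    (_ : x + (b * ρ + 4 * ε) * q + C * s ≤ s₀) {e E : ℝ} {Ψ : Fml m}
    (_ : ∀ (J : ℕ) (F : Fam m J) (A : F.Ω → Prop) (V : Type) (z : PtT F → V) (z' : LnT F → V)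
      (G : V → MvPolynomial (Option (Fin m)) ℝ), Ψ J F A V z z' G →
      LbP F ((range 3).image c) (c 3) D J ⌊(t + v₀ * q) * J⌋₊ ⌊pN * J⌋₊ A z z' G),
    MxS S c D Dr (Ng + P + 2 + Nx) L e E s s₀ (t + v₀ * q)
        (nAA t q (v₀ + ((R' : ℝ) - N) * ρ) y ρ Ng P Ax)
        (nWW t q (v₀ + ((R' : ℝ) - N) * ρ) ρ Ng P Vx) (nσ Ng pc N N)
        (L 3 (nAA t q (v₀ + ((R' : ℝ) - N) * ρ) y ρ Ng P Ax (nι N M' 0))
            (nWW t q (v₀ + ((R' : ℝ) - N) * ρ) ρ Ng P Vx (nι N M' 0)) +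
          b * (nAA t q (v₀ + ((R' : ℝ) - N) * ρ) y ρ Ng P Ax (nι N M' N) -
            nAA t q (v₀ + ((R' : ℝ) - N) * ρ) y ρ Ng P Ax (nι N M' 0))) Ψ := by
  obtain ⟨C, hdn⟩ := mxs_dn D hD
  refine ⟨C, ?_⟩
  intro m S al g₀ P₀ θ P₂ θ₂ Eb e₂ c Pt r h Kn g L T Sl κ G S₀ N₀ A V S₂ N' V' K ε q t R b hm S3 hκ
    hε v₀ y ρ Ng P pc N M' Nx R' Ax Vx H gr hN hR' hx hpk Dr hDr s s₀ pN x hs hpN hx0 hs₀ e E Ψ hΨ
  obtain ⟨oW, hoW⟩ : ∃ oW, oW = v₀ + ((R' : ℝ) - N) * ρ := ⟨_, rfl⟩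
  rw [← hoW] at H ⊢
  have hq := R.q0
  have hρ := gr.r0
  have hρq : 0 < ρ * q := mul_pos hρ hq
  have hb0 : (0 : ℝ) ≤ b := Nat.cast_nonneg b
  have hN' : (N : ℝ) ≤ R' := by exact_mod_cast hN
  have hN0 : (0 : ℝ) ≤ N := Nat.cast_nonneg N
  have hR0 : (0 : ℝ) ≤ R' := Nat.cast_nonneg R'
  have hεq : 0 ≤ ε * q := by positivity
  have hεs : x + b * (ρ * q) + 4 * (ε * q) + C * s ≤ s₀ := by linarith
  obtain ⟨z1, z2, z3, z4⟩ := ball_zero R H gr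
  have hσ := pair_at R H gr (i := 0) (by have := gr.pP; omega)
  rw [Nat.add_zero] at hσ
  obtain ⟨s1, s2, s3, s4, s5, s6, s7⟩ := hσ
  have hNy : ((pc + 1 + 0 : ℕ) : ℝ) * y = N * ρ := by
    rw [gr.yr, gr.hN]
    push_cast
    ring
  rw [hNy] at s4 s5 s6 s7
  have e1 : oW + N * ρ = v₀ + R' * ρ := by
    rw [hoW]
    ring
  rw [e1] at s4 s5 s6 s7
  -- the offsets
  have hv₀ : -K ≤ v₀ ∧ v₀ + R' * ρ ≤ K := by
    obtain ⟨x1, x2, x3⟩ := H.x0 0 (by omega)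
    have := (hx 0 (Nat.zero_le _)).2
    rw [this] at x1
    exact ⟨x1, s6⟩
  have hbox : ∀ z : ℝ, 0 ≤ z → z ≤ R' → -K ≤ v₀ + z * ρ ∧ v₀ + z * ρ ≤ K := by
    intro z h0 h1
    have h2 := mul_le_mul_of_nonneg_right h1 hρ.le
    have h3 : 0 ≤ z * ρ := mul_nonneg h0 hρ.le
    exact ⟨by linarith [hv₀.1], by linarith [hv₀.2]⟩
  have hle : ∀ {x y : ℝ}, x ≤ y → t + (v₀ + x * ρ) * q ≤ t + (v₀ + y * ρ) * q := by
    intro x y h1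
    have h2 := mul_le_mul_of_nonneg_right h1 hρ.le
    have h3 := mul_le_mul_of_nonneg_right (show v₀ + x * ρ ≤ v₀ + y * ρ by linarith) hq.le
    linarith
  have e0 : t + (v₀ + 0 * ρ) * q = t + v₀ * q := by ring
  have eW : t + oW * q = t + (v₀ + ((R' : ℝ) - N) * ρ) * q := by rw [hoW]
  have bv := box_in R (o := v₀) hv₀.1 (by have := hv₀.2; have : 0 ≤ R' * ρ := by positivity
                                          linarith)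
  have bW := hbox ((R' : ℝ) - N) (by linarith) (by linarith)
  have bN := hbox R' hR0 le_rfl
  have lowv : ∀ {l : ℕ}, l < m → ∀ k ≤ R', 0 ≤ L l (t + (v₀ + k * ρ) * q) (t + v₀ * q) := by
    intro l hl k hk
    have hk' : (k : ℝ) ≤ R' := by exact_mod_cast hk
    have hk0 : (0 : ℝ) ≤ k := Nat.cast_nonneg k
    have b1 := box_in R (hbox k hk0 hk').1 (hbox k hk0 hk').2
    have h1 : t + v₀ * q ≤ t + (v₀ + k * ρ) * q := by rw [← e0]; exact hle hk0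
    exact b1.2.1.le.trans (R.low_at hl bv.2.1.le h1 b1.2.2.le)
  -- the static level
  have lin3 : ∀ k ≤ R', L 3 (t + (v₀ + ((R' : ℝ) - N) * ρ) * q)
      (t + (v₀ + ((R' : ℝ) - N) * ρ) * q) + b * (((k : ℝ) - (R' - N)) * (ρ * q)) ≤
      L 3 (t + (v₀ + k * ρ) * q) (t + v₀ * q) + 3 * (ε * q) := by
    intro k hk
    have hk' : (k : ℝ) ≤ R' := by exact_mod_cast hk
    have hk0 : (0 : ℝ) ≤ k := Nat.cast_nonneg k
    have b1 := box_in R (hbox k hk0 hk').1 (hbox k hk0 hk').2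
    have h1 := abs_le.1 (lv_lin R hm (box_in R bW.1 bW.2).1 b1.1)
    rw [S3] at h1
    have h3 : t - K * q ≤ t + v₀ * q := by
      have := mul_le_mul_of_nonneg_right hv₀.1 hq.le
      linarith
    have h4 : t + (v₀ + k * ρ) * q ≤ t + K * q := by
      have := mul_le_mul_of_nonneg_right (hbox k hk0 hk').2 hq.le
      linarith
    have h5 : t + v₀ * q ≤ t + (v₀ + k * ρ) * q := by rw [← e0]; exact hle hk0
    have h2 := lv_sta R hm hκ h3 h5 h4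
    have e2 : t + (v₀ + k * ρ) * q - (t + (v₀ + ((R' : ℝ) - N) * ρ) * q) =
        ((k : ℝ) - (R' - N)) * (ρ * q) := by ring
    rw [e2] at h1
    linarith [h1.1]
  have hιN : nAA t q oW y ρ Ng P Ax (nι N M' N) = t + (v₀ + R' * ρ) * q := s4
  have hγ : L 3 (nAA t q oW y ρ Ng P Ax (nι N M' 0)) (nWW t q oW ρ Ng P Vx (nι N M' 0)) +
      b * (nAA t q oW y ρ Ng P Ax (nι N M' N) - nAA t q oW y ρ Ng P Ax (nι N M' 0)) =
      L 3 (t + (v₀ + ((R' : ℝ) - N) * ρ) * q) (t + (v₀ + ((R' : ℝ) - N) * ρ) * q) +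
        b * (N * (ρ * q)) := by
    rw [hιN, z1, z2, eW]
    ring
  have hδA : ∀ k ≤ R', nAA t q oW y ρ Ng P Ax (Ng + P + 2 + k) = t + (v₀ + k * ρ) * q :=
    fun k hk => by rw [nAA_ext, (hx k hk).1]
  have hδW : ∀ k ≤ R', nWW t q oW ρ Ng P Vx (Ng + P + 2 + k) = t + v₀ * q :=
    fun k hk => by rw [nWW_ext, (hx k hk).2]
  rw [hγ]
  refine hdn (R.inj.mono fun x (hx : x < 3) => show x < m by omega) (Ng + P + 2 + Nx) _ _ Dr hDr s s₀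
    hs (nσ Ng pc N N) R' (fun k => Ng + P + 2 + k) (fun k hk => ⟨by omega, hδW k hk⟩)
    (fun k hk => by
      rw [hδA k hk.le, hδA (k + 1) hk]
      exact hle (by push_cast; linarith))
    (by rw [hδA R' le_rfl, s1, hιN]) (by rw [s2, eW, ← e0]; exact hle (by linarith))
    (fun k hk => by
      rw [hδA k hk]
      exact ⟨lowv (by omega) k hk, lowv hm k hk⟩)
    (fun k hk => by
      rw [hδA k hk.le, hδA (k + 1) hk]
      have hk' : ((k + 1 : ℕ) : ℝ) ≤ R' := by exact_mod_cast hk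
      have hk0 : (0 : ℝ) ≤ k := Nat.cast_nonneg k
      have b1 := hbox ((k + 1 : ℕ) : ℝ) (by positivity) hk'
      refine lv_mono R hm bv.2.1.le le_rfl (hle (by push_cast; linarith)) ?_ ?_
        (box_in R b1.1 b1.2).2.2.le
      · rw [← e0]; exact hle hk0
      · rw [← e0]; exact hle (by positivity))
    _ pN (L 2 (t + (v₀ + R' * ρ) * q) (t + (v₀ + ((R' : ℝ) - N) * ρ) * q) + s₀ - C * s -
      (L 3 (t + (v₀ + ((R' : ℝ) - N) * ρ) * q) (t + (v₀ + ((R' : ℝ) - N) * ρ) * q) +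
        b * (N * (ρ * q)))) ?_ (fun k hk => ?_) ?_ ?_ ?_ Ψ hΨ
  · rw [hδA R' le_rfl]
    have h1 := lin3 R' le_rfl
    have e2 : (R' : ℝ) - (R' - N) = N := by ring
    rw [e2] at h1
    have : 0 ≤ C * s := by positivity
    have : 0 ≤ b * (ρ * q) := by positivity
    linarith
  · rw [hδA (k + 1) hk, hδA k hk.le]
    have h1 := hpk (k + 1) hk
    have h2 := lin3 k hk.le
    push_cast at h1 ⊢
    have e2 : (b : ℝ) * (((k : ℝ) - (R' - N)) * (ρ * q)) =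
        b * (N * (ρ * q)) - b * (((R' : ℝ) - (k + 1)) * ρ * q) - b * (ρ * q) := by ring
    rw [e2] at h2
    linarith
  · rw [hδA 0 (Nat.zero_le _)]
    have h1 := hpk 0 (Nat.zero_le _)
    have h2 := lin3 0 (Nat.zero_le _)
    push_cast at h1 h2 ⊢
    have e2 : (b : ℝ) * (((0 : ℝ) - (R' - N)) * (ρ * q)) =
        b * (N * (ρ * q)) - b * (((R' : ℝ) - 0) * ρ * q) := by ring
    rw [e2] at h2
    have : 0 ≤ b * (ρ * q) := by positivity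
    linarith
  · rw [hδA 0 (Nat.zero_le _)]
    have h1 := hpk 0 (Nat.zero_le _)
    have h2 := lin3 0 (Nat.zero_le _)
    push_cast at h1 h2 ⊢
    have e2 : (b : ℝ) * (((0 : ℝ) - (R' - N)) * (ρ * q)) =
        b * (N * (ρ * q)) - b * (((R' : ℝ) - 0) * ρ * q) := by ring
    rw [e2] at h2
    rw [e0] at h1 h2 ⊢
    have : 0 ≤ b * (ρ * q) := by positivity
    linarith
  · rw [s1, hιN, s2, eW]
    linarith

/-- **The property `MxS` of `n1_rec`** for the labels of the alternative, if the slope of `c 2` is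
larger than the static slope: one of the base windows `t + (V' i + (R' - N) ρ) q`, `R₁ ≤ R' ≤ R₂`. -/
theorem mxs_rec (D : ℕ) (hD : 1 ≤ D) : ∃ C : ℕ, ∀ {S : PCl 4} {al : ℝ}
    {g₀ : ℝ → ℝ} {P₀ : List (Fin 4) × Fin 4 → ℝ → ℝ → ℝ} {θ : ℝ}
    {P₂ : ℕ → List (Fin 4) × Fin 4 → ℝ → ℝ → ℝ} {θ₂ Eb e₂ : ℕ → ℝ}
    {c : ℕ → Fin 4} {Pt : ℝ → ℝ → ℝ} {r : ℝ → ℝ} {h Kn g : ℝ} {L T : ℕ → ℝ → ℝ → ℝ}
    {Sl : ℕ → ℝ} {κ : ℕ → Kg} {G : Set ℝ} {S₀ N₀ : ℕ} {A V : ℕ → ℝ} {S₂ N' : ℕ} {V' : ℕ → ℝ}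
    {K ε q t : ℝ}
    (_ : RecG S al g₀ P₀ θ P₂ θ₂ Eb e₂ c Pt r h Kn g L T Sl κ G S₀ N₀ A V S₂ N' V' K ε q t)
    {b : ℕ} (_ : Sl 3 = b) (_ : κ 3 = .sta) (_ : 0 ≤ ε) (_ : b ≤ Sl 2)
    {Db i j : ℕ} {Rr hh δ lam rr ℓ g₂ X η μ e₀ π₀ : ℝ} {Ψ : Fml 4}
    {w p₁ p₂ eN uN pN pa₁ pa₂ ea ua pa : ℝ}
    (_ : AlO (r₀ := 2) S c L Db N' V' i j Rr hh δ lam rr ℓ g₂ X η μ e₀ π₀ q t Ψ w p₁ p₂ eN uN pN
      pa₁ pa₂ ea ua pa) (_ : Db * max 1 Db ≤ D) (_ : 0 ≤ δ * lam) {ρ : ℝ} (_ : 0 < ρ)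
    {N R₁ R₂ : ℕ} (_ : N ≤ R₁) (_ : R₁ ≤ R₂) (_ : -K ≤ V' i) (_ : V' i + R₂ * ρ ≤ K)
    (_ : Sl 2 * (N * ρ) + 4 * ε ≤ (Sl 2 - b) * (((R₂ : ℝ) - R₁) * ρ)),
    ∃ R' : ℕ, R₁ ≤ R' ∧ R' ≤ R₂ ∧ ∀ {y : ℝ} {Ng P pc M' Nx : ℕ} {Ax Vx : ℕ → ℝ}
      (_ : LsN (V' i + ((R' : ℝ) - N) * ρ) y ρ Ng P Nx Ax Vx N₀ A V N' V' K)
      (_ : GrN y ρ Ng P pc N M') (_ : R' < Nx) (_ : ∀ k ≤ R', Ax k = V' i + k * ρ ∧ Vx k = V' i)
      {Dr : ℕ} (_ : D ≤ Dr) {s s₀ : ℝ} (_ : 0 < s) (_ : (δ * lam + b * ρ + 4 * ε) * q + C * s ≤ s₀)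
      {e E : ℝ},
      MxS S c D Dr (Ng + P + 2 + Nx) L e E s s₀ (t + V' i * q)
        (nAA t q (V' i + ((R' : ℝ) - N) * ρ) y ρ Ng P Ax)
        (nWW t q (V' i + ((R' : ℝ) - N) * ρ) ρ Ng P Vx) (nσ Ng pc N N)
        (L 3 (nAA t q (V' i + ((R' : ℝ) - N) * ρ) y ρ Ng P Ax (nι N M' 0))
            (nWW t q (V' i + ((R' : ℝ) - N) * ρ) ρ Ng P Vx (nι N M' 0)) +
          b * (nAA t q (V' i + ((R' : ℝ) - N) * ρ) y ρ Ng P Ax (nι N M' N) -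
            nAA t q (V' i + ((R' : ℝ) - N) * ρ) y ρ Ng P Ax (nι N M' 0)))
        (NzF Ψ c 2 (c 3) Db Db Db w (t + V' i * q) p₁ p₂ eN uN pN) := by
  obtain ⟨C, hat⟩ := mxs_at D hD
  refine ⟨C, ?_⟩
  intro S al g₀ P₀ θ P₂ θ₂ Eb e₂ c Pt r h Kn g L T Sl κ G S₀ N₀ A V S₂ N' V' K ε q t R b S3 hκ hε
    hab Db i j Rr hh δ lam rr ℓ g₂ X η μ e₀ π₀ Ψ w p₁ p₂ eN uN pN pa₁ pa₂ ea ua pa O hDb hδl ρ hρ N
    R₁ R₂ hN h12 hv hv2 hnum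
  have hq := R.q0
  obtain ⟨R', h1, h2, h3⟩ := dn_pick R (l := 2) (by norm_num) hab hρ hN h12 hv hv2 hnum
  refine ⟨R', h1, h2, ?_⟩
  intro y Ng P pc M' Nx Ax Vx H gr hNx hx Dr hDr s s₀ hs hs₀ e E
  refine hat R (by norm_num) S3 hκ hε H gr (hN.trans h1) hNx hx h3 hDr (x := δ * lam * q / 8) (pN := pN) hs ?_
    (by positivity) ?_ ?_
  · have h4 := O.pN1
    have h5 : L (2 + 1) (t + V' i * q) (t + V' i * q) = L 3 (t + V' i * q) (t + V' i * q) := rfl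
    rw [h5] at h4
    linarith
  · have h4 : 0 ≤ δ * lam * q := by positivity
    have e1 : (δ * lam + b * ρ + 4 * ε) * q = δ * lam * q + (b * ρ + 4 * ε) * q := by ring
    rw [e1] at hs₀
    linarith
  · intro J F A V z z' G hG
    have h4 := Pool.GRD.LbP.of hG.lb
    rw [max_self] at h4
    exact { h4 with deg := fun v => (h4.deg v).trans hDb }

end Pool.STB65
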