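import Pool.Agent.H65.STB.Nso

/-!
# The mixed derivative of the static label, from the samples

`mx_smp`: the derivative of the difference of the closed label of a static node and a closed
polynomial is natural on the box of the node, if it is so at the samples for the closed label of a
coarser node.
-/

set_option autoImplicit false

namespace Pool.STB65

open Finset Real MvPolynomial
open Pool.Agent.H49.Ent Pool.Agent.H32.Dense Pool.STK Pool.KA Pool.KSAT Pool.K2S Pool.PB Pool.S6C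
open Pool.GEN Pool.CHT Pool.NVX
open Pool.SHR (dir dir_sub)
open Pool.STB77 (Tgt Nls NodW tgt_of cos cos_slam opt last_dir)

variable {m J : ℕ}

/-- Larger degrees. -/
theorem nls_up {F : Fam m J} {c : ℕ → Fin m} {r D D' Dr M s : ℕ} {R : ℕ → ℕ → Prop} {a w : ℕ → ℕ}
    {e E : ℕ} {g : ℕ → ℕ → ℕ} {h : ℕ} {κ : ℝ} {B : F.Ω → Prop}
    {G : ℕ → PtT F → ℕ → MvPolynomial (Option (Fin m)) ℝ}
    {H : ℕ → LnT F → ℕ → MvPolynomial (Option (Fin m)) ℝ}
    (L : Nls F c r D Dr M s R a w e E g h κ B G H) (hD : D ≤ D') :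
    Nls F c r D' Dr M s R a w e E g h κ B G H :=
  { L with
    nod := fun k hk => ⟨(L.nod k hk).lst.mono le_rfl (fun _ => hD) le_rfl le_rfl,
      (L.nod k hk).top.mono le_rfl (fun _ => hD) le_rfl le_rfl, (L.nod k hk).rlF⟩ }

/-- Larger degrees. -/
theorem nsu_up {F : Fam m J} {c : ℕ → Fin m} {D D' N W s b g₃ gS : ℕ} {A : ℕ → ℕ}
    {g : ℕ → ℕ → ℕ} {B : F.Ω → Prop} {G : ℕ → PtT F → ℕ → MvPolynomial (Option (Fin m)) ℝ}
    {LP : ℕ → PtT F → MvPolynomial (Option (Fin m)) ℝ}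
    {LH : ℕ → LnT F → MvPolynomial (Option (Fin m)) ℝ}
    {HS US : LnT F → MvPolynomial (Option (Fin m)) ℝ}
    {Gx : PtT F → MvPolynomial (Option (Fin m)) ℝ} {Gl : LnT F → MvPolynomial (Option (Fin m)) ℝ}
    {gs : ℕ → ℕ} {Gs : PtT F → ℕ → MvPolynomial (Option (Fin m)) ℝ} {yN : F.Ω → ℝ}
    (T : Nsu F c D N W s b g₃ gS A g B G LP LH HS US Gx Gl gs Gs yN) (h : D ≤ D') :
    Nsu F c D' N W s b g₃ gS A g B G LP LH HS US Gx Gl gs Gs yN :=
  { T with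
    dP := fun k hk y => (T.dP k hk y).trans h
    dH := fun k hk S => (T.dH k hk S).trans h
    dS := fun S => (T.dS S).trans h
    dU := fun S => (T.dU S).trans h
    dx := fun y => (T.dx y).trans h
    dl := fun S => (T.dl S).trans h
    dGs := fun y l => (T.dGs y l).trans h }

/-- Smaller events. -/
theorem nsu_sub {F : Fam m J} {c : ℕ → Fin m} {D N W s b g₃ gS : ℕ} {A : ℕ → ℕ}
    {g : ℕ → ℕ → ℕ} {B B' : F.Ω → Prop} {G : ℕ → PtT F → ℕ → MvPolynomial (Option (Fin m)) ℝ}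
    {LP : ℕ → PtT F → MvPolynomial (Option (Fin m)) ℝ}
    {LH : ℕ → LnT F → MvPolynomial (Option (Fin m)) ℝ}
    {HS US : LnT F → MvPolynomial (Option (Fin m)) ℝ}
    {Gx : PtT F → MvPolynomial (Option (Fin m)) ℝ} {Gl : LnT F → MvPolynomial (Option (Fin m)) ℝ}
    {gs : ℕ → ℕ} {Gs : PtT F → ℕ → MvPolynomial (Option (Fin m)) ℝ} {yN : F.Ω → ℝ}
    (T : Nsu F c D N W s b g₃ gS A g B G LP LH HS US Gx Gl gs Gs yN) (h : Sub B' B) :
    Nsu F c D N W s b g₃ gS A g B' G LP LH HS US Gx Gl gs Gs yN :=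
  { T with
    gc := fun ω hω => T.gc ω (h ω hω)
    pos := fun k hk ω hω => T.pos k hk ω (h ω hω)
    agr := fun k hk ω hω => T.agr k hk ω (h ω hω)
    uni := fun k hk ω hω => T.uni k hk ω (h ω hω)
    bl := fun k hk ω hω => T.bl k hk ω (h ω hω)
    sta := fun ω hω => T.sta ω (h ω hω)
    nr := fun l hl ω hω => T.nr l hl ω (h ω hω)
    us := fun ω hω => T.us ω (h ω hω)
    mx := fun ω hω => T.mx ω (h ω hω) }

/-- **The mixed derivative from the samples.** -/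
theorem mx_smp (D : ℕ) (hD : 1 ≤ D) : ∃ C : ℕ, ∀ {m J : ℕ} {F : Fam m J} {c : ℕ → Fin m}
    {Dr M s s₁ e E h X j j' : ℕ} {κ : ℝ} {Rl : ℕ → ℕ → Prop} {a w : ℕ → ℕ}
    {g : ℕ → ℕ → ℕ} {B₀ B : F.Ω → Prop} {G : ℕ → PtT F → ℕ → MvPolynomial (Option (Fin m)) ℝ}
    {H : ℕ → LnT F → ℕ → MvPolynomial (Option (Fin m)) ℝ}
    {Gx : PtT F → MvPolynomial (Option (Fin m)) ℝ} {Gl : LnT F → MvPolynomial (Option (Fin m)) ℝ},
    Set.InjOn c (Set.Iio 3) → 0 < κ → 0 < Pe F.p B₀ → Sub B B₀ → D ≤ Dr →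
    Nls F c 3 D Dr M s Rl a w e E g h κ B₀ G H → j < M → j' < M → Rl j' j →
    X ≤ g j 3 + s₁ → X ≤ g j' 3 + s₁ →
    (∀ y, (Gx y).totalDegree ≤ D) → (∀ S, (Gl S).totalDegree ≤ D) →
    (∀ y, DepC c 3 (Gx y)) → (∀ S, DepC c 3 (Gl S)) →
    (∀ ω, B ω → Gx (ptr F J ω) = Gl (slam F (w j) ω)) →
    (∀ ω, B ω → |eval (bt F ω) (pderiv (some (c 2)) (H j' (slam F (w j') ω) 3 -
      Gx (ptr F J ω)))| ≤ 2 ^ (s₁ + g j 2) / 2 ^ X) →
    ∃ B' : F.Ω → Prop, Sub B' B ∧ Pe F.p B ≤ Pe F.p B' + 2 * (κ * 2 ^ 4 * Pe F.p B₀) ∧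
      ∀ ω, B' ω → ∀ b', NBx c (G j (ptr F J ω)) (g j) (a j) (F.t ω) 3 b' →
        |eval b' (pderiv (some (c 2)) (H j (slam F (w j) ω) 3 - Gl (slam F (w j) ω)))| ≤
          2 ^ (C * (h + s + s₁ + 1) + g j 2) / 2 ^ X := by
  obtain ⟨C₁, hbl⟩ := bl_one D 4 hD
  obtain ⟨C₂, hla⟩ := last_dir D 4
  refine ⟨C₁ + C₂ + 2, ?_⟩
  intro m J F c Dr M s s₁ e E h X j j' κ Rl a w g B₀ B G H Gx Gl hc hκ hP₀ hB hDr L hj hj' hR hX hX'
    d1 d2 d3 d4 hG hsm
  have pw : ∀ {x y : ℕ}, x ≤ y → (2 : ℝ) ^ x ≤ 2 ^ y := fun h => pow_le_pow_right₀ (by norm_num) h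
  have dv : ∀ {α : ℝ} {p q r t : ℕ}, α ≤ 2 ^ p / 2 ^ q → p + t ≤ r + q → α ≤ 2 ^ r / 2 ^ t := by
    intro α p q r t h1 h2
    refine h1.trans ?_
    rw [div_le_div_iff₀ (by positivity) (by positivity), ← pow_add, ← pow_add]
    exact pw h2
  have nd := L.nod j hj
  obtain ⟨Y, hY⟩ : ∃ Y, Y = C₂ + s + s₁ + 1 + g j 2 := ⟨_, rfl⟩
  obtain ⟨B', k1, k2, k3⟩ := hbl (F := F) (c := c) (i := 2) (a := a j) (w := w j)
    (e := e) (h := h) (q := g j 3) (q' := g j 3) (κ := κ) (M := 2 ^ Y / 2 ^ X)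
    (g := g j) (B₀ := B₀) (B := B) (G := G j) (H := H j)
    (y := fun ω => F.x ω (c 3)) (P := fun y => G j y 3) (P' := fun y => G j y 3)
    (R := fun S => H j S 3) (R' := fun S => H j S 3) (Gx := Gx) (Gl := Gl) (by norm_num) hc hκ hP₀
    hB (nd.rlF.mono hDr le_rfl) (nd.lst.sub hB) (tgt_of (nd.top.sub hB)) (tgt_of (nd.top.sub hB))
    d1 d2 d3 d4 hG (by positivity) (dv le_rfl (by omega)) (dv le_rfl (by omega))
    (fun ω hω => by
      have hbt : NBx c (G j (ptr F J ω)) (g j) (a j) (F.t ω) 3 (bt F ω) :=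
        ⟨by show |F.t ω - F.t ω| ≤ _; rw [sub_self, abs_zero]; positivity,
          fun l hl => nd.lst.pos ω (hB ω hω) l hl⟩
      have h1 := hla (c := c) (i := 2) (a := a j) (g := g j) (t := F.t ω) (M := 2 ^ s / 2 ^ g j' 3)
        (G := G j (ptr F J ω)) (P := G j (ptr F J ω) 3 - H j' (slam F (w j') ω) 3)
        (b := bt F ω) (by norm_num) hc (nd.lst.degG _) (nd.lst.depG _)
        (fun x y hn hb => by
          rw [map_sub, map_sub, nd.top.depG _ 3 x y hn hb, (L.nod j' hj').top.depH _ 3 x y hn hb])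
        ((totalDegree_sub _ _).trans (max_le (nd.top.degG _ _) ((L.nod j' hj').top.degH _ _)))
        (by positivity) hbt (fun b hb => by
          rw [map_sub, abs_sub_comm]
          exact L.two j' hj' j hj hR ω (hB ω hω) 3 le_rfl b hb)
      rw [dir_ek] at h1
      have h2 := hsm ω hω
      rw [dir_ek]
      have e1 : eval (bt F ω) (pderiv (some (c 2)) (G j (ptr F J ω) 3 - Gx (ptr F J ω))) =
          eval (bt F ω) (pderiv (some (c 2)) (G j (ptr F J ω) 3 - H j' (slam F (w j') ω) 3)) +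
          eval (bt F ω) (pderiv (some (c 2)) (H j' (slam F (w j') ω) 3 - Gx (ptr F J ω))) := by
        rw [← map_add, ← map_add]
        congr 2
        ring
      show |eval (bt F ω) (pderiv (some (c 2)) (G j (ptr F J ω) 3 - Gx (ptr F J ω)))| ≤ _
      rw [e1]
      refine (abs_add_le _ _).trans ?_
      have h3 : (2 : ℝ) ^ C₂ * (2 ^ s / 2 ^ g j' 3 * 2 ^ g j 2) ≤
          2 ^ (C₂ + s + s₁ + g j 2) / 2 ^ X := by
        have e2 : (2 : ℝ) ^ C₂ * (2 ^ s / 2 ^ g j' 3 * 2 ^ g j 2) =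
            2 ^ (C₂ + s + g j 2) / 2 ^ g j' 3 := by
          rw [pow_add, pow_add]
          ring
        rw [e2]
        exact dv le_rfl (by omega)
      have h4 : (2 : ℝ) ^ (s₁ + g j 2) / 2 ^ X ≤ 2 ^ (C₂ + s + s₁ + g j 2) / 2 ^ X :=
        div_le_div_of_nonneg_right (pw (by omega)) (by positivity)
      have e3 : (2 : ℝ) ^ Y / 2 ^ X = 2 ^ (C₂ + s + s₁ + g j 2) / 2 ^ X +
          2 ^ (C₂ + s + s₁ + g j 2) / 2 ^ X := by
        rw [hY, show C₂ + s + s₁ + 1 + g j 2 = C₂ + s + s₁ + g j 2 + 1 by ring, pow_succ]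
        ring
      rw [e3]
      linarith)
  refine ⟨B', k1, k2, fun ω hω b' hb => ?_⟩
  have h1 := (k3 ω hω b' hb).2
  rw [dir_ek] at h1
  refine h1.trans ?_
  rw [mul_div_assoc', ← pow_add]
  refine div_le_div_of_nonneg_right (pw ?_) (by positivity)
  rw [hY]
  nlinarith [Nat.zero_le (C₁ * (s + s₁)), Nat.zero_le (C₂ * (h + s + s₁)), Nat.zero_le h]

end Pool.STB65
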