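import Pool.Agent.H65.STB.Tay
import Pool.Agent.H84.KBOX.BlkA

/-!
# The terms of low order transversally to a line

`thc`: the component of order `n` in the last two variables. `nat_one`: a polynomial which is near a
polynomial with natural components on a small box around a sample of the line has natural
transversal components of order at most `b` there, and the other ones are small near the sample.
-/

set_option autoImplicit false

namespace Pool.STB65

open Finset Real MvPolynomial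
open Pool.STB

/-- The weights of the nodes. -/
noncomputable def wn (K : ℕ) : ℕ → ℕ → ℝ := (coef_node K).choose

theorem wn_spec (K : ℕ) (P : Polynomial ℝ) (hP : P.natDegree ≤ K) (n : ℕ) :
    P.coeff n = ∑ j ∈ range (K + 1), wn K n j * P.eval ((j : ℝ) / (K + 1)) :=
  (coef_node K).choose_spec P hP n

/-- The point `(q 0, s q 1, s q 2)`. -/
noncomputable def tsc (s : ℝ) (q : V3) : V3 := fun i => if i = 0 then q 0 else s * q i

/-- The substitution of `tsc`. -/
noncomputable def tvp (s : ℝ) (i : Fin 3) : Po := if i = 0 then X 0 else C s * X i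

theorem eval_tvp (s : ℝ) (P : Po) (q : V3) : eval q (bind₁ (tvp s) P) = eval (tsc s q) P := by
  rw [eval, eval₂Hom_bind₁]
  congr 1
  congr 1
  funext j
  show eval q (tvp s j) = tsc s q j
  unfold tvp tsc
  split_ifs with h
  · rw [eval_X]
  · rw [map_mul, eval_C, eval_X]

theorem deg_tvp (s : ℝ) (P : Po) : (bind₁ (tvp s) P).totalDegree ≤ P.totalDegree := by
  refine deg_aff _ (fun j => ?_) P
  unfold tvp
  split_ifs with h
  · rw [totalDegree_X]
  · refine (totalDegree_mul _ _).trans ?_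
    rw [totalDegree_C, totalDegree_X]

/-- **The transversal component** of order `n`. -/
noncomputable def thc (K n : ℕ) (P : Po) : Po :=
  ∑ j ∈ range (K + 1), C (wn K n j) * bind₁ (tvp ((j : ℝ) / (K + 1))) P

theorem eval_thc (K n : ℕ) (P : Po) (q : V3) : eval q (thc K n P) =
    ∑ j ∈ range (K + 1), wn K n j * eval (tsc ((j : ℝ) / (K + 1)) q) P := by
  unfold thc
  rw [map_sum]
  refine Finset.sum_congr rfl fun j _ => ?_
  rw [map_mul, eval_C, eval_tvp]

theorem deg_thc (K n : ℕ) {P : Po} {D : ℕ} (h : P.totalDegree ≤ D) :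
    (thc K n P).totalDegree ≤ D := by
  unfold thc
  refine (totalDegree_finsetSum _ _).trans (Finset.sup_le fun j _ => ?_)
  refine (totalDegree_mul _ _).trans ?_
  rw [totalDegree_C, zero_add]
  exact (deg_tvp _ _).trans h

/-- The restriction to a transversal line. -/
noncomputable def tln (P : Po) (q : V3) : Polynomial ℝ :=
  aeval (fun i : Fin 3 => if i = 0 then Polynomial.C (q 0) else Polynomial.C (q i) * Polynomial.X) P

theorem eval_tln (P : Po) (q : V3) (s : ℝ) : (tln P q).eval s = eval (tsc s q) P := by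
  unfold tln
  rw [Pool.KBX.eval_aeval_poly]
  congr 1
  congr 1
  funext i
  unfold tsc
  split_ifs with h
  · rw [Polynomial.eval_C]
  · rw [Polynomial.eval_mul, Polynomial.eval_C, Polynomial.eval_X, mul_comm]

theorem deg_tln {P : Po} {K : ℕ} (h : P.totalDegree ≤ K) (q : V3) : (tln P q).natDegree ≤ K := by
  unfold tln
  refine Pool.KBX.natDegree_aeval_le P _ (fun i => ?_) h
  split_ifs
  · rw [Polynomial.natDegree_C]
    exact Nat.zero_le _
  · exact (Polynomial.natDegree_C_mul_le _ _).trans Polynomial.natDegree_X_le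

theorem thc_coeff {P : Po} {K : ℕ} (h : P.totalDegree ≤ K) (n : ℕ) (q : V3) :
    eval q (thc K n P) = (tln P q).coeff n := by
  rw [eval_thc, wn_spec K _ (deg_tln h q)]
  exact Finset.sum_congr rfl fun j _ => by rw [eval_tln]

theorem tsc_one (q : V3) : tsc 1 q = q := by
  funext i
  unfold tsc
  split_ifs with h
  · rw [h]
  · rw [one_mul]

/-- The sum of the transversal components. -/
theorem sum_thc {P : Po} {K : ℕ} (h : P.totalDegree ≤ K) (q : V3) :
    eval q P = ∑ n ∈ range (K + 1), eval q (thc K n P) := by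
  have h1 : eval q P = (tln P q).eval 1 := by rw [eval_tln, tsc_one]
  rw [h1, Polynomial.eval_eq_sum_range' (Nat.lt_succ_of_le (deg_tln h q))]
  refine Finset.sum_congr rfl fun n _ => ?_
  rw [one_pow, mul_one, thc_coeff h]

/-- A bound for the transversal components. -/
theorem thc_le (K : ℕ) : ∃ C : ℝ, 1 ≤ C ∧ ∀ (P : Po) (M : ℝ) (n : ℕ) (q : V3), P.totalDegree ≤ K →
    (∀ s ∈ Set.Icc (0 : ℝ) 1, |eval (tsc s q) P| ≤ M) → |eval q (thc K n P)| ≤ C * M := by
  classical
  refine ⟨1 + ∑ n ∈ range (K + 1), ∑ j ∈ range (K + 1), |wn K n j|, ?_, ?_⟩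
  · have : 0 ≤ ∑ n ∈ range (K + 1), ∑ j ∈ range (K + 1), |wn K n j| :=
      sum_nonneg fun n _ => sum_nonneg fun j _ => abs_nonneg _
    linarith
  intro P M n q hP hM
  have hM0 : 0 ≤ M := (abs_nonneg _).trans (hM 0 ⟨le_rfl, zero_le_one⟩)
  have hS0 : 0 ≤ ∑ n ∈ range (K + 1), ∑ j ∈ range (K + 1), |wn K n j| :=
    sum_nonneg fun n _ => sum_nonneg fun j _ => abs_nonneg _
  rcases Nat.lt_or_ge K n with hn | hn
  · rw [thc_coeff hP, Polynomial.coeff_eq_zero_of_natDegree_lt ((deg_tln hP q).trans_lt hn),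
      abs_zero]
    positivity
  rw [eval_thc]
  refine (Finset.abs_sum_le_sum_abs _ _).trans ?_
  have h2 : ∀ j ∈ range (K + 1),
      |wn K n j * eval (tsc ((j : ℝ) / (K + 1)) q) P| ≤ |wn K n j| * M := by
    intro j hj
    rw [abs_mul]
    refine mul_le_mul_of_nonneg_left (hM _ ⟨by positivity, ?_⟩) (abs_nonneg _)
    rw [div_le_one (by positivity)]
    have := mem_range.1 hj
    exact_mod_cast this.le
  refine (Finset.sum_le_sum h2).trans ?_
  rw [← Finset.sum_mul]
  refine mul_le_mul_of_nonneg_right ?_ hM0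
  have h3 := Finset.single_le_sum (f := fun n => ∑ j ∈ range (K + 1), |wn K n j|)
    (fun n _ => sum_nonneg fun j _ => abs_nonneg _) (mem_range.2 (Nat.lt_succ_of_le hn))
  have h4 : (fun n => ∑ j ∈ range (K + 1), |wn K n j|) n = ∑ j ∈ range (K + 1), |wn K n j| := rfl
  linarith

/-- The terms of transversal order at most `b`. -/
noncomputable def trl (K b : ℕ) (P : Po) : Po := ∑ n ∈ range (b + 1), thc K n P

theorem eval_trl (K b : ℕ) (P : Po) (q : V3) :
    eval q (trl K b P) = ∑ n ∈ range (b + 1), eval q (thc K n P) := by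
  unfold trl
  rw [map_sum]

theorem deg_trl (K b : ℕ) {P : Po} {D : ℕ} (h : P.totalDegree ≤ D) :
    (trl K b P).totalDegree ≤ D := by
  unfold trl
  exact (totalDegree_finsetSum _ _).trans (Finset.sup_le fun n _ => deg_thc K n h)

/-- Near polynomials have near components. -/
theorem hc_near (K : ℕ) : ∃ C : ℝ, 1 ≤ C ∧ ∀ (P Q : Po) (M ε : ℝ), P.totalDegree ≤ K →
    Q.totalDegree ≤ K → 0 < ε → (∀ q, Bx ε q → |eval q P - eval q Q| ≤ M) → ∀ n, ∀ q, Bx 1 q →
      |eval q (homogeneousComponent n P) - eval q (homogeneousComponent n Q)| ≤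
        C * M * (1 / ε) ^ n := by
  obtain ⟨C, hC, hc⟩ := hc_le K
  refine ⟨C, hC, fun P Q M ε hP hQ hε hM n q hq => ?_⟩
  rw [← map_sub, ← map_sub]
  exact hc (P - Q) M ε 1 ((totalDegree_sub _ _).trans (max_le hP hQ)) hε one_pos
    (fun z hz => by
      rw [map_sub]
      exact hM z hz) n q hq

/-- **The components along a chain of polynomials.** -/
theorem chain_hc (K b N : ℕ) : ∃ C : ℝ, 1 ≤ C ∧ ∀ (f : ℕ → Po) (ε : ℕ → ℝ) (U Θ : ℝ),
    (∀ i ≤ N, (f i).totalDegree ≤ K) → (∀ i ≤ N, 0 < ε i ∧ ε i ≤ 1) → 1 ≤ U → 1 ≤ Θ →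
    (∀ i < N, ε (i + 1) ≤ ε i ∧ ε i ≤ Θ * ε (i + 1)) → (∀ q, Bx 1 q → |eval q (f 0)| ≤ U) →
    (∀ i < N, ∀ q, Bx (ε (i + 1)) q → |eval q (f (i + 1)) - eval q (f i)| ≤ U * ε i ^ b) →
    ∀ n, ∀ q, Bx 1 q → |eval q (homogeneousComponent n (f N))| ≤
      C * U * Θ ^ b * max 1 (ε N ^ b * (1 / ε N) ^ n) := by
  obtain ⟨C, hC, hc⟩ := hc_near K
  obtain ⟨C', hC', hc'⟩ := hc_le K
  refine ⟨C' + N * C, by
    have : (0 : ℝ) ≤ N * C := by positivity
    linarith, fun f ε U Θ hf hε hU hΘ hr h0 hs n q hq => ?_⟩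
  obtain ⟨m, hm⟩ : ∃ m : ℕ → ℝ, m = fun i => max 1 (ε i ^ b * (1 / ε i) ^ n) := ⟨_, rfl⟩
  have hm1 : ∀ i, 1 ≤ m i := fun i => by
    rw [hm]
    exact le_max_left _ _
  have hmi : ∀ i < N, m i ≤ m (i + 1) := by
    intro i hi
    have e1 := (hε i (by omega)).1
    have e2 := (hε (i + 1) (by omega)).1
    have e3 := (hε (i + 1) (by omega)).2
    have e4 := (hr i hi).1
    have e5 := (hε i (by omega)).2
    rw [hm]
    refine max_le (le_max_left _ _) ?_
    rcases Nat.lt_or_ge n b with h | h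
    · refine le_trans ?_ (le_max_left _ _)
      obtain ⟨d, rfl⟩ : ∃ d, b = n + d := ⟨b - n, by omega⟩
      have : ε i ^ (n + d) * (1 / ε i) ^ n = ε i ^ d := by
        rw [pow_add, one_div, inv_pow]
        field_simp
      rw [this]
      exact pow_le_one₀ e1.le e5
    · refine le_trans ?_ (le_max_right _ _)
      obtain ⟨d, rfl⟩ : ∃ d, n = b + d := ⟨n - b, by omega⟩
      have h6 : ∀ x : ℝ, 0 < x → x ^ b * (1 / x) ^ (b + d) = (1 / x) ^ d := by
        intro x hx
        rw [pow_add, one_div, inv_pow, inv_pow]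
        field_simp
      rw [h6 _ e1, h6 _ e2]
      exact pow_le_pow_left₀ (by positivity) (one_div_le_one_div_of_le e2 e4) d
  have hΘb : 1 ≤ Θ ^ b := one_le_pow₀ hΘ
  have key : ∀ i ≤ N, |eval q (homogeneousComponent n (f i))| ≤
      (C' + i * C) * U * Θ ^ b * m i := by
    intro i
    induction i with
    | zero =>
      intro _
      have h1 := hc' (f 0) U 1 1 (hf 0 (Nat.zero_le _)) one_pos one_pos h0 n q hq
      rw [div_one, one_pow, mul_one] at h1
      refine h1.trans ?_
      rw [Nat.cast_zero, zero_mul, add_zero]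
      have h2 : 1 ≤ Θ ^ b * m 0 := one_le_mul_of_one_le_of_one_le hΘb (hm1 0)
      calc C' * U = C' * U * 1 := (mul_one _).symm
        _ ≤ C' * U * (Θ ^ b * m 0) := mul_le_mul_of_nonneg_left h2 (by positivity)
        _ = _ := by ring
    | succ i ih =>
      intro hi
      have h1 := ih (by omega)
      have e2 := (hε (i + 1) hi).1
      have h2 := hc (f (i + 1)) (f i) (U * ε i ^ b) (ε (i + 1)) (hf _ hi) (hf _ (by omega)) e2
        (hs i (by omega)) n q hq
      have h3 : C * (U * ε i ^ b) * (1 / ε (i + 1)) ^ n ≤ C * U * Θ ^ b * m (i + 1) := by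
        have h4 : ε i ^ b ≤ Θ ^ b * ε (i + 1) ^ b := by
          rw [← mul_pow]
          exact pow_le_pow_left₀ (hε i (by omega)).1.le (hr i (by omega)).2 b
        have h5 : ε (i + 1) ^ b * (1 / ε (i + 1)) ^ n ≤ m (i + 1) := by
          rw [hm]
          exact le_max_right _ _
        calc C * (U * ε i ^ b) * (1 / ε (i + 1)) ^ n =
            C * U * (ε i ^ b * (1 / ε (i + 1)) ^ n) := by ring
          _ ≤ C * U * (Θ ^ b * ε (i + 1) ^ b * (1 / ε (i + 1)) ^ n) := by
              refine mul_le_mul_of_nonneg_left ?_ (by positivity)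
              exact mul_le_mul_of_nonneg_right h4 (by positivity)
          _ = C * U * Θ ^ b * (ε (i + 1) ^ b * (1 / ε (i + 1)) ^ n) := by ring
          _ ≤ _ := mul_le_mul_of_nonneg_left h5 (by positivity)
      have h4 : (C' + (i : ℝ) * C) * U * Θ ^ b * m i ≤
          (C' + (i : ℝ) * C) * U * Θ ^ b * m (i + 1) :=
        mul_le_mul_of_nonneg_left (hmi i (by omega)) (by positivity)
      have h5 : eval q (homogeneousComponent n (f (i + 1))) =
          eval q (homogeneousComponent n (f i)) +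
          (eval q (homogeneousComponent n (f (i + 1))) -
            eval q (homogeneousComponent n (f i))) := by ring
      rw [h5]
      refine (abs_add_le _ _).trans ?_
      push_cast
      nlinarith
  have h1 := key N le_rfl
  rw [hm] at h1
  exact h1

/-- The components from the values at the nodes, with the weights `wn`. -/
theorem hc_wn {P : Po} {K : ℕ} (hP : P.totalDegree ≤ K) (n : ℕ) (q : V3) :
    eval q (homogeneousComponent n P) =
      ∑ j ∈ range (K + 1), wn K n j * eval (((j : ℝ) / (K + 1)) • q) P := by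
  rw [← line_coeff, wn_spec K _ (Pool.KAL.TAY.line_natDegree P q hP) n]
  refine Finset.sum_congr rfl fun j _ => ?_
  rw [Pool.KAL.TAY.line_eval]
  rfl

theorem node_mem {K j : ℕ} (hj : j ∈ range (K + 1)) : (j : ℝ) / (K + 1) ∈ Set.Icc (0 : ℝ) 1 := by
  refine ⟨by positivity, ?_⟩
  rw [div_le_one (by positivity)]
  have := mem_range.1 hj
  exact_mod_cast this.le

/-- The frame of a sample of a line. -/
noncomputable def psi (τ : ℝ) (a₁ a₂ : ℝ → ℝ) (r : V3) : V3 :=
  fun i => if i = 0 then τ + r 0 else if i = 1 then r 1 - a₁ (r 0) else r 2 - a₂ (r 0)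

/-- The inverse frame. -/
noncomputable def phi (a₁ a₂ : ℝ → ℝ) (x : ℝ) (η : V3) : V3 :=
  fun i => if i = 0 then x else if i = 1 then η 1 + a₁ x else η 2 + a₂ x

theorem psi_phi (τ : ℝ) (a₁ a₂ : ℝ → ℝ) (s : ℝ) (r : V3) :
    psi τ a₁ a₂ (phi a₁ a₂ (r 0) (s • psi τ a₁ a₂ r)) = tsc s (psi τ a₁ a₂ r) := by
  funext i
  fin_cases i <;> simp [psi, phi, tsc]

/-- **A sample.** -/
theorem nat_one (K b : ℕ) (hb : b ≤ K) : ∃ C : ℝ, 1 ≤ C ∧ ∀ (Q κ f : Po) (τ ε U : ℝ)
    (a₁ a₂ : ℝ → ℝ), Q.totalDegree ≤ K → κ.totalDegree ≤ K → f.totalDegree ≤ K → 0 < ε → ε ≤ 1 →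
    1 ≤ U → a₁ 0 = 0 → a₂ 0 = 0 → (∀ x, |x| ≤ ε → |a₁ x| ≤ U * ε ∧ |a₂ x| ≤ U * ε) →
    (∀ r, eval r κ = eval (psi τ a₁ a₂ r) Q) →
    (∀ r, Bx ε r → |eval r κ - eval r f| ≤ U * ε ^ b) →
    (∀ n, ∀ r, Bx 1 r → |eval r (homogeneousComponent n f)| ≤
      U * max 1 (ε ^ b * (1 / ε) ^ n)) →
    (∀ n ≤ b, ∀ η : V3, (∀ i, i ≠ 0 → |η i| ≤ 1) → η 0 = τ → |eval η (thc K n Q)| ≤ C * U) ∧
    ∀ r, Bx ε r → |eval r κ - eval (psi τ a₁ a₂ r) (trl K b Q)| ≤ C * U ^ (K + 1) * ε ^ b := by
  classical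
  obtain ⟨C, hC, hc⟩ := hc_near K
  obtain ⟨Cw, hCw⟩ : ∃ Cw : ℝ, Cw = 1 + ∑ n ∈ range (K + 1), ∑ j ∈ range (K + 1), |wn K n j| :=
    ⟨_, rfl⟩
  have hSw : 0 ≤ ∑ n ∈ range (K + 1), ∑ j ∈ range (K + 1), |wn K n j| :=
    sum_nonneg fun n _ => sum_nonneg fun j _ => abs_nonneg _
  have hCw1 : 1 ≤ Cw := by rw [hCw]; linarith
  have hwn : ∀ n ≤ K, ∑ j ∈ range (K + 1), |wn K n j| ≤ Cw := by
    intro n hn
    have h3 := Finset.single_le_sum (f := fun n => ∑ j ∈ range (K + 1), |wn K n j|)
      (fun n _ => sum_nonneg fun j _ => abs_nonneg _) (mem_range.2 (Nat.lt_succ_of_le hn))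
    have h4 : (fun n => ∑ j ∈ range (K + 1), |wn K n j|) n = ∑ j ∈ range (K + 1), |wn K n j| :=
      rfl
    rw [hCw]
    linarith
  obtain ⟨C', hC'⟩ : ∃ C' : ℝ, C' = (K + 1) * (Cw * ((K + 1) * ((1 + C) * 3 ^ K))) := ⟨_, rfl⟩
  refine ⟨1 + C + C', by
    rw [hC']
    have : (0 : ℝ) ≤ (K + 1) * (Cw * ((K + 1) * ((1 + C) * 3 ^ K))) := by positivity
    linarith, ?_⟩
  intro Q κ f τ ε U a₁ a₂ hQ hκ hf hε hε1 hU ha1 ha2 ha hκQ hn hcf
  have hC'0 : 0 ≤ C' := by
    rw [hC']
    positivity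
  -- the components
  have hcκ : ∀ n, ∀ r, Bx 1 r → |eval r (homogeneousComponent n κ)| ≤
      (1 + C) * U * max 1 (ε ^ b * (1 / ε) ^ n) := by
    intro n r hr
    have h1 := hc κ f (U * ε ^ b) ε hκ hf hε hn n r hr
    have h2 := hcf n r hr
    have h3 : C * (U * ε ^ b) * (1 / ε) ^ n ≤ C * U * max 1 (ε ^ b * (1 / ε) ^ n) := by
      rw [show C * (U * ε ^ b) * (1 / ε) ^ n = C * U * (ε ^ b * (1 / ε) ^ n) by ring]
      exact mul_le_mul_of_nonneg_left (le_max_right _ _) (by positivity)
    have h4 : eval r (homogeneousComponent n κ) = (eval r (homogeneousComponent n κ) -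
        eval r (homogeneousComponent n f)) + eval r (homogeneousComponent n f) := by ring
    rw [h4]
    refine (abs_add_le _ _).trans ?_
    nlinarith
  constructor
  · intro n hnb η hη hη0
    -- the point of the frame
    obtain ⟨y, hy⟩ : ∃ y : V3, y = fun i => if i = 0 then 0 else η i := ⟨_, rfl⟩
    have hy0 : y 0 = 0 := by rw [hy]; exact if_pos rfl
    have hyi : ∀ i, i ≠ 0 → y i = η i := fun i hi => by rw [hy]; exact if_neg hi
    have h1 : eval η (thc K n Q) = eval y (homogeneousComponent n κ) := by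
      rw [eval_thc, hc_wn hκ]
      refine Finset.sum_congr rfl fun j _ => ?_
      rw [hκQ]
      congr 2
      congr 1
      funext i
      have e0 : (((j : ℝ) / (K + 1)) • y) 0 = 0 := by
        rw [Pi.smul_apply, hy0, smul_zero]
      unfold psi tsc
      rw [e0, ha1, ha2]
      fin_cases i
      · simp [hη0]
      · simp [hyi 1 (by decide)]
      · simp [hyi 2 (by decide)]
    rw [h1]
    have hby : Bx 1 y := by
      intro i
      by_cases hi : i = 0
      · rw [hi, hy0, abs_zero]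
        exact zero_le_one
      · rw [hyi i hi]
        exact hη i hi
    refine (hcκ n y hby).trans ?_
    have h2 : ε ^ b * (1 / ε) ^ n ≤ 1 := by
      obtain ⟨d, rfl⟩ : ∃ d, b = n + d := ⟨b - n, by omega⟩
      have : ε ^ (n + d) * (1 / ε) ^ n = ε ^ d := by
        rw [pow_add, one_div, inv_pow]
        field_simp
      rw [this]
      exact pow_le_one₀ hε.le hε1
    rw [max_eq_left h2, mul_one]
    exact mul_le_mul_of_nonneg_right (by linarith) (by linarith)
  · intro r hr
    have hr0 : |r 0| ≤ ε := hr 0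
    obtain ⟨h11, h12⟩ := ha (r 0) hr0
    have h1 : eval r κ = ∑ n ∈ range (K + 1), eval (psi τ a₁ a₂ r) (thc K n Q) := by
      rw [hκQ, sum_thc hQ]
    have h2 : eval r κ - eval (psi τ a₁ a₂ r) (trl K b Q) =
        ∑ n ∈ range (K - b), eval (psi τ a₁ a₂ r) (thc K (b + 1 + n) Q) := by
      rw [h1, eval_trl, show K + 1 = (b + 1) + (K - b) by omega, Finset.sum_range_add]
      ring
    rw [h2]
    -- the points of the nodes
    have hpt : ∀ s ∈ Set.Icc (0 : ℝ) 1,
        Bx (3 * U * ε) (phi a₁ a₂ (r 0) (s • psi τ a₁ a₂ r)) := by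
      intro s hs i
      have hUε : ε ≤ U * ε := le_mul_of_one_le_left hε.le hU
      have hsη : ∀ x a : ℝ, |x| ≤ ε → |a| ≤ U * ε → |s * (x - a) + a| ≤ 3 * U * ε := by
        intro x a hx ha
        have e1 : |s * (x - a)| ≤ |x - a| := by
          rw [abs_mul, abs_of_nonneg hs.1]
          exact mul_le_of_le_one_left (abs_nonneg _) hs.2
        have e2 := abs_sub x a
        have e3 := abs_add_le (s * (x - a)) a
        nlinarith
      fin_cases i
      · simp only [phi]
        exact hr0.trans (by nlinarith)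
      · simpa [phi, psi] using hsη (r 1) (a₁ (r 0)) (hr 1) h11
      · simpa [phi, psi] using hsη (r 2) (a₂ (r 0)) (hr 2) h12
    -- the error polynomial
    have hE : ∀ s ∈ Set.Icc (0 : ℝ) 1, |eval (phi a₁ a₂ (r 0) (s • psi τ a₁ a₂ r)) κ -
        eval (phi a₁ a₂ (r 0) (s • psi τ a₁ a₂ r)) (low (b + 1) κ)| ≤
        (K + 1) * ((1 + C) * 3 ^ K) * U ^ (K + 1) * ε ^ b := by
      intro s hs
      obtain ⟨z, hz⟩ : ∃ z, z = phi a₁ a₂ (r 0) (s • psi τ a₁ a₂ r) := ⟨_, rfl⟩
      have hzb := hpt s hs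
      rw [← hz] at hzb ⊢
      have e1 : eval z κ - eval z (low (b + 1) κ) =
          ∑ n ∈ range (K - b), eval z (homogeneousComponent (b + 1 + n) κ) := by
        rw [sum_hc κ hκ, eval_low, show K + 1 = (b + 1) + (K - b) by omega, Finset.sum_range_add]
        ring
      rw [e1]
      have e2 : ∀ n ∈ range (K - b), |eval z (homogeneousComponent (b + 1 + n) κ)| ≤
          ((1 + C) * 3 ^ K) * U ^ (K + 1) * ε ^ b := by
        intro n hn
        have hnK := mem_range.1 hn
        have e3 : Hb (b + 1 + n) ((1 + C) * U * max 1 (ε ^ b * (1 / ε) ^ (b + 1 + n)))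
            (homogeneousComponent (b + 1 + n) κ) :=
          ⟨homogeneousComponent_isHomogeneous _ _, hcκ (b + 1 + n)⟩
        have e4 := hom_bd e3 (by positivity : 0 < 3 * U * ε) hzb
        have e5 : ε ^ b * (1 / ε) ^ (b + 1 + n) = (1 / ε) ^ (1 + n) := by
          rw [show b + 1 + n = b + (1 + n) by ring, pow_add, one_div, inv_pow, inv_pow]
          field_simp
        have e6 : 1 ≤ (1 / ε) ^ (1 + n) := one_le_pow₀ (by rwa [le_div_iff₀ hε, one_mul])
        rw [e5, max_eq_right e6] at e4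
        refine e4.trans ?_
        have e7 : (3 * U * ε) ^ (b + 1 + n) * ((1 + C) * U * (1 / ε) ^ (1 + n)) =
            (1 + C) * 3 ^ (b + 1 + n) * U ^ (b + 1 + n + 1) * ε ^ b := by
          rw [mul_pow, mul_pow, show b + 1 + n = b + (1 + n) by ring, pow_add ε, one_div, inv_pow,
            pow_succ U]
          field_simp
        rw [e7]
        have e8 : (3 : ℝ) ^ (b + 1 + n) ≤ 3 ^ K := pow_le_pow_right₀ (by norm_num) (by omega)
        have e9 : U ^ (b + 1 + n + 1) ≤ U ^ (K + 1) := pow_le_pow_right₀ hU (by omega)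
        refine mul_le_mul_of_nonneg_right ?_ (by positivity)
        exact mul_le_mul (mul_le_mul_of_nonneg_left e8 (by linarith)) e9 (by positivity)
          (by positivity)
      refine (Finset.abs_sum_le_sum_abs _ _).trans ((Finset.sum_le_sum e2).trans ?_)
      rw [Finset.sum_const, card_range, nsmul_eq_mul]
      have e3 : ((K - b : ℕ) : ℝ) ≤ K + 1 := by
        have : K - b ≤ K + 1 := by omega
        exact_mod_cast this
      have e4 : 0 ≤ ((1 + C) * 3 ^ K) * U ^ (K + 1) * ε ^ b := by positivity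
      calc ((K - b : ℕ) : ℝ) * (((1 + C) * 3 ^ K) * U ^ (K + 1) * ε ^ b) ≤
          (K + 1) * (((1 + C) * 3 ^ K) * U ^ (K + 1) * ε ^ b) :=
            mul_le_mul_of_nonneg_right e3 e4
        _ = _ := by ring
    -- the components
    have hth : ∀ n ∈ range (K - b), |eval (psi τ a₁ a₂ r) (thc K (b + 1 + n) Q)| ≤
        Cw * ((K + 1) * ((1 + C) * 3 ^ K) * U ^ (K + 1) * ε ^ b) := by
      intro n hn
      have hnK := mem_range.1 hn
      -- the low part does not contribute
      obtain ⟨L, hL⟩ : ∃ L : Polynomial ℝ, L = aeval (fun i : Fin 3 =>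
          if i = 0 then Polynomial.C (r 0) else if i = 1 then
            Polynomial.C (psi τ a₁ a₂ r 1) * Polynomial.X + Polynomial.C (a₁ (r 0)) else
            Polynomial.C (psi τ a₁ a₂ r 2) * Polynomial.X + Polynomial.C (a₂ (r 0)))
          (low (b + 1) κ) := ⟨_, rfl⟩
      have hLe : ∀ s : ℝ, L.eval s =
          eval (phi a₁ a₂ (r 0) (s • psi τ a₁ a₂ r)) (low (b + 1) κ) := by
        intro s
        rw [hL, Pool.KBX.eval_aeval_poly]
        congr 1
        congr 1
        funext i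
        fin_cases i
        · simp [phi]
        · show ((Polynomial.C (psi τ a₁ a₂ r 1) * Polynomial.X + Polynomial.C (a₁ (r 0)) :
            Polynomial ℝ)).eval s = s * psi τ a₁ a₂ r 1 + a₁ (r 0)
          rw [Polynomial.eval_add, Polynomial.eval_mul, Polynomial.eval_C, Polynomial.eval_X,
            Polynomial.eval_C]
          ring
        · show ((Polynomial.C (psi τ a₁ a₂ r 2) * Polynomial.X + Polynomial.C (a₂ (r 0)) :
            Polynomial ℝ)).eval s = s * psi τ a₁ a₂ r 2 + a₂ (r 0)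
          rw [Polynomial.eval_add, Polynomial.eval_mul, Polynomial.eval_C, Polynomial.eval_X,
            Polynomial.eval_C]
          ring
      have hlin : ∀ x y : ℝ, (Polynomial.C x * Polynomial.X + Polynomial.C y).natDegree ≤ 1 :=
        fun x y => (Polynomial.natDegree_add_le _ _).trans (max_le
          ((Polynomial.natDegree_C_mul_le _ _).trans Polynomial.natDegree_X_le) (by
            rw [Polynomial.natDegree_C]
            exact Nat.zero_le _))
      have hLd : L.natDegree ≤ b := by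
        rw [hL]
        refine Pool.KBX.natDegree_aeval_le _ _ (fun i => ?_) ((deg_low (by omega) κ).trans
          (le_of_eq (by omega)))
        split_ifs
        · rw [Polynomial.natDegree_C]
          exact Nat.zero_le _
        · exact hlin _ _
        · exact hlin _ _
      have hL0 : ∑ j ∈ range (K + 1), wn K (b + 1 + n) j * L.eval ((j : ℝ) / (K + 1)) = 0 := by
        rw [← wn_spec K L (hLd.trans hb)]
        exact Polynomial.coeff_eq_zero_of_natDegree_lt (by omega)
      have e1 : eval (psi τ a₁ a₂ r) (thc K (b + 1 + n) Q) = ∑ j ∈ range (K + 1),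
          wn K (b + 1 + n) j * (eval (phi a₁ a₂ (r 0) (((j : ℝ) / (K + 1)) • psi τ a₁ a₂ r)) κ -
            eval (phi a₁ a₂ (r 0) (((j : ℝ) / (K + 1)) • psi τ a₁ a₂ r)) (low (b + 1) κ)) := by
        simp_rw [mul_sub]
        rw [Finset.sum_sub_distrib]
        have e2 : ∑ j ∈ range (K + 1), wn K (b + 1 + n) j *
            eval (phi a₁ a₂ (r 0) (((j : ℝ) / (K + 1)) • psi τ a₁ a₂ r)) (low (b + 1) κ) = 0 := by
          rw [← hL0]
          exact Finset.sum_congr rfl fun j _ => by rw [hLe]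
        rw [e2, sub_zero, eval_thc]
        refine Finset.sum_congr rfl fun j _ => ?_
        rw [hκQ, psi_phi]
      rw [e1]
      refine (Finset.abs_sum_le_sum_abs _ _).trans ?_
      have e3 : ∀ j ∈ range (K + 1), |wn K (b + 1 + n) j *
          (eval (phi a₁ a₂ (r 0) (((j : ℝ) / (K + 1)) • psi τ a₁ a₂ r)) κ -
            eval (phi a₁ a₂ (r 0) (((j : ℝ) / (K + 1)) • psi τ a₁ a₂ r)) (low (b + 1) κ))| ≤
          |wn K (b + 1 + n) j| * ((K + 1) * ((1 + C) * 3 ^ K) * U ^ (K + 1) * ε ^ b) := by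
        intro j hj
        rw [abs_mul]
        exact mul_le_mul_of_nonneg_left (hE _ (node_mem hj)) (abs_nonneg _)
      refine (Finset.sum_le_sum e3).trans ?_
      rw [← Finset.sum_mul]
      exact mul_le_mul_of_nonneg_right (hwn _ (by omega)) (by positivity)
    refine (Finset.abs_sum_le_sum_abs _ _).trans ((Finset.sum_le_sum hth).trans ?_)
    rw [Finset.sum_const, card_range, nsmul_eq_mul]
    have e3 : ((K - b : ℕ) : ℝ) ≤ K + 1 := by
      have : K - b ≤ K + 1 := by omega
      exact_mod_cast this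
    have e4 : 0 ≤ Cw * ((K + 1) * ((1 + C) * 3 ^ K) * U ^ (K + 1) * ε ^ b) := by positivity
    have e5 : ((K - b : ℕ) : ℝ) * (Cw * ((K + 1) * ((1 + C) * 3 ^ K) * U ^ (K + 1) * ε ^ b)) ≤
        (K + 1) * (Cw * ((K + 1) * ((1 + C) * 3 ^ K) * U ^ (K + 1) * ε ^ b)) :=
      mul_le_mul_of_nonneg_right e3 e4
    have e6 : (K + 1) * (Cw * ((K + 1) * ((1 + C) * 3 ^ K) * U ^ (K + 1) * ε ^ b)) =
        C' * U ^ (K + 1) * ε ^ b := by
      rw [hC']
      ring
    rw [e6] at e5
    refine e5.trans (mul_le_mul_of_nonneg_right (mul_le_mul_of_nonneg_right (by linarith)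
      (by positivity)) (by positivity))

end Pool.STB65
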