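import Pool.Agent.H65.STB.Mxs
import Pool.Agent.H65.STB.Grz
import Pool.Agent.H77.STB.Nic

/-!
# The input of the jets for a static target, on one event

`inc_less`: smaller events. `q0_agr`: the two labels of the first ball over the chart of the third
place. `n1_fam`: the closed polynomial, the input of the jets, the value at the sample and the
gradients of the closed part, from `Inc` and `Nsu`.
-/

set_option autoImplicit false

namespace Pool.STB65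

open Finset Real MvPolynomial
open Pool.Agent.H49.Ent Pool.Agent.H32.Dense Pool.STK Pool.KA Pool.KSAT Pool.K2S Pool.PB Pool.S6C
open Pool.GEN Pool.CHT Pool.NVX
open Pool.STB (V3 Po Bx)
open Pool.ALT (sbu sbu_eval sbu_deg)
open Pool.SHR (dir dir_sub)
open Pool.STB77 (Inc Tgt Nls NodW tgt_of cos cos_slam opt vnr inc_tgt)
open Pool.STB82 (yv)

variable {m J : ℕ}

/-- Smaller events. -/
theorem inc_less {F : Fam m J} {c : ℕ → Fin m} {D N W s v : ℕ} {A : ℕ → ℕ} {e : ℕ → ℕ}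
    {g : ℕ → ℕ → ℕ} {B B' : F.Ω → Prop} {G : ℕ → PtT F → ℕ → MvPolynomial (Option (Fin m)) ℝ}
    {H : ℕ → LnT F → ℕ → MvPolynomial (Option (Fin m)) ℝ}
    {pP : PtT F → ℕ → MvPolynomial (Option (Fin m)) ℝ}
    {pH : LnT F → ℕ → MvPolynomial (Option (Fin m)) ℝ}
    (I : Inc F c D N W s v A e g B G H pP pH) (hB : Sub B' B) :
    Inc F c D N W s v A e g B' G H pP pH :=
  { I with
    ok := fun k hk => (I.ok k hk).sub hB
    own := fun k hk ω hω => I.own k hk ω (hB ω hω)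
    uni := fun k hk l hl ω hω => I.uni k hk l hl ω (hB ω hω)
    pc := fun ω hω => I.pc ω (hB ω hω)
    pn := fun ω hω => I.pn ω (hB ω hω) }

section

variable {F : Fam m J} {c : ℕ → Fin m} {D N W s v b g₃ gS : ℕ} {A : ℕ → ℕ} {e : ℕ → ℕ}
    {g : ℕ → ℕ → ℕ} {B : F.Ω → Prop} {G : ℕ → PtT F → ℕ → MvPolynomial (Option (Fin m)) ℝ}
    {H : ℕ → LnT F → ℕ → MvPolynomial (Option (Fin m)) ℝ}
    {pP : PtT F → ℕ → MvPolynomial (Option (Fin m)) ℝ}
    {pH : LnT F → ℕ → MvPolynomial (Option (Fin m)) ℝ}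
    {LP : ℕ → PtT F → MvPolynomial (Option (Fin m)) ℝ}
    {LH : ℕ → LnT F → MvPolynomial (Option (Fin m)) ℝ}
    {HS US : LnT F → MvPolynomial (Option (Fin m)) ℝ}
    {Gx : PtT F → MvPolynomial (Option (Fin m)) ℝ} {Gl : LnT F → MvPolynomial (Option (Fin m)) ℝ}
    {gs : ℕ → ℕ} {Gs : PtT F → ℕ → MvPolynomial (Option (Fin m)) ℝ} {yN : F.Ω → ℝ}

/-- The boxes over the chart of the third place. -/
theorem box_up (I : Inc F c D N W s v A e g B G H pP pH) {k : ℕ} (hk : k ≤ N) (ω : F.Ω)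
    (b' : Option (Fin m) → ℝ) (x : ℝ) (hb : NBx c (G k (ptr F J ω)) (g k) (A k) (F.t ω) 2 b')
    (hx : |x - eval b' (G k (ptr F J ω) 2)| ≤ 1 / 2 ^ g k 2) :
    NBx c (G k (ptr F J ω)) (g k) (A k) (F.t ω) 3 (Function.update b' (some (c 2)) x) := by
  have ok := I.ok k hk
  refine ⟨by rw [upd_none]; exact hb.1, fun l hl => ?_⟩
  rcases Nat.lt_succ_iff_lt_or_eq.1 hl with h | h
  · rw [upd_lt I.inj _ _ h, upd_dep I.inj _ _ (by omega) (ok.depG _ l)]
    exact hb.2 l h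
  · rw [h, Function.update_self, upd_dep I.inj _ _ le_rfl (ok.depG _ 2)]
    exact hx

/-- **The two labels of the first ball** over the chart of the third place. -/
theorem q0_agr (I : Inc F c D N W s v A e g B G H pP pH)
    (T : Nsu F c D N W s b g₃ gS A g B G LP LH HS US Gx Gl gs Gs yN) (ω : F.Ω) (hω : B ω)
    (b' : Option (Fin m) → ℝ) (hb : NBx c (G 0 (ptr F J ω)) (g 0) (A 0) (F.t ω) 2 b') :
    |eval b' (sbu (c 2) (G 0 (ptr F J ω) 2) (LP 0 (ptr F J ω) - Gx (ptr F J ω))) -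
      eval b' (sbu (c 2) (H 0 (slam F (A 0) ω) 2) (LH 0 (slam F (A 0) ω) -
        Gl (slam F (A 0) ω)))| ≤ 2 ^ (s + 1) / 2 ^ g₃ := by
  have hk : 0 ≤ N := Nat.zero_le N
  have ok := I.ok 0 hk
  have e0 : A 0 - W = 0 := by rw [I.A0]; omega
  have hgc : Gl (slam F (A 0) ω) = Gx (ptr F J ω) := by
    rw [I.A0]
    exact (T.gc ω hω).symm
  rw [hgc, sbu_eval, sbu_eval]
  obtain ⟨x, hx⟩ : ∃ x, x = eval b' (G 0 (ptr F J ω) 2) := ⟨_, rfl⟩
  obtain ⟨y, hy⟩ : ∃ y, y = eval b' (H 0 (slam F (A 0) ω) 2) := ⟨_, rfl⟩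
  rw [← hx, ← hy]
  have hxy : |x - y| ≤ 1 / 2 ^ g 0 2 := by
    rw [hx, hy]
    exact ok.agr ω hω 2 (by norm_num) b' hb
  have h1 := T.agr 0 hk ω hω (Function.update b' (some (c 2)) y)
    (box_up I hk ω b' y hb (by rw [← hx, abs_sub_comm]; exact hxy))
  have h2 := upd_mov (c 2) b' y x (LP 0 (ptr F J ω) - Gx (ptr F J ω))
    (M := 2 ^ (s + g 0 2) / 2 ^ (g₃ + b * (A 0 - W)))
    (E := 1 / 2 ^ g 0 2) (by rw [abs_sub_comm]; exact hxy) (by positivity) fun z hz =>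
      T.bl 0 hk ω hω _ (box_up I hk ω b' z hb (by rw [← hx]; exact hz))
  rw [e0, mul_zero, add_zero] at h1 h2
  rw [map_sub, map_sub]
  rw [map_sub, map_sub] at h2
  have e1 : eval (Function.update b' (some (c 2)) x) (LP 0 (ptr F J ω)) -
      eval (Function.update b' (some (c 2)) x) (Gx (ptr F J ω)) -
      (eval (Function.update b' (some (c 2)) y) (LH 0 (slam F (A 0) ω)) -
        eval (Function.update b' (some (c 2)) y) (Gx (ptr F J ω))) =
      (eval (Function.update b' (some (c 2)) y) (LP 0 (ptr F J ω)) -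
        eval (Function.update b' (some (c 2)) y) (LH 0 (slam F (A 0) ω))) -
      (eval (Function.update b' (some (c 2)) y) (LP 0 (ptr F J ω)) -
        eval (Function.update b' (some (c 2)) y) (Gx (ptr F J ω)) -
      (eval (Function.update b' (some (c 2)) x) (LP 0 (ptr F J ω)) -
        eval (Function.update b' (some (c 2)) x) (Gx (ptr F J ω)))) := by ring
  rw [e1]
  refine (abs_sub _ _).trans ((add_le_add h1 h2).trans (le_of_eq ?_))
  rw [pow_add, pow_succ]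
  field_simp
  ring

end

/-- **The input of the jets for a static target, on one event**, the value at the sample and the
gradients of the closed part. -/
theorem n1_fam (D b : ℕ) (hD : 1 ≤ D) : ∃ C K D' : ℕ, ∀ {m J : ℕ} {F : Fam m J} {c : ℕ → Fin m}
    {Dr e E h N W s v x pN g₃ gS : ℕ} {κ : ℝ} {A ee : ℕ → ℕ} {g : ℕ → ℕ → ℕ} {B₀ B : F.Ω → Prop}
    {G : ℕ → PtT F → ℕ → MvPolynomial (Option (Fin m)) ℝ}
    {H : ℕ → LnT F → ℕ → MvPolynomial (Option (Fin m)) ℝ}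
    {pP : PtT F → ℕ → MvPolynomial (Option (Fin m)) ℝ}
    {pH : LnT F → ℕ → MvPolynomial (Option (Fin m)) ℝ} {xP : PtT F → ℝ} {xH : LnT F → ℝ}
    {HS US : LnT F → MvPolynomial (Option (Fin m)) ℝ}
    {Gx : PtT F → MvPolynomial (Option (Fin m)) ℝ} {Gl : LnT F → MvPolynomial (Option (Fin m)) ℝ}
    {gs : ℕ → ℕ} {Gs : PtT F → ℕ → MvPolynomial (Option (Fin m)) ℝ},
    0 < κ → 0 < Pe F.p B₀ → Sub B B₀ → D ≤ Dr →
    Inc F c D N W s v A ee g B G H pP pH → N ≤ s → W ≤ g 0 0 + s → g 0 1 + s + e + 1 ≤ J →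
    (∀ S l, DepC c l (pH S l)) → (∀ ω, B ω → xP (ptr F J ω) = xH (slam F W ω)) →
    (∀ ω, B ω → |xP (ptr F J ω) - 2 ^ W * F.x ω (c 0)| ≤ 2 ^ s) →
    (∀ ω, B ω → ∀ b : Option (Fin m) → ℝ, |b none - F.t ω| ≤ 1 / 2 ^ W →
      |b (some (c 0)) - F.x ω (c 0)| ≤ 1 / 2 ^ W →
      |eval b (pderiv (some (c 0)) (pP (ptr F J ω) 1))| ≤ 2 ^ (s + e)) →
    NodW F c 3 D Dr (A 0) (A 0) e E (g 0) h κ B₀ (G 0) (H 0) →
    Nsu F c D N W s b g₃ gS A g B G (fun k y => G k y 3) (fun k S => H k S 3) HS US Gx Gl gs Gs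
      (fun ω => F.x ω (c 3)) →
    (∀ ω, B ω → |F.x ω (c 3) - eval (bt F ω) (Gx (ptr F J ω))| ≤ 1 / 2 ^ pN) → g₃ ≤ pN + x →
    g₃ ≤ g 0 3 + s →
    (∀ k ≤ N, ∀ ω, B ω → ∀ l < 3, ∀ b,
      NBx c (G k (ptr F J ω)) (g k) (A k) (F.t ω) l b →
      |eval b (G k (ptr F J ω) l) - eval b (G 0 (ptr F J ω) l)| ≤ 2 ^ s / 2 ^ g 0 l) →
    (∀ k ≤ N, ∀ l < 3, g 0 l ≤ g k l + s) →
    ∃ (B' : F.Ω → Prop) (zP : PtT F → MvPolynomial (Option (Fin m)) ℝ)
      (zH : LnT F → MvPolynomial (Option (Fin m)) ℝ) (f : ℕ → PtT F → Po) (f' : ℕ → LnT F → Po)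
      (kf : LnT F → Po), Sub B' B ∧ 3 / 4 * Pe F.p B ≤ Pe F.p B' + κ * 2 ^ 4 * Pe F.p B₀ ∧
      (∀ y, (zP y).totalDegree ≤ D') ∧ (∀ S, (zH S).totalDegree ≤ D') ∧
      (∀ y, DepC c 2 (zP y)) ∧ (∀ S, DepC c 2 (zH S)) ∧
      (∀ ω, B' ω → zP (ptr F J ω) = zH (slam F W ω)) ∧
      InpF F B' W N K b (2 ^ (C * (s + v + 1))) (yv F c W (g 0 1) (fun S => pH S 1))
        (fun k => A k - W) f f' kf ∧
      (∀ k ≤ N, ∀ ω, B' ω → |eval (yv F c W (g 0 1) (fun S => pH S 1) ω) (f k (ptr F J ω)) -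
        2 ^ g₃ * (F.x ω (c 3) - eval (bt F ω) (Gx (ptr F J ω) + zP (ptr F J ω)))| ≤
        2 ^ (C * (s + v + 1)) * (1 / 2 ^ (A k - W)) ^ b) ∧
      (∀ k ≤ N, ∀ ω, B' ω → ∀ b', NBx c (G k (ptr F J ω)) (g k) (A k) (F.t ω) 3 b' → ∀ l < 3,
        |eval b' (pderiv (some (c l)) (Gx (ptr F J ω) + zP (ptr F J ω)))| ≤
          2 ^ (C * (h + s + 1) + max e E + x + nlp (fun j => if j < 3 then g 0 j else g₃) l 3)) ∧
      (∀ ω, B' ω → ∀ b' : Option (Fin m) → ℝ, b' none = F.t ω →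
        (∀ l < 2, |b' (some (c l)) - F.x ω (c l)| ≤ 1 / 2 ^ J) → ∀ l < 2,
        |eval b' (pderiv (some (c l)) (zP (ptr F J ω)))| ≤
          2 ^ (C * (h + s + v + 1) + e + x + nlp (fun j => if j < 3 then g 0 j else g₃) l 3)) ∧
      ∀ ω, B' ω → ∀ r, Bx (1 / 2 ^ (A N - W)) r →
        |eval (yv F c W (g 0 1) (fun S => pH S 1) ω + r) (kf (slam F W ω)) -
          eval (yv F c W (g 0 1) (fun S => pH S 1) ω + r) (f N (ptr F J ω))| ≤
          2 ^ (C * (s + v + 1)) * (2 ^ g₃ / 2 ^ gS) := by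
  obtain ⟨C₁, D₃, htg⟩ := inc_tgt (D * D)
  obtain ⟨D₄, hD₄⟩ : ∃ D₄, D₄ = max (D * D) D₃ := ⟨_, rfl⟩
  have hDD : D ≤ D * D := Nat.le_mul_of_pos_right _ (by omega)
  have hDD4 : D * D ≤ D₄ := by rw [hD₄]; exact le_max_left _ _
  have hD34 : D₃ ≤ D₄ := by rw [hD₄]; exact le_max_right _ _
  have hD4 : 1 ≤ D₄ := by omega
  have hD4' : D₄ ≤ D₄ * D₄ := Nat.le_mul_of_pos_right _ (by omega)
  obtain ⟨C₂, K, hin⟩ := nu_inp D₄ b hD4
  obtain ⟨C₃, htwo⟩ := two_dir D 4 hD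
  obtain ⟨C₄, hgrd⟩ := grd_box D₄ 4
  obtain ⟨c₀, D₁, hD₁, hdil⟩ := nbx_dil 4 (fun _ => D₄)
  obtain ⟨C₅, hvd⟩ := vdlz D₄
  refine ⟨C₂ * (C₁ + 2) + C₁ + C₃ + C₄ + C₅ + c₀ + D₁ + 7, K, D₃, ?_⟩
  intro m J F c Dr e E h N W s v x pN g₃ gS κ A ee g B₀ B G H pP pH xP xH HS US Gx Gl gs Gs hκ hP₀ hB
    hDr I hNs hWg hgJ hpH hxc hxn hpg nd T hpos hgx hg3 hu hgm
  have pw : ∀ {x y : ℕ}, x ≤ y → (2 : ℝ) ^ x ≤ 2 ^ y := fun h => pow_le_pow_right₀ (by norm_num) h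
  have dv : ∀ {α : ℝ} {p q r t : ℕ}, α ≤ 2 ^ p / 2 ^ q → p + t ≤ r + q → α ≤ 2 ^ r / 2 ^ t := by
    intro α p q r t h1 h2
    refine h1.trans ?_
    rw [div_le_div_iff₀ (by positivity) (by positivity), ← pow_add, ← pow_add]
    exact pw h2
  obtain ⟨C, hC⟩ : ∃ C, C = C₂ * (C₁ + 2) + C₁ + C₃ + C₄ + C₅ + c₀ + D₁ + 7 := ⟨_, rfl⟩
  rw [← hC]
  have hA0 := I.A0
  have hWJ : W ≤ J := by
    have := I.AJ 0 (Nat.zero_le N)
    omega
  have ok0 := I.ok 0 (Nat.zero_le N)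
  -- the label of the first ball near the closed polynomial
  have hTx : Tgt F c 3 D (A 0) (A 0) pN (g 0) B (G 0) (fun ω => F.x ω (c 3)) Gx Gl := by
    refine ⟨T.dx, T.dl, T.ex, T.el, hpos, fun ω hω b _ => ?_⟩
    rw [T.gc ω hω, hA0, sub_self, abs_zero]
    positivity
  obtain ⟨B₁, a1, a2, a3⟩ := htwo (F := F) (c := c) (i := 2) (a := A 0) (w := A 0) (e := e)
    (h := h) (q := g 0 3) (q' := pN) (κ := κ) (g := g 0) (B₀ := B₀) (B := B) (G := G 0)
    (H := H 0) (y := fun ω => F.x ω (c 3)) (P := fun y => G 0 y 3) (P' := Gx)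
    (R := fun S => H 0 S 3) (R' := Gl) (by norm_num) I.inj hκ hP₀ hB (nd.rlF.mono hDr le_rfl)
    (nd.lst.sub hB) (tgt_of (nd.top.sub hB)) hTx
  -- the closed polynomial
  have I₁ := inc_less (inc_mono I hDD le_rfl) a1
  have T₁ := nsu_sub T a1
  have hQd : ∀ {U Q : MvPolynomial (Option (Fin m)) ℝ}, U.totalDegree ≤ D → Q.totalDegree ≤ D →
      (sbu (c 2) U Q).totalDegree ≤ D * D := by
    intro U Q hU hQ
    have h1 := sbu_deg (c 2) hU hQ
    rwa [max_eq_right hD] at h1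
  have hsd : ∀ {P Q : MvPolynomial (Option (Fin m)) ℝ}, P.totalDegree ≤ D → Q.totalDegree ≤ D →
      (P - Q).totalDegree ≤ D := fun h1 h2 => (totalDegree_sub _ _).trans (max_le h1 h2)
  have hsp : ∀ {i : ℕ} {P Q : MvPolynomial (Option (Fin m)) ℝ}, DepC c i P → DepC c i Q →
      DepC c i (P - Q) := fun h1 h2 x y hn hb => by
    rw [map_sub, map_sub, h1 x y hn hb, h2 x y hn hb]
  obtain ⟨B₂, zP, zH, b1, b2, b3, b4, b5, b6, b7, b8⟩ := htg (xP := xP) (xH := xH)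
    (QP := fun y => sbu (c 2) (G 0 y 2) (G 0 y 3 - Gx y))
    (QH := fun S => sbu (c 2) (H 0 S 2) (H 0 S 3 - Gl S)) (M := 2 ^ (s + 1) / 2 ^ g₃) I₁ hWg
    (fun S => hpH S 1) (fun ω hω => hxc ω (a1 ω hω)) (fun ω hω => hxn ω (a1 ω hω))
    (fun y => hQd (ok0.degG y 2) (hsd (nd.top.degG y 3) (T.dx y)))
    (fun S => hQd (ok0.degH S 2) (hsd (nd.top.degH S 3) (T.dl S)))
    (fun y => sbu_dpc I.inj (ok0.depG y 2) (hsp (nd.top.depG y 3) (T.ex y)))
    (fun S => sbu_dpc I.inj (ok0.depH S 2) (hsp (nd.top.depH S 3) (T.el S)))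
    (by positivity) (fun ω hω b' hb => q0_agr I T ω (a1 ω hω) b' hb)
  have hs2 : Sub B₂ B := fun ω hω => a1 ω (b1 ω hω)
  obtain ⟨s', hs'⟩ : ∃ s', s' = C₁ * (s + 1) + s + 1 := ⟨_, rfl⟩
  have hss' : s ≤ s' := by omega
  have I₂ := inc_less (inc_mono I (hDD.trans hDD4) hss') hs2
  have T₂ := nsu_sub (nsu_up (nsu_mono T hss') (hDD.trans hDD4)) hs2
  have hzs : ∀ ω, B₂ ω → ∀ b', NBx c (G 0 (ptr F J ω)) (g 0) (A 0) (F.t ω) 2 b' →
      |eval b' (sbu (c 2) (G 0 (ptr F J ω) 2) (G 0 (ptr F J ω) 3 - Gx (ptr F J ω))) -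
        eval b' (zP (ptr F J ω))| ≤ 2 ^ s' / 2 ^ g₃ := by
    intro ω hω b' hb
    rw [abs_sub_comm]
    refine (b8 ω hω b' hb).trans (le_of_eq ?_)
    rw [← mul_div_assoc, ← pow_add, hs']
    congr 2
  obtain ⟨f, f', kf, hinp, hval, hnear⟩ := hin I₂ (hNs.trans hss') T₂
    (fun y => ((b3 y).trans hD34).trans hD4') (fun S => ((b4 S).trans hD34).trans hD4') b5 b7 hzs
  have hCs : C₂ * (s' + v + 1) ≤ C * (s + v + 1) := by
    have h1 : s' + v + 1 ≤ (C₁ + 2) * (s + v + 1) := by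
      rw [hs']
      nlinarith [Nat.zero_le (C₁ * v)]
    calc C₂ * (s' + v + 1) ≤ C₂ * ((C₁ + 2) * (s + v + 1)) := Nat.mul_le_mul_left _ h1
      _ = (C₂ * (C₁ + 2)) * (s + v + 1) := by ring
      _ ≤ _ := Nat.mul_le_mul_right _ (by rw [hC]; omega)
  -- the numbers
  obtain ⟨m₀, hm₀⟩ : ∃ m₀, m₀ = C₃ * (h + 1) + s + x + 1 := ⟨_, rfl⟩
  obtain ⟨m₁, hm₁⟩ : ∃ m₁, m₁ = m₀ + s' + 1 := ⟨_, rfl⟩
  obtain ⟨g', hg'⟩ : ∃ g' : ℕ → ℕ, g' = fun j => if j < 3 then g 0 j else g₃ := ⟨_, rfl⟩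
  rw [← hg']
  have hg'3 : g' 3 = g₃ := by rw [hg']; simp
  have hT : ∀ l < 3, (Finset.Icc l 3).sup g' = g₃ + nlp g' l 3 := by
    intro l hl
    have h1 : g' 3 ≤ (Finset.Icc l 3).sup g' :=
      Finset.le_sup (f := g') (Finset.mem_Icc.2 ⟨by omega, le_rfl⟩)
    unfold nlp
    omega
  have hTg : ∀ l < 3, ∀ j, l ≤ j → j < 3 → g 0 j ≤ g₃ + nlp g' l 3 := by
    intro l hl j h1 h2
    rw [← hT l hl]
    have h3 : g' j ≤ (Finset.Icc l 3).sup g' :=
      Finset.le_sup (f := g') (Finset.mem_Icc.2 ⟨h1, by omega⟩)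
    rw [hg'] at h3
    simp only [if_pos h2] at h3
    rw [hg']
    exact h3
  have hM₀ : (2 : ℝ) ^ (C₃ * (h + 1)) * (1 / 2 ^ g 0 3 + 1 / 2 ^ pN) ≤ 2 ^ m₀ / 2 ^ g₃ := by
    have h1 : (1 : ℝ) / 2 ^ g 0 3 ≤ 2 ^ (s + x) / 2 ^ g₃ := by
      rw [← pow_zero 2]
      exact dv le_rfl (by omega)
    have h2 : (1 : ℝ) / 2 ^ pN ≤ 2 ^ (s + x) / 2 ^ g₃ := by
      rw [← pow_zero 2]
      exact dv le_rfl (by omega)
    calc (2 : ℝ) ^ (C₃ * (h + 1)) * (1 / 2 ^ g 0 3 + 1 / 2 ^ pN) ≤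
        2 ^ (C₃ * (h + 1)) * (2 ^ (s + x) / 2 ^ g₃ + 2 ^ (s + x) / 2 ^ g₃) :=
          mul_le_mul_of_nonneg_left (add_le_add h1 h2) (by positivity)
      _ = 2 ^ (C₃ * (h + 1) + (s + x) + 1) / 2 ^ g₃ := by
          rw [pow_succ, pow_add]
          ring
      _ = _ := by rw [hm₀]; congr 2; ring
  have hlip : ∀ ω, B ω → ∀ i ≤ 3, ∀ l, ∀ j < i, l < j → ∀ b',
      NBx c (G 0 (ptr F J ω)) (g 0) (A 0) (F.t ω) j b' →
      |eval b' (pderiv (some (c l)) (G 0 (ptr F J ω) j))| ≤ 2 ^ (e + nlp (g 0) l j) :=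
    fun ω hω i hi l j hj hlj b' hb => nd.lst.lip ω (hB ω hω) j (by omega) b' hb l hlj
  -- the closed label of the family
  have gGx : ∀ ω, B₁ ω → ∀ b', NBx c (G 0 (ptr F J ω)) (g 0) (A 0) (F.t ω) 3 b' → ∀ l < 3,
      |eval b' (pderiv (some (c l)) (Gx (ptr F J ω)))| ≤
        2 ^ (C₄ + max e E + m₀ + s + nlp g' l 3 + 1) := by
    intro ω hω b' hb l hl
    have h1 := hgrd (c := c) (i := 3) (l := l) (a := A 0) (e := e) (T := g₃ + nlp g' l 3)
      (g := g 0) (t := F.t ω) (G := G 0 (ptr F J ω)) (Q := G 0 (ptr F J ω) 3 - Gx (ptr F J ω))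
      (M := 2 ^ m₀ / 2 ^ g₃) (by norm_num) hl I.inj
      (fun j => (ok0.degG _ j).trans (hDD.trans hDD4)) (ok0.depG _) (hTg l hl)
      (hlip ω (a1 ω hω) 3 le_rfl l) (hsp (nd.top.depG _ 3) (T.ex _))
      ((hsd (nd.top.degG _ 3) (T.dx _)).trans (hDD.trans hDD4)) (by positivity)
      (fun b hb => by
        rw [map_sub]
        exact (a3 ω hω b hb).1.trans hM₀) b' hb
    have h2 := nd.top.lip ω (hB ω (a1 ω hω)) 3 (by norm_num) b' hb l hl
    have h3 : nlp (g 0) l 3 ≤ nlp g' l 3 + s := by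
      have h4 : (Finset.Icc l 3).sup (g 0) ≤ max (g₃ + nlp g' l 3) (g 0 3) :=
        Finset.sup_le fun j hj => by
          rw [Finset.mem_Icc] at hj
          rcases Nat.lt_or_ge j 3 with h5 | h5
          · exact (hTg l hl j hj.1 h5).trans (le_max_left _ _)
          · have : j = 3 := by omega
            rw [this]
            exact le_max_right _ _
      have h5 : nlp (g 0) l 3 = (Finset.Icc l 3).sup (g 0) - g 0 3 := rfl
      omega
    have e1 : eval b' (pderiv (some (c l)) (Gx (ptr F J ω))) =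
        eval b' (pderiv (some (c l)) (G 0 (ptr F J ω) 3)) -
        eval b' (pderiv (some (c l)) (G 0 (ptr F J ω) 3 - Gx (ptr F J ω))) := by
      rw [map_sub, map_sub]
      ring
    rw [e1]
    refine (abs_sub _ _).trans ?_
    have h6 : (2 : ℝ) ^ (E + nlp (g 0) l 3) ≤ 2 ^ (C₄ + max e E + m₀ + s + nlp g' l 3) :=
      pw (by omega)
    have h7 : (2 : ℝ) ^ (C₄ + e + (g₃ + nlp g' l 3)) * (2 ^ m₀ / 2 ^ g₃) ≤
        2 ^ (C₄ + max e E + m₀ + s + nlp g' l 3) := by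
      rw [mul_div_assoc', div_le_iff₀ (by positivity), ← pow_add, ← pow_add]
      exact pw (by omega)
    rw [pow_succ]
    linarith
  -- the closed polynomial
  have hz₀ : ∀ ω, B₂ ω → ∀ b', NBx c (G 0 (ptr F J ω)) (g 0) (A 0) (F.t ω) 2 b' →
      |eval b' (zP (ptr F J ω))| ≤ 2 ^ m₁ / 2 ^ g₃ := by
    intro ω hω b' hb
    have h1 := hzs ω hω b' hb
    have h2 := (a3 ω (b1 ω hω) (Function.update b' (some (c 2))
      (eval b' (G 0 (ptr F J ω) 2))) (box_up I (Nat.zero_le N) ω b' _ hb (by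
        rw [sub_self, abs_zero]
        positivity))).1.trans hM₀
    rw [sbu_eval, map_sub] at h1
    have e1 : eval b' (zP (ptr F J ω)) =
        (eval (Function.update b' (some (c 2)) (eval b' (G 0 (ptr F J ω) 2)))
          (G 0 (ptr F J ω) 3) -
        eval (Function.update b' (some (c 2)) (eval b' (G 0 (ptr F J ω) 2)))
          (Gx (ptr F J ω))) -
        (eval (Function.update b' (some (c 2)) (eval b' (G 0 (ptr F J ω) 2)))
          (G 0 (ptr F J ω) 3) -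
        eval (Function.update b' (some (c 2)) (eval b' (G 0 (ptr F J ω) 2)))
          (Gx (ptr F J ω)) - eval b' (zP (ptr F J ω))) := by ring
    rw [e1]
    refine (abs_sub _ _).trans ((add_le_add h2 h1).trans ?_)
    rw [← add_div]
    refine div_le_div_of_nonneg_right ?_ (by positivity)
    have h3 : (2 : ℝ) ^ m₀ ≤ 2 ^ (m₀ + s') := pw (by omega)
    have h4 : (2 : ℝ) ^ s' ≤ 2 ^ (m₀ + s') := pw (by omega)
    rw [hm₁, pow_succ]
    linarith
  have gz : ∀ ω, B₂ ω → ∀ b', NBx c (G 0 (ptr F J ω)) (g 0) (A 0) (F.t ω) 2 b' → ∀ l < 2,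
      |eval b' (pderiv (some (c l)) (zP (ptr F J ω)))| ≤ 2 ^ (C₄ + e + m₁ + nlp g' l 3) := by
    intro ω hω b' hb l hl
    have h1 := hgrd (c := c) (i := 2) (l := l) (a := A 0) (e := e) (T := g₃ + nlp g' l 3)
      (g := g 0) (t := F.t ω) (G := G 0 (ptr F J ω)) (Q := zP (ptr F J ω))
      (M := 2 ^ m₁ / 2 ^ g₃) (by norm_num) hl
      (I.inj.mono fun x (hx : x < 2) => show x < 3 by omega)
      (fun j => (ok0.degG _ j).trans (hDD.trans hDD4)) (ok0.depG _)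
      (fun j h1 h2 => hTg l (by omega) j h1 (by omega))
      (hlip ω (hs2 ω hω) 2 (by norm_num) l) (b5 _) ((b3 _).trans hD34) (by positivity)
      (hz₀ ω hω) b' hb
    refine h1.trans ?_
    rw [mul_div_assoc', div_le_iff₀ (by positivity), ← pow_add, ← pow_add]
    exact pw (by omega)
  obtain ⟨m₂, hm₂⟩ : ∃ m₂ : ℕ → ℕ, m₂ = fun l => C₄ + max e E + m₁ + s + nlp g' l 3 + 2 := ⟨_, rfl⟩
  have gT : ∀ ω, B₂ ω → ∀ b', NBx c (G 0 (ptr F J ω)) (g 0) (A 0) (F.t ω) 3 b' → ∀ l < 3,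
      |eval b' (pderiv (some (c l)) (Gx (ptr F J ω) + zP (ptr F J ω)))| ≤ 2 ^ m₂ l := by
    intro ω hω b' hb l hl
    have h1 := gGx ω (b1 ω hω) b' hb l hl
    have h2 : |eval b' (pderiv (some (c l)) (zP (ptr F J ω)))| ≤
        2 ^ (C₄ + e + m₁ + nlp g' l 3) := by
      rcases Nat.lt_or_ge l 2 with h | h
      · exact gz ω hω b' ⟨hb.1, fun j hj => hb.2 j (by omega)⟩ l h
      · have hl2 : l = 2 := by omega
        rw [Pool.CHT.DepC.pd_zero (b5 _) (by simp) (fun j hj hjl => by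
          have h3 := I.inj (show l < 3 by omega) (show j < 3 by omega) (Option.some.inj hjl)
          omega) b', abs_zero]
        positivity
    rw [map_add, map_add]
    refine (abs_add_le _ _).trans ?_
    have h3 : (2 : ℝ) ^ (C₄ + max e E + m₀ + s + nlp g' l 3 + 1) ≤
        2 ^ (C₄ + max e E + m₁ + s + nlp g' l 3 + 1) := pw (by omega)
    have h4 : (2 : ℝ) ^ (C₄ + e + m₁ + nlp g' l 3) ≤
        2 ^ (C₄ + max e E + m₁ + s + nlp g' l 3 + 1) := pw (by omega)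
    have e1 : (2 : ℝ) ^ m₂ l = 2 * 2 ^ (C₄ + max e E + m₁ + s + nlp g' l 3 + 1) := by
      rw [hm₂]
      show (2 : ℝ) ^ (C₄ + max e E + m₁ + s + nlp g' l 3 + 2) = _
      rw [pow_succ _ (C₄ + max e E + m₁ + s + nlp g' l 3 + 1)]
      ring
    rw [e1]
    linarith
  refine ⟨B₂, zP, zH, f, f', kf, hs2, ?_, b3, b4, b5, b6, b7, hinp.up (pw hCs), ?_, ?_, ?_,
    fun ω hω r hr => (hnear ω hω r hr).trans (mul_le_mul_of_nonneg_right (pw hCs)
      (by positivity))⟩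
  · have hp := Pe_nonneg F.isLaw B₁
    have hx : 0 ≤ κ * 2 ^ 4 * Pe F.p B₀ := by positivity
    have hp2 := Pe_nonneg F.isLaw B
    linarith
  · intro k hk ω hω
    have h1 := hval k hk ω hω
    rw [map_add]
    have e1 : F.x ω (c 3) - (eval (bt F ω) (Gx (ptr F J ω)) + eval (bt F ω) (zP (ptr F J ω))) =
        F.x ω (c 3) - eval (bt F ω) (Gx (ptr F J ω)) - eval (bt F ω) (zP (ptr F J ω)) := by ring
    rw [e1]
    exact h1.trans (mul_le_mul_of_nonneg_right (pw hCs) (by positivity))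
  · intro k hk ω hω b' hb l hl
    have h1 := hdil (c := c) (i := 3) (G := G 0 (ptr F J ω)) (g := g 0) (a := A 0) (t := F.t ω)
      (Q := pderiv (some (c l)) (Gx (ptr F J ω) + zP (ptr F J ω))) (M := 2 ^ m₂ l) (s + 1)
      (by norm_num) I.inj (fun j => (ok0.degG _ j).trans (hDD.trans hDD4)) (ok0.depG _)
      (DepC.pderiv (fun x y hn hb => by
        rw [map_add, map_add, T.ex _ x y hn hb, b5 _ x y hn fun j hj => hb j (by omega)]) l)
      (Pool.KS3.SML.totalDegree_pderiv_le _ _ D₄ (((totalDegree_add _ _).trans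
        (max_le ((T.dx _).trans (hDD.trans hDD4)) ((b3 _).trans hD34))).trans (Nat.le_succ _)))
      (by positivity) (fun b hb => gT ω hω b hb l hl) b'
      (hb.1.trans (one_div_le_one_div_of_le (by positivity) (pw (by
        rw [hA0]
        exact I.AW k hk)))) fun j hj => by
        have h2 := hb.2 j hj
        have h3 := hu k hk ω (hs2 ω hω) j hj b' ⟨hb.1, fun i hi => hb.2 i (by omega)⟩
        have h4 : (1 : ℝ) / 2 ^ g k j ≤ 2 ^ s / 2 ^ g 0 j := by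
          rw [← pow_zero 2]
          exact dv le_rfl (by have := hgm k hk j hj; omega)
        have e1 : b' (some (c j)) - eval b' (G 0 (ptr F J ω) j) =
            (b' (some (c j)) - eval b' (G k (ptr F J ω) j)) +
            (eval b' (G k (ptr F J ω) j) - eval b' (G 0 (ptr F J ω) j)) := by ring
        rw [e1]
        refine (abs_add_le _ _).trans ?_
        have e2 : (2 : ℝ) ^ (s + 1) / 2 ^ g 0 j = 2 ^ s / 2 ^ g 0 j + 2 ^ s / 2 ^ g 0 j := by
          rw [pow_succ]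
          ring
        rw [e2]
        linarith
    refine h1.trans ?_
    rw [← pow_add, hm₂]
    refine pw ?_
    show c₀ + (s + 1) * D₁ + (C₄ + max e E + m₁ + s + nlp g' l 3 + 2) ≤ _
    rw [hm₁, hm₀, hs', hC]
    obtain ⟨u, hu⟩ : ∃ u, u = h + s + 1 := ⟨_, rfl⟩
    rw [← hu]
    have k1 : C₃ * (h + 1) ≤ C₃ * u := Nat.mul_le_mul_left _ (by omega)
    have k2 : C₁ * (s + 1) ≤ C₁ * u := Nat.mul_le_mul_left _ (by omega)
    have k3 : (s + 1) * D₁ ≤ D₁ * u := by rw [Nat.mul_comm]; exact Nat.mul_le_mul_left _ (by omega)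
    have k4 : C₄ ≤ C₄ * u := Nat.le_mul_of_pos_right _ (by omega)
    have k5 : c₀ ≤ c₀ * u := Nat.le_mul_of_pos_right _ (by omega)
    have k6 : (C₂ * (C₁ + 2) + C₁ + C₃ + C₄ + C₅ + c₀ + D₁ + 7) * u =
        C₂ * (C₁ + 2) * u + C₁ * u + C₃ * u + C₄ * u + C₅ * u + c₀ * u + D₁ * u + 7 * u := by ring
    rw [k6]
    omega
  · intro ω hω b' hbn hbl l hl
    have hJ : (0 : ℝ) < 1 / 2 ^ J := by positivity
    have hJW : (1 : ℝ) / 2 ^ J ≤ 1 / 2 ^ W := one_div_le_one_div_of_le (by positivity) (pw hWJ)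
    have hc2 : Set.InjOn c (Set.Iio 2) := I.inj.mono fun x (hx : x < 2) => show x < 3 by omega
    -- the closed label of the second place
    have hP1 : |eval b' (pP (ptr F J ω) 1) - eval (bt F ω) (pP (ptr F J ω) 1)| ≤
        2 ^ (s + e) * (1 / 2 ^ J) := by
      have h1 := upd_mov (c 0) (bt F ω) (b' (some (c 0))) (F.x ω (c 0)) (pP (ptr F J ω) 1)
        (M := 2 ^ (s + e)) (E := 1 / 2 ^ J) (hbl 0 (by norm_num)) (by positivity) fun z hz => by
          refine hpg ω (hs2 ω hω) _ ?_ ?_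
          · rw [upd_none]
            show |F.t ω - F.t ω| ≤ _
            rw [sub_self, abs_zero]
            positivity
          · rw [Function.update_self]
            exact hz.trans hJW
      have e1 : eval (Function.update (bt F ω) (some (c 0)) (b' (some (c 0))))
          (pP (ptr F J ω) 1) = eval b' (pP (ptr F J ω) 1) := by
        refine I.pe _ 1 _ _ ?_ fun j hj => ?_
        · rw [upd_none]
          exact hbn.symm
        · have : j = 0 := by omega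
          subst this
          rw [Function.update_self]
      have e2 : Function.update (bt F ω) (some (c 0)) (F.x ω (c 0)) = bt F ω :=
        Function.update_eq_self (some (c 0)) (bt F ω)
      rw [e1, e2] at h1
      exact h1
    have hbx : Bx (1 / 2 ^ (A 0 - W)) (abx F c W (g 0 1) (pP (ptr F J ω) 1) ω b') := by
      rw [hA0, Nat.sub_self, pow_zero, div_one]
      intro i
      fin_cases i
      · show |2 ^ W * (b' none - F.t ω)| ≤ 1
        rw [hbn, sub_self, mul_zero, abs_zero]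
        exact zero_le_one
      · show |2 ^ W * (b' (some (c 0)) - F.x ω (c 0))| ≤ 1
        rw [abs_mul, abs_of_pos (by positivity : (0 : ℝ) < 2 ^ W)]
        calc (2 : ℝ) ^ W * |b' (some (c 0)) - F.x ω (c 0)| ≤ 2 ^ W * (1 / 2 ^ W) :=
              mul_le_mul_of_nonneg_left ((hbl 0 (by norm_num)).trans hJW) (by positivity)
          _ = 1 := by field_simp
      · show |2 ^ g 0 1 * ((b' (some (c 1)) - eval b' (pP (ptr F J ω) 1)) -
          (F.x ω (c 1) - eval (bt F ω) (pP (ptr F J ω) 1)))| ≤ 1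
        rw [abs_mul, abs_of_pos (by positivity : (0 : ℝ) < 2 ^ g 0 1)]
        have e1 : (b' (some (c 1)) - eval b' (pP (ptr F J ω) 1)) -
            (F.x ω (c 1) - eval (bt F ω) (pP (ptr F J ω) 1)) =
            (b' (some (c 1)) - F.x ω (c 1)) -
            (eval b' (pP (ptr F J ω) 1) - eval (bt F ω) (pP (ptr F J ω) 1)) := by ring
        rw [e1]
        have h1 := (abs_sub (b' (some (c 1)) - F.x ω (c 1))
          (eval b' (pP (ptr F J ω) 1) - eval (bt F ω) (pP (ptr F J ω) 1))).trans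
          (add_le_add (hbl 1 (by norm_num)) hP1)
        have h2 : (1 : ℝ) ≤ 2 ^ (s + e) := one_le_pow₀ (by norm_num)
        calc (2 : ℝ) ^ g 0 1 * _ ≤ 2 ^ g 0 1 * (1 / 2 ^ J + 2 ^ (s + e) * (1 / 2 ^ J)) :=
              mul_le_mul_of_nonneg_left h1 (by positivity)
          _ ≤ 2 ^ g 0 1 * (2 ^ (s + e) * (1 / 2 ^ J) + 2 ^ (s + e) * (1 / 2 ^ J)) := by
              refine mul_le_mul_of_nonneg_left (add_le_add_left ?_ _) (by positivity)
              exact le_mul_of_one_le_left hJ.le h2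
          _ = 2 ^ (g 0 1 + s + e + 1) / 2 ^ J := by
              rw [pow_succ, pow_add _ (g 0 1 + s), pow_add _ (g 0 1), pow_add]
              ring
          _ ≤ 1 := by
              rw [div_le_one (by positivity)]
              exact pw hgJ
    have h1 := hvd (Q := pderiv (some (c l)) (zP (ptr F J ω)))
      (M := 2 ^ (C₄ + e + m₁ + nlp g' l 3)) (inc_less (inc_mono I (hDD.trans hDD4) le_rfl) hs2)
      hNs (Nat.zero_le N) hω hbx
      (Pool.KS3.SML.totalDegree_pderiv_le _ _ D₄ (((b3 _).trans hD34).trans (Nat.le_succ _)))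
      ((b5 _).pderiv l) (by positivity) (fun b hb => gz ω hω b hb l hl)
    rw [vnr_abx hWJ hc2 (I.pe _ 1) ω b' ((b5 _).pderiv l)] at h1
    refine h1.trans ?_
    rw [← pow_add]
    refine pw ?_
    rw [hm₁, hm₀, hs', hC]
    obtain ⟨u, hu⟩ : ∃ u, u = h + s + v + 1 := ⟨_, rfl⟩
    rw [← hu]
    have k1 : C₃ * (h + 1) ≤ C₃ * u := Nat.mul_le_mul_left _ (by omega)
    have k2 : C₁ * (s + 1) ≤ C₁ * u := Nat.mul_le_mul_left _ (by omega)
    have k3 : C₅ * (s + v + 1) ≤ C₅ * u := Nat.mul_le_mul_left _ (by omega)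
    have k4 : C₄ ≤ C₄ * u := Nat.le_mul_of_pos_right _ (by omega)
    have k6 : (C₂ * (C₁ + 2) + C₁ + C₃ + C₄ + C₅ + c₀ + D₁ + 7) * u =
        C₂ * (C₁ + 2) * u + C₁ * u + C₃ * u + C₄ * u + C₅ * u + c₀ * u + D₁ * u + 7 * u := by ring
    rw [k6]
    omega

end Pool.STB65
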