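import Pool.Agent.H65.STB.Nfm

/-!
# The numbers of a static target

`NsR`, `NsQ`: the real numbers of a static target and of its static chain. `nsn_num`, `nsc_num`: the
natural numbers of large `J`.
-/

set_option autoImplicit false

namespace Pool.STB65

open Finset Real

/-- **The real numbers of a static target**: balls `ι`, static nodes `σ`, precisions `p` of the closed
labels, slopes `x` of their derivatives, the level `γ` of the static label at the last ball. -/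
structure NsR (b N : ℕ) (γ : ℝ) (β : ℕ → ℝ → ℝ → ℝ) (AA WW : ℕ → ℝ) (ι σ : ℕ → ℕ) (p x : ℕ → ℝ)
    (s₀ : ℝ) : Prop where
  g3 : 0 ≤ β 3 (AA (ι 0)) (WW (ι 0))
  lv : ∀ k ≤ N, β 3 (AA (ι 0)) (WW (ι 0)) + b * (AA (ι k) - AA (ι 0)) ≤
    β 3 (AA (ι k)) (WW (ι k)) + s₀
  lq : ∀ k ≤ N, β 3 (AA (ι 0)) (WW (ι 0)) + b * (AA (ι k) - AA (ι 0)) ≤ p k + s₀
  γ0 : β 3 (AA (ι 0)) (WW (ι 0)) + b * (AA (ι N) - AA (ι 0)) ≤ γ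
  ls : γ ≤ β 3 (AA (σ N)) (WW (σ N)) + s₀
  gsn : ∀ l < 3, β l (AA (σ N)) (WW (σ N)) ≤ β l (AA (ι N)) (WW (ι N)) + s₀
  gm : ∀ j k, j ≤ k → k ≤ N → ∀ l < 3, β l (AA (ι j)) (WW (ι j)) ≤ β l (AA (ι k)) (WW (ι k)) + s₀
  bl : ∀ k ≤ N, x k + (β 3 (AA (ι 0)) (WW (ι 0)) + b * (AA (ι k) - AA (ι 0))) ≤
    β 2 (AA (ι k)) (WW (ι k)) + s₀

/-- **The real numbers of the static chain**, from the ball `N` to a last ball `Nm`. -/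
structure NsQ (C N Nm : ℕ) (γ : ℝ) (β : ℕ → ℝ → ℝ → ℝ) (AA WW : ℕ → ℝ) (ι σ : ℕ → ℕ) (p x : ℕ → ℝ)
    (s₀ s : ℝ) : Prop where
  m2 : ∀ k, N ≤ k → k ≤ Nm → 0 ≤ β 2 (AA (σ k)) (WW (σ k))
  m2' : 0 ≤ β 2 (AA (ι Nm)) (WW (ι Nm))
  c1 : ∀ k, N ≤ k → k < Nm → β 2 (AA (σ (k + 1))) (WW (σ (k + 1))) + γ ≤
    s₀ + β 2 (AA (σ N)) (WW (σ N)) + β 3 (AA (σ k)) (WW (σ k))
  c2 : ∀ k, N ≤ k → k ≤ Nm → β 2 (AA (σ k)) (WW (σ k)) + γ ≤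
    s₀ + β 2 (AA (σ N)) (WW (σ N)) + β 3 (AA (σ k)) (WW (σ k))
  c3 : C * (s₀ + 6 * s) + 2 * s ≤ β 3 (AA (σ Nm)) (WW (σ Nm))
  c4 : β 2 (AA (ι Nm)) (WW (ι Nm)) + C * (s₀ + 6 * s) + γ ≤
    s₀ + β 2 (AA (σ N)) (WW (σ N)) + β 3 (AA (σ Nm)) (WW (σ Nm))
  c5 : β 2 (AA (ι Nm)) (WW (ι Nm)) + γ ≤
    s₀ + β 2 (AA (σ N)) (WW (σ N)) + p Nm
  gl : ∀ l < 3, β l (AA (σ Nm)) (WW (σ Nm)) ≤ β l (AA (ι Nm)) (WW (ι Nm)) + s₀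
  bm : x Nm + γ ≤ β 2 (AA (σ N)) (WW (σ N)) + s₀

/-- A floor below a number. -/
theorem fl_lo {B d s : ℝ} {J : ℕ} (hd : d ≤ s) : (B - s) * J < ⌊(B - d) * J⌋₊ + 1 := by
  have h1 := Nat.lt_floor_add_one ((B - d) * (J : ℝ))
  have h2 : (B - s) * J ≤ (B - d) * J :=
    mul_le_mul_of_nonneg_right (by linarith) (Nat.cast_nonneg J)
  linarith

/-- A floor above a number. -/
theorem fl_hi {B d : ℝ} {J : ℕ} (hd : 0 ≤ d) (hB : 0 ≤ B) : (⌊(B - d) * J⌋₊ : ℝ) ≤ B * J := by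
  have hJ : (0 : ℝ) ≤ J := Nat.cast_nonneg J
  rcases le_or_gt 0 ((B - d) * (J : ℝ)) with h | h
  · exact (Nat.floor_le h).trans (mul_le_mul_of_nonneg_right (by linarith) hJ)
  · rw [Nat.floor_of_nonpos h.le, Nat.cast_zero]
    exact mul_nonneg hB hJ

/-- Two floors. -/
theorem fl_two {B B' d d' s s₀ : ℝ} {J : ℕ} (hJ : 4 ≤ s * J)
    (hd : 0 ≤ d) (hd' : d' ≤ s) (h : B ≤ B' + s₀) :
    ⌊(B - d) * J⌋₊ ≤ ⌊(B' - d') * J⌋₊ + ⌊(s₀ + 3 * s) * J⌋₊ := by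
  have hJ0 : (0 : ℝ) ≤ J := Nat.cast_nonneg J
  have h1 := fl_lo (B := B') (J := J) hd'
  have h2 := Nat.lt_floor_add_one ((s₀ + 3 * s) * (J : ℝ))
  have h3 : (B - d) * J ≤ (B' + s₀) * J := mul_le_mul_of_nonneg_right (by linarith) hJ0
  have h4 : (⌊(B - d) * (J : ℝ)⌋₊ : ℝ) ≤ max ((B - d) * J) 0 := by
    rcases le_or_gt 0 ((B - d) * (J : ℝ)) with h | h
    · exact (Nat.floor_le h).trans (le_max_left _ _)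
    · rw [Nat.floor_of_nonpos h.le, Nat.cast_zero]
      exact le_max_right _ _
  have h5 : max ((B - d) * (J : ℝ)) 0 ≤ (⌊(B' - d') * (J : ℝ)⌋₊ : ℝ) + ⌊(s₀ + 3 * s) * (J : ℝ)⌋₊ := by
    refine max_le ?_ (by positivity)
    nlinarith
  exact_mod_cast h4.trans h5

/-- The difference of two radii. -/
theorem fl_sub {a a' : ℝ} {J : ℕ} (h0 : 0 ≤ a) (h : a ≤ a') :
    ((⌊a' * J⌋₊ - ⌊a * J⌋₊ : ℕ) : ℝ) ≤ (a' - a) * J + 1 := by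
  have hJ0 : (0 : ℝ) ≤ J := Nat.cast_nonneg J
  have h1 : ⌊a * (J : ℝ)⌋₊ ≤ ⌊a' * (J : ℝ)⌋₊ :=
    Nat.floor_le_floor (mul_le_mul_of_nonneg_right h hJ0)
  rw [Nat.cast_sub h1]
  have h2 := Nat.floor_le (mul_nonneg (h0.trans h) hJ0)
  have h3 := Nat.lt_floor_add_one (a * (J : ℝ))
  rw [sub_mul]
  linarith

section

variable {b N M J : ℕ} {γ : ℝ} {β : ℕ → ℝ → ℝ → ℝ} {AA WW : ℕ → ℝ} {ι σ : ℕ → ℕ} {d : ℕ → ℕ → ℝ}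
  {p x : ℕ → ℝ} {q' : ℕ → ℕ} {s s₀ : ℝ}

/-- The exponent of the target at a radius. -/
theorem g3_hi (h3 : 0 ≤ β 3 (AA (ι 0)) (WW (ι 0))) (hd : 0 ≤ d (ι 0) 3) (h0 : 0 ≤ AA (ι 0))
    {a : ℝ} (ha : AA (ι 0) ≤ a) :
    ((⌊(β 3 (AA (ι 0)) (WW (ι 0)) - d (ι 0) 3) * J⌋₊ + b * (⌊a * J⌋₊ - ⌊AA (ι 0) * J⌋₊) : ℕ) :
      ℝ) ≤ (β 3 (AA (ι 0)) (WW (ι 0)) + b * (a - AA (ι 0))) * J + b := by
  have h1 := fl_hi (J := J) hd h3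
  have h2 := mul_le_mul_of_nonneg_left (fl_sub (J := J) h0 ha) (Nat.cast_nonneg (α := ℝ) b)
  push_cast at h2 ⊢
  nlinarith

/-- The precision of the static label at the last ball. -/
noncomputable def gST (b N J : ℕ) (γ : ℝ) (β : ℕ → ℝ → ℝ → ℝ) (AA WW : ℕ → ℝ) (ι : ℕ → ℕ)
    (d : ℕ → ℕ → ℝ) : ℕ :=
  max (⌊(β 3 (AA (ι 0)) (WW (ι 0)) - d (ι 0) 3) * J⌋₊ +
    b * (⌊AA (ι N) * J⌋₊ - ⌊AA (ι 0) * J⌋₊)) ⌊γ * J⌋₊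

theorem gST_hi (h3 : 0 ≤ β 3 (AA (ι 0)) (WW (ι 0))) (hd : 0 ≤ d (ι 0) 3) (h0 : 0 ≤ AA (ι 0))
    (ha : AA (ι 0) ≤ AA (ι N))
    (hγ : β 3 (AA (ι 0)) (WW (ι 0)) + b * (AA (ι N) - AA (ι 0)) ≤ γ) :
    (gST b N J γ β AA WW ι d : ℝ) ≤ γ * J + b := by
  have hb0 : (0 : ℝ) ≤ b := Nat.cast_nonneg b
  have hJ0 : (0 : ℝ) ≤ J := Nat.cast_nonneg J
  have h1 := g3_hi (b := b) (J := J) h3 hd h0 ha
  have h2 := mul_le_mul_of_nonneg_right hγ hJ0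
  have hγ0 : 0 ≤ γ := le_trans (by
    have : 0 ≤ b * (AA (ι N) - AA (ι 0)) := mul_nonneg hb0 (by linarith)
    linarith) hγ
  have h4 := Nat.floor_le (mul_nonneg hγ0 hJ0)
  unfold gST
  rw [Nat.cast_max]
  exact max_le (by linarith) (by linarith)

/-- **The natural numbers of a static target.** -/
theorem nsn_num (R : NsR b N γ β AA WW ι σ p x s₀) (hs₀ : 0 ≤ s₀)
    (hJ : b + 4 ≤ s * J) (hι : ∀ k ≤ N, ι k < M) (hσ : σ N < M) (h0 : 0 ≤ AA (ι 0))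
    (ham : ∀ k ≤ N, AA (ι 0) ≤ AA (ι k))
    (hd : ∀ k < M, ∀ l ≤ 3, 0 < d k l ∧ d k l ≤ s) (hq : ∀ k ≤ N, p k * J ≤ q' k) :
    NsN ⌊(s₀ + 3 * s) * J⌋₊ b N ⌊AA (ι 0) * J⌋₊ ⌊(β 3 (AA (ι 0)) (WW (ι 0)) - d (ι 0) 3) * J⌋₊
      (gST b N J γ β AA WW ι d) (fun k => ⌊AA (ι k) * J⌋₊) ι σ q' (fun k l => ⌊(β l (AA k) (WW k) - d k l) * J⌋₊) := by
  have hb0 : (0 : ℝ) ≤ b := Nat.cast_nonneg b
  have hJ4 : 4 ≤ s * J := by linarith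
  have hJ0 : (0 : ℝ) ≤ J := Nat.cast_nonneg J
  have hn := Nat.lt_floor_add_one ((s₀ + 3 * s) * (J : ℝ))
  have hs0J : 0 ≤ s₀ * J := mul_nonneg hs₀ hJ0
  have key : ∀ {a : ℝ} {y : ℕ} {B : ℝ}, AA (ι 0) ≤ a → (B - s) * J < y + 1 →
      β 3 (AA (ι 0)) (WW (ι 0)) + b * (a - AA (ι 0)) ≤ B + s₀ →
      ⌊(β 3 (AA (ι 0)) (WW (ι 0)) - d (ι 0) 3) * (J : ℝ)⌋₊ +
        b * (⌊a * (J : ℝ)⌋₊ - ⌊AA (ι 0) * (J : ℝ)⌋₊) ≤ y + ⌊(s₀ + 3 * s) * (J : ℝ)⌋₊ := by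
    intro a y B ha hy hB
    have h1 := g3_hi (b := b) (J := J) R.g3 (hd _ (hι 0 (Nat.zero_le N)) 3 le_rfl).1.le h0 ha
    have h2 := mul_le_mul_of_nonneg_right hB hJ0
    have h3 : ((⌊(β 3 (AA (ι 0)) (WW (ι 0)) - d (ι 0) 3) * (J : ℝ)⌋₊ +
        b * (⌊a * (J : ℝ)⌋₊ - ⌊AA (ι 0) * (J : ℝ)⌋₊) : ℕ) : ℝ) <
        ((y + ⌊(s₀ + 3 * s) * (J : ℝ)⌋₊ + 1 : ℕ) : ℝ) := by
      refine h1.trans_lt ?_
      push_cast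
      nlinarith
    exact Nat.lt_succ_iff.1 (by exact_mod_cast h3)
  refine ⟨fun k hk => ?_, fun k hk => ?_, le_max_left _ _, ?_, fun l hl => ?_,
    fun k hk l hl => ?_⟩
  · exact key (ham k hk) (fl_lo (hd _ (hι k hk) 3 le_rfl).2) (R.lv k hk)
  · refine key (B := p k) (ham k hk) ?_ (R.lq k hk)
    have h1 := hq k hk
    have h2 : 0 ≤ s * J := by linarith
    nlinarith
  · have h1 := gST_hi (b := b) (J := J) R.g3 (hd _ (hι 0 (Nat.zero_le N)) 3 le_rfl).1.le h0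
      (ham N le_rfl) R.γ0
    have h2 := mul_le_mul_of_nonneg_right R.ls hJ0
    have h4 := fl_lo (B := β 3 (AA (σ N)) (WW (σ N))) (J := J) (hd _ hσ 3 le_rfl).2
    have h3 : (gST b N J γ β AA WW ι d : ℝ) <
        ((⌊(β 3 (AA (σ N)) (WW (σ N)) - d (σ N) 3) * (J : ℝ)⌋₊ +
          ⌊(s₀ + 3 * s) * (J : ℝ)⌋₊ + 1 : ℕ) : ℝ) := by
      refine h1.trans_lt ?_
      push_cast
      nlinarith
    exact Nat.lt_succ_iff.1 (by exact_mod_cast h3)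
  · exact fl_two hJ4 (hd _ hσ l (by omega)).1.le (hd _ (hι N le_rfl) l (by omega)).2
      (R.gsn l hl)
  · exact fl_two hJ4 (hd _ (hι k hk.le) l (by omega)).1.le
      (hd _ (hι (k + 1) hk) l (by omega)).2 (R.gm k (k + 1) (Nat.le_succ k) hk l hl)

/-- **The slopes** in natural units. -/
theorem slp_num {B y Y : ℝ} {i X : ℕ} (hX : (X : ℝ) ≤ Y * J + b)
    (hs₀ : 0 ≤ s₀) (hJ : b + 4 ≤ s * J) (hi : i < M) (hd : ∀ k < M, ∀ l ≤ 3, 0 < d k l ∧ d k l ≤ s)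
    (hy : y + Y ≤ β 2 (AA i) (WW i) + s₀) (hB : B ≤ (2 : ℝ) ^ (y * J)) :
    B ≤ 2 ^ (⌊(s₀ + 3 * s) * J⌋₊ + ⌊(β 2 (AA i) (WW i) - d i 2) * J⌋₊) / 2 ^ X := by
  have hb0 : (0 : ℝ) ≤ b := Nat.cast_nonneg b
  have hJ0 : (0 : ℝ) ≤ J := Nat.cast_nonneg J
  have hn := Nat.lt_floor_add_one ((s₀ + 3 * s) * (J : ℝ))
  have hs0J : 0 ≤ s₀ * J := mul_nonneg hs₀ hJ0
  have h2 := mul_le_mul_of_nonneg_right hy hJ0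
  have h3 := fl_lo (B := β 2 (AA i) (WW i)) (J := J) (hd _ hi 2 (by norm_num)).2
  refine hB.trans ?_
  rw [le_div_iff₀ (by positivity), ← Real.rpow_natCast, ← Real.rpow_natCast,
    ← Real.rpow_add two_pos]
  refine Real.rpow_le_rpow_of_exponent_le one_le_two ?_
  push_cast
  nlinarith

/-- The exponent of the target against a level. -/
theorem x3_num {Y : ℝ} {i X : ℕ} (hX : (X : ℝ) ≤ Y * J + b)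
    (hs₀ : 0 ≤ s₀) (hJ : b + 4 ≤ s * J) (hi : i < M) (hd : ∀ k < M, ∀ l ≤ 3, 0 < d k l ∧ d k l ≤ s)
    (hy : Y ≤ β 3 (AA i) (WW i) + s₀) :
    X ≤ ⌊(β 3 (AA i) (WW i) - d i 3) * J⌋₊ + ⌊(s₀ + 3 * s) * J⌋₊ := by
  have hb0 : (0 : ℝ) ≤ b := Nat.cast_nonneg b
  have hJ0 : (0 : ℝ) ≤ J := Nat.cast_nonneg J
  have hn := Nat.lt_floor_add_one ((s₀ + 3 * s) * (J : ℝ))
  have hs0J : 0 ≤ s₀ * J := mul_nonneg hs₀ hJ0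
  have h2 := mul_le_mul_of_nonneg_right hy hJ0
  have h3 := fl_lo (B := β 3 (AA i) (WW i)) (J := J) (hd _ hi 3 le_rfl).2
  have h4 : (X : ℝ) < ((⌊(β 3 (AA i) (WW i) - d i 3) * (J : ℝ)⌋₊ +
      ⌊(s₀ + 3 * s) * (J : ℝ)⌋₊ + 1 : ℕ) : ℝ) := by
    refine hX.trans_lt ?_
    push_cast
    nlinarith
  exact Nat.lt_succ_iff.1 (by exact_mod_cast h4)

/-- **The natural numbers of the static chain.** -/
theorem nsc_num {C Nm : ℕ} (hg3 : 0 ≤ β 3 (AA (ι 0)) (WW (ι 0)))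
    (hγ : β 3 (AA (ι 0)) (WW (ι 0)) + b * (AA (ι N) - AA (ι 0)) ≤ γ)
    (Q : NsQ C N Nm γ β AA WW ι σ p x s₀ s) (hNm : N ≤ Nm)
    (hs : 0 < s) (hs₀ : 0 ≤ s₀) (hJ : b + 4 ≤ s * J) (hι : ∀ k ≤ Nm, ι k < M)
    (hσ : ∀ k, N ≤ k → k ≤ Nm → σ k < M) (h0 : 0 ≤ AA (ι 0)) (ham : AA (ι 0) ≤ AA (ι N))
    (hd : ∀ k < M, ∀ l ≤ 3, 0 < d k l ∧ d k l ≤ s) (hq : p Nm * J ≤ q' Nm) :
    NsC C ⌊s * J⌋₊ ⌊(s₀ + 3 * s) * J⌋₊ N Nm (gST b N J γ β AA WW ι d) ι σ q' (fun k l => ⌊(β l (AA k) (WW k) - d k l) * J⌋₊) := by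
  have hb0 : (0 : ℝ) ≤ b := Nat.cast_nonneg b
  have hC0 : (0 : ℝ) ≤ C := Nat.cast_nonneg C
  have hJ4 : 4 ≤ s * J := by linarith
  have hJ0 : (0 : ℝ) ≤ J := Nat.cast_nonneg J
  have hn := Nat.lt_floor_add_one ((s₀ + 3 * s) * (J : ℝ))
  have hs0J : 0 ≤ s₀ * J := mul_nonneg hs₀ hJ0
  have hn' := Nat.floor_le (show 0 ≤ (s₀ + 3 * s) * (J : ℝ) by positivity)
  have hsf := Nat.floor_le (show 0 ≤ s * (J : ℝ) by positivity)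
  have h1 := gST_hi (b := b) (J := J) hg3 (hd _ (hι 0 (Nat.zero_le _)) 3 le_rfl).1.le h0
    ham hγ
  obtain ⟨X, hX⟩ : ∃ X, X = gST b N J γ β AA WW ι d := ⟨_, rfl⟩
  rw [← hX] at h1 ⊢
  have hσN := fl_lo (B := β 2 (AA (σ N)) (WW (σ N))) (J := J)
    (hd _ (hσ N le_rfl hNm) 2 (by norm_num)).2
  have hσm := fl_lo (B := β 3 (AA (σ Nm)) (WW (σ Nm))) (J := J)
    (hd _ (hσ Nm hNm le_rfl) 3 le_rfl).2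
  have hCn : (C : ℝ) * (⌊s * (J : ℝ)⌋₊ + ⌊(s₀ + 3 * s) * (J : ℝ)⌋₊ + 1) ≤
      C * (s₀ + 6 * s) * J := by
    rw [mul_assoc]
    refine mul_le_mul_of_nonneg_left ?_ hC0
    nlinarith
  have hιm := fl_hi (J := J) (hd _ (hι Nm le_rfl) 2 (by norm_num)).1.le Q.m2'
  refine ⟨fun k hk hk' => ?_, fun k hk hk' => ?_, ?_, ?_, ?_, fun l hl => ?_⟩
  · have h2 := fl_hi (J := J) (hd _ (hσ (k + 1) (by omega) hk') 2 (by norm_num)).1.le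
      (Q.m2 (k + 1) (by omega) hk')
    have h3 := fl_lo (B := β 3 (AA (σ k)) (WW (σ k))) (J := J)
      (hd _ (hσ k hk hk'.le) 3 le_rfl).2
    have h4 := mul_le_mul_of_nonneg_right (Q.c1 k hk hk') hJ0
    show ⌊(β 2 (AA (σ (k + 1))) (WW (σ (k + 1))) - d (σ (k + 1)) 2) * (J : ℝ)⌋₊ + X ≤ _
    have h5 : ((⌊(β 2 (AA (σ (k + 1))) (WW (σ (k + 1))) - d (σ (k + 1)) 2) * (J : ℝ)⌋₊ + X : ℕ) :
        ℝ) < ((⌊(s₀ + 3 * s) * (J : ℝ)⌋₊ +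
          ⌊(β 2 (AA (σ N)) (WW (σ N)) - d (σ N) 2) * (J : ℝ)⌋₊ +
          ⌊(β 3 (AA (σ k)) (WW (σ k)) - d (σ k) 3) * (J : ℝ)⌋₊ + 1 : ℕ) : ℝ) := by
      push_cast
      nlinarith
    exact Nat.lt_succ_iff.1 (by exact_mod_cast h5)
  · have h2 := fl_hi (J := J) (hd _ (hσ k hk hk') 2 (by norm_num)).1.le (Q.m2 k hk hk')
    have h3 := fl_lo (B := β 3 (AA (σ k)) (WW (σ k))) (J := J)
      (hd _ (hσ k hk hk') 3 le_rfl).2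
    have h4 := mul_le_mul_of_nonneg_right (Q.c2 k hk hk') hJ0
    show ⌊(β 2 (AA (σ k)) (WW (σ k)) - d (σ k) 2) * (J : ℝ)⌋₊ + X ≤ _
    have h5 : ((⌊(β 2 (AA (σ k)) (WW (σ k)) - d (σ k) 2) * (J : ℝ)⌋₊ + X : ℕ) :
        ℝ) < ((⌊(s₀ + 3 * s) * (J : ℝ)⌋₊ +
          ⌊(β 2 (AA (σ N)) (WW (σ N)) - d (σ N) 2) * (J : ℝ)⌋₊ +
          ⌊(β 3 (AA (σ k)) (WW (σ k)) - d (σ k) 3) * (J : ℝ)⌋₊ + 1 : ℕ) : ℝ) := by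
      push_cast
      nlinarith
    exact Nat.lt_succ_iff.1 (by exact_mod_cast h5)
  · have h4 := mul_le_mul_of_nonneg_right Q.c3 hJ0
    have h5 : ((C * (⌊s * (J : ℝ)⌋₊ + ⌊(s₀ + 3 * s) * (J : ℝ)⌋₊ + 1) : ℕ) : ℝ) <
        ((⌊(β 3 (AA (σ Nm)) (WW (σ Nm)) - d (σ Nm) 3) * (J : ℝ)⌋₊ + 1 : ℕ) : ℝ) := by
      push_cast
      nlinarith
    exact Nat.lt_succ_iff.1 (by exact_mod_cast h5)
  · have h4 := mul_le_mul_of_nonneg_right Q.c4 hJ0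
    show ⌊(β 2 (AA (ι Nm)) (WW (ι Nm)) - d (ι Nm) 2) * (J : ℝ)⌋₊ + _ + X ≤ _
    have h5 : ((⌊(β 2 (AA (ι Nm)) (WW (ι Nm)) - d (ι Nm) 2) * (J : ℝ)⌋₊ +
        C * (⌊s * (J : ℝ)⌋₊ + ⌊(s₀ + 3 * s) * (J : ℝ)⌋₊ + 1) + X : ℕ) : ℝ) <
        ((⌊(s₀ + 3 * s) * (J : ℝ)⌋₊ + ⌊(β 2 (AA (σ N)) (WW (σ N)) - d (σ N) 2) * (J : ℝ)⌋₊ +
          ⌊(β 3 (AA (σ Nm)) (WW (σ Nm)) - d (σ Nm) 3) * (J : ℝ)⌋₊ + 1 : ℕ) : ℝ) := by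
      push_cast
      nlinarith
    exact Nat.lt_succ_iff.1 (by exact_mod_cast h5)
  · have h4 := mul_le_mul_of_nonneg_right Q.c5 hJ0
    show ⌊(β 2 (AA (ι Nm)) (WW (ι Nm)) - d (ι Nm) 2) * (J : ℝ)⌋₊ + X ≤ _
    have h5 : ((⌊(β 2 (AA (ι Nm)) (WW (ι Nm)) - d (ι Nm) 2) * (J : ℝ)⌋₊ + X : ℕ) : ℝ) <
        ((⌊(s₀ + 3 * s) * (J : ℝ)⌋₊ + ⌊(β 2 (AA (σ N)) (WW (σ N)) - d (σ N) 2) * (J : ℝ)⌋₊ +
          q' Nm + 1 : ℕ) : ℝ) := by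
      push_cast
      nlinarith
    exact Nat.lt_succ_iff.1 (by exact_mod_cast h5)
  · exact fl_two hJ4 (hd _ (hσ Nm hNm le_rfl) l (by omega)).1.le
      (hd _ (hι Nm le_rfl) l (by omega)).2 (Q.gl l hl)

end

end Pool.STB65
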