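import Pool.Agent.H98.STB.Alg
import Pool.Agent.H20.KAL.TAY
import Pool.Agent.H36.KBX.Coef

/-!
# Taylor polynomials of polynomials in three variables

`trs`: the translate; `low`: the terms of order less than `b`. The components of a polynomial which
is bounded on a box; the Taylor polynomials of two polynomials which are near on a small box; the
expansion at a point of a polynomial which is bounded on a large box.
-/

set_option autoImplicit false

namespace Pool.STB65

open Finset Real MvPolynomial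
open Pool.STB

/-- The coefficients of a polynomial of one variable from the values at the nodes. -/
theorem coef_node (K : ℕ) : ∃ w : ℕ → ℕ → ℝ, ∀ P : Polynomial ℝ, P.natDegree ≤ K → ∀ n,
    P.coeff n = ∑ j ∈ range (K + 1), w n j * P.eval ((j : ℝ) / (K + 1)) := by
  classical
  obtain ⟨v, hv⟩ : ∃ v : ℕ → ℝ, v = fun i : ℕ => (i : ℝ) / (K + 1) := ⟨_, rfl⟩
  have hK : (0 : ℝ) < K + 1 := by positivity
  have hinj : Set.InjOn v (range (K + 1)) := by
    intro a _ b _ hab
    rw [hv] at hab
    have h : (a : ℝ) / (K + 1) = b / (K + 1) := hab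
    have h2 : (a : ℝ) = b := by
      field_simp at h
      exact h
    exact_mod_cast h2
  refine ⟨fun n i => (Lagrange.basis (range (K + 1)) v i).coeff n, fun P hP n => ?_⟩
  have hdeg : P.degree < (range (K + 1)).card := by
    rw [card_range]
    exact lt_of_le_of_lt Polynomial.degree_le_natDegree (by exact_mod_cast Nat.lt_succ_of_le hP)
  have h1 : P = Lagrange.interpolate (range (K + 1)) v (fun i => P.eval (v i)) :=
    Lagrange.eq_interpolate hinj hdeg
  conv_lhs => rw [h1]
  rw [Lagrange.interpolate_apply, Polynomial.finsetSum_coeff]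
  refine Finset.sum_congr rfl fun i _ => ?_
  rw [Polynomial.coeff_C_mul, hv, mul_comm]

/-- The coefficients of the restriction to a line are the values of the components. -/
theorem line_coeff (P : Po) (q : V3) (n : ℕ) :
    (Pool.KAL.TAY.line P q).coeff n = eval q (homogeneousComponent n P) := by
  classical
  unfold Pool.KAL.TAY.line
  rw [Polynomial.finsetSum_coeff, homogeneousComponent_apply, map_sum]
  rw [Finset.sum_filter]
  refine Finset.sum_congr rfl fun α _ => ?_
  rw [Polynomial.coeff_monomial]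
  by_cases h : α.degree = n
  · rw [if_pos h, if_pos h, eval_monomial, Finsupp.prod_fintype _ _ fun i => pow_zero _]
  · rw [if_neg h, if_neg h]

/-- **The components from the values at the nodes.** -/
theorem hc_node (K : ℕ) : ∃ w : ℕ → ℕ → ℝ, ∀ P : Po, P.totalDegree ≤ K → ∀ n (q : V3),
    eval q (homogeneousComponent n P) =
      ∑ j ∈ range (K + 1), w n j * eval (((j : ℝ) / (K + 1)) • q) P := by
  obtain ⟨w, hw⟩ := coef_node K
  refine ⟨w, fun P hP n q => ?_⟩
  rw [← line_coeff, hw _ (Pool.KAL.TAY.line_natDegree P q hP) n]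
  refine Finset.sum_congr rfl fun j _ => ?_
  rw [Pool.KAL.TAY.line_eval]
  rfl

theorem bx_smul {r c : ℝ} {q : V3} (hq : Bx r q) (hc : 0 ≤ c) : Bx (c * r) (c • q) := by
  intro i
  rw [Pi.smul_apply, smul_eq_mul, abs_mul, abs_of_nonneg hc]
  exact mul_le_mul_of_nonneg_left (hq i) hc

theorem bxm {r r' : ℝ} {q : V3} (hq : Bx r q) (h : r ≤ r') : Bx r' q :=
  fun i => (hq i).trans h

theorem bxa {r r' : ℝ} {q q' : V3} (hq : Bx r q) (hq' : Bx r' q') : Bx (r + r') (q + q') :=
  fun i => (abs_add_le _ _).trans (add_le_add (hq i) (hq' i))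

theorem bxn {r : ℝ} {q : V3} (hq : Bx r q) : Bx r (-q) := fun i => by
  rw [Pi.neg_apply, abs_neg]
  exact hq i

theorem bxs {r r' : ℝ} {q q' : V3} (hq : Bx r q) (hq' : Bx r' q') : Bx (r + r') (q - q') := by
  rw [sub_eq_add_neg]
  exact bxa hq (bxn hq')

/-- **The components of a polynomial which is bounded on a box.** -/
theorem hc_le (K : ℕ) : ∃ C : ℝ, 1 ≤ C ∧ ∀ (P : Po) (M r ρ : ℝ), P.totalDegree ≤ K → 0 < r →
    0 < ρ → (∀ q, Bx r q → |eval q P| ≤ M) → ∀ n, ∀ q, Bx ρ q →
      |eval q (homogeneousComponent n P)| ≤ C * M * (ρ / r) ^ n := by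
  classical
  obtain ⟨w, hw⟩ := hc_node K
  refine ⟨1 + ∑ n ∈ range (K + 1), ∑ j ∈ range (K + 1), |w n j|, ?_, ?_⟩
  · have : 0 ≤ ∑ n ∈ range (K + 1), ∑ j ∈ range (K + 1), |w n j| :=
      sum_nonneg fun n _ => sum_nonneg fun j _ => abs_nonneg _
    linarith
  intro P M r ρ hP hr hρ hM n q hq
  have hM0 : 0 ≤ M := (abs_nonneg _).trans (hM 0 fun i => by simpa using hr.le)
  have hS0 : 0 ≤ ∑ n ∈ range (K + 1), ∑ j ∈ range (K + 1), |w n j| :=
    sum_nonneg fun n _ => sum_nonneg fun j _ => abs_nonneg _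
  rcases Nat.lt_or_ge K n with hn | hn
  · rw [homogeneousComponent_eq_zero n P (hP.trans_lt hn), map_zero, abs_zero]
    positivity
  have hsc : q = (ρ / r) • ((r / ρ) • q) := by
    rw [smul_smul, div_mul_div_comm, mul_comm r ρ, div_self (by positivity), one_smul]
  have hq' : Bx r ((r / ρ) • q) := by
    refine bxm (bx_smul hq (by positivity)) (le_of_eq ?_)
    field_simp
  rw [hsc, hom_smul (homogeneousComponent_isHomogeneous n P), hw P hP n, abs_mul,
    abs_of_pos (by positivity)]
  have h1 : |∑ j ∈ range (K + 1), w n j * eval (((j : ℝ) / (K + 1)) • ((r / ρ) • q)) P| ≤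
      (1 + ∑ n ∈ range (K + 1), ∑ j ∈ range (K + 1), |w n j|) * M := by
    refine (Finset.abs_sum_le_sum_abs _ _).trans ?_
    have h2 : ∀ j ∈ range (K + 1),
        |w n j * eval (((j : ℝ) / (K + 1)) • ((r / ρ) • q)) P| ≤ |w n j| * M := by
      intro j hj
      rw [abs_mul]
      refine mul_le_mul_of_nonneg_left (hM _ ?_) (abs_nonneg _)
      have h3 : (j : ℝ) / (K + 1) ≤ 1 := by
        rw [div_le_one (by positivity)]
        have := mem_range.1 hj
        exact_mod_cast this.le
      refine bxm (bx_smul hq' (by positivity)) ?_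
      calc (j : ℝ) / (K + 1) * r ≤ 1 * r := mul_le_mul_of_nonneg_right h3 hr.le
        _ = r := one_mul r
    refine (Finset.sum_le_sum h2).trans ?_
    rw [← Finset.sum_mul]
    refine mul_le_mul_of_nonneg_right ?_ hM0
    have h3 := Finset.single_le_sum (f := fun n => ∑ j ∈ range (K + 1), |w n j|)
      (fun n _ => sum_nonneg fun j _ => abs_nonneg _) (mem_range.2 (Nat.lt_succ_of_le hn))
    have h4 : (fun n => ∑ j ∈ range (K + 1), |w n j|) n = ∑ j ∈ range (K + 1), |w n j| := rfl
    linarith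
  calc (ρ / r) ^ n * _ ≤ (ρ / r) ^ n *
      ((1 + ∑ n ∈ range (K + 1), ∑ j ∈ range (K + 1), |w n j|) * M) :=
        mul_le_mul_of_nonneg_left h1 (by positivity)
    _ = _ := by ring

theorem sum_hc (P : Po) {K : ℕ} (hP : P.totalDegree ≤ K) (q : V3) :
    eval q P = ∑ n ∈ range (K + 1), eval q (homogeneousComponent n P) := by
  have h1 : P = ∑ n ∈ range (K + 1), homogeneousComponent n P := by
    conv_lhs => rw [← sum_homogeneousComponent P]
    refine Finset.sum_subset (range_subset_range.2 (by omega)) fun n _ hn => ?_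
    rw [mem_range, not_lt] at hn
    exact homogeneousComponent_eq_zero n P (by omega)
  conv_lhs => rw [h1]
  rw [map_sum]

/-- **Growth.** -/
theorem grow (K : ℕ) : ∃ C : ℝ, 1 ≤ C ∧ ∀ (P : Po) (M r ρ : ℝ), P.totalDegree ≤ K → 0 < r →
    r ≤ ρ → (∀ q, Bx r q → |eval q P| ≤ M) → ∀ q, Bx ρ q → |eval q P| ≤ C * M * (ρ / r) ^ K := by
  obtain ⟨C, hC, h⟩ := hc_le K
  have hK0 : (0 : ℝ) ≤ K := Nat.cast_nonneg K
  refine ⟨(K + 1) * C, by nlinarith, fun P M r ρ hP hr hρ hM q hq => ?_⟩
  have hM0 : 0 ≤ M := (abs_nonneg _).trans (hM 0 fun i => by simpa using hr.le)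
  have h1 : 1 ≤ ρ / r := by rwa [le_div_iff₀ hr, one_mul]
  rw [sum_hc P hP q]
  refine (Finset.abs_sum_le_sum_abs _ _).trans ?_
  have h2 : ∀ n ∈ range (K + 1), |eval q (homogeneousComponent n P)| ≤
      C * M * (ρ / r) ^ K := fun n hn =>
    (h P M r ρ hP hr (hr.trans_le hρ) hM n q hq).trans
      (mul_le_mul_of_nonneg_left (pow_le_pow_right₀ h1 (Nat.lt_succ_iff.1 (mem_range.1 hn)))
        (by positivity))
  refine (Finset.sum_le_sum h2).trans (le_of_eq ?_)
  rw [Finset.sum_const, card_range, nsmul_eq_mul]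
  push_cast
  ring

/-! ### Translates -/

/-- The translate: `q ↦ P (q + x)`. -/
noncomputable def trs (x : V3) (P : Po) : Po := bind₁ (fun i => X i + C (x i)) P

theorem eval_trs (x : V3) (P : Po) (q : V3) : eval q (trs x P) = eval (q + x) P := by
  unfold trs
  rw [eval, eval₂Hom_bind₁]
  congr 1
  congr 1
  funext j
  show eval q (X j + C (x j)) = (q + x) j
  rw [map_add, eval_C, eval_X]
  rfl

/-- The degree after an affine substitution. -/
theorem deg_aff {σ τ : Type} (f : σ → MvPolynomial τ ℝ) (hf : ∀ j, (f j).totalDegree ≤ 1)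
    (P : MvPolynomial σ ℝ) : (bind₁ f P).totalDegree ≤ P.totalDegree := by
  classical
  conv_lhs => rw [P.as_sum, map_sum]
  refine (totalDegree_finsetSum _ _).trans (Finset.sup_le fun s hs => ?_)
  rw [bind₁_monomial]
  refine (totalDegree_mul _ _).trans ?_
  rw [totalDegree_C, zero_add]
  refine (totalDegree_finsetProd _ _).trans ?_
  refine le_trans ?_ (le_totalDegree hs)
  rw [Finsupp.sum]
  refine Finset.sum_le_sum fun i _ => ?_
  refine (totalDegree_pow _ _).trans ?_
  have := hf i
  nlinarith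

theorem deg_trs (x : V3) (P : Po) : (trs x P).totalDegree ≤ P.totalDegree := by
  refine deg_aff _ (fun j => ?_) P
  refine (totalDegree_add _ _).trans ?_
  rw [totalDegree_C, totalDegree_X]
  simp

theorem trs_sub (x : V3) (P Q : Po) : trs x (P - Q) = trs x P - trs x Q := by
  unfold trs
  rw [map_sub]

/-- The terms of order less than `b`. -/
noncomputable def low (b : ℕ) (P : Po) : Po := ∑ n ∈ range b, homogeneousComponent n P

theorem low_sub (b : ℕ) (P Q : Po) : low b (P - Q) = low b P - low b Q := by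
  unfold low
  rw [← Finset.sum_sub_distrib]
  exact Finset.sum_congr rfl fun n _ => map_sub _ _ _

theorem deg_low {b : ℕ} (hb : 1 ≤ b) (P : Po) : (low b P).totalDegree ≤ b - 1 := by
  unfold low
  refine (totalDegree_finsetSum _ _).trans (Finset.sup_le fun n hn => ?_)
  refine (homogeneousComponent_isHomogeneous n P).totalDegree_le.trans ?_
  have := mem_range.1 hn
  omega

theorem eval_low (b : ℕ) (P : Po) (q : V3) :
    eval q (low b P) = ∑ n ∈ range b, eval q (homogeneousComponent n P) := by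
  unfold low
  rw [map_sum]

/-- **Near polynomials have near Taylor polynomials.** -/
theorem low_near (K b : ℕ) : ∃ C : ℝ, 1 ≤ C ∧ ∀ (P Q : Po) (x : V3) (ε δ ρ : ℝ),
    P.totalDegree ≤ K → Q.totalDegree ≤ K → 0 < ε → ε ≤ ρ →
    (∀ q, Bx ε (q - x) → |eval q P - eval q Q| ≤ δ) → ∀ q, Bx ρ q →
      |eval q (low b (trs x P)) - eval q (low b (trs x Q))| ≤ C * δ * (ρ / ε) ^ (b - 1) := by
  obtain ⟨C, hC, h⟩ := hc_le K
  refine ⟨1 + b * C, by
    have : (0 : ℝ) ≤ b * C := by positivity
    linarith, fun P Q x ε δ ρ hP hQ hε hρ hd q hq => ?_⟩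
  have h1 : 1 ≤ ρ / ε := by rwa [le_div_iff₀ hε, one_mul]
  have hdeg : (trs x (P - Q)).totalDegree ≤ K :=
    (deg_trs _ _).trans ((totalDegree_sub _ _).trans (max_le hP hQ))
  have hbd : ∀ q, Bx ε q → |eval q (trs x (P - Q))| ≤ δ := by
    intro q hq
    rw [eval_trs, map_sub]
    exact hd _ (by rwa [add_sub_cancel_right])
  have hδ : 0 ≤ δ := (abs_nonneg _).trans (hbd 0 fun i => by simpa using hε.le)
  rw [← map_sub, ← low_sub, ← trs_sub, eval_low]
  refine (Finset.abs_sum_le_sum_abs _ _).trans ?_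
  have h2 : ∀ n ∈ range b, |eval q (homogeneousComponent n (trs x (P - Q)))| ≤
      C * δ * (ρ / ε) ^ (b - 1) := fun n hn =>
    (h _ δ ε ρ hdeg hε (hε.trans_le hρ) hbd n q hq).trans
      (mul_le_mul_of_nonneg_left (pow_le_pow_right₀ h1 (by
        have := mem_range.1 hn
        omega)) (by positivity))
  refine (Finset.sum_le_sum h2).trans ?_
  rw [Finset.sum_const, card_range, nsmul_eq_mul]
  have h3 : 0 ≤ δ * (ρ / ε) ^ (b - 1) := by positivity
  nlinarith

/-- **A bounded polynomial has bounded differences.** -/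
theorem lip_bx (K : ℕ) : ∃ C : ℝ, 1 ≤ C ∧ ∀ (P : Po) (M r δ : ℝ), P.totalDegree ≤ K → 0 < r →
    0 < δ → δ ≤ r / 2 → (∀ q, Bx r q → |eval q P| ≤ M) → ∀ z y, Bx (r / 2) z → Bx δ y →
      |eval (z + y) P - eval z P| ≤ C * M * (δ / r) := by
  obtain ⟨C, hC, h⟩ := hc_le K
  have hK0 : (0 : ℝ) ≤ K := Nat.cast_nonneg K
  refine ⟨1 + K * (C * 2), by
    have : (0 : ℝ) ≤ K * (C * 2) := by positivity
    linarith, fun P M r δ hP hr hδ hδr hM z y hz hy => ?_⟩
  have hM0 : 0 ≤ M := (abs_nonneg _).trans (hM 0 fun i => by simpa using hr.le)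
  have hdeg : (trs z P).totalDegree ≤ K := (deg_trs _ _).trans hP
  have hbd : ∀ q, Bx (r / 2) q → |eval q (trs z P)| ≤ M := by
    intro q hq
    rw [eval_trs]
    exact hM _ (bxm (bxa hq hz) (by linarith))
  have h1 : eval (z + y) P = eval y (trs z P) := by rw [eval_trs, add_comm]
  have h2 : eval z P = eval y (homogeneousComponent 0 (trs z P)) := by
    rw [homogeneousComponent_zero, eval_C]
    have : coeff 0 (trs z P) = eval 0 (trs z P) := by
      rw [← MvPolynomial.constantCoeff_eq, ← MvPolynomial.eval_zero]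
    rw [this, eval_trs, zero_add]
  rw [h1, h2, sum_hc _ hdeg y, Finset.sum_range_succ', add_sub_cancel_right]
  refine (Finset.abs_sum_le_sum_abs _ _).trans ?_
  have hx : δ / (r / 2) ≤ 1 := by rwa [div_le_one (by positivity)]
  have hx0 : 0 ≤ δ / (r / 2) := by positivity
  have h3 : ∀ n ∈ range K, |eval y (homogeneousComponent (n + 1) (trs z P))| ≤
      C * M * (δ / (r / 2)) := fun n _ =>
    (h _ M (r / 2) δ hdeg (by positivity) hδ hbd (n + 1) y hy).trans
      (mul_le_mul_of_nonneg_left (by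
        rw [pow_succ]
        exact mul_le_of_le_one_left hx0 (pow_le_one₀ hx0 hx)) (by positivity))
  refine (Finset.sum_le_sum h3).trans ?_
  rw [Finset.sum_const, card_range, nsmul_eq_mul]
  have h4 : 0 ≤ M * (δ / r) := by positivity
  have h5 : δ / (r / 2) = 2 * (δ / r) := by
    field_simp
  rw [h5]
  nlinarith

theorem bx_zero {r : ℝ} (hr : 0 ≤ r) : Bx r (0 : V3) := fun i => by simpa using hr

/-- **The expansion at a point** of a polynomial which is bounded on a large box. -/
theorem exp_pt (K b : ℕ) : ∃ C : ℝ, 1 ≤ C ∧ ∀ (P : Po) (M R : ℝ) (x : V3), P.totalDegree ≤ K →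
    2 ≤ R → (∀ q, Bx R q → |eval q P| ≤ M) → Bx 1 x → ∀ y, Bx 5 y →
    |eval (y + x) P - eval y (low b (trs x P)) - eval y (homogeneousComponent b P)| ≤
      C * M / R ^ (b + 1) := by
  obtain ⟨C, hC, hc⟩ := hc_le K
  obtain ⟨C', hC', hl⟩ := lip_bx K
  refine ⟨C * C' * 10 ^ b + (K + b + 1) * (C * 10 ^ (K + b + 1)), ?_, ?_⟩
  · have h1 : (1 : ℝ) ≤ 10 ^ b := one_le_pow₀ (by norm_num)
    have h2 : (1 : ℝ) ≤ C * C' := by nlinarith
    have h3 : (0 : ℝ) ≤ (K + b + 1) * (C * 10 ^ (K + b + 1)) := by positivity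
    nlinarith
  intro P M R x hP hR hM hx y hy
  have hM0 : 0 ≤ M := (abs_nonneg _).trans (hM 0 (bx_zero (by linarith)))
  obtain ⟨D, hD⟩ : ∃ D, D = trs x P := ⟨_, rfl⟩
  have hDd : D.totalDegree ≤ K := by
    rw [hD]
    exact (deg_trs _ _).trans hP
  have hDb : ∀ q, Bx (R / 2) q → |eval q D| ≤ M := by
    intro q hq
    rw [hD, eval_trs]
    exact hM _ (bxm (bxa hq hx) (by linarith))
  have h1 : eval (y + x) P = eval y D := by rw [hD, eval_trs]
  obtain ⟨N, hN⟩ : ∃ N, N = K + b + 1 := ⟨_, rfl⟩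
  have h2 : eval y D = ∑ n ∈ range (N + 1), eval y (homogeneousComponent n D) :=
    sum_hc D (by omega) y
  have h3 : N + 1 = b + (1 + (K + 1)) := by omega
  rw [h3, Finset.sum_range_add, Finset.sum_range_add, Finset.sum_range_one, add_zero] at h2
  have h4 : |eval y (homogeneousComponent b D) - eval y (homogeneousComponent b P)| ≤
      C * (C' * M * (1 / R)) * (5 / (R / 2)) ^ b := by
    rw [← map_sub, ← map_sub]
    refine hc (D - P) (C' * M * (1 / R)) (R / 2) 5 ?_ (by linarith) (by norm_num) ?_ b y hy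
    · exact (totalDegree_sub _ _).trans (max_le hDd hP)
    · intro z hz
      rw [map_sub, hD, eval_trs]
      exact hl P M R 1 hP (by linarith) one_pos (by linarith) hM z x hz hx
  have hR0 : (0 : ℝ) < R := by linarith
  have h5 : ∀ n ∈ range (K + 1), |eval y (homogeneousComponent (b + (1 + n)) D)| ≤
      C * M * 10 ^ N / R ^ (b + 1) := by
    intro n hn
    have hn' := mem_range.1 hn
    have e1 := hc D M (R / 2) 5 hDd (by linarith) (by norm_num) hDb (b + (1 + n)) y hy
    refine e1.trans ?_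
    have e2 : (5 / (R / 2)) ^ (b + (1 + n)) = 10 ^ (b + (1 + n)) / R ^ (b + (1 + n)) := by
      rw [← div_pow]
      congr 1
      field_simp
      norm_num
    rw [e2, mul_div_assoc]
    refine mul_le_mul_of_nonneg_left ?_ (by positivity)
    refine div_le_div₀ (by positivity) (pow_le_pow_right₀ (by norm_num) (by omega))
      (by positivity) (pow_le_pow_right₀ (by linarith) (by omega))
  have h6 : |∑ n ∈ range (K + 1), eval y (homogeneousComponent (b + (1 + n)) D)| ≤
      (K + 1) * (C * M * 10 ^ N / R ^ (b + 1)) := by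
    refine (Finset.abs_sum_le_sum_abs _ _).trans ((Finset.sum_le_sum h5).trans (le_of_eq ?_))
    rw [Finset.sum_const, card_range, nsmul_eq_mul]
    push_cast
    ring
  have h7 : C * (C' * M * (1 / R)) * (5 / (R / 2)) ^ b = C * C' * 10 ^ b * M / R ^ (b + 1) := by
    have e2 : (5 / (R / 2)) ^ b = 10 ^ b / R ^ b := by
      rw [← div_pow]
      congr 1
      field_simp
      norm_num
    rw [e2, pow_succ]
    field_simp
  have h8 : eval (y + x) P - eval y (low b (trs x P)) - eval y (homogeneousComponent b P) =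
      (eval y (homogeneousComponent b D) - eval y (homogeneousComponent b P)) +
        ∑ n ∈ range (K + 1), eval y (homogeneousComponent (b + (1 + n)) D) := by
    rw [h1, h2, ← hD, eval_low]
    ring
  rw [h8]
  refine (abs_add_le _ _).trans ((add_le_add h4 h6).trans ?_)
  have e4 : (C * C' * 10 ^ b + ((K : ℝ) + b + 1) * (C * 10 ^ N)) * M / R ^ (b + 1) =
      C * C' * 10 ^ b * M / R ^ (b + 1) + ((K : ℝ) + b + 1) * (C * 10 ^ N) * M / R ^ (b + 1) := by
    ring
  rw [h7, ← hN, e4]
  refine add_le_add le_rfl ?_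
  have e3 : ((K : ℝ) + 1) * (C * M * 10 ^ N / R ^ (b + 1)) =
      ((K : ℝ) + 1) * (C * 10 ^ N) * M / R ^ (b + 1) := by ring
  rw [e3]
  refine div_le_div_of_nonneg_right ?_ (by positivity)
  refine mul_le_mul_of_nonneg_right ?_ hM0
  refine mul_le_mul_of_nonneg_right ?_ (by positivity)
  have : (0 : ℝ) ≤ b := Nat.cast_nonneg b
  linarith

/-- **The Taylor polynomials at two points.** -/
theorem low_pt (K b : ℕ) : ∃ C : ℝ, 1 ≤ C ∧ ∀ (P : Po) (M R : ℝ) (x : V3), P.totalDegree ≤ K →
    2 ≤ R → (∀ q, Bx R q → |eval q P| ≤ M) → Bx 1 x → ∀ q, Bx 4 q →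
    |eval q (low b P) - eval (q - x) (low b (trs x P))| ≤ C * M / R ^ b := by
  obtain ⟨C, hC, he⟩ := exp_pt K b
  obtain ⟨C', hC', hc⟩ := hc_le K
  refine ⟨2 * C + 2 * (C' * 5 ^ b), by
    have : (0 : ℝ) ≤ C' * 5 ^ b := by positivity
    linarith, ?_⟩
  intro P M R x hP hR hM hx q hq
  have hM0 : 0 ≤ M := (abs_nonneg _).trans (hM 0 (bx_zero (by linarith)))
  have hqx : Bx 5 (q - x) := bxm (bxs hq hx) (by norm_num)
  have hq5 : Bx 5 q := bxm hq (by norm_num)
  have h1 := he P M R x hP hR hM hx (q - x) hqx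
  have h2 := he P M R 0 hP hR hM (bx_zero zero_le_one) q hq5
  have h3 : trs 0 P = P := by
    refine MvPolynomial.funext fun z => ?_
    rw [eval_trs, add_zero]
  rw [sub_add_cancel] at h1
  rw [add_zero, h3] at h2
  have h4 := hc P M R 5 hP (by linarith) (by norm_num) hM b q hq5
  have h5 := hc P M R 5 hP (by linarith) (by norm_num) hM b (q - x) hqx
  have hR0 : (0 : ℝ) < R := by linarith
  have h6 : C * M / R ^ (b + 1) ≤ C * M / R ^ b :=
    div_le_div_of_nonneg_left (by positivity) (by positivity)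
      (pow_le_pow_right₀ (by linarith) (by omega))
  have h7 : C' * M * (5 / R) ^ b = C' * 5 ^ b * M / R ^ b := by
    rw [div_pow]
    ring
  rw [h7] at h4 h5
  have h8 : eval q (low b P) - eval (q - x) (low b (trs x P)) =
      (eval q P - eval (q - x) (low b (trs x P)) -
        eval (q - x) (homogeneousComponent b P)) -
      (eval q P - eval q (low b P) - eval q (homogeneousComponent b P)) -
      eval q (homogeneousComponent b P) + eval (q - x) (homogeneousComponent b P) := by ring
  rw [h8]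
  have e1 := abs_add_le ((eval q P - eval (q - x) (low b (trs x P)) -
        eval (q - x) (homogeneousComponent b P)) -
      (eval q P - eval q (low b P) - eval q (homogeneousComponent b P)) -
      eval q (homogeneousComponent b P)) (eval (q - x) (homogeneousComponent b P))
  have e2 := abs_sub ((eval q P - eval (q - x) (low b (trs x P)) -
        eval (q - x) (homogeneousComponent b P)) -
      (eval q P - eval q (low b P) - eval q (homogeneousComponent b P)))
      (eval q (homogeneousComponent b P))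
  have e3 := abs_sub (eval q P - eval (q - x) (low b (trs x P)) -
        eval (q - x) (homogeneousComponent b P))
      (eval q P - eval q (low b P) - eval q (homogeneousComponent b P))
  have e4 : (2 * C + 2 * (C' * 5 ^ b)) * M / R ^ b =
      2 * (C * M / R ^ b) + 2 * (C' * 5 ^ b * M / R ^ b) := by ring
  rw [e4]
  linarith

/-! ### Scaling -/

/-- The scaled polynomial: `q ↦ P (s q)`. -/
noncomputable def scl (s : ℝ) (P : Po) : Po := bind₁ (fun i => C s * X i) P

theorem eval_scl (s : ℝ) (P : Po) (q : V3) : eval q (scl s P) = eval (s • q) P := by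
  unfold scl
  rw [eval, eval₂Hom_bind₁]
  congr 1
  congr 1
  funext j
  show eval q (C s * X j) = (s • q) j
  rw [map_mul, eval_C, eval_X]
  rfl

theorem deg_scl (s : ℝ) (P : Po) : (scl s P).totalDegree ≤ P.totalDegree := by
  refine deg_aff _ (fun j => ?_) P
  refine (totalDegree_mul _ _).trans ?_
  rw [totalDegree_C, totalDegree_X]

theorem hc_scl (s : ℝ) (P : Po) (n : ℕ) (q : V3) :
    eval q (homogeneousComponent n (scl s P)) = s ^ n * eval q (homogeneousComponent n P) := by
  obtain ⟨w, hw⟩ := hc_node P.totalDegree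
  rw [hw _ (deg_scl s P), ← hom_smul (homogeneousComponent_isHomogeneous n P), hw _ le_rfl]
  refine Finset.sum_congr rfl fun j _ => ?_
  rw [eval_scl, smul_comm]

/-- **The component of order `b` at a near reference point**, after scaling. -/
theorem ref_pt (K b : ℕ) : ∃ C : ℝ, 1 ≤ C ∧ ∀ (P : Po) (M s δ : ℝ) (x : V3), P.totalDegree ≤ K →
    0 < s → 0 < δ → δ ≤ 1 / 2 → (∀ q, Bx 1 q → |eval q P| ≤ M) → Bx δ x → ∀ q, Bx 5 q →
    |eval q (homogeneousComponent b (scl s (trs x P))) -
      s ^ b * eval q (homogeneousComponent b P)| ≤ C * M * s ^ b * δ := by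
  obtain ⟨C, hC, hc⟩ := hc_le K
  obtain ⟨C', hC', hl⟩ := lip_bx K
  refine ⟨C * C' * 10 ^ b, by
    have h1 : (1 : ℝ) ≤ 10 ^ b := one_le_pow₀ (by norm_num)
    have h2 : (1 : ℝ) ≤ C * C' := by nlinarith
    nlinarith, ?_⟩
  intro P M s δ x hP hs hδ hδ1 hM hx q hq
  rw [hc_scl, ← mul_sub, ← map_sub, ← map_sub, abs_mul, abs_of_pos (by positivity)]
  have h1 := hc (trs x P - P) (C' * M * δ) (1 / 2) 5
    ((totalDegree_sub _ _).trans (max_le ((deg_trs _ _).trans hP) hP)) (by norm_num) (by norm_num)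
    (fun z hz => by
      rw [map_sub, eval_trs]
      have := hl P M 1 δ hP one_pos hδ hδ1 hM z x hz hx
      rwa [div_one] at this) b q hq
  calc s ^ b * _ ≤ s ^ b * (C * (C' * M * δ) * (5 / (1 / 2)) ^ b) :=
        mul_le_mul_of_nonneg_left h1 (by positivity)
    _ = _ := by
        rw [show (5 : ℝ) / (1 / 2) = 10 by norm_num]
        ring

end Pool.STB65
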