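import Pool.Agent.H65.STB.Vn1

/-!
# The input of the jets for the third place itself

`u_inp`: the labels of `c 2` at the balls, and a closed label of the window `W` near the label of the
last ball, minus the closed polynomial of the window.
-/

set_option autoImplicit false

namespace Pool.STB65

open Finset Real MvPolynomial
open Pool.Agent.H49.Ent Pool.Agent.H32.Dense Pool.STK Pool.KA Pool.KSAT Pool.K2S Pool.PB Pool.S6C
open Pool.GEN Pool.CHT Pool.NVX
open Pool.STB (V3 Po Bx)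
open Pool.STB77 (Inc vpl vpt vnr ypt cos cos_slam vpl_deg vpl_eval)
open Pool.STB82 (yv)

/-- **The input of the jets for `c 2`**, and the value at the sample. -/
theorem u_inp (D b : ℕ) : ∃ C K : ℕ, ∀ {m J : ℕ} {F : Fam m J} {c : ℕ → Fin m}
    {N W s v gS : ℕ} {A : ℕ → ℕ} {e : ℕ → ℕ} {g : ℕ → ℕ → ℕ} {B : F.Ω → Prop}
    {G : ℕ → PtT F → ℕ → MvPolynomial (Option (Fin m)) ℝ}
    {H : ℕ → LnT F → ℕ → MvPolynomial (Option (Fin m)) ℝ}
    {pP : PtT F → ℕ → MvPolynomial (Option (Fin m)) ℝ}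
    {pH : LnT F → ℕ → MvPolynomial (Option (Fin m)) ℝ}
    {US : LnT F → MvPolynomial (Option (Fin m)) ℝ},
    Inc F c D N W s v A e g B G H pP pH → N ≤ s →
    (∀ S, (US S).totalDegree ≤ D) → (∀ S, DepC c 2 (US S)) →
    (∀ ω, B ω → ∀ b', NBx c (G N (ptr F J ω)) (g N) (A N) (F.t ω) 2 b' →
      |eval b' (US (slam F W ω)) - eval b' (G N (ptr F J ω) 2)| ≤ 2 ^ s / 2 ^ gS) →
    (∀ k ≤ N, g 0 2 + b * (A k - W) ≤ g k 2 + s) → g 0 2 + b * (A N - W) ≤ gS + s →
    ∃ (f : ℕ → PtT F → Po) (f' : ℕ → LnT F → Po) (kf : LnT F → Po),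
      InpF F B W N K b (2 ^ (C * (s + v + 1))) (yv F c W (g 0 1) (fun S => pH S 1))
        (fun k => A k - W) f f' kf ∧
      ∀ k ≤ N, ∀ ω, B ω → |eval (yv F c W (g 0 1) (fun S => pH S 1) ω) (f k (ptr F J ω)) -
        2 ^ g 0 2 * (F.x ω (c 2) - eval (bt F ω) (pP (ptr F J ω) 2))| ≤
        2 ^ (C * (s + v + 1)) * (1 / 2 ^ (A k - W)) ^ b := by
  obtain ⟨C₂, hin⟩ := vtg D b
  obtain ⟨C₁, hvd⟩ := vdlz D
  refine ⟨(C₂ + 1) * (C₁ + 4), D * (D + 1), ?_⟩
  intro m J F c N W s v gS A e g B G H pP pH US I hNs hUd hUe hus hg hgS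
  have pw : ∀ {x y : ℕ}, x ≤ y → (2 : ℝ) ^ x ≤ 2 ^ y := fun h => pow_le_pow_right₀ (by norm_num) h
  have hWJ : W ≤ J := (I.AmW (Nat.zero_le N)).trans (I.AJ 0 (Nat.zero_le N))
  have hc2 : Set.InjOn c (Set.Iio 2) := I.inj.mono fun x (hx : x < 2) => show x < 3 by omega
  obtain ⟨z, hz⟩ : ∃ z, z = s + v + 1 := ⟨_, rfl⟩
  obtain ⟨S', hS'⟩ : ∃ S', S' = (C₁ + 2) * z := ⟨_, rfl⟩
  have hsS : 2 * s ≤ S' := by
    rw [hS', hz]
    nlinarith [Nat.zero_le (C₁ * (s + v + 1))]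
  have hS1 : C₁ * (s + v + 1) + 2 * s ≤ S' := by
    rw [hS', hz]
    nlinarith [Nat.zero_le (C₁ * (s + v + 1))]
  have I' := inc_mono I le_rfl (show s ≤ S' by omega)
  have nm : ∀ {x y n : ℕ}, x ≤ y + s → n + s ≤ S' → (2 : ℝ) ^ n / 2 ^ y ≤ 2 ^ S' / 2 ^ x := by
    intro x y n hxy hn
    rw [div_le_div_iff₀ (by positivity) (by positivity), ← pow_add, ← pow_add]
    exact pw (by omega)
  have T' : TgV F c D N W S' A g B G pP b (g 0 2) (fun k y => G k y 2) (fun k S => H k S 2) US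
      (fun y => pP y 2) (fun S => pH S 2) := by
    refine ⟨fun k hk y => (I.ok k hk).degG y 2, fun k hk S => (I.ok k hk).degH S 2, hUd,
      fun y => I.pd y 2, fun S => I.hd S 2, fun k hk y => (I.ok k hk).depG y 2,
      fun k hk S => (I.ok k hk).depH S 2, fun y => I.pe y 2, fun ω hω => I.pc ω hω 2, ?_, ?_, ?_, ?_⟩
    · exact fun k hk ω hω b' hb => (I.uni k hk 2 (by norm_num) ω hω b' hb).trans
        (nm (hg k hk.le) (by omega))
    · intro k hk ω hω b' hb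
      refine ((I.ok k hk).agr ω hω 2 (by norm_num) b' hb).trans ?_
      have h1 := nm (n := 0) (hg k hk) (by omega)
      rwa [pow_zero] at h1
    · intro ω hω r hr
      have ok := I.ok N le_rfl
      have h1 := hvd (Q := US (slam F W ω) - G N (ptr F J ω) 2) (M := 2 ^ s / 2 ^ gS) I hNs
        le_rfl hω hr ((totalDegree_sub _ _).trans (max_le (hUd _) (ok.degG _ _)))
        (fun x y hn hb => by rw [map_sub, map_sub, hUe _ x y hn hb, ok.depG _ 2 x y hn hb])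
        (by positivity) (fun b' hb => by
          rw [map_sub]
          exact hus ω hω b' hb)
      rw [map_sub, ← mul_div_assoc, ← pow_add] at h1
      exact h1.trans (nm hgS (by omega))
    · intro ω hω b' hb
      rw [abs_sub_comm]
      exact (I.pn ω hω 2 (by norm_num) (by norm_num) b' hb).trans (nm (by omega) (by omega))
  have hin' := (hin I' (hNs.trans (by omega)) T').up (pw (show C₂ * (S' + v + 1) ≤
    (C₂ + 1) * (C₁ + 4) * (s + v + 1) by
      rw [hS', ← hz]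
      have h1 : v + 1 ≤ z := by omega
      have h2 : C₂ * ((C₁ + 2) * z + v + 1) ≤ C₂ * ((C₁ + 2) * z + z) :=
        Nat.mul_le_mul_left _ (by omega)
      refine h2.trans ?_
      have h3 : (C₂ + 1) * (C₁ + 4) * z = C₂ * ((C₁ + 2) * z + z) + (C₂ + (C₁ + 4)) * z := by ring
      rw [h3]
      exact Nat.le_add_right _ _))
  refine ⟨_, _, _, hin', fun k hk ω hω => ?_⟩
  have ok := I.ok k hk
  have e1 : eval (yv F c W (g 0 1) (fun S => pH S 1) ω)
      (tgP F c W (g 0 1) (g 0 2) (fun y => pP y 1) (fun y => G (min k N) y 2 - pP y 2)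
        (ptr F J ω)) =
      2 ^ g 0 2 * (eval (bt F ω) (G k (ptr F J ω) 2) - eval (bt F ω) (pP (ptr F J ω) 2)) := by
    have h2 := tgP_eval F c W (g 0 1) (g 0 2) (fun y => pP y 1) (fun y => G k y 2 - pP y 2) ω 0
    rw [add_zero] at h2
    rw [Nat.min_eq_left hk, yv_ypt F c W (g 0 1) (fun S => pH S 1) (pP (ptr F J ω) 1) ω
      (I.pc ω hω 1).symm, h2, vnr_zr hWJ hc2 (I.pe _ 1) ω (fun x y hn hb => by
        rw [map_sub, map_sub, ok.depG _ 2 x y hn hb, I.pe _ 2 x y hn hb]), map_sub]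
  show |eval (yv F c W (g 0 1) (fun S => pH S 1) ω)
      (tgP F c W (g 0 1) (g 0 2) (fun y => pP y 1) (fun y => G (min k N) y 2 - pP y 2)
        (ptr F J ω)) - _| ≤ _
  rw [e1, ← mul_sub, abs_mul, abs_of_pos (by positivity : (0 : ℝ) < 2 ^ g 0 2)]
  have e2 : eval (bt F ω) (G k (ptr F J ω) 2) - eval (bt F ω) (pP (ptr F J ω) 2) -
      (F.x ω (c 2) - eval (bt F ω) (pP (ptr F J ω) 2)) =
      -(F.x ω (c 2) - eval (bt F ω) (G k (ptr F J ω) 2)) := by ring
  rw [e2, abs_neg]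
  have h1 := nm (n := 0) (hg k hk) (by omega)
  rw [pow_zero] at h1
  refine (mul_le_mul_of_nonneg_left ((ok.pos ω hω 2 (by norm_num)).trans h1)
    (by positivity)).trans ?_
  have e3 : (2 : ℝ) ^ g 0 2 * (2 ^ S' / 2 ^ (g 0 2 + b * (A k - W))) =
      2 ^ S' * (1 / 2 ^ (A k - W)) ^ b := by
    rw [one_div, inv_pow, ← pow_mul, pow_add, Nat.mul_comm (A k - W) b]
    field_simp
  rw [e3]
  refine mul_le_mul_of_nonneg_right (pw ?_) (by positivity)
  rw [hS', ← hz]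
  exact Nat.mul_le_mul_right _ (by nlinarith [Nat.zero_le (C₂ * C₁)])

end Pool.STB65
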