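import Pool.Agent.H65.STB.Ncl
import Pool.Agent.H65.STB.Uin
import Pool.Agent.H77.STB.Nn5

/-!
# The input of the jets for a static third place, in a class

`UcO`: the output. `u_cls`: the class theorem for the place `c 2`.
-/

set_option autoImplicit false

namespace Pool.STB65

open Finset Real MvPolynomial
open Pool.Agent.H49.Ent Pool.Agent.H32.Dense Pool.STK Pool.KA Pool.KSAT Pool.K2S Pool.PB Pool.S6C
open Pool.GEN Pool.CHT Pool.NVX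
open Pool.STB (V3 Po Bx)
open Pool.STB77 (Inc Nls NodW NodF inc_cls grd_p2)
open Pool.STB82 (yv)

variable {m : ℕ}

/-- **The output for a static third place**: the labels at the balls, the closed polynomials of the
window, the input of the jets for `c 2` minus the closed polynomial, its value at the sample, and the
gradients of the closed polynomial. -/
structure UcO {J : ℕ} (F : Fam m J) (c : ℕ → Fin m) (D K b N W s v y e X : ℕ)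
    (A ee : ℕ → ℕ) (g : ℕ → ℕ → ℕ) (B : F.Ω → Prop)
    (G : ℕ → PtT F → ℕ → MvPolynomial (Option (Fin m)) ℝ)
    (H : ℕ → LnT F → ℕ → MvPolynomial (Option (Fin m)) ℝ)
    (pP : PtT F → ℕ → MvPolynomial (Option (Fin m)) ℝ)
    (pH : LnT F → ℕ → MvPolynomial (Option (Fin m)) ℝ) (xP : PtT F → ℝ) (xH : LnT F → ℝ)
    (f : ℕ → PtT F → Po) (f' : ℕ → LnT F → Po) (kf : LnT F → Po) : Prop where
  inc : Inc F c D N W s v A ee g B G H pP pH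
  Ns : N ≤ s
  n0' : W ≤ g 0 0 + s
  hp : ∀ S l, DepC c l (pH S l)
  xc : ∀ ω, B ω → xP (ptr F J ω) = xH (slam F W ω)
  xn : ∀ ω, B ω → |xP (ptr F J ω) - 2 ^ W * F.x ω (c 0)| ≤ 2 ^ s
  pg : ∀ ω, B ω → ∀ b' : Option (Fin m) → ℝ, |b' none - F.t ω| ≤ 1 / 2 ^ W →
    |b' (some (c 0)) - F.x ω (c 0)| ≤ 1 / 2 ^ W →
    |eval b' (pderiv (some (c 0)) (pP (ptr F J ω) 1))| ≤ 2 ^ (s + e)
  inp : InpF F B W N K b (2 ^ y) (yv F c W (g 0 1) (fun S => pH S 1)) (fun k => A k - W) f f' kf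
  val : ∀ k ≤ N, ∀ ω, B ω → |eval (yv F c W (g 0 1) (fun S => pH S 1) ω) (f k (ptr F J ω)) -
    2 ^ g 0 2 * (F.x ω (c 2) - eval (bt F ω) (pP (ptr F J ω) 2))| ≤
    2 ^ y * (1 / 2 ^ (A k - W)) ^ b
  gT : ∀ k ≤ N, ∀ ω, B ω → ∀ b', NBx c (G k (ptr F J ω)) (g k) (A k) (F.t ω) 2 b' → ∀ l < 2,
    |eval b' (pderiv (some (c l)) (pP (ptr F J ω) 2))| ≤ 2 ^ (X + nlp (g 0) l 2)

/-- Smaller events. -/
theorem UcO.sub {J : ℕ} {F : Fam m J} {c : ℕ → Fin m} {D K b N W s v y e X : ℕ}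
    {A ee : ℕ → ℕ} {g : ℕ → ℕ → ℕ} {B B' : F.Ω → Prop}
    {G : ℕ → PtT F → ℕ → MvPolynomial (Option (Fin m)) ℝ}
    {H : ℕ → LnT F → ℕ → MvPolynomial (Option (Fin m)) ℝ}
    {pP : PtT F → ℕ → MvPolynomial (Option (Fin m)) ℝ}
    {pH : LnT F → ℕ → MvPolynomial (Option (Fin m)) ℝ} {xP : PtT F → ℝ} {xH : LnT F → ℝ}
    {f : ℕ → PtT F → Po} {f' : ℕ → LnT F → Po} {kf : LnT F → Po}
    (h : UcO F c D K b N W s v y e X A ee g B G H pP pH xP xH f f' kf) (hB : Sub B' B) :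
    UcO F c D K b N W s v y e X A ee g B' G H pP pH xP xH f f' kf :=
  { h with
    inc := inc_less h.inc hB
    xc := fun ω hω => h.xc ω (hB ω hω)
    xn := fun ω hω => h.xn ω (hB ω hω)
    pg := fun ω hω => h.pg ω (hB ω hω)
    inp := h.inp.sub hB
    val := fun k hk ω hω => h.val k hk ω (hB ω hω)
    gT := fun k hk ω hω => h.gT k hk ω (hB ω hω) }

/-- **The input of the jets for a static third place, in a class**: balls `ι`, the static node `j₀`. -/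
theorem u_cls (D b : ℕ) : ∃ C₀ C D' K : ℕ, D ≤ D' ∧ ∀ {m : ℕ} {S : PCl m}
    {c : ℕ → Fin m} {β : ℕ → ℝ → ℝ → ℝ} {e E : ℝ} (_ : TmH S) (_ : Set.InjOn c (Set.Iio 3))
    (M : ℕ) (AA WW : ℕ → ℝ) (_ : ∀ k < M, 0 ≤ WW k) (_ : ∀ k < M, WW k ≤ AA k)
    (_ : ∀ k < M, AA k < 1) (_ : ∀ j < M, ∀ k < M, AA j ≤ AA k → WW j ≤ WW k →
      β 2 (AA j) (WW j) ≤ β 2 (AA k) (WW k))
    (_ : ∀ k < M, NodF S c 2 D β e E (AA k) (WW k)) (N : ℕ) (ι : ℕ → ℕ)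
    (_ : ∀ k ≤ N, ι k < M ∧ WW (ι k) = AA (ι k)) (_ : ∀ k < N, AA (ι k) ≤ AA (ι (k + 1)))
    (j₀ : ℕ) (_ : j₀ < M ∧ AA j₀ = AA (ι N) ∧ WW j₀ = AA (ι 0))
    (v s₀ : ℝ) (_ : ∀ k < N, AA (ι (k + 1)) ≤ AA (ι k) + v) (_ : 0 ≤ s₀)
    (_ : ∀ k ≤ N, β 0 (AA (ι k)) (WW (ι k)) ≤ AA (ι k) + s₀)
    (_ : AA (ι 0) ≤ β 0 (AA (ι 0)) (WW (ι 0)) + s₀) (_ : AA (ι 0) ≤ β 1 (AA (ι 0)) (WW (ι 0)))
    (_ : ∀ k ≤ N, β 1 (AA (ι k)) (WW (ι k)) ≤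
      β 1 (AA (ι 0)) (WW (ι 0)) + (AA (ι k) - AA (ι 0)) + s₀)
    (_ : ∀ k ≤ N, β 1 (AA (ι 0)) (WW (ι 0)) + (AA (ι k) - AA (ι 0)) ≤
      β 1 (AA (ι k)) (WW (ι k)) + s₀) (_ : 0 ≤ β 2 (AA (ι 0)) (WW (ι 0)))
    (_ : ∀ k ≤ N, β 2 (AA (ι 0)) (WW (ι 0)) + b * (AA (ι k) - AA (ι 0)) ≤
      β 2 (AA (ι k)) (WW (ι k)) + s₀)
    (_ : β 2 (AA (ι 0)) (WW (ι 0)) + b * (AA (ι N) - AA (ι 0)) ≤ β 2 (AA j₀) (WW j₀) + s₀)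
    (_ : ∀ k ≤ N, ∀ l < 3, β l (AA (ι 0)) (WW (ι 0)) ≤ β l (AA (ι k)) (WW (ι k)) + s₀)
    (Dr : ℕ) (s : ℝ) (_ : 0 < s),
    ∃ (K₁ : ℝ) (d : ℕ → ℕ → ℝ) (ψ : ℝ), 0 < K₁ ∧ 0 < ψ ∧
      (∀ k < M, ∀ l ≤ 2, 0 < d k l ∧ d k l ≤ s ∧ d k l < AA k) ∧
      Bas S (fun J F A => ∃ (B : F.Ω → Prop)
          (Gn : ℕ → PtT F → ℕ → MvPolynomial (Option (Fin m)) ℝ)
          (Hn : ℕ → LnT F → ℕ → MvPolynomial (Option (Fin m)) ℝ)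
          (pP : PtT F → ℕ → MvPolynomial (Option (Fin m)) ℝ)
          (pH : LnT F → ℕ → MvPolynomial (Option (Fin m)) ℝ) (xP : PtT F → ℝ) (xH : LnT F → ℝ)
          (f : ℕ → PtT F → Po) (f' : ℕ → LnT F → Po) (kf : LnT F → Po), Sub B A ∧
          Pe F.p A ≤ K₁ * Pe F.p B ∧
          Nls F c 2 D Dr M ⌊s * J⌋₊ (fun j k => AA j ≤ AA k ∧ WW j ≤ WW k)
            (fun k => ⌊AA k * J⌋₊) (fun k => ⌊WW k * J⌋₊) ⌊e * J⌋₊ ⌊(E + s) * J⌋₊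
            (fun k l => ⌊(β l (AA k) (WW k) - d k l) * J⌋₊) ⌊s * J⌋₊ (Real.exp (-(ψ * J)))
            B Gn Hn ∧
          UcO F c D' K b N ⌊AA (ι 0) * J⌋₊ (C₀ * (⌊(s₀ + 3 * s) * J⌋₊ + 1)) (⌊v * J⌋₊ + 1)
            (C * (⌊(s₀ + 3 * s) * J⌋₊ + ⌊v * J⌋₊ + 1)) ⌊e * J⌋₊
            (C * (⌊(s₀ + 3 * s) * J⌋₊ + 1) + ⌊(E + s) * J⌋₊)
            (fun k => ⌊AA (ι k) * J⌋₊) (fun _ => ⌊(E + s) * J⌋₊)
            (fun k l => ⌊(β l (AA (ι k)) (WW (ι k)) - d (ι k) l) * J⌋₊) B (fun k => Gn (ι k))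
            (fun k => Hn (ι k)) pP pH xP xH f f' kf) := by
  classical
  obtain ⟨C₁, D₁, hDD₁, hinc⟩ := inc_cls D
  obtain ⟨C₂, K, hin⟩ := u_inp D₁ b
  obtain ⟨C₃, hgrd⟩ := grd_p2 D₁
  obtain ⟨C₀, hC₀⟩ : ∃ C₀, C₀ = C₁ + 1 := ⟨_, rfl⟩
  refine ⟨C₀, C₂ * (C₀ + 3) + C₃ * (C₀ + 1), D₁, K, hDD₁, ?_⟩
  intro m S c β e E hS hc M AA WW hW0 hWA hA1 hmon hN N ι hι ham j₀ hj₀ v s₀ hav hs₀
    hn0 hn0' hg1 hn1 hn1' hg2 hn2 hnS hgm Dr s hs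
  have hAA0 : ∀ k ≤ N, AA (ι 0) ≤ AA (ι k) := by
    intro k
    induction k with
    | zero => exact fun _ => le_rfl
    | succ k ih => exact fun hk => (ih (by omega)).trans (ham k (by omega))
  have h00 : 0 ≤ AA (ι 0) := (hW0 _ (hι 0 (Nat.zero_le _)).1).trans
    (hWA _ (hι 0 (Nat.zero_le _)).1)
  obtain ⟨K₁, d, ψ, hK₁, hψ, hd, hbas⟩ := hinc (r := 2) le_rfl hS hc M AA WW hW0 hWA hA1
    hmon hN N ι (fun k hk => (hι k hk).1) (fun k hk => (hι k hk).2)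
    ham v s₀ hav hs₀ hn0 hn0' hg1 hn1 hn1' Dr s s hs hs
  obtain ⟨J₁, hJ₁⟩ := exists_nat_ge (((b : ℝ) + N + 6) / s)
  refine ⟨K₁, d, ψ, hK₁, hψ, hd, Bas.mono J₁ hbas ?_⟩
  rintro J hJ F A ⟨B, Gn, Hn, xP, xH, pP, pH, b1, b2, b3, b4, b5, b6, b7, b8, b9⟩
  have hJ0 : (0 : ℝ) ≤ J := Nat.cast_nonneg J
  have hb0 : (0 : ℝ) ≤ b := Nat.cast_nonneg b
  have hN0 : (0 : ℝ) ≤ N := Nat.cast_nonneg N
  have n1 : (b : ℝ) + N + 6 ≤ s * J := by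
    have h1 := hJ₁.trans (show (J₁ : ℝ) ≤ J by exact_mod_cast hJ)
    rw [div_le_iff₀ hs] at h1
    linarith
  have n2 : N ≤ ⌊s * (J : ℝ)⌋₊ := Nat.le_floor (by linarith)
  have n3 : ⌊s * (J : ℝ)⌋₊ ≤ ⌊(s₀ + 3 * s) * (J : ℝ)⌋₊ := Nat.floor_le_floor
    (mul_le_mul_of_nonneg_right (by linarith) hJ0)
  obtain ⟨n, hn⟩ : ∃ n, n = ⌊(s₀ + 3 * s) * (J : ℝ)⌋₊ := ⟨_, rfl⟩
  have hx3 : ∀ {X i : ℕ} {Y : ℝ}, (X : ℝ) ≤ Y * J + b → i < M → Y ≤ β 2 (AA i) (WW i) + s₀ →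
      X ≤ ⌊(β 2 (AA i) (WW i) - d i 2) * (J : ℝ)⌋₊ + n := by
    intro X i Y h1 h2 h3
    rw [hn]
    exact x3_num (β := fun _ => β 2) (d := fun k _ => d k 2) h1 hs₀ (by linarith) h2
      (fun k hk _ _ => ⟨(hd k hk 2 le_rfl).1, (hd k hk 2 le_rfl).2.1⟩) h3
  rw [← hn] at n3 b4 b5 b8 b9 ⊢
  have n4 : n + 1 ≤ C₀ * (n + 1) := Nat.le_mul_of_pos_left _ (by omega)
  have n5 : C₁ * (n + 1) ≤ C₀ * (n + 1) := Nat.mul_le_mul_right _ (by omega)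
  have pw : ∀ {x y : ℕ}, x ≤ y → (2 : ℝ) ^ x ≤ 2 ^ y := fun h =>
    pow_le_pow_right₀ (by norm_num) h
  have hI := inc_mono b4 le_rfl n5
  have hgk : ∀ k ≤ N, ((⌊(β 2 (AA (ι 0)) (WW (ι 0)) - d (ι 0) 2) * (J : ℝ)⌋₊ +
      b * (⌊AA (ι k) * (J : ℝ)⌋₊ - ⌊AA (ι 0) * (J : ℝ)⌋₊) : ℕ) : ℝ) ≤
      (β 2 (AA (ι 0)) (WW (ι 0)) + b * (AA (ι k) - AA (ι 0))) * J + b := fun k hk =>
    g3_hi (J := J) (β := fun _ => β 2) (d := fun k _ => d k 2) hg2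
      (hd _ (hι 0 (Nat.zero_le _)).1 2 le_rfl).1.le h00 (hAA0 k hk)
  have nodj := b3.nod j₀ hj₀.1
  obtain ⟨f, f', kf, k1, k2⟩ := hin (US := fun S => Hn j₀ S 2)
    (gS := ⌊(β 2 (AA j₀) (WW j₀) - d j₀ 2) * (J : ℝ)⌋₊) hI (by omega)
    (fun S => (nodj.top.degH S 2).trans hDD₁) (fun S => nodj.top.depH S 2)
    (fun ω hω b' hb => by
      have h1 := b3.two j₀ hj₀.1 (ι N) (hι N le_rfl).1
        ⟨hj₀.2.1.le, by rw [hj₀.2.2, (hι N le_rfl).2]; exact hAA0 N le_rfl⟩ ω hω 2 le_rfl b' hb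
      have hr : ⌊WW j₀ * (J : ℝ)⌋₊ = ⌊AA (ι 0) * (J : ℝ)⌋₊ := by rw [hj₀.2.2]
      have h2 : |eval b' (Hn j₀ (slam F ⌊WW j₀ * (J : ℝ)⌋₊ ω) 2) -
          eval b' (Gn (ι N) (ptr F J ω) 2)| ≤
          2 ^ ⌊s * (J : ℝ)⌋₊ / 2 ^ ⌊(β 2 (AA j₀) (WW j₀) - d j₀ 2) * (J : ℝ)⌋₊ := h1
      rw [hr] at h2
      exact h2.trans (div_le_div_of_nonneg_right (pw (by omega)) (by positivity)))
    (fun k hk => (hx3 (hgk k hk) (hι k hk).1 (hn2 k hk)).trans (by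
      show _ ≤ ⌊(β 2 (AA (ι k)) (WW (ι k)) - d (ι k) 2) * (J : ℝ)⌋₊ + _
      omega))
    ((hx3 (hgk N le_rfl) hj₀.1 hnS).trans (by omega))
  have hy : C₂ * (C₀ * (n + 1) + (⌊v * (J : ℝ)⌋₊ + 1) + 1) ≤
      (C₂ * (C₀ + 3) + C₃ * (C₀ + 1)) * (n + ⌊v * (J : ℝ)⌋₊ + 1) := by
    have h1 : C₂ * (C₀ * (n + 1) + (⌊v * (J : ℝ)⌋₊ + 1) + 1) ≤
        C₂ * ((C₀ + 3) * (n + ⌊v * (J : ℝ)⌋₊ + 1)) :=
      Nat.mul_le_mul_left _ (by nlinarith [Nat.zero_le (C₀ * ⌊v * (J : ℝ)⌋₊)])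
    nlinarith [Nat.zero_le (C₃ * (C₀ + 1) * (n + ⌊v * (J : ℝ)⌋₊ + 1))]
  have hX : C₃ * (C₀ * (n + 1) + 1) ≤ (C₂ * (C₀ + 3) + C₃ * (C₀ + 1)) * (n + 1) := by
    have h1 : C₃ * (C₀ * (n + 1) + 1) ≤ C₃ * ((C₀ + 1) * (n + 1)) :=
      Nat.mul_le_mul_left _ (by nlinarith)
    nlinarith [Nat.zero_le (C₂ * (C₀ + 3) * (n + 1))]
  refine ⟨B, Gn, Hn, pP, pH, xP, xH, f, f', kf, b1, b2, b3,
    { inc := hI
      Ns := by omega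
      n0' := by omega
      hp := b6
      xc := b7
      xn := fun ω hω => (b8 ω hω).trans (pw n5)
      pg := fun ω hω b' h1 h2 => (b9 ω hω b' h1 h2).trans (pw (by omega))
      inp := k1.up (pw hy)
      val := fun k hk ω hω => (k2 k hk ω hω).trans
        (mul_le_mul_of_nonneg_right (pw hy) (by positivity))
      gT := fun k hk ω hω b' hb l hl => ?_ }⟩
  have h1 := hgrd (k := k) (l := l) hI hk (fun ω hω l hl b' hb => by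
      refine (b3.uni (ι 0) (hι 0 (Nat.zero_le _)).1 (ι k) (hι k hk).1
        ⟨hAA0 k hk, by
          rw [(hι 0 (Nat.zero_le _)).2, (hι k hk).2]
          exact hAA0 k hk⟩ ω hω l (by omega) b' hb).trans ?_
      exact div_le_div_of_nonneg_right (pw (by omega)) (by positivity))
    (fun l hl => by
      have h1 := fl_two (J := J) (by linarith) (hd _ (hι 0 (Nat.zero_le _)).1 l (by omega)).1.le
        (hd _ (hι k hk).1 l (by omega)).2.1 (hgm k hk l hl)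
      rw [← hn] at h1
      exact h1.trans (by omega)) hω hl b' hb
  refine h1.trans (pw ?_)
  show C₃ * (C₀ * (n + 1) + 1) + ⌊(E + s) * (J : ℝ)⌋₊ + _ ≤ _
  omega

end Pool.STB65
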