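import Pool.Agent.H65.STB.Vnx

/-!
# The input of the jets for the image of a static place

`Nst`: the labels of a target over three coordinates at a list of balls, a closed label `Gx` of the
window `W` such that the difference is blind for `c 2`, a closed label of the target at the window
`W` on the box of the last radius, the mixed derivative. `n1_lab`: with the charts of `c 2` the
difference is a target over two coordinates. `n1_inp`: the input of the jets.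
-/

set_option autoImplicit false

namespace Pool.STB65

open Finset Real MvPolynomial
open Pool.Agent.H49.Ent Pool.Agent.H32.Dense Pool.STK Pool.KA Pool.KSAT Pool.K2S Pool.PB Pool.S6C
open Pool.GEN Pool.CHT Pool.NVX
open Pool.ALT (sbu sbu_eval sbu_deg)
open Pool.STB (V3 Po Bx)
open Pool.STB77 (Inc vpl vpt vnr ypt cos cos_slam vpl_deg vpl_eval vdil opt opt_none opt_some
  vnr_none vnr_zero vnr_one cl_lip)
open Pool.STB82 (yv mv_one)
open Pool.PB.Trl (rt rt_mem t_rt)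

variable {m J : ℕ}

/-- The point over `b` with the coordinate `k` equal to the value of `U`. -/
noncomputable def upd (k : Fin m) (b : Option (Fin m) → ℝ)
    (U : MvPolynomial (Option (Fin m)) ℝ) : Option (Fin m) → ℝ :=
  Function.update b (some k) (eval b U)

section

variable {c : ℕ → Fin m}

theorem upd_none (k : Fin m) (b : Option (Fin m) → ℝ) (x : ℝ) :
    Function.update b (some k) x none = b none := Function.update_of_ne (by simp) _ _

theorem upd_lt (hc : Set.InjOn c (Set.Iio 3)) (b : Option (Fin m) → ℝ) (x : ℝ) {l : ℕ}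
    (hl : l < 2) : Function.update b (some (c 2)) x (some (c l)) = b (some (c l)) := by
  refine Function.update_of_ne (fun h => ?_) _ _
  have h1 := hc (show l < 3 by omega) (show 2 < 3 by norm_num) (Option.some.inj h)
  omega

theorem upd_dep (hc : Set.InjOn c (Set.Iio 3)) (b : Option (Fin m) → ℝ) (x : ℝ) {l : ℕ}
    (hl : l ≤ 2) {P : MvPolynomial (Option (Fin m)) ℝ} (hP : DepC c l P) :
    eval (Function.update b (some (c 2)) x) P = eval b P :=
  hP _ _ (upd_none _ _ _) fun j hj => upd_lt hc b x (by omega)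

theorem sbu_dpc (hc : Set.InjOn c (Set.Iio 3)) {U Q : MvPolynomial (Option (Fin m)) ℝ}
    (hU : DepC c 2 U) (hQ : DepC c 3 Q) : DepC c 2 (sbu (c 2) U Q) := by
  intro b b' hn hb
  rw [sbu_eval, sbu_eval, hU b b' hn hb]
  refine hQ _ _ (by rw [upd_none, upd_none, hn]) fun l hl => ?_
  rcases Nat.lt_succ_iff_lt_or_eq.1 hl with h | h
  · rw [upd_lt hc _ _ h, upd_lt hc _ _ h, hb l h]
  · rw [h, Function.update_self, Function.update_self]

/-- The values at two points over `b`, from a bound for the derivative between them. -/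
theorem upd_mov (k : Fin m) (b : Option (Fin m) → ℝ) (x y : ℝ)
    (Q : MvPolynomial (Option (Fin m)) ℝ) {M E : ℝ} (hE : |x - y| ≤ E) (hM : 0 ≤ M)
    (h : ∀ z, |z - y| ≤ E → |eval (Function.update b (some k) z) (pderiv (some k) Q)| ≤ M) :
    |eval (Function.update b (some k) x) Q - eval (Function.update b (some k) y) Q| ≤ M * E := by
  classical
  have h1 := mv_one Q (Function.update b (some k) y) (some k) (x - y) (M := M) fun s hs => by
    rw [Function.update_self, Function.update_idem]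
    refine h _ ?_
    rw [add_sub_cancel_left]
    exact hs.trans hE
  rw [Function.update_self, Function.update_idem, add_sub_cancel] at h1
  exact h1.trans (mul_le_mul_of_nonneg_left hE hM)

end

/-- **A static target over three coordinates**, with a blind closed label. -/
structure Nst (F : Fam m J) (c : ℕ → Fin m) (D N W s b g₃ : ℕ) (A : ℕ → ℕ) (g : ℕ → ℕ → ℕ)
    (B : F.Ω → Prop) (G : ℕ → PtT F → ℕ → MvPolynomial (Option (Fin m)) ℝ)
    (LP : ℕ → PtT F → MvPolynomial (Option (Fin m)) ℝ)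
    (LH : ℕ → LnT F → MvPolynomial (Option (Fin m)) ℝ)
    (HS : LnT F → MvPolynomial (Option (Fin m)) ℝ)
    (Gx : PtT F → MvPolynomial (Option (Fin m)) ℝ) (Gl : LnT F → MvPolynomial (Option (Fin m)) ℝ)
    (gs : ℕ → ℕ) (Gs : PtT F → ℕ → MvPolynomial (Option (Fin m)) ℝ) (yN : F.Ω → ℝ) : Prop where
  dP : ∀ k ≤ N, ∀ y, (LP k y).totalDegree ≤ D
  dH : ∀ k ≤ N, ∀ S, (LH k S).totalDegree ≤ D
  dS : ∀ S, (HS S).totalDegree ≤ D
  dx : ∀ y, (Gx y).totalDegree ≤ D
  dl : ∀ S, (Gl S).totalDegree ≤ D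
  eP : ∀ k ≤ N, ∀ y, DepC c 3 (LP k y)
  eH : ∀ k ≤ N, ∀ S, DepC c 3 (LH k S)
  eS : ∀ S, DepC c 3 (HS S)
  ex : ∀ y, DepC c 3 (Gx y)
  el : ∀ S, DepC c 3 (Gl S)
  gc : ∀ ω, B ω → Gx (ptr F J ω) = Gl (slam F W ω)
  pos : ∀ k ≤ N, ∀ ω, B ω →
    |yN ω - eval (bt F ω) (LP k (ptr F J ω))| ≤ 2 ^ s / 2 ^ (g₃ + b * (A k - W))
  agr : ∀ k ≤ N, ∀ ω, B ω → ∀ b', NBx c (G k (ptr F J ω)) (g k) (A k) (F.t ω) 3 b' →
    |eval b' (LP k (ptr F J ω)) - eval b' (LH k (slam F (A k) ω))| ≤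
      2 ^ s / 2 ^ (g₃ + b * (A k - W))
  uni : ∀ k < N, ∀ ω, B ω → ∀ b', NBx c (G (k + 1) (ptr F J ω)) (g (k + 1)) (A (k + 1)) (F.t ω)
    3 b' → |eval b' (LP (k + 1) (ptr F J ω)) - eval b' (LP k (ptr F J ω))| ≤
      2 ^ s / 2 ^ (g₃ + b * (A k - W))
  bl : ∀ k ≤ N, ∀ ω, B ω → ∀ b', NBx c (G k (ptr F J ω)) (g k) (A k) (F.t ω) 3 b' →
    |eval b' (pderiv (some (c 2)) (LP k (ptr F J ω) - Gx (ptr F J ω)))| ≤
      2 ^ (s + g k 2) / 2 ^ (g₃ + b * (A k - W))
  sta : ∀ ω, B ω → ∀ b', NBx c (G N (ptr F J ω)) (g N) (A N) (F.t ω) 3 b' →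
    |eval b' (HS (slam F W ω)) - eval b' (LP N (ptr F J ω))| ≤ 2 ^ s / 2 ^ (g₃ + b * (A N - W))
  dGs : ∀ y l, (Gs y l).totalDegree ≤ D
  eGs : ∀ y l, DepC c l (Gs y l)
  gsn : ∀ l < 3, gs l ≤ g N l + s
  gsu : gs 2 ≤ g 0 2 + (A N - W) + s
  nr : ∀ l < 3, ∀ ω, B ω → ∀ b', NBx c (G N (ptr F J ω)) (g N) (A N) (F.t ω) l b' →
    |eval b' (G N (ptr F J ω) l) - eval b' (Gs (ptr F J ω) l)| ≤ 2 ^ s / 2 ^ gs l
  mx : ∀ ω, B ω → ∀ b', NBx c (Gs (ptr F J ω)) gs (A N) (F.t ω) 3 b' →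
    |eval b' (pderiv (some (c 2)) (HS (slam F W ω) - Gl (slam F W ω)))| ≤
      2 ^ (s + (g 0 2 + (A N - W))) / 2 ^ (g₃ + b * (A N - W))
  own : ∀ l < 3, ∀ ω, B ω → ∀ t, |t - F.t ω| ≤ 1 / 2 ^ A N →
    |opt F ω t (some (c l)) - eval (opt F ω t) (G N (ptr F J ω) l)| ≤ 2 ^ s / 2 ^ g N l
  gm : ∀ k < N, ∀ l < 3, g k l ≤ g (k + 1) l + s
  n2 : ∀ k ≤ N, g 0 2 + (A k - W) ≤ g k 2 + s

/-- **The image of a static place** as a target over the two first coordinates. -/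
theorem n1_lab (D b : ℕ) (hD : 1 ≤ D) : ∃ C : ℕ, ∀ {m J : ℕ} {F : Fam m J} {c : ℕ → Fin m}
    {N W s v g₃ : ℕ} {A : ℕ → ℕ} {e : ℕ → ℕ} {g : ℕ → ℕ → ℕ} {B : F.Ω → Prop}
    {G : ℕ → PtT F → ℕ → MvPolynomial (Option (Fin m)) ℝ}
    {H : ℕ → LnT F → ℕ → MvPolynomial (Option (Fin m)) ℝ}
    {pP : PtT F → ℕ → MvPolynomial (Option (Fin m)) ℝ}
    {pH : LnT F → ℕ → MvPolynomial (Option (Fin m)) ℝ}
    {LP : ℕ → PtT F → MvPolynomial (Option (Fin m)) ℝ}
    {LH : ℕ → LnT F → MvPolynomial (Option (Fin m)) ℝ}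
    {HS : LnT F → MvPolynomial (Option (Fin m)) ℝ}
    {Gx : PtT F → MvPolynomial (Option (Fin m)) ℝ} {Gl : LnT F → MvPolynomial (Option (Fin m)) ℝ}
    {gs : ℕ → ℕ} {Gs : PtT F → ℕ → MvPolynomial (Option (Fin m)) ℝ} {yN : F.Ω → ℝ}
    {zP : PtT F → MvPolynomial (Option (Fin m)) ℝ}
    {zH : LnT F → MvPolynomial (Option (Fin m)) ℝ},
    Inc F c D N W s v A e g B G H pP pH → N ≤ s →
    Nst F c D N W s b g₃ A g B G LP LH HS Gx Gl gs Gs yN →
    (∀ y, (zP y).totalDegree ≤ D * D) → (∀ S, (zH S).totalDegree ≤ D * D) →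
    (∀ y, DepC c 2 (zP y)) → (∀ ω, B ω → zP (ptr F J ω) = zH (slam F W ω)) →
    (∀ ω, B ω → ∀ b', NBx c (G 0 (ptr F J ω)) (g 0) (A 0) (F.t ω) 2 b' →
      |eval b' (sbu (c 2) (G 0 (ptr F J ω) 2) (LP 0 (ptr F J ω) - Gx (ptr F J ω))) -
        eval b' (zP (ptr F J ω))| ≤ 2 ^ s / 2 ^ g₃) →
    TgV F c (D * D) N W (C * (s + v + 1)) A g B G pP b g₃
      (fun k y => sbu (c 2) (G k y 2) (LP k y - Gx y))
      (fun k S => sbu (c 2) (H k S 2) (LH k S - Gl (cos F W (A k) S)))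
      (fun S => sbu (c 2) (ohe (c 2) S (pH S 2)) (HS S - Gl S)) zP zH ∧
    ∀ k ≤ N, ∀ ω, B ω → |yN ω - eval (bt F ω) (Gx (ptr F J ω)) -
      eval (bt F ω) (sbu (c 2) (G k (ptr F J ω) 2) (LP k (ptr F J ω) - Gx (ptr F J ω)))| ≤
        2 ^ (C * (s + v + 1)) / 2 ^ (g₃ + b * (A k - W)) := by
  obtain ⟨c₀, D₁, hD₁, hdil⟩ := nbx_dil 4 (fun _ => D)
  obtain ⟨C₂, htwo⟩ := two_lip D
  obtain ⟨C₃, hown⟩ := own_bx D
  obtain ⟨C₅, hbox⟩ := vnr_box D
  obtain ⟨C₆, hvd⟩ := vdlz D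
  obtain ⟨C₄, hC₄⟩ : ∃ C₄, C₄ = C₂ * (C₃ + 1) + C₅ + C₆ + 4 := ⟨_, rfl⟩
  refine ⟨c₀ + (C₄ + 3) * (D₁ + 1) + 4, ?_⟩
  intro m J F c N W s v g₃ A e g B G H pP pH LP LH HS Gx Gl gs Gs yN zP zH I hNs T hzd hzH hzp hzc
    hz
  have pw : ∀ {x y : ℕ}, x ≤ y → (2 : ℝ) ^ x ≤ 2 ^ y := fun h => pow_le_pow_right₀ (by norm_num) h
  obtain ⟨X, hX⟩ : ∃ X, X = (c₀ + (C₄ + 3) * (D₁ + 1) + 4) * (s + v + 1) := ⟨_, rfl⟩
  rw [← hX]
  have hDD : D ≤ D * D := Nat.le_mul_of_pos_right _ (by omega)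
  have hmax : max 1 D = D := max_eq_right hD
  have hX1 : c₀ + (s + 1) * D₁ + 2 * s + 2 ≤ X := by
    rw [hX]
    nlinarith [Nat.zero_le (c₀ * (s + v)), Nat.zero_le (C₄ * (D₁ + 1) * (s + v + 1)),
      Nat.zero_le (D₁ * v)]
  have hdeg : ∀ {U Q : MvPolynomial (Option (Fin m)) ℝ}, U.totalDegree ≤ D → Q.totalDegree ≤ D →
      (sbu (c 2) U Q).totalDegree ≤ D * D := by
    intro U Q hU hQ
    have h1 := sbu_deg (c 2) hU hQ
    rwa [hmax] at h1
  have hsd : ∀ {P Q : MvPolynomial (Option (Fin m)) ℝ}, P.totalDegree ≤ D → Q.totalDegree ≤ D →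
      (P - Q).totalDegree ≤ D := fun h1 h2 => (totalDegree_sub _ _).trans (max_le h1 h2)
  have hsp : ∀ {i : ℕ} {P Q : MvPolynomial (Option (Fin m)) ℝ}, DepC c i P → DepC c i Q →
      DepC c i (P - Q) := fun h1 h2 x y hn hb => by
    rw [map_sub, map_sub, h1 x y hn hb, h2 x y hn hb]
  have hq : ∀ x : ℕ, (0 : ℝ) < 1 / 2 ^ x := fun x => by positivity
  have dpd : ∀ {Q : MvPolynomial (Option (Fin m)) ℝ}, Q.totalDegree ≤ D →
      (pderiv (some (c 2)) Q).totalDegree ≤ D := fun h =>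
    Pool.KS3.SML.totalDegree_pderiv_le _ _ D (h.trans (Nat.le_succ _))
  -- the boxes of a ball
  have box : ∀ k ≤ N, ∀ (ω : F.Ω) (b' : Option (Fin m) → ℝ) (x : ℝ), B ω →
      NBx c (G k (ptr F J ω)) (g k) (A k) (F.t ω) 2 b' →
      |x - eval b' (G k (ptr F J ω) 2)| ≤ 1 / 2 ^ g k 2 →
      NBx c (G k (ptr F J ω)) (g k) (A k) (F.t ω) 3 (Function.update b' (some (c 2)) x) := by
    intro k hk ω b' x hω hb hx
    have ok := I.ok k hk
    refine ⟨by rw [upd_none]; exact hb.1, fun l hl => ?_⟩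
    rcases Nat.lt_succ_iff_lt_or_eq.1 hl with h | h
    · rw [upd_lt I.inj _ _ h, upd_dep I.inj _ _ (by omega) (ok.depG _ l)]
      exact hb.2 l h
    · rw [h, Function.update_self, upd_dep I.inj _ _ le_rfl (ok.depG _ 2)]
      exact hx
  have up2 : ∀ (b' : Option (Fin m) → ℝ) {Q U : MvPolynomial (Option (Fin m)) ℝ},
      eval b' (sbu (c 2) U Q) = eval (Function.update b' (some (c 2)) (eval b' U)) Q :=
    fun b' Q U => sbu_eval _ _ _ _
  have n0 : ∀ x : ℕ, (2 : ℝ) ^ s / 2 ^ x ≤ 2 ^ X / 2 ^ x := fun x =>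
    div_le_div_of_nonneg_right (pw (by omega)) (by positivity)
  refine ⟨⟨?_, ?_, ?_, hzd, hzH, ?_, ?_, hzp, hzc, ?_, ?_, ?_, ?_⟩, ?_⟩
  · exact fun k hk y => hdeg ((I.ok k hk).degG y 2) (hsd (T.dP k hk y) (T.dx y))
  · exact fun k hk S => hdeg ((I.ok k hk).degH S 2) (hsd (T.dH k hk S) (T.dl _))
  · exact fun S => hdeg (ohe_deg (c 2) S (I.hd S 2) hD) (hsd (T.dS S) (T.dl S))
  · exact fun k hk y => sbu_dpc I.inj ((I.ok k hk).depG y 2) (hsp (T.eP k hk y) (T.ex y))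
  · exact fun k hk S => sbu_dpc I.inj ((I.ok k hk).depH S 2) (hsp (T.eH k hk S) (T.el _))
  · -- the labels of two consecutive balls
    intro k hk ω hω b' hb
    have hk' : k + 1 ≤ N := hk
    have ok := I.ok k hk.le
    have ok' := I.ok (k + 1) hk'
    rw [up2, up2]
    obtain ⟨x, hx⟩ : ∃ x, x = eval b' (G (k + 1) (ptr F J ω) 2) := ⟨_, rfl⟩
    obtain ⟨y, hy⟩ : ∃ y, y = eval b' (G k (ptr F J ω) 2) := ⟨_, rfl⟩
    rw [← hx, ← hy]
    obtain ⟨M, hM⟩ : ∃ M : ℝ, M = 2 ^ (s + g k 2) / 2 ^ (g₃ + b * (A k - W)) := ⟨_, rfl⟩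
    have hM0 : 0 ≤ M := by rw [hM]; positivity
    have hxy : |x - y| ≤ 2 ^ s / 2 ^ g k 2 := by
      rw [hx, hy]
      exact I.uni k hk 2 (by norm_num) ω hω b' hb
    have h1 := T.uni k hk ω hω (Function.update b' (some (c 2)) x)
      (box (k + 1) hk' ω b' x hω hb (by rw [hx, sub_self, abs_zero]; positivity))
    have h2 := upd_mov (c 2) b' x y (LP k (ptr F J ω) - Gx (ptr F J ω))
      (M := 2 ^ (c₀ + (s + 1) * D₁) * M) hxy (by positivity) fun z hz => by
        refine hdil (c := c) (i := 3) (G := G k (ptr F J ω)) (g := g k) (a := A k) (t := F.t ω)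
          (M := M) (s + 1) (by norm_num) I.inj (ok.degG _) (ok.depG _)
          ((hsp (T.eP k hk.le _) (T.ex _)).pderiv 2) (dpd (hsd (T.dP k hk.le _) (T.dx _))) hM0
          (fun b hb => by rw [hM]; exact T.bl k hk.le ω hω b hb) _ ?_ fun l hl => ?_
        · rw [upd_none]
          exact hb.1.trans (one_div_le_one_div_of_le (by positivity) (pw (I.Am k hk)))
        · rw [upd_dep I.inj _ _ (by omega) (ok.depG _ l)]
          rcases Nat.lt_succ_iff_lt_or_eq.1 hl with h | h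
          · rw [upd_lt I.inj _ _ h]
            have h3 := hb.2 l h
            have h4 := I.uni k hk l hl ω hω b' ⟨hb.1, fun j hj => hb.2 j (hj.trans h)⟩
            have h5 : (1 : ℝ) / 2 ^ g (k + 1) l ≤ 2 ^ s / 2 ^ g k l := by
              rw [div_le_div_iff₀ (by positivity) (by positivity), one_mul, ← pow_add]
              exact pw (by have := T.gm k hk l hl; omega)
            have e1 : b' (some (c l)) - eval b' (G k (ptr F J ω) l) =
                (b' (some (c l)) - eval b' (G (k + 1) (ptr F J ω) l)) +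
                (eval b' (G (k + 1) (ptr F J ω) l) - eval b' (G k (ptr F J ω) l)) := by ring
            rw [e1]
            refine (abs_add_le _ _).trans ?_
            have e2 : (2 : ℝ) ^ (s + 1) / 2 ^ g k l = 2 ^ s / 2 ^ g k l + 2 ^ s / 2 ^ g k l := by
              rw [pow_succ]
              ring
            rw [e2]
            linarith
          · rw [h, Function.update_self, ← hy]
            refine hz.trans (div_le_div_of_nonneg_right (pw (by omega)) (by positivity))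
    rw [map_sub, map_sub]
    rw [map_sub, map_sub] at h2
    have e1 : eval (Function.update b' (some (c 2)) x) (LP (k + 1) (ptr F J ω)) -
        eval (Function.update b' (some (c 2)) x) (Gx (ptr F J ω)) -
        (eval (Function.update b' (some (c 2)) y) (LP k (ptr F J ω)) -
          eval (Function.update b' (some (c 2)) y) (Gx (ptr F J ω))) =
        (eval (Function.update b' (some (c 2)) x) (LP (k + 1) (ptr F J ω)) -
          eval (Function.update b' (some (c 2)) x) (LP k (ptr F J ω))) +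
        (eval (Function.update b' (some (c 2)) x) (LP k (ptr F J ω)) -
          eval (Function.update b' (some (c 2)) x) (Gx (ptr F J ω)) -
        (eval (Function.update b' (some (c 2)) y) (LP k (ptr F J ω)) -
          eval (Function.update b' (some (c 2)) y) (Gx (ptr F J ω)))) := by ring
    rw [e1]
    refine (abs_add_le _ _).trans ((add_le_add h1 h2).trans ?_)
    have e2 : (2 : ℝ) ^ (c₀ + (s + 1) * D₁) * M * (2 ^ s / 2 ^ g k 2) =
        2 ^ (c₀ + (s + 1) * D₁ + 2 * s) / 2 ^ (g₃ + b * (A k - W)) := by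
      rw [hM, show s + g k 2 = g k 2 + s by ring, pow_add 2 (g k 2) s,
        show c₀ + (s + 1) * D₁ + 2 * s = c₀ + (s + 1) * D₁ + s + s by ring, pow_add _ _ s,
        pow_add _ (c₀ + (s + 1) * D₁) s]
      field_simp
    rw [e2, ← add_div]
    refine div_le_div_of_nonneg_right ?_ (by positivity)
    have k1 : (2 : ℝ) ^ s ≤ 2 ^ (c₀ + (s + 1) * D₁ + 2 * s) := pw (by omega)
    have k2 : (2 : ℝ) ^ (c₀ + (s + 1) * D₁ + 2 * s + 1) ≤ 2 ^ X := pw (by omega)
    rw [pow_succ] at k2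
    linarith
  · -- the two labels of a ball
    intro k hk ω hω b' hb
    have ok := I.ok k hk
    rw [cos_slam F (I.AmW hk) (I.AJ k hk), ← T.gc ω hω, up2, up2]
    obtain ⟨x, hx⟩ : ∃ x, x = eval b' (G k (ptr F J ω) 2) := ⟨_, rfl⟩
    obtain ⟨y, hy⟩ : ∃ y, y = eval b' (H k (slam F (A k) ω) 2) := ⟨_, rfl⟩
    rw [← hx, ← hy]
    have hxy : |x - y| ≤ 1 / 2 ^ g k 2 := by
      rw [hx, hy]
      exact ok.agr ω hω 2 (by norm_num) b' hb
    obtain ⟨M, hM⟩ : ∃ M : ℝ, M = 2 ^ (s + g k 2) / 2 ^ (g₃ + b * (A k - W)) := ⟨_, rfl⟩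
    have hM0 : 0 ≤ M := by rw [hM]; positivity
    have h1 := T.agr k hk ω hω (Function.update b' (some (c 2)) y)
      (box k hk ω b' y hω hb (by rw [← hx, abs_sub_comm]; exact hxy))
    have h2 := upd_mov (c 2) b' y x (LP k (ptr F J ω) - Gx (ptr F J ω)) (M := M)
      (E := 1 / 2 ^ g k 2) (by rw [abs_sub_comm]; exact hxy) hM0 fun z hz => by
        rw [hM]
        exact T.bl k hk ω hω _ (box k hk ω b' z hω hb (by rw [← hx]; exact hz))
    rw [map_sub, map_sub]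
    rw [map_sub, map_sub] at h2
    have e1 : eval (Function.update b' (some (c 2)) x) (LP k (ptr F J ω)) -
        eval (Function.update b' (some (c 2)) x) (Gx (ptr F J ω)) -
        (eval (Function.update b' (some (c 2)) y) (LH k (slam F (A k) ω)) -
          eval (Function.update b' (some (c 2)) y) (Gx (ptr F J ω))) =
        (eval (Function.update b' (some (c 2)) y) (LP k (ptr F J ω)) -
          eval (Function.update b' (some (c 2)) y) (LH k (slam F (A k) ω))) -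
        (eval (Function.update b' (some (c 2)) y) (LP k (ptr F J ω)) -
          eval (Function.update b' (some (c 2)) y) (Gx (ptr F J ω)) -
        (eval (Function.update b' (some (c 2)) x) (LP k (ptr F J ω)) -
          eval (Function.update b' (some (c 2)) x) (Gx (ptr F J ω)))) := by ring
    rw [e1]
    refine (abs_sub _ _).trans ((add_le_add h1 h2).trans ?_)
    have e2 : M * (1 / 2 ^ g k 2) = 2 ^ s / 2 ^ (g₃ + b * (A k - W)) := by
      rw [hM, pow_add]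
      field_simp
    rw [e2, ← add_div]
    refine div_le_div_of_nonneg_right ?_ (by positivity)
    have k2 : (2 : ℝ) ^ (s + 1) ≤ 2 ^ X := pw (by omega)
    rw [pow_succ] at k2
    linarith
  · -- the static label
    intro ω hω r hr
    have ok := I.ok N le_rfl
    have hWA := I.AmW (le_refl N)
    have hWJ : W ≤ J := hWA.trans (I.AJ N le_rfl)
    have hc2 : Set.InjOn c (Set.Iio 2) := I.inj.mono fun x (hx : x < 2) => show x < 3 by omega
    obtain ⟨a, ha⟩ : ∃ a, a = A N - W := ⟨_, rfl⟩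
    obtain ⟨hbn, hbl⟩ := hbox I hNs le_rfl hω hr
    obtain ⟨vr, hvr⟩ : ∃ vr, vr = vnr F c W (g 0 1) (pP (ptr F J ω) 1) ω r := ⟨_, rfl⟩
    rw [← hvr] at hbn hbl
    rw [← hvr, ← T.gc ω hω, up2, up2, ohe_eval, ← I.pc ω hω 2, ← ha]
    obtain ⟨o, ho⟩ : ∃ o, o = opt F ω (vr none) := ⟨_, rfl⟩
    obtain ⟨x, hx⟩ : ∃ x, x = eval vr (pP (ptr F J ω) 2) + (opt F ω (vr none) (some (c 2)) -
      eval (opt F ω (vr none)) (pP (ptr F J ω) 2)) := ⟨_, rfl⟩
    obtain ⟨y, hy⟩ : ∃ y, y = eval vr (G N (ptr F J ω) 2) := ⟨_, rfl⟩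
    rw [← hx, ← hy]
    rw [← ho] at hx
    obtain ⟨z₁, hz₁⟩ : ∃ z₁, z₁ = s + v + 1 := ⟨_, rfl⟩
    have hXz : X = (c₀ + (C₄ + 3) * (D₁ + 1) + 4) * z₁ := by rw [hX, hz₁]
    -- the distance
    have hxy : |x - y| ≤ 2 ^ ((C₂ * (C₃ + 1) + 3) * z₁) / 2 ^ (g 0 2 + a) := by
      have h1 := htwo (n := 0) I hNs T.n2 le_rfl hω (r := r) (by
        rw [pow_zero]
        exact hr)
      have h2 := hown I hNs le_rfl hω hbn (T.own 1 (by norm_num) ω hω _ hbn)
      have h3 := htwo (n := C₃ * (s + v + 1)) I hNs T.n2 le_rfl hω h2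
      rw [vnr_abx hWJ hc2 (I.pe _ 1) ω _ (I.pe _ 2),
        vnr_abx hWJ hc2 (I.pe _ 1) ω _ (ok.depG _ 2), ← ho, ← ha] at h3
      rw [← hvr, ← ha] at h1
      have h4 := T.own 2 (by norm_num) ω hω _ hbn
      rw [← ho] at h4
      have h5 : (2 : ℝ) ^ s / 2 ^ g N 2 ≤ 2 ^ (2 * s) / 2 ^ (g 0 2 + a) := by
        rw [div_le_div_iff₀ (by positivity) (by positivity), ← pow_add, ← pow_add]
        have h6 := T.n2 N le_rfl
        rw [← ha] at h6
        exact pw (by omega)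
      have e1 : x - y = ((eval vr (pP (ptr F J ω) 2) - eval vr (G N (ptr F J ω) 2)) -
          (eval (bt F ω) (pP (ptr F J ω) 2) - eval (bt F ω) (G N (ptr F J ω) 2))) -
          ((eval o (pP (ptr F J ω) 2) - eval o (G N (ptr F J ω) 2)) -
          (eval (bt F ω) (pP (ptr F J ω) 2) - eval (bt F ω) (G N (ptr F J ω) 2))) +
          (o (some (c 2)) - eval o (G N (ptr F J ω) 2)) := by
        rw [hx, hy]
        ring
      rw [e1]
      refine (abs_add_le _ _).trans ?_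
      have h6 := abs_sub ((eval vr (pP (ptr F J ω) 2) - eval vr (G N (ptr F J ω) 2)) -
          (eval (bt F ω) (pP (ptr F J ω) 2) - eval (bt F ω) (G N (ptr F J ω) 2)))
          ((eval o (pP (ptr F J ω) 2) - eval o (G N (ptr F J ω) 2)) -
          (eval (bt F ω) (pP (ptr F J ω) 2) - eval (bt F ω) (G N (ptr F J ω) 2)))
      have k1 : (2 : ℝ) ^ (C₂ * (s + v + 0 + 1)) / 2 ^ (g 0 2 + a) ≤
          2 ^ (C₂ * (C₃ + 1) * z₁ + 2 * s) / 2 ^ (g 0 2 + a) :=
        div_le_div_of_nonneg_right (pw (by rw [hz₁]; nlinarith [Nat.zero_le (C₂ * C₃ * (s + v + 1))]))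
          (by positivity)
      have k2 : (2 : ℝ) ^ (C₂ * (s + v + C₃ * (s + v + 1) + 1)) / 2 ^ (g 0 2 + a) ≤
          2 ^ (C₂ * (C₃ + 1) * z₁ + 2 * s) / 2 ^ (g 0 2 + a) :=
        div_le_div_of_nonneg_right (pw (by rw [hz₁]; nlinarith)) (by positivity)
      have k3 : (2 : ℝ) ^ (2 * s) / 2 ^ (g 0 2 + a) ≤
          2 ^ (C₂ * (C₃ + 1) * z₁ + 2 * s) / 2 ^ (g 0 2 + a) :=
        div_le_div_of_nonneg_right (pw (by omega)) (by positivity)
      have k4 : (4 : ℝ) * (2 ^ (C₂ * (C₃ + 1) * z₁ + 2 * s) / 2 ^ (g 0 2 + a)) ≤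
          2 ^ ((C₂ * (C₃ + 1) + 3) * z₁) / 2 ^ (g 0 2 + a) := by
        rw [← mul_div_assoc]
        refine div_le_div_of_nonneg_right ?_ (by positivity)
        have : (4 : ℝ) * 2 ^ (C₂ * (C₃ + 1) * z₁ + 2 * s) =
            2 ^ (C₂ * (C₃ + 1) * z₁ + 2 * s + 2) := by
          rw [pow_add _ _ 2]
          ring
        rw [this]
        exact pw (by rw [hz₁]; nlinarith)
      have k5 : (0 : ℝ) ≤ 2 ^ (C₂ * (C₃ + 1) * z₁ + 2 * s) / 2 ^ (g 0 2 + a) := by positivity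
      linarith
    -- the labels of the static node against the ball
    have hGs : ∀ l < 3, |eval vr (G N (ptr F J ω) l) - eval vr (Gs (ptr F J ω) l)| ≤
        2 ^ (C₆ * z₁ + s) / 2 ^ gs l := by
      intro l hl
      have h1 := hvd (Q := G N (ptr F J ω) l - Gs (ptr F J ω) l) (M := 2 ^ s / 2 ^ gs l) I
        hNs le_rfl hω hr (hsd (ok.degG _ _) (T.dGs _ _))
        ((hsp (ok.depG _ l) (T.eGs _ l)).mono (by omega)) (by positivity) (fun b hb => by
          rw [map_sub]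
          exact T.nr l hl ω hω b ⟨hb.1, fun j hj => hb.2 j (by omega)⟩)
      rw [map_sub, ← hvr, ← hz₁, ← mul_div_assoc, ← pow_add] at h1
      exact h1
    have hgn : ∀ l < 3, ∀ n : ℕ, (2 : ℝ) ^ n / 2 ^ g N l ≤ 2 ^ (n + s) / 2 ^ gs l := by
      intro l hl n
      rw [div_le_div_iff₀ (by positivity) (by positivity), ← pow_add, ← pow_add]
      exact pw (by have := T.gsn l hl; omega)
    obtain ⟨n, hn⟩ : ∃ n, n = C₄ * z₁ := ⟨_, rfl⟩
    have hn1 : C₅ * z₁ + s + 1 ≤ n ∧ C₆ * z₁ + s + 1 ≤ n ∧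
        (C₂ * (C₃ + 1) + 3) * z₁ + s + 1 ≤ n := by
      have h1 : s + 1 ≤ z₁ := by omega
      have h2 : C₄ * z₁ = (C₂ * (C₃ + 1)) * z₁ + C₅ * z₁ + C₆ * z₁ + 4 * z₁ := by
        rw [hC₄]
        ring
      have h3 : (C₂ * (C₃ + 1) + 3) * z₁ = (C₂ * (C₃ + 1)) * z₁ + 3 * z₁ := by ring
      rw [hn, h2, h3]
      refine ⟨by omega, by omega, by omega⟩
    obtain ⟨M, hM⟩ : ∃ M : ℝ, M = 2 ^ (s + (g 0 2 + a)) / 2 ^ (g₃ + b * a) := ⟨_, rfl⟩
    have hM0 : 0 ≤ M := by rw [hM]; positivity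
    have two : ∀ {α : ℝ} {p q d : ℕ}, p + 1 ≤ q → α ≤ 2 ^ p / 2 ^ d + 2 ^ p / 2 ^ d →
        α ≤ 2 ^ q / 2 ^ d := by
      intro α p q d hpq h
      refine h.trans ?_
      rw [← add_div]
      refine div_le_div_of_nonneg_right ?_ (by positivity)
      have := pw hpq
      rw [pow_succ] at this
      linarith
    have dm : ∀ {p q d : ℕ}, p ≤ q → (2 : ℝ) ^ p / 2 ^ d ≤ 2 ^ q / 2 ^ d := fun h =>
      div_le_div_of_nonneg_right (pw h) (by positivity)
    have h2 := upd_mov (c 2) vr x y (HS (slam F W ω) - Gl (slam F W ω))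
      (M := 2 ^ (c₀ + n * D₁) * M) (E := 2 ^ ((C₂ * (C₃ + 1) + 3) * z₁) / 2 ^ (g 0 2 + a)) hxy
      (by positivity) fun z hz => by
        refine hdil (c := c) (i := 3) (G := Gs (ptr F J ω)) (g := gs) (a := A N) (t := F.t ω)
          (M := M) n (by norm_num) I.inj (T.dGs _) (T.eGs _)
          ((hsp (T.eS _) (T.el _)).pderiv 2) (dpd (hsd (T.dS _) (T.dl _))) hM0
          (fun b hb => by
            rw [hM, ha]
            exact T.mx ω hω b hb) _ ?_ fun l hl => ?_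
        · rw [upd_none]
          exact hbn
        · rw [upd_dep I.inj _ _ (by omega) (T.eGs _ l)]
          rcases Nat.lt_succ_iff_lt_or_eq.1 hl with h | h
          · rw [upd_lt I.inj _ _ h]
            have h3 := hbl l h
            rw [← hz₁] at h3
            have h4 := hGs l hl
            have h5 := hgn l hl (C₅ * z₁)
            have e1 : vr (some (c l)) - eval vr (Gs (ptr F J ω) l) =
                (vr (some (c l)) - eval vr (G N (ptr F J ω) l)) +
                (eval vr (G N (ptr F J ω) l) - eval vr (Gs (ptr F J ω) l)) := by ring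
            rw [e1]
            refine (abs_add_le _ _).trans ?_
            have h6 : (2 : ℝ) ^ (C₅ * z₁ + s) / 2 ^ gs l ≤ 2 ^ (n - 1) / 2 ^ gs l := dm (by omega)
            have h7 : (2 : ℝ) ^ (C₆ * z₁ + s) / 2 ^ gs l ≤ 2 ^ (n - 1) / 2 ^ gs l := dm (by omega)
            exact two (p := n - 1) (by omega) (by linarith)
          · rw [h, Function.update_self]
            have h4 := hGs 2 (by norm_num)
            rw [← hy] at h4
            have h5 : (2 : ℝ) ^ ((C₂ * (C₃ + 1) + 3) * z₁) / 2 ^ (g 0 2 + a) ≤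
                2 ^ ((C₂ * (C₃ + 1) + 3) * z₁ + s) / 2 ^ gs 2 := by
              rw [div_le_div_iff₀ (by positivity) (by positivity), ← pow_add, ← pow_add]
              have h6 := T.gsu
              rw [← ha] at h6
              exact pw (by omega)
            have e1 : z - eval vr (Gs (ptr F J ω) 2) = (z - y) +
                (y - eval vr (Gs (ptr F J ω) 2)) := by ring
            rw [e1]
            refine (abs_add_le _ _).trans ?_
            have h6 : (2 : ℝ) ^ ((C₂ * (C₃ + 1) + 3) * z₁ + s) / 2 ^ gs 2 ≤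
                2 ^ (n - 1) / 2 ^ gs 2 := dm (by omega)
            have h7 : (2 : ℝ) ^ (C₆ * z₁ + s) / 2 ^ gs 2 ≤ 2 ^ (n - 1) / 2 ^ gs 2 := dm (by omega)
            exact two (p := n - 1) (by omega) (by linarith)
    -- the static label against the label of the ball
    have h1 := hdil (c := c) (i := 3) (G := G N (ptr F J ω)) (g := g N) (a := A N) (t := F.t ω)
      (Q := HS (slam F W ω) - LP N (ptr F J ω)) (M := 2 ^ s / 2 ^ (g₃ + b * a)) n (by norm_num)
      I.inj (ok.degG _) (ok.depG _) (hsp (T.eS _) (T.eP N le_rfl _))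
      (hsd (T.dS _) (T.dP N le_rfl _)) (by positivity) (fun b hb => by
        rw [map_sub, ha]
        exact T.sta ω hω b hb) (Function.update vr (some (c 2)) y) (by rw [upd_none]; exact hbn)
      fun l hl => by
        rw [upd_dep I.inj _ _ (by omega) (ok.depG _ l)]
        rcases Nat.lt_succ_iff_lt_or_eq.1 hl with h | h
        · rw [upd_lt I.inj _ _ h]
          refine (hbl l h).trans ?_
          rw [← hz₁]
          exact dm (by omega)
        · rw [h, Function.update_self, ← hy, sub_self, abs_zero]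
          positivity
    rw [map_sub] at h1
    rw [map_sub, map_sub, T.gc ω hω]
    rw [map_sub, map_sub] at h2
    have e1 : eval (Function.update vr (some (c 2)) x) (HS (slam F W ω)) -
        eval (Function.update vr (some (c 2)) x) (Gl (slam F W ω)) -
        (eval (Function.update vr (some (c 2)) y) (LP N (ptr F J ω)) -
          eval (Function.update vr (some (c 2)) y) (Gl (slam F W ω))) =
        (eval (Function.update vr (some (c 2)) x) (HS (slam F W ω)) -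
          eval (Function.update vr (some (c 2)) x) (Gl (slam F W ω)) -
        (eval (Function.update vr (some (c 2)) y) (HS (slam F W ω)) -
          eval (Function.update vr (some (c 2)) y) (Gl (slam F W ω)))) +
        (eval (Function.update vr (some (c 2)) y) (HS (slam F W ω)) -
          eval (Function.update vr (some (c 2)) y) (LP N (ptr F J ω))) := by ring
    rw [e1]
    refine (abs_add_le _ _).trans ((add_le_add h2 h1).trans ?_)
    have e2 : (2 : ℝ) ^ (c₀ + n * D₁) * M * (2 ^ ((C₂ * (C₃ + 1) + 3) * z₁) / 2 ^ (g 0 2 + a)) =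
        2 ^ (c₀ + n * D₁ + s + (C₂ * (C₃ + 1) + 3) * z₁) / 2 ^ (g₃ + b * a) := by
      rw [hM, pow_add 2 s (g 0 2 + a), pow_add _ (c₀ + n * D₁ + s), pow_add _ (c₀ + n * D₁) s]
      field_simp
    have e3 : (2 : ℝ) ^ (c₀ + n * D₁) * (2 ^ s / 2 ^ (g₃ + b * a)) =
        2 ^ (c₀ + n * D₁ + s) / 2 ^ (g₃ + b * a) := by
      rw [pow_add _ (c₀ + n * D₁) s]
      ring
    rw [e2, e3]
    have hbig : c₀ + n * D₁ + n + 1 ≤ X := by
      rw [hXz, hn]
      have h8 : 1 ≤ z₁ := by omega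
      have h9 : c₀ ≤ c₀ * z₁ := Nat.le_mul_of_pos_right _ h8
      have h10 : (c₀ + (C₄ + 3) * (D₁ + 1) + 4) * z₁ = c₀ * z₁ + C₄ * z₁ * D₁ + C₄ * z₁ +
          3 * (D₁ + 1) * z₁ + 4 * z₁ := by ring
      rw [h10]
      have h11 : 0 ≤ 3 * (D₁ + 1) * z₁ := Nat.zero_le _
      omega
    have h8 : (2 : ℝ) ^ (c₀ + n * D₁ + s + (C₂ * (C₃ + 1) + 3) * z₁) / 2 ^ (g₃ + b * a) ≤
        2 ^ (c₀ + n * D₁ + n) / 2 ^ (g₃ + b * a) := dm (by omega)
    have h9 : (2 : ℝ) ^ (c₀ + n * D₁ + s) / 2 ^ (g₃ + b * a) ≤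
        2 ^ (c₀ + n * D₁ + n) / 2 ^ (g₃ + b * a) := dm (by omega)
    exact two hbig (by linarith)
  · exact fun ω hω b' hb => (hz ω hω b' hb).trans (n0 _)
  · -- the sample
    intro k hk ω hω
    have ok := I.ok k hk
    rw [up2]
    obtain ⟨x, hx⟩ : ∃ x, x = eval (bt F ω) (G k (ptr F J ω) 2) := ⟨_, rfl⟩
    rw [← hx]
    have hb : NBx c (G k (ptr F J ω)) (g k) (A k) (F.t ω) 2 (bt F ω) := by
      refine ⟨?_, fun l hl => ok.pos ω hω l (by omega)⟩
      show |F.t ω - F.t ω| ≤ _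
      rw [sub_self, abs_zero]
      positivity
    have hxy : |bt F ω (some (c 2)) - x| ≤ 1 / 2 ^ g k 2 := by
      rw [hx]
      exact ok.pos ω hω 2 (by norm_num)
    obtain ⟨M, hM⟩ : ∃ M : ℝ, M = 2 ^ (s + g k 2) / 2 ^ (g₃ + b * (A k - W)) := ⟨_, rfl⟩
    have hM0 : 0 ≤ M := by rw [hM]; positivity
    have h2 := upd_mov (c 2) (bt F ω) (bt F ω (some (c 2))) x
      (LP k (ptr F J ω) - Gx (ptr F J ω)) (M := M) hxy hM0 fun z hz => by
        rw [hM]
        exact T.bl k hk ω hω _ (box k hk ω _ z hω hb (by rw [← hx]; exact hz))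
    rw [Function.update_eq_self] at h2
    have h1 := T.pos k hk ω hω
    rw [map_sub] at h2
    have e1 : yN ω - eval (bt F ω) (Gx (ptr F J ω)) -
        eval (Function.update (bt F ω) (some (c 2)) x) (LP k (ptr F J ω) - Gx (ptr F J ω)) =
        (yN ω - eval (bt F ω) (LP k (ptr F J ω))) +
        (eval (bt F ω) (LP k (ptr F J ω)) - eval (bt F ω) (Gx (ptr F J ω)) -
        eval (Function.update (bt F ω) (some (c 2)) x) (LP k (ptr F J ω) - Gx (ptr F J ω))) := by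
      ring
    rw [e1]
    refine (abs_add_le _ _).trans ((add_le_add h1 h2).trans ?_)
    have e2 : M * (1 / 2 ^ g k 2) = 2 ^ s / 2 ^ (g₃ + b * (A k - W)) := by
      rw [hM, pow_add]
      field_simp
    rw [e2, ← add_div]
    refine div_le_div_of_nonneg_right ?_ (by positivity)
    have k2 : (2 : ℝ) ^ (s + 1) ≤ 2 ^ X := pw (by omega)
    rw [pow_succ] at k2
    linarith

/-- A larger number `Y`. -/
theorem InpF.up {F : Fam m J} {B : F.Ω → Prop} {W₀ N K b : ℕ} {Y Y' : ℝ} {y : F.Ω → V3}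
    {e : ℕ → ℕ} {f : ℕ → PtT F → Po} {f' : ℕ → LnT F → Po} {kf : LnT F → Po}
    (h : InpF F B W₀ N K b Y y e f f' kf) (hY : Y ≤ Y') : InpF F B W₀ N K b Y' y e f f' kf := by
  have h1 : ∀ x : ℝ, 0 ≤ x → Y * x ≤ Y' * x := fun x hx => mul_le_mul_of_nonneg_right hY hx
  refine ⟨h.fd, h.kd, fun j hj => ⟨(h.em j hj).1, (h.em j hj).2.trans (h1 _ (by positivity))⟩,
    fun ω hω r hr => (h.f0 ω hω r hr).trans hY, fun ω hω j hj r hr => (h.ch ω hω j hj r hr).trans
    (h1 _ (by positivity)), fun ω hω r hr => (h.nr ω hω r hr).trans (h1 _ (by positivity)), h.fd',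
    fun j hj ω hω r hr => (h.agr j hj ω hω r hr).trans (h1 _ (by positivity))⟩

/-- **The input of the jets for the image of a static place**, and the value at the sample. -/
theorem n1_inp (D b : ℕ) (hD : 1 ≤ D) : ∃ C K : ℕ, ∀ {m J : ℕ} {F : Fam m J} {c : ℕ → Fin m}
    {N W s v g₃ : ℕ} {A : ℕ → ℕ} {e : ℕ → ℕ} {g : ℕ → ℕ → ℕ} {B : F.Ω → Prop}
    {G : ℕ → PtT F → ℕ → MvPolynomial (Option (Fin m)) ℝ}
    {H : ℕ → LnT F → ℕ → MvPolynomial (Option (Fin m)) ℝ}
    {pP : PtT F → ℕ → MvPolynomial (Option (Fin m)) ℝ}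
    {pH : LnT F → ℕ → MvPolynomial (Option (Fin m)) ℝ}
    {LP : ℕ → PtT F → MvPolynomial (Option (Fin m)) ℝ}
    {LH : ℕ → LnT F → MvPolynomial (Option (Fin m)) ℝ}
    {HS : LnT F → MvPolynomial (Option (Fin m)) ℝ}
    {Gx : PtT F → MvPolynomial (Option (Fin m)) ℝ} {Gl : LnT F → MvPolynomial (Option (Fin m)) ℝ}
    {gs : ℕ → ℕ} {Gs : PtT F → ℕ → MvPolynomial (Option (Fin m)) ℝ} {yN : F.Ω → ℝ}
    {zP : PtT F → MvPolynomial (Option (Fin m)) ℝ}
    {zH : LnT F → MvPolynomial (Option (Fin m)) ℝ},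
    Inc F c D N W s v A e g B G H pP pH → N ≤ s →
    Nst F c D N W s b g₃ A g B G LP LH HS Gx Gl gs Gs yN →
    (∀ y, (zP y).totalDegree ≤ D * D) → (∀ S, (zH S).totalDegree ≤ D * D) →
    (∀ y, DepC c 2 (zP y)) → (∀ ω, B ω → zP (ptr F J ω) = zH (slam F W ω)) →
    (∀ ω, B ω → ∀ b', NBx c (G 0 (ptr F J ω)) (g 0) (A 0) (F.t ω) 2 b' →
      |eval b' (sbu (c 2) (G 0 (ptr F J ω) 2) (LP 0 (ptr F J ω) - Gx (ptr F J ω))) -
        eval b' (zP (ptr F J ω))| ≤ 2 ^ s / 2 ^ g₃) →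
    ∃ (f : ℕ → PtT F → Po) (f' : ℕ → LnT F → Po) (kf : LnT F → Po),
      InpF F B W N K b (2 ^ (C * (s + v + 1))) (yv F c W (g 0 1) (fun S => pH S 1))
        (fun k => A k - W) f f' kf ∧
      ∀ k ≤ N, ∀ ω, B ω → |eval (yv F c W (g 0 1) (fun S => pH S 1) ω) (f k (ptr F J ω)) -
        2 ^ g₃ * (yN ω - eval (bt F ω) (Gx (ptr F J ω)) - eval (bt F ω) (zP (ptr F J ω)))| ≤
        2 ^ (C * (s + v + 1)) * (1 / 2 ^ (A k - W)) ^ b := by
  obtain ⟨C₁, hlab⟩ := n1_lab D b hD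
  obtain ⟨C₂, hin⟩ := vtg (D * D) b
  refine ⟨(C₂ + 1) * (C₁ + 2), D * D * (D * D + 1), ?_⟩
  intro m J F c N W s v g₃ A e g B G H pP pH LP LH HS Gx Gl gs Gs yN zP zH I hNs T hzd hzH hzp hzc
    hz
  have pw : ∀ {x y : ℕ}, x ≤ y → (2 : ℝ) ^ x ≤ 2 ^ y := fun h => pow_le_pow_right₀ (by norm_num) h
  obtain ⟨T', hval⟩ := hlab I hNs T hzd hzH hzp hzc hz
  have hDD : D ≤ D * D := Nat.le_mul_of_pos_right _ (by omega)
  have I' := inc_mono I hDD (show s ≤ (C₁ + 1) * (s + v + 1) by nlinarith)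
  have T'' : TgV F c (D * D) N W ((C₁ + 1) * (s + v + 1)) A g B G pP b g₃
      (fun k y => sbu (c 2) (G k y 2) (LP k y - Gx y))
      (fun k S => sbu (c 2) (H k S 2) (LH k S - Gl (cos F W (A k) S)))
      (fun S => sbu (c 2) (ohe (c 2) S (pH S 2)) (HS S - Gl S)) zP zH := by
    have h1 : ∀ x : ℕ, (2 : ℝ) ^ (C₁ * (s + v + 1)) / 2 ^ x ≤
        2 ^ ((C₁ + 1) * (s + v + 1)) / 2 ^ x := fun x =>
      div_le_div_of_nonneg_right (pw (Nat.mul_le_mul_right _ (Nat.le_succ _))) (by positivity)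
    exact ⟨T'.dP, T'.dH, T'.dS, T'.dz, T'.dzH, T'.eP, T'.eH, T'.ez, T'.zc,
      fun k hk ω hω b hb => (T'.uni k hk ω hω b hb).trans (h1 _),
      fun k hk ω hω b hb => (T'.agr k hk ω hω b hb).trans (h1 _),
      fun ω hω r hr => (T'.sta ω hω r hr).trans (h1 _),
      fun ω hω b hb => (T'.zer ω hω b hb).trans (h1 _)⟩
  have hin' := (hin I' (hNs.trans (by nlinarith)) T'').up (pw (show C₂ * ((C₁ + 1) * (s + v + 1) + v + 1) ≤
    (C₂ + 1) * (C₁ + 2) * (s + v + 1) by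
      obtain ⟨z, hz⟩ : ∃ z, z = s + v + 1 := ⟨_, rfl⟩
      have h1 : v + 1 ≤ z := by omega
      rw [← hz]
      have h2 : C₂ * ((C₁ + 1) * z + v + 1) ≤ C₂ * ((C₁ + 1) * z + z) :=
        Nat.mul_le_mul_left _ (by omega)
      have h3 : (C₂ + 1) * (C₁ + 2) * z = C₂ * ((C₁ + 1) * z + z) + (C₁ + 2) * z := by ring
      rw [h3]
      exact h2.trans (Nat.le_add_right _ _)))
  refine ⟨_, _, _, hin', fun k hk ω hω => ?_⟩
  have hWJ : W ≤ J := (I.AmW hk).trans (I.AJ k hk)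
  have hc2 : Set.InjOn c (Set.Iio 2) := I.inj.mono fun x (hx : x < 2) => show x < 3 by omega
  have h1 := hval k hk ω hω
  have e1 : eval (yv F c W (g 0 1) (fun S => pH S 1) ω)
      (tgP F c W (g 0 1) g₃ (fun y => pP y 1) (fun y => sbu (c 2) (G (min k N) y 2)
        (LP (min k N) y - Gx y) - zP y) (ptr F J ω)) =
      2 ^ g₃ * (eval (bt F ω) (sbu (c 2) (G k (ptr F J ω) 2) (LP k (ptr F J ω) -
        Gx (ptr F J ω))) - eval (bt F ω) (zP (ptr F J ω))) := by
    have h2 := tgP_eval F c W (g 0 1) g₃ (fun y => pP y 1) (fun y => sbu (c 2) (G k y 2)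
      (LP k y - Gx y) - zP y) ω 0
    rw [add_zero] at h2
    rw [Nat.min_eq_left hk, yv_ypt F c W (g 0 1) (fun S => pH S 1) (pP (ptr F J ω) 1) ω
      (I.pc ω hω 1).symm, h2, vnr_zr hWJ hc2 (I.pe _ 1) ω (fun x y hn hb => by
        rw [map_sub, map_sub, T'.eP k hk _ x y hn hb, hzp _ x y hn hb]), map_sub]
  show |eval (yv F c W (g 0 1) (fun S => pH S 1) ω)
      (tgP F c W (g 0 1) g₃ (fun y => pP y 1) (fun y => sbu (c 2) (G (min k N) y 2)
        (LP (min k N) y - Gx y) - zP y) (ptr F J ω)) - _| ≤ _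
  rw [e1, ← mul_sub, abs_mul, abs_of_pos (by positivity : (0 : ℝ) < 2 ^ g₃)]
  have e2 : eval (bt F ω) (sbu (c 2) (G k (ptr F J ω) 2) (LP k (ptr F J ω) -
      Gx (ptr F J ω))) - eval (bt F ω) (zP (ptr F J ω)) -
      (yN ω - eval (bt F ω) (Gx (ptr F J ω)) - eval (bt F ω) (zP (ptr F J ω))) =
      -(yN ω - eval (bt F ω) (Gx (ptr F J ω)) - eval (bt F ω) (sbu (c 2)
        (G k (ptr F J ω) 2) (LP k (ptr F J ω) - Gx (ptr F J ω)))) := by ring
  rw [e2, abs_neg]
  refine (mul_le_mul_of_nonneg_left h1 (by positivity)).trans ?_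
  have e3 : (2 : ℝ) ^ g₃ * (2 ^ (C₁ * (s + v + 1)) / 2 ^ (g₃ + b * (A k - W))) =
      2 ^ (C₁ * (s + v + 1)) * (1 / 2 ^ (A k - W)) ^ b := by
    rw [one_div, inv_pow, ← pow_mul, pow_add, Nat.mul_comm (A k - W) b]
    field_simp
  rw [e3]
  refine mul_le_mul_of_nonneg_right (pw (Nat.mul_le_mul_right _ ?_)) (by positivity)
  nlinarith

end Pool.STB65
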