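import Pool.Agent.H65.STB.Vn1

/-!
# The input of the jets for the image of a static place, with a static chart of the middle place

`Nsu`: as `Nst`, with a closed chart `US` of `c 2` at the static node in the place of the own line:
no condition for the kind of `c 2`. `nu_lab`: with the charts of `c 2` the difference is a target
over two coordinates. `nu_inp`: the input of the jets.
-/

set_option autoImplicit false

namespace Pool.STB65

open Finset Real MvPolynomial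
open Pool.Agent.H49.Ent Pool.Agent.H32.Dense Pool.STK Pool.KA Pool.KSAT Pool.K2S Pool.PB Pool.S6C
open Pool.GEN Pool.CHT Pool.NVX
open Pool.ALT (sbu sbu_eval sbu_deg)
open Pool.STB (V3 Po Bx)
open Pool.STB77 (Inc vpl vpt vnr ypt cos cos_slam vpl_deg vpl_eval vdil opt opt_none opt_some
  vnr_none vnr_zero vnr_one cl_lip)
open Pool.STB82 (yv mv_one)
open Pool.PB.Trl (rt rt_mem t_rt)

variable {m J : ℕ}

/-- **A static target over three coordinates**, with a blind closed label and a closed chart of the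
last coordinate. -/
structure Nsu (F : Fam m J) (c : ℕ → Fin m) (D N W s b g₃ gS : ℕ) (A : ℕ → ℕ) (g : ℕ → ℕ → ℕ)
    (B : F.Ω → Prop) (G : ℕ → PtT F → ℕ → MvPolynomial (Option (Fin m)) ℝ)
    (LP : ℕ → PtT F → MvPolynomial (Option (Fin m)) ℝ)
    (LH : ℕ → LnT F → MvPolynomial (Option (Fin m)) ℝ)
    (HS US : LnT F → MvPolynomial (Option (Fin m)) ℝ)
    (Gx : PtT F → MvPolynomial (Option (Fin m)) ℝ) (Gl : LnT F → MvPolynomial (Option (Fin m)) ℝ)
    (gs : ℕ → ℕ) (Gs : PtT F → ℕ → MvPolynomial (Option (Fin m)) ℝ) (yN : F.Ω → ℝ) : Prop where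
  dP : ∀ k ≤ N, ∀ y, (LP k y).totalDegree ≤ D
  dH : ∀ k ≤ N, ∀ S, (LH k S).totalDegree ≤ D
  dS : ∀ S, (HS S).totalDegree ≤ D
  dU : ∀ S, (US S).totalDegree ≤ D
  dx : ∀ y, (Gx y).totalDegree ≤ D
  dl : ∀ S, (Gl S).totalDegree ≤ D
  eP : ∀ k ≤ N, ∀ y, DepC c 3 (LP k y)
  eH : ∀ k ≤ N, ∀ S, DepC c 3 (LH k S)
  eS : ∀ S, DepC c 3 (HS S)
  eU : ∀ S, DepC c 2 (US S)
  ex : ∀ y, DepC c 3 (Gx y)
  el : ∀ S, DepC c 3 (Gl S)
  gc : ∀ ω, B ω → Gx (ptr F J ω) = Gl (slam F W ω)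
  pos : ∀ k ≤ N, ∀ ω, B ω →
    |yN ω - eval (bt F ω) (LP k (ptr F J ω))| ≤ 2 ^ s / 2 ^ (g₃ + b * (A k - W))
  agr : ∀ k ≤ N, ∀ ω, B ω → ∀ b', NBx c (G k (ptr F J ω)) (g k) (A k) (F.t ω) 3 b' →
    |eval b' (LP k (ptr F J ω)) - eval b' (LH k (slam F (A k) ω))| ≤
      2 ^ s / 2 ^ (g₃ + b * (A k - W))
  uni : ∀ k < N, ∀ ω, B ω → ∀ b', NBx c (G (k + 1) (ptr F J ω)) (g (k + 1)) (A (k + 1)) (F.t ω)
    3 b' → |eval b' (LP (k + 1) (ptr F J ω)) - eval b' (LP k (ptr F J ω))| ≤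
      2 ^ s / 2 ^ (g₃ + b * (A k - W))
  bl : ∀ k ≤ N, ∀ ω, B ω → ∀ b', NBx c (G k (ptr F J ω)) (g k) (A k) (F.t ω) 3 b' →
    |eval b' (pderiv (some (c 2)) (LP k (ptr F J ω) - Gx (ptr F J ω)))| ≤
      2 ^ (s + g k 2) / 2 ^ (g₃ + b * (A k - W))
  sta : ∀ ω, B ω → ∀ b', NBx c (G N (ptr F J ω)) (g N) (A N) (F.t ω) 3 b' →
    |eval b' (HS (slam F W ω)) - eval b' (LP N (ptr F J ω))| ≤ 2 ^ s / 2 ^ gS
  gS0 : g₃ + b * (A N - W) ≤ gS
  dGs : ∀ y l, (Gs y l).totalDegree ≤ D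
  eGs : ∀ y l, DepC c l (Gs y l)
  gsn : ∀ l < 3, gs l ≤ g N l + s
  nr : ∀ l < 3, ∀ ω, B ω → ∀ b', NBx c (G N (ptr F J ω)) (g N) (A N) (F.t ω) l b' →
    |eval b' (G N (ptr F J ω) l) - eval b' (Gs (ptr F J ω) l)| ≤ 2 ^ s / 2 ^ gs l
  us : ∀ ω, B ω → ∀ b', NBx c (G N (ptr F J ω)) (g N) (A N) (F.t ω) 2 b' →
    |eval b' (US (slam F W ω)) - eval b' (G N (ptr F J ω) 2)| ≤ 2 ^ s / 2 ^ gs 2
  mx : ∀ ω, B ω → ∀ b', NBx c (Gs (ptr F J ω)) gs (A N) (F.t ω) 3 b' →
    |eval b' (pderiv (some (c 2)) (HS (slam F W ω) - Gl (slam F W ω)))| ≤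
      2 ^ (s + gs 2) / 2 ^ gS
  gm : ∀ k < N, ∀ l < 3, g k l ≤ g (k + 1) l + s

/-- **The image of a static place** as a target over the two first coordinates. -/
theorem nu_lab (D b : ℕ) (hD : 1 ≤ D) : ∃ C : ℕ, ∀ {m J : ℕ} {F : Fam m J} {c : ℕ → Fin m}
    {N W s v g₃ gS : ℕ} {A : ℕ → ℕ} {e : ℕ → ℕ} {g : ℕ → ℕ → ℕ} {B : F.Ω → Prop}
    {G : ℕ → PtT F → ℕ → MvPolynomial (Option (Fin m)) ℝ}
    {H : ℕ → LnT F → ℕ → MvPolynomial (Option (Fin m)) ℝ}
    {pP : PtT F → ℕ → MvPolynomial (Option (Fin m)) ℝ}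
    {pH : LnT F → ℕ → MvPolynomial (Option (Fin m)) ℝ}
    {LP : ℕ → PtT F → MvPolynomial (Option (Fin m)) ℝ}
    {LH : ℕ → LnT F → MvPolynomial (Option (Fin m)) ℝ}
    {HS US : LnT F → MvPolynomial (Option (Fin m)) ℝ}
    {Gx : PtT F → MvPolynomial (Option (Fin m)) ℝ} {Gl : LnT F → MvPolynomial (Option (Fin m)) ℝ}
    {gs : ℕ → ℕ} {Gs : PtT F → ℕ → MvPolynomial (Option (Fin m)) ℝ} {yN : F.Ω → ℝ}
    {zP : PtT F → MvPolynomial (Option (Fin m)) ℝ}
    {zH : LnT F → MvPolynomial (Option (Fin m)) ℝ},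
    Inc F c D N W s v A e g B G H pP pH → N ≤ s →
    Nsu F c D N W s b g₃ gS A g B G LP LH HS US Gx Gl gs Gs yN →
    (∀ y, (zP y).totalDegree ≤ D * D) → (∀ S, (zH S).totalDegree ≤ D * D) →
    (∀ y, DepC c 2 (zP y)) → (∀ ω, B ω → zP (ptr F J ω) = zH (slam F W ω)) →
    (∀ ω, B ω → ∀ b', NBx c (G 0 (ptr F J ω)) (g 0) (A 0) (F.t ω) 2 b' →
      |eval b' (sbu (c 2) (G 0 (ptr F J ω) 2) (LP 0 (ptr F J ω) - Gx (ptr F J ω))) -
        eval b' (zP (ptr F J ω))| ≤ 2 ^ s / 2 ^ g₃) →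
    TgV F c (D * D) N W (C * (s + v + 1)) A g B G pP b g₃
      (fun k y => sbu (c 2) (G k y 2) (LP k y - Gx y))
      (fun k S => sbu (c 2) (H k S 2) (LH k S - Gl (cos F W (A k) S)))
      (fun S => sbu (c 2) (US S) (HS S - Gl S)) zP zH ∧
    (∀ k ≤ N, ∀ ω, B ω → |yN ω - eval (bt F ω) (Gx (ptr F J ω)) -
      eval (bt F ω) (sbu (c 2) (G k (ptr F J ω) 2) (LP k (ptr F J ω) - Gx (ptr F J ω)))| ≤
        2 ^ (C * (s + v + 1)) / 2 ^ (g₃ + b * (A k - W))) ∧
    ∀ ω, B ω → ∀ r, Bx (1 / 2 ^ (A N - W)) r →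
      |eval (vnr F c W (g 0 1) (pP (ptr F J ω) 1) ω r)
          (sbu (c 2) (US (slam F W ω)) (HS (slam F W ω) - Gl (slam F W ω))) -
        eval (vnr F c W (g 0 1) (pP (ptr F J ω) 1) ω r)
          (sbu (c 2) (G N (ptr F J ω) 2) (LP N (ptr F J ω) - Gx (ptr F J ω)))| ≤
        2 ^ (C * (s + v + 1)) / 2 ^ gS := by
  obtain ⟨c₀, D₁, hD₁, hdil⟩ := nbx_dil 4 (fun _ => D)
  obtain ⟨C₅, hbox⟩ := vnr_box D
  obtain ⟨C₆, hvd⟩ := vdlz D
  obtain ⟨C₄, hC₄⟩ : ∃ C₄, C₄ = C₅ + C₆ + 4 := ⟨_, rfl⟩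
  refine ⟨c₀ + (C₄ + 3) * (D₁ + 1) + 4, ?_⟩
  intro m J F c N W s v g₃ gS A e g B G H pP pH LP LH HS US Gx Gl gs Gs yN zP zH I hNs T hzd hzH hzp
    hzc hz
  have pw : ∀ {x y : ℕ}, x ≤ y → (2 : ℝ) ^ x ≤ 2 ^ y := fun h => pow_le_pow_right₀ (by norm_num) h
  obtain ⟨X, hX⟩ : ∃ X, X = (c₀ + (C₄ + 3) * (D₁ + 1) + 4) * (s + v + 1) := ⟨_, rfl⟩
  rw [← hX]
  have hDD : D ≤ D * D := Nat.le_mul_of_pos_right _ (by omega)
  have hmax : max 1 D = D := max_eq_right hD
  have hX1 : c₀ + (s + 1) * D₁ + 2 * s + 2 ≤ X := by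
    rw [hX]
    nlinarith [Nat.zero_le (c₀ * (s + v)), Nat.zero_le (C₄ * (D₁ + 1) * (s + v + 1)),
      Nat.zero_le (D₁ * v)]
  have hdeg : ∀ {U Q : MvPolynomial (Option (Fin m)) ℝ}, U.totalDegree ≤ D → Q.totalDegree ≤ D →
      (sbu (c 2) U Q).totalDegree ≤ D * D := by
    intro U Q hU hQ
    have h1 := sbu_deg (c 2) hU hQ
    rwa [hmax] at h1
  have hsd : ∀ {P Q : MvPolynomial (Option (Fin m)) ℝ}, P.totalDegree ≤ D → Q.totalDegree ≤ D →
      (P - Q).totalDegree ≤ D := fun h1 h2 => (totalDegree_sub _ _).trans (max_le h1 h2)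
  have hsp : ∀ {i : ℕ} {P Q : MvPolynomial (Option (Fin m)) ℝ}, DepC c i P → DepC c i Q →
      DepC c i (P - Q) := fun h1 h2 x y hn hb => by
    rw [map_sub, map_sub, h1 x y hn hb, h2 x y hn hb]
  have hq : ∀ x : ℕ, (0 : ℝ) < 1 / 2 ^ x := fun x => by positivity
  have dpd : ∀ {Q : MvPolynomial (Option (Fin m)) ℝ}, Q.totalDegree ≤ D →
      (pderiv (some (c 2)) Q).totalDegree ≤ D := fun h =>
    Pool.KS3.SML.totalDegree_pderiv_le _ _ D (h.trans (Nat.le_succ _))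
  -- the boxes of a ball
  have box : ∀ k ≤ N, ∀ (ω : F.Ω) (b' : Option (Fin m) → ℝ) (x : ℝ), B ω →
      NBx c (G k (ptr F J ω)) (g k) (A k) (F.t ω) 2 b' →
      |x - eval b' (G k (ptr F J ω) 2)| ≤ 1 / 2 ^ g k 2 →
      NBx c (G k (ptr F J ω)) (g k) (A k) (F.t ω) 3 (Function.update b' (some (c 2)) x) := by
    intro k hk ω b' x hω hb hx
    have ok := I.ok k hk
    refine ⟨by rw [upd_none]; exact hb.1, fun l hl => ?_⟩
    rcases Nat.lt_succ_iff_lt_or_eq.1 hl with h | h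
    · rw [upd_lt I.inj _ _ h, upd_dep I.inj _ _ (by omega) (ok.depG _ l)]
      exact hb.2 l h
    · rw [h, Function.update_self, upd_dep I.inj _ _ le_rfl (ok.depG _ 2)]
      exact hx
  have up2 : ∀ (b' : Option (Fin m) → ℝ) {Q U : MvPolynomial (Option (Fin m)) ℝ},
      eval b' (sbu (c 2) U Q) = eval (Function.update b' (some (c 2)) (eval b' U)) Q :=
    fun b' Q U => sbu_eval _ _ _ _
  have n0 : ∀ x : ℕ, (2 : ℝ) ^ s / 2 ^ x ≤ 2 ^ X / 2 ^ x := fun x =>
    div_le_div_of_nonneg_right (pw (by omega)) (by positivity)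
  -- the static label
  have near : ∀ ω, B ω → ∀ r, Bx (1 / 2 ^ (A N - W)) r →
      |eval (vnr F c W (g 0 1) (pP (ptr F J ω) 1) ω r)
          (sbu (c 2) (US (slam F W ω)) (HS (slam F W ω) - Gl (slam F W ω))) -
        eval (vnr F c W (g 0 1) (pP (ptr F J ω) 1) ω r)
          (sbu (c 2) (G N (ptr F J ω) 2) (LP N (ptr F J ω) - Gx (ptr F J ω)))| ≤
        2 ^ X / 2 ^ gS := by
    intro ω hω r hr
    have ok := I.ok N le_rfl
    have hWA := I.AmW (le_refl N)
    have hWJ : W ≤ J := hWA.trans (I.AJ N le_rfl)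
    have hc2 : Set.InjOn c (Set.Iio 2) := I.inj.mono fun x (hx : x < 2) => show x < 3 by omega
    obtain ⟨hbn, hbl⟩ := hbox I hNs le_rfl hω hr
    obtain ⟨vr, hvr⟩ : ∃ vr, vr = vnr F c W (g 0 1) (pP (ptr F J ω) 1) ω r := ⟨_, rfl⟩
    rw [← hvr] at hbn hbl
    rw [← hvr, ← T.gc ω hω, up2, up2]
    obtain ⟨x, hx⟩ : ∃ x, x = eval vr (US (slam F W ω)) := ⟨_, rfl⟩
    obtain ⟨y, hy⟩ : ∃ y, y = eval vr (G N (ptr F J ω) 2) := ⟨_, rfl⟩
    rw [← hx, ← hy]
    obtain ⟨z₁, hz₁⟩ : ∃ z₁, z₁ = s + v + 1 := ⟨_, rfl⟩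
    have hXz : X = (c₀ + (C₄ + 3) * (D₁ + 1) + 4) * z₁ := by rw [hX, hz₁]
    -- the distance
    have hxy : |x - y| ≤ 2 ^ (C₆ * z₁ + s) / 2 ^ gs 2 := by
      have h1 := hvd (Q := US (slam F W ω) - G N (ptr F J ω) 2) (M := 2 ^ s / 2 ^ gs 2) I
        hNs le_rfl hω hr (hsd (T.dU _) (ok.degG _ _)) ((hsp (T.eU _) (ok.depG _ 2)).mono le_rfl)
        (by positivity) (fun b hb => by
          rw [map_sub]
          exact T.us ω hω b hb)
      rw [map_sub, ← hvr, ← hz₁, ← mul_div_assoc, ← pow_add, ← hx, ← hy] at h1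
      exact h1
    -- the labels of the static node against the ball
    have hGs : ∀ l < 3, |eval vr (G N (ptr F J ω) l) - eval vr (Gs (ptr F J ω) l)| ≤
        2 ^ (C₆ * z₁ + s) / 2 ^ gs l := by
      intro l hl
      have h1 := hvd (Q := G N (ptr F J ω) l - Gs (ptr F J ω) l) (M := 2 ^ s / 2 ^ gs l) I
        hNs le_rfl hω hr (hsd (ok.degG _ _) (T.dGs _ _))
        ((hsp (ok.depG _ l) (T.eGs _ l)).mono (by omega)) (by positivity) (fun b hb => by
          rw [map_sub]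
          exact T.nr l hl ω hω b ⟨hb.1, fun j hj => hb.2 j (by omega)⟩)
      rw [map_sub, ← hvr, ← hz₁, ← mul_div_assoc, ← pow_add] at h1
      exact h1
    have hgn : ∀ l < 3, ∀ n : ℕ, (2 : ℝ) ^ n / 2 ^ g N l ≤ 2 ^ (n + s) / 2 ^ gs l := by
      intro l hl n
      rw [div_le_div_iff₀ (by positivity) (by positivity), ← pow_add, ← pow_add]
      exact pw (by have := T.gsn l hl; omega)
    obtain ⟨n, hn⟩ : ∃ n, n = C₄ * z₁ := ⟨_, rfl⟩
    have hn1 : C₅ * z₁ + s + 1 ≤ n ∧ C₆ * z₁ + s + 1 ≤ n := by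
      have h1 : s + 1 ≤ z₁ := by omega
      have h2 : C₄ * z₁ = C₅ * z₁ + C₆ * z₁ + 4 * z₁ := by
        rw [hC₄]
        ring
      rw [hn, h2]
      refine ⟨by omega, by omega⟩
    obtain ⟨M, hM⟩ : ∃ M : ℝ, M = 2 ^ (s + gs 2) / 2 ^ gS := ⟨_, rfl⟩
    have hM0 : 0 ≤ M := by rw [hM]; positivity
    have two : ∀ {α : ℝ} {p q d : ℕ}, p + 1 ≤ q → α ≤ 2 ^ p / 2 ^ d + 2 ^ p / 2 ^ d →
        α ≤ 2 ^ q / 2 ^ d := by
      intro α p q d hpq h
      refine h.trans ?_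
      rw [← add_div]
      refine div_le_div_of_nonneg_right ?_ (by positivity)
      have := pw hpq
      rw [pow_succ] at this
      linarith
    have dm : ∀ {p q d : ℕ}, p ≤ q → (2 : ℝ) ^ p / 2 ^ d ≤ 2 ^ q / 2 ^ d := fun h =>
      div_le_div_of_nonneg_right (pw h) (by positivity)
    have h2 := upd_mov (c 2) vr x y (HS (slam F W ω) - Gl (slam F W ω))
      (M := 2 ^ (c₀ + n * D₁) * M) (E := 2 ^ (C₆ * z₁ + s) / 2 ^ gs 2) hxy
      (by positivity) fun z hz => by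
        refine hdil (c := c) (i := 3) (G := Gs (ptr F J ω)) (g := gs) (a := A N) (t := F.t ω)
          (M := M) n (by norm_num) I.inj (T.dGs _) (T.eGs _)
          ((hsp (T.eS _) (T.el _)).pderiv 2) (dpd (hsd (T.dS _) (T.dl _))) hM0
          (fun b hb => by
            rw [hM]
            exact T.mx ω hω b hb) _ ?_ fun l hl => ?_
        · rw [upd_none]
          exact hbn
        · rw [upd_dep I.inj _ _ (by omega) (T.eGs _ l)]
          rcases Nat.lt_succ_iff_lt_or_eq.1 hl with h | h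
          · rw [upd_lt I.inj _ _ h]
            have h3 := hbl l h
            rw [← hz₁] at h3
            have h4 := hGs l hl
            have h5 := hgn l hl (C₅ * z₁)
            have e1 : vr (some (c l)) - eval vr (Gs (ptr F J ω) l) =
                (vr (some (c l)) - eval vr (G N (ptr F J ω) l)) +
                (eval vr (G N (ptr F J ω) l) - eval vr (Gs (ptr F J ω) l)) := by ring
            rw [e1]
            refine (abs_add_le _ _).trans ?_
            have h6 : (2 : ℝ) ^ (C₅ * z₁ + s) / 2 ^ gs l ≤ 2 ^ (n - 1) / 2 ^ gs l := dm (by omega)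
            have h7 : (2 : ℝ) ^ (C₆ * z₁ + s) / 2 ^ gs l ≤ 2 ^ (n - 1) / 2 ^ gs l := dm (by omega)
            exact two (p := n - 1) (by omega) (by linarith)
          · rw [h, Function.update_self]
            have h4 := hGs 2 (by norm_num)
            rw [← hy] at h4
            have e1 : z - eval vr (Gs (ptr F J ω) 2) = (z - y) +
                (y - eval vr (Gs (ptr F J ω) 2)) := by ring
            rw [e1]
            refine (abs_add_le _ _).trans ?_
            have h7 : (2 : ℝ) ^ (C₆ * z₁ + s) / 2 ^ gs 2 ≤ 2 ^ (n - 1) / 2 ^ gs 2 := dm (by omega)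
            exact two (p := n - 1) (by omega) (by linarith)
    -- the static label against the label of the ball
    have h1 := hdil (c := c) (i := 3) (G := G N (ptr F J ω)) (g := g N) (a := A N) (t := F.t ω)
      (Q := HS (slam F W ω) - LP N (ptr F J ω)) (M := 2 ^ s / 2 ^ gS) n (by norm_num)
      I.inj (ok.degG _) (ok.depG _) (hsp (T.eS _) (T.eP N le_rfl _))
      (hsd (T.dS _) (T.dP N le_rfl _)) (by positivity) (fun b hb => by
        rw [map_sub]
        exact T.sta ω hω b hb) (Function.update vr (some (c 2)) y) (by rw [upd_none]; exact hbn)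
      fun l hl => by
        rw [upd_dep I.inj _ _ (by omega) (ok.depG _ l)]
        rcases Nat.lt_succ_iff_lt_or_eq.1 hl with h | h
        · rw [upd_lt I.inj _ _ h]
          refine (hbl l h).trans ?_
          rw [← hz₁]
          exact dm (by omega)
        · rw [h, Function.update_self, ← hy, sub_self, abs_zero]
          positivity
    rw [map_sub] at h1
    rw [map_sub, map_sub, T.gc ω hω]
    rw [map_sub, map_sub] at h2
    have e1 : eval (Function.update vr (some (c 2)) x) (HS (slam F W ω)) -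
        eval (Function.update vr (some (c 2)) x) (Gl (slam F W ω)) -
        (eval (Function.update vr (some (c 2)) y) (LP N (ptr F J ω)) -
          eval (Function.update vr (some (c 2)) y) (Gl (slam F W ω))) =
        (eval (Function.update vr (some (c 2)) x) (HS (slam F W ω)) -
          eval (Function.update vr (some (c 2)) x) (Gl (slam F W ω)) -
        (eval (Function.update vr (some (c 2)) y) (HS (slam F W ω)) -
          eval (Function.update vr (some (c 2)) y) (Gl (slam F W ω)))) +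
        (eval (Function.update vr (some (c 2)) y) (HS (slam F W ω)) -
          eval (Function.update vr (some (c 2)) y) (LP N (ptr F J ω))) := by ring
    rw [e1]
    refine (abs_add_le _ _).trans ((add_le_add h2 h1).trans ?_)
    have e2 : (2 : ℝ) ^ (c₀ + n * D₁) * M * (2 ^ (C₆ * z₁ + s) / 2 ^ gs 2) =
        2 ^ (c₀ + n * D₁ + s + (C₆ * z₁ + s)) / 2 ^ gS := by
      rw [hM, pow_add 2 s (gs 2), pow_add _ (c₀ + n * D₁ + s), pow_add _ (c₀ + n * D₁) s]
      field_simp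
    have e3 : (2 : ℝ) ^ (c₀ + n * D₁) * (2 ^ s / 2 ^ gS) =
        2 ^ (c₀ + n * D₁ + s) / 2 ^ gS := by
      rw [pow_add _ (c₀ + n * D₁) s]
      ring
    rw [e2, e3]
    have hbig : c₀ + n * D₁ + (n + s) + 1 ≤ X := by
      rw [hXz, hn]
      have h8 : 1 ≤ z₁ := by omega
      have h9 : c₀ ≤ c₀ * z₁ := Nat.le_mul_of_pos_right _ h8
      have h10 : (c₀ + (C₄ + 3) * (D₁ + 1) + 4) * z₁ = c₀ * z₁ + C₄ * z₁ * D₁ + C₄ * z₁ +
          3 * (D₁ + 1) * z₁ + 4 * z₁ := by ring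
      rw [h10]
      have h11 : 0 ≤ 3 * (D₁ + 1) * z₁ := Nat.zero_le _
      omega
    have h8 : (2 : ℝ) ^ (c₀ + n * D₁ + s + (C₆ * z₁ + s)) / 2 ^ gS ≤
        2 ^ (c₀ + n * D₁ + (n + s)) / 2 ^ gS := dm (by omega)
    have h9 : (2 : ℝ) ^ (c₀ + n * D₁ + s) / 2 ^ gS ≤
        2 ^ (c₀ + n * D₁ + (n + s)) / 2 ^ gS := dm (by omega)
    exact two hbig (by linarith)
  refine ⟨⟨?_, ?_, ?_, hzd, hzH, ?_, ?_, hzp, hzc, ?_, ?_, ?_, ?_⟩, ?_, near⟩
  · exact fun k hk y => hdeg ((I.ok k hk).degG y 2) (hsd (T.dP k hk y) (T.dx y))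
  · exact fun k hk S => hdeg ((I.ok k hk).degH S 2) (hsd (T.dH k hk S) (T.dl _))
  · exact fun S => hdeg (T.dU S) (hsd (T.dS S) (T.dl S))
  · exact fun k hk y => sbu_dpc I.inj ((I.ok k hk).depG y 2) (hsp (T.eP k hk y) (T.ex y))
  · exact fun k hk S => sbu_dpc I.inj ((I.ok k hk).depH S 2) (hsp (T.eH k hk S) (T.el _))
  · -- the labels of two consecutive balls
    intro k hk ω hω b' hb
    have hk' : k + 1 ≤ N := hk
    have ok := I.ok k hk.le
    have ok' := I.ok (k + 1) hk'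
    rw [up2, up2]
    obtain ⟨x, hx⟩ : ∃ x, x = eval b' (G (k + 1) (ptr F J ω) 2) := ⟨_, rfl⟩
    obtain ⟨y, hy⟩ : ∃ y, y = eval b' (G k (ptr F J ω) 2) := ⟨_, rfl⟩
    rw [← hx, ← hy]
    obtain ⟨M, hM⟩ : ∃ M : ℝ, M = 2 ^ (s + g k 2) / 2 ^ (g₃ + b * (A k - W)) := ⟨_, rfl⟩
    have hM0 : 0 ≤ M := by rw [hM]; positivity
    have hxy : |x - y| ≤ 2 ^ s / 2 ^ g k 2 := by
      rw [hx, hy]
      exact I.uni k hk 2 (by norm_num) ω hω b' hb
    have h1 := T.uni k hk ω hω (Function.update b' (some (c 2)) x)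
      (box (k + 1) hk' ω b' x hω hb (by rw [hx, sub_self, abs_zero]; positivity))
    have h2 := upd_mov (c 2) b' x y (LP k (ptr F J ω) - Gx (ptr F J ω))
      (M := 2 ^ (c₀ + (s + 1) * D₁) * M) hxy (by positivity) fun z hz => by
        refine hdil (c := c) (i := 3) (G := G k (ptr F J ω)) (g := g k) (a := A k) (t := F.t ω)
          (M := M) (s + 1) (by norm_num) I.inj (ok.degG _) (ok.depG _)
          ((hsp (T.eP k hk.le _) (T.ex _)).pderiv 2) (dpd (hsd (T.dP k hk.le _) (T.dx _))) hM0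
          (fun b hb => by rw [hM]; exact T.bl k hk.le ω hω b hb) _ ?_ fun l hl => ?_
        · rw [upd_none]
          exact hb.1.trans (one_div_le_one_div_of_le (by positivity) (pw (I.Am k hk)))
        · rw [upd_dep I.inj _ _ (by omega) (ok.depG _ l)]
          rcases Nat.lt_succ_iff_lt_or_eq.1 hl with h | h
          · rw [upd_lt I.inj _ _ h]
            have h3 := hb.2 l h
            have h4 := I.uni k hk l hl ω hω b' ⟨hb.1, fun j hj => hb.2 j (hj.trans h)⟩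
            have h5 : (1 : ℝ) / 2 ^ g (k + 1) l ≤ 2 ^ s / 2 ^ g k l := by
              rw [div_le_div_iff₀ (by positivity) (by positivity), one_mul, ← pow_add]
              exact pw (by have := T.gm k hk l hl; omega)
            have e1 : b' (some (c l)) - eval b' (G k (ptr F J ω) l) =
                (b' (some (c l)) - eval b' (G (k + 1) (ptr F J ω) l)) +
                (eval b' (G (k + 1) (ptr F J ω) l) - eval b' (G k (ptr F J ω) l)) := by ring
            rw [e1]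
            refine (abs_add_le _ _).trans ?_
            have e2 : (2 : ℝ) ^ (s + 1) / 2 ^ g k l = 2 ^ s / 2 ^ g k l + 2 ^ s / 2 ^ g k l := by
              rw [pow_succ]
              ring
            rw [e2]
            linarith
          · rw [h, Function.update_self, ← hy]
            refine hz.trans (div_le_div_of_nonneg_right (pw (by omega)) (by positivity))
    rw [map_sub, map_sub]
    rw [map_sub, map_sub] at h2
    have e1 : eval (Function.update b' (some (c 2)) x) (LP (k + 1) (ptr F J ω)) -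
        eval (Function.update b' (some (c 2)) x) (Gx (ptr F J ω)) -
        (eval (Function.update b' (some (c 2)) y) (LP k (ptr F J ω)) -
          eval (Function.update b' (some (c 2)) y) (Gx (ptr F J ω))) =
        (eval (Function.update b' (some (c 2)) x) (LP (k + 1) (ptr F J ω)) -
          eval (Function.update b' (some (c 2)) x) (LP k (ptr F J ω))) +
        (eval (Function.update b' (some (c 2)) x) (LP k (ptr F J ω)) -
          eval (Function.update b' (some (c 2)) x) (Gx (ptr F J ω)) -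
        (eval (Function.update b' (some (c 2)) y) (LP k (ptr F J ω)) -
          eval (Function.update b' (some (c 2)) y) (Gx (ptr F J ω)))) := by ring
    rw [e1]
    refine (abs_add_le _ _).trans ((add_le_add h1 h2).trans ?_)
    have e2 : (2 : ℝ) ^ (c₀ + (s + 1) * D₁) * M * (2 ^ s / 2 ^ g k 2) =
        2 ^ (c₀ + (s + 1) * D₁ + 2 * s) / 2 ^ (g₃ + b * (A k - W)) := by
      rw [hM, show s + g k 2 = g k 2 + s by ring, pow_add 2 (g k 2) s,
        show c₀ + (s + 1) * D₁ + 2 * s = c₀ + (s + 1) * D₁ + s + s by ring, pow_add _ _ s,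
        pow_add _ (c₀ + (s + 1) * D₁) s]
      field_simp
    rw [e2, ← add_div]
    refine div_le_div_of_nonneg_right ?_ (by positivity)
    have k1 : (2 : ℝ) ^ s ≤ 2 ^ (c₀ + (s + 1) * D₁ + 2 * s) := pw (by omega)
    have k2 : (2 : ℝ) ^ (c₀ + (s + 1) * D₁ + 2 * s + 1) ≤ 2 ^ X := pw (by omega)
    rw [pow_succ] at k2
    linarith
  · -- the two labels of a ball
    intro k hk ω hω b' hb
    have ok := I.ok k hk
    rw [cos_slam F (I.AmW hk) (I.AJ k hk), ← T.gc ω hω, up2, up2]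
    obtain ⟨x, hx⟩ : ∃ x, x = eval b' (G k (ptr F J ω) 2) := ⟨_, rfl⟩
    obtain ⟨y, hy⟩ : ∃ y, y = eval b' (H k (slam F (A k) ω) 2) := ⟨_, rfl⟩
    rw [← hx, ← hy]
    have hxy : |x - y| ≤ 1 / 2 ^ g k 2 := by
      rw [hx, hy]
      exact ok.agr ω hω 2 (by norm_num) b' hb
    obtain ⟨M, hM⟩ : ∃ M : ℝ, M = 2 ^ (s + g k 2) / 2 ^ (g₃ + b * (A k - W)) := ⟨_, rfl⟩
    have hM0 : 0 ≤ M := by rw [hM]; positivity
    have h1 := T.agr k hk ω hω (Function.update b' (some (c 2)) y)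
      (box k hk ω b' y hω hb (by rw [← hx, abs_sub_comm]; exact hxy))
    have h2 := upd_mov (c 2) b' y x (LP k (ptr F J ω) - Gx (ptr F J ω)) (M := M)
      (E := 1 / 2 ^ g k 2) (by rw [abs_sub_comm]; exact hxy) hM0 fun z hz => by
        rw [hM]
        exact T.bl k hk ω hω _ (box k hk ω b' z hω hb (by rw [← hx]; exact hz))
    rw [map_sub, map_sub]
    rw [map_sub, map_sub] at h2
    have e1 : eval (Function.update b' (some (c 2)) x) (LP k (ptr F J ω)) -
        eval (Function.update b' (some (c 2)) x) (Gx (ptr F J ω)) -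
        (eval (Function.update b' (some (c 2)) y) (LH k (slam F (A k) ω)) -
          eval (Function.update b' (some (c 2)) y) (Gx (ptr F J ω))) =
        (eval (Function.update b' (some (c 2)) y) (LP k (ptr F J ω)) -
          eval (Function.update b' (some (c 2)) y) (LH k (slam F (A k) ω))) -
        (eval (Function.update b' (some (c 2)) y) (LP k (ptr F J ω)) -
          eval (Function.update b' (some (c 2)) y) (Gx (ptr F J ω)) -
        (eval (Function.update b' (some (c 2)) x) (LP k (ptr F J ω)) -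
          eval (Function.update b' (some (c 2)) x) (Gx (ptr F J ω)))) := by ring
    rw [e1]
    refine (abs_sub _ _).trans ((add_le_add h1 h2).trans ?_)
    have e2 : M * (1 / 2 ^ g k 2) = 2 ^ s / 2 ^ (g₃ + b * (A k - W)) := by
      rw [hM, pow_add]
      field_simp
    rw [e2, ← add_div]
    refine div_le_div_of_nonneg_right ?_ (by positivity)
    have k2 : (2 : ℝ) ^ (s + 1) ≤ 2 ^ X := pw (by omega)
    rw [pow_succ] at k2
    linarith
  · exact fun ω hω r hr => (near ω hω r hr).trans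
      (div_le_div_of_nonneg_left (by positivity) (by positivity) (pw T.gS0))
  · exact fun ω hω b' hb => (hz ω hω b' hb).trans (n0 _)
  · -- the sample
    intro k hk ω hω
    have ok := I.ok k hk
    rw [up2]
    obtain ⟨x, hx⟩ : ∃ x, x = eval (bt F ω) (G k (ptr F J ω) 2) := ⟨_, rfl⟩
    rw [← hx]
    have hb : NBx c (G k (ptr F J ω)) (g k) (A k) (F.t ω) 2 (bt F ω) := by
      refine ⟨?_, fun l hl => ok.pos ω hω l (by omega)⟩
      show |F.t ω - F.t ω| ≤ _
      rw [sub_self, abs_zero]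
      positivity
    have hxy : |bt F ω (some (c 2)) - x| ≤ 1 / 2 ^ g k 2 := by
      rw [hx]
      exact ok.pos ω hω 2 (by norm_num)
    obtain ⟨M, hM⟩ : ∃ M : ℝ, M = 2 ^ (s + g k 2) / 2 ^ (g₃ + b * (A k - W)) := ⟨_, rfl⟩
    have hM0 : 0 ≤ M := by rw [hM]; positivity
    have h2 := upd_mov (c 2) (bt F ω) (bt F ω (some (c 2))) x
      (LP k (ptr F J ω) - Gx (ptr F J ω)) (M := M) hxy hM0 fun z hz => by
        rw [hM]
        exact T.bl k hk ω hω _ (box k hk ω _ z hω hb (by rw [← hx]; exact hz))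
    rw [Function.update_eq_self] at h2
    have h1 := T.pos k hk ω hω
    rw [map_sub] at h2
    have e1 : yN ω - eval (bt F ω) (Gx (ptr F J ω)) -
        eval (Function.update (bt F ω) (some (c 2)) x) (LP k (ptr F J ω) - Gx (ptr F J ω)) =
        (yN ω - eval (bt F ω) (LP k (ptr F J ω))) +
        (eval (bt F ω) (LP k (ptr F J ω)) - eval (bt F ω) (Gx (ptr F J ω)) -
        eval (Function.update (bt F ω) (some (c 2)) x) (LP k (ptr F J ω) - Gx (ptr F J ω))) := by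
      ring
    rw [e1]
    refine (abs_add_le _ _).trans ((add_le_add h1 h2).trans ?_)
    have e2 : M * (1 / 2 ^ g k 2) = 2 ^ s / 2 ^ (g₃ + b * (A k - W)) := by
      rw [hM, pow_add]
      field_simp
    rw [e2, ← add_div]
    refine div_le_div_of_nonneg_right ?_ (by positivity)
    have k2 : (2 : ℝ) ^ (s + 1) ≤ 2 ^ X := pw (by omega)
    rw [pow_succ] at k2
    linarith

/-- **The input of the jets for the image of a static place**, and the value at the sample. -/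
theorem nu_inp (D b : ℕ) (hD : 1 ≤ D) : ∃ C K : ℕ, ∀ {m J : ℕ} {F : Fam m J} {c : ℕ → Fin m}
    {N W s v g₃ gS : ℕ} {A : ℕ → ℕ} {e : ℕ → ℕ} {g : ℕ → ℕ → ℕ} {B : F.Ω → Prop}
    {G : ℕ → PtT F → ℕ → MvPolynomial (Option (Fin m)) ℝ}
    {H : ℕ → LnT F → ℕ → MvPolynomial (Option (Fin m)) ℝ}
    {pP : PtT F → ℕ → MvPolynomial (Option (Fin m)) ℝ}
    {pH : LnT F → ℕ → MvPolynomial (Option (Fin m)) ℝ}
    {LP : ℕ → PtT F → MvPolynomial (Option (Fin m)) ℝ}
    {LH : ℕ → LnT F → MvPolynomial (Option (Fin m)) ℝ}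
    {HS US : LnT F → MvPolynomial (Option (Fin m)) ℝ}
    {Gx : PtT F → MvPolynomial (Option (Fin m)) ℝ} {Gl : LnT F → MvPolynomial (Option (Fin m)) ℝ}
    {gs : ℕ → ℕ} {Gs : PtT F → ℕ → MvPolynomial (Option (Fin m)) ℝ} {yN : F.Ω → ℝ}
    {zP : PtT F → MvPolynomial (Option (Fin m)) ℝ}
    {zH : LnT F → MvPolynomial (Option (Fin m)) ℝ},
    Inc F c D N W s v A e g B G H pP pH → N ≤ s →
    Nsu F c D N W s b g₃ gS A g B G LP LH HS US Gx Gl gs Gs yN →
    (∀ y, (zP y).totalDegree ≤ D * D) → (∀ S, (zH S).totalDegree ≤ D * D) →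
    (∀ y, DepC c 2 (zP y)) → (∀ ω, B ω → zP (ptr F J ω) = zH (slam F W ω)) →
    (∀ ω, B ω → ∀ b', NBx c (G 0 (ptr F J ω)) (g 0) (A 0) (F.t ω) 2 b' →
      |eval b' (sbu (c 2) (G 0 (ptr F J ω) 2) (LP 0 (ptr F J ω) - Gx (ptr F J ω))) -
        eval b' (zP (ptr F J ω))| ≤ 2 ^ s / 2 ^ g₃) →
    ∃ (f : ℕ → PtT F → Po) (f' : ℕ → LnT F → Po) (kf : LnT F → Po),
      InpF F B W N K b (2 ^ (C * (s + v + 1))) (yv F c W (g 0 1) (fun S => pH S 1))
        (fun k => A k - W) f f' kf ∧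
      (∀ k ≤ N, ∀ ω, B ω → |eval (yv F c W (g 0 1) (fun S => pH S 1) ω) (f k (ptr F J ω)) -
        2 ^ g₃ * (yN ω - eval (bt F ω) (Gx (ptr F J ω)) - eval (bt F ω) (zP (ptr F J ω)))| ≤
        2 ^ (C * (s + v + 1)) * (1 / 2 ^ (A k - W)) ^ b) ∧
      ∀ ω, B ω → ∀ r, Bx (1 / 2 ^ (A N - W)) r →
        |eval (yv F c W (g 0 1) (fun S => pH S 1) ω + r) (kf (slam F W ω)) -
          eval (yv F c W (g 0 1) (fun S => pH S 1) ω + r) (f N (ptr F J ω))| ≤
          2 ^ (C * (s + v + 1)) * (2 ^ g₃ / 2 ^ gS) := by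
  obtain ⟨C₁, hlab⟩ := nu_lab D b hD
  obtain ⟨C₂, hin⟩ := vtg (D * D) b
  refine ⟨(C₂ + 1) * (C₁ + 2), D * D * (D * D + 1), ?_⟩
  intro m J F c N W s v g₃ gS A e g B G H pP pH LP LH HS US Gx Gl gs Gs yN zP zH I hNs T hzd hzH hzp
    hzc hz
  have pw : ∀ {x y : ℕ}, x ≤ y → (2 : ℝ) ^ x ≤ 2 ^ y := fun h => pow_le_pow_right₀ (by norm_num) h
  obtain ⟨T', hval, hnear⟩ := hlab I hNs T hzd hzH hzp hzc hz
  have hDD : D ≤ D * D := Nat.le_mul_of_pos_right _ (by omega)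
  have I' := inc_mono I hDD (show s ≤ (C₁ + 1) * (s + v + 1) by nlinarith)
  have T'' : TgV F c (D * D) N W ((C₁ + 1) * (s + v + 1)) A g B G pP b g₃
      (fun k y => sbu (c 2) (G k y 2) (LP k y - Gx y))
      (fun k S => sbu (c 2) (H k S 2) (LH k S - Gl (cos F W (A k) S)))
      (fun S => sbu (c 2) (US S) (HS S - Gl S)) zP zH := by
    have h1 : ∀ x : ℕ, (2 : ℝ) ^ (C₁ * (s + v + 1)) / 2 ^ x ≤
        2 ^ ((C₁ + 1) * (s + v + 1)) / 2 ^ x := fun x =>
      div_le_div_of_nonneg_right (pw (Nat.mul_le_mul_right _ (Nat.le_succ _))) (by positivity)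
    exact ⟨T'.dP, T'.dH, T'.dS, T'.dz, T'.dzH, T'.eP, T'.eH, T'.ez, T'.zc,
      fun k hk ω hω b hb => (T'.uni k hk ω hω b hb).trans (h1 _),
      fun k hk ω hω b hb => (T'.agr k hk ω hω b hb).trans (h1 _),
      fun ω hω r hr => (T'.sta ω hω r hr).trans (h1 _),
      fun ω hω b hb => (T'.zer ω hω b hb).trans (h1 _)⟩
  have hin' := (hin I' (hNs.trans (by nlinarith)) T'').up (pw (show C₂ * ((C₁ + 1) * (s + v + 1) + v + 1) ≤
    (C₂ + 1) * (C₁ + 2) * (s + v + 1) by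
      obtain ⟨z, hz⟩ : ∃ z, z = s + v + 1 := ⟨_, rfl⟩
      have h1 : v + 1 ≤ z := by omega
      rw [← hz]
      have h2 : C₂ * ((C₁ + 1) * z + v + 1) ≤ C₂ * ((C₁ + 1) * z + z) :=
        Nat.mul_le_mul_left _ (by omega)
      have h3 : (C₂ + 1) * (C₁ + 2) * z = C₂ * ((C₁ + 1) * z + z) + (C₁ + 2) * z := by ring
      rw [h3]
      exact h2.trans (Nat.le_add_right _ _)))
  refine ⟨_, _, _, hin', fun k hk ω hω => ?_, fun ω hω r hr => ?_⟩
  rotate_left
  · have h0 := hnear ω hω r hr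
    show |eval (yv F c W (g 0 1) (fun S => pH S 1) ω + r) (tgK F c W (g 0 1) g₃ (fun S => pH S 1)
      (fun S => sbu (c 2) (US S) (HS S - Gl S) - zH S) (slam F W ω)) -
      eval (yv F c W (g 0 1) (fun S => pH S 1) ω + r) (tgP F c W (g 0 1) g₃ (fun y => pP y 1)
      (fun y => sbu (c 2) (G (min N N) y 2) (LP (min N N) y - Gx y) - zP y) (ptr F J ω))| ≤ _
    have cas : ∀ x y z : ℝ, x - z - (y - z) = x - y := fun x y z => by ring
    rw [Nat.min_self, yv_ypt F c W (g 0 1) (fun S => pH S 1) (pP (ptr F J ω) 1) ω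
      (I.pc ω hω 1).symm, tgP_eval F c W (g 0 1) g₃ (fun y => pP y 1),
      tgK_eval F c W (g 0 1) g₃ (fun S => pH S 1) _ _ ω (I.pc ω hω 1).symm, ← mul_sub, map_sub,
      ← hzc ω hω, map_sub, cas, abs_mul, abs_of_pos (by positivity : (0 : ℝ) < 2 ^ g₃)]
    refine (mul_le_mul_of_nonneg_left h0 (by positivity)).trans ?_
    rw [mul_div_assoc', mul_div_assoc', mul_comm ((2 : ℝ) ^ g₃)]
    refine div_le_div_of_nonneg_right (mul_le_mul_of_nonneg_right (pw
      (Nat.mul_le_mul_right _ ?_)) (by positivity)) (by positivity)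
    nlinarith
  have hWJ : W ≤ J := (I.AmW hk).trans (I.AJ k hk)
  have hc2 : Set.InjOn c (Set.Iio 2) := I.inj.mono fun x (hx : x < 2) => show x < 3 by omega
  have h1 := hval k hk ω hω
  have e1 : eval (yv F c W (g 0 1) (fun S => pH S 1) ω)
      (tgP F c W (g 0 1) g₃ (fun y => pP y 1) (fun y => sbu (c 2) (G (min k N) y 2)
        (LP (min k N) y - Gx y) - zP y) (ptr F J ω)) =
      2 ^ g₃ * (eval (bt F ω) (sbu (c 2) (G k (ptr F J ω) 2) (LP k (ptr F J ω) -
        Gx (ptr F J ω))) - eval (bt F ω) (zP (ptr F J ω))) := by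
    have h2 := tgP_eval F c W (g 0 1) g₃ (fun y => pP y 1) (fun y => sbu (c 2) (G k y 2)
      (LP k y - Gx y) - zP y) ω 0
    rw [add_zero] at h2
    rw [Nat.min_eq_left hk, yv_ypt F c W (g 0 1) (fun S => pH S 1) (pP (ptr F J ω) 1) ω
      (I.pc ω hω 1).symm, h2, vnr_zr hWJ hc2 (I.pe _ 1) ω (fun x y hn hb => by
        rw [map_sub, map_sub, T'.eP k hk _ x y hn hb, hzp _ x y hn hb]), map_sub]
  show |eval (yv F c W (g 0 1) (fun S => pH S 1) ω)
      (tgP F c W (g 0 1) g₃ (fun y => pP y 1) (fun y => sbu (c 2) (G (min k N) y 2)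
        (LP (min k N) y - Gx y) - zP y) (ptr F J ω)) - _| ≤ _
  rw [e1, ← mul_sub, abs_mul, abs_of_pos (by positivity : (0 : ℝ) < 2 ^ g₃)]
  have e2 : eval (bt F ω) (sbu (c 2) (G k (ptr F J ω) 2) (LP k (ptr F J ω) -
      Gx (ptr F J ω))) - eval (bt F ω) (zP (ptr F J ω)) -
      (yN ω - eval (bt F ω) (Gx (ptr F J ω)) - eval (bt F ω) (zP (ptr F J ω))) =
      -(yN ω - eval (bt F ω) (Gx (ptr F J ω)) - eval (bt F ω) (sbu (c 2)
        (G k (ptr F J ω) 2) (LP k (ptr F J ω) - Gx (ptr F J ω)))) := by ring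
  rw [e2, abs_neg]
  refine (mul_le_mul_of_nonneg_left h1 (by positivity)).trans ?_
  have e3 : (2 : ℝ) ^ g₃ * (2 ^ (C₁ * (s + v + 1)) / 2 ^ (g₃ + b * (A k - W))) =
      2 ^ (C₁ * (s + v + 1)) * (1 / 2 ^ (A k - W)) ^ b := by
    rw [one_div, inv_pow, ← pow_mul, pow_add, Nat.mul_comm (A k - W) b]
    field_simp
  rw [e3]
  refine mul_le_mul_of_nonneg_right (pw (Nat.mul_le_mul_right _ ?_)) (by positivity)
  nlinarith

end Pool.STB65
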