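import Pool.Agent.H65.STB.Vtg
import Pool.Agent.H60.ALT.Nzl
import Pool.Agent.H80.NV.Axl

/-!
# The height of the own line over a closed polynomial, in absolute coordinates

`olx`: the own line as polynomials of the time. `mov_bx`: a polynomial moves little near the centre
of a box. `two_lip`: the closed polynomial minus the label of a ball, for `c 2`, moves little near the
sample. `own_bx`: the absolute coordinates of the own line.
-/

set_option autoImplicit false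

namespace Pool.STB65

open Finset Real MvPolynomial
open Pool.Agent.H49.Ent Pool.Agent.H32.Dense Pool.STK Pool.KA Pool.KSAT Pool.K2S Pool.PB Pool.S6C
open Pool.GEN Pool.CHT Pool.NVX
open Pool.STB (V3 Po Bx)
open Pool.STB77 (Inc vpl vpt vnr ypt cos cos_slam vpl_deg vpl_eval opt opt_none opt_some
  vnr_none vnr_zero vnr_one)
open Pool.STB82 (yv)
open Pool.PB.Trl (rt rt_mem t_rt)

variable {m J : ℕ}

/-! ### The own line -/

/-- The own line as polynomials of the time. -/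
noncomputable def olx {F : Fam m J} (S : LnT F) : Option (Fin m) → MvPolynomial (Option (Fin m)) ℝ
  | none => X none
  | some k => C (S.1.1 k) + C (S.1.2 k) * X none

theorem olx_eval (F : Fam m J) (w : ℕ) (ω : F.Ω) (b : Option (Fin m) → ℝ) (o : Option (Fin m)) :
    eval b (olx (slam F w ω) o) = opt F ω (b none) o := by
  cases o with
  | none =>
    show eval b (X none) = _
    rw [eval_X, opt_none]
  | some k =>
    show eval b (C (F.u ω k) + C (F.d ω k) * X none) = _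
    rw [map_add, map_mul, eval_C, eval_C, eval_X, opt_some]
    unfold Fam.x
    ring

theorem olx_deg {F : Fam m J} (S : LnT F) (o : Option (Fin m)) : (olx S o).totalDegree ≤ 1 := by
  cases o with
  | none =>
    show (X none : MvPolynomial (Option (Fin m)) ℝ).totalDegree ≤ 1
    rw [totalDegree_X]
  | some k =>
    show (C (S.1.1 k) + C (S.1.2 k) * X none : MvPolynomial (Option (Fin m)) ℝ).totalDegree ≤ 1
    refine (totalDegree_add _ _).trans (max_le (by rw [totalDegree_C]; omega) ?_)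
    refine (totalDegree_mul _ _).trans ?_
    rw [totalDegree_C, totalDegree_X]

/-- The polynomial `P` plus the height of the own coordinate `k` over `P`. -/
noncomputable def ohe {F : Fam m J} (k : Fin m) (S : LnT F)
    (P : MvPolynomial (Option (Fin m)) ℝ) : MvPolynomial (Option (Fin m)) ℝ :=
  P + (olx S (some k) - bind₁ (olx S) P)

theorem ohe_eval (F : Fam m J) (w : ℕ) (k : Fin m) (ω : F.Ω)
    (P : MvPolynomial (Option (Fin m)) ℝ) (b : Option (Fin m) → ℝ) :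
    eval b (ohe k (slam F w ω) P) = eval b P + (opt F ω (b none) (some k) -
      eval (opt F ω (b none)) P) := by
  unfold ohe
  rw [map_add, map_sub, olx_eval, Pool.STB77.eval_bnd]
  have e1 : (fun o => eval b (olx (slam F w ω) o)) = opt F ω (b none) :=
    funext fun o => olx_eval F w ω b o
  rw [e1]

theorem ohe_deg {F : Fam m J} (k : Fin m) (S : LnT F) {D : ℕ}
    {P : MvPolynomial (Option (Fin m)) ℝ} (hP : P.totalDegree ≤ D) (hD : 1 ≤ D) :
    (ohe k S P).totalDegree ≤ D := by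
  unfold ohe
  refine (totalDegree_add _ _).trans (max_le hP ?_)
  refine (totalDegree_sub _ _).trans (max_le ((olx_deg S _).trans hD) ?_)
  exact (deg_aff _ (olx_deg S) P).trans hP

/-! ### Polynomials near the centre of a box -/

/-- **A polynomial moves little** near the centre of a box. -/
theorem mov_bx (K : ℕ) : ∃ C : ℝ, 1 ≤ C ∧ ∀ (P : Po) (M r ρ R : ℝ), P.totalDegree ≤ K → 0 < r →
    0 < ρ → 1 ≤ R → ρ ≤ R * r → (∀ q, Bx r q → |eval q P| ≤ M) → ∀ q, Bx ρ q →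
      |eval q P - eval 0 P| ≤ C * M * (ρ / r) * R ^ K := by
  obtain ⟨C, hC, h⟩ := hc_le K
  have hK0 : (0 : ℝ) ≤ K := Nat.cast_nonneg K
  refine ⟨(K + 1) * C, by nlinarith, fun P M r ρ R hP hr hρ hR hρR hM q hq => ?_⟩
  have hM0 : 0 ≤ M := (abs_nonneg _).trans (hM 0 (bx_zero hr.le))
  have h0 : eval 0 P = eval q (homogeneousComponent 0 P) := by
    rw [homogeneousComponent_zero, eval_C, eval_zero, constantCoeff_eq]
  rw [sum_hc P hP q, Finset.sum_range_succ', h0, add_sub_cancel_right]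
  refine (Finset.abs_sum_le_sum_abs _ _).trans ?_
  have h1 : ∀ n ∈ range K, |eval q (homogeneousComponent (n + 1) P)| ≤
      C * M * (ρ / r) * R ^ K := by
    intro n hn
    refine (h P M r ρ hP hr hρ hM (n + 1) q hq).trans ?_
    have h2 : ρ / r ≤ R := by rwa [div_le_iff₀ hr]
    have h3 : (ρ / r) ^ n ≤ R ^ K := (pow_le_pow_left₀ (by positivity) h2 n).trans
      (pow_le_pow_right₀ hR (mem_range.1 hn).le)
    rw [pow_succ, mul_comm ((ρ / r) ^ n), ← mul_assoc]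
    exact mul_le_mul_of_nonneg_left h3 (by positivity)
  refine (Finset.sum_le_sum h1).trans ?_
  rw [Finset.sum_const, card_range, nsmul_eq_mul]
  have h4 : 0 ≤ C * M * (ρ / r) * R ^ K := by positivity
  calc (K : ℝ) * (C * M * (ρ / r) * R ^ K) ≤ (K + 1) * (C * M * (ρ / r) * R ^ K) :=
        mul_le_mul_of_nonneg_right (by linarith) h4
    _ = _ := by ring

/-! ### The label of `c 2` near the sample -/

/-- A polynomial over the two first coordinates as a polynomial of the absolute coordinates. -/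
theorem vnr_mov (D : ℕ) : ∃ C : ℕ, ∀ {m J : ℕ} {F : Fam m J} {c : ℕ → Fin m} {N W s v : ℕ}
    {A : ℕ → ℕ} {e : ℕ → ℕ} {g : ℕ → ℕ → ℕ} {B : F.Ω → Prop}
    {G : ℕ → PtT F → ℕ → MvPolynomial (Option (Fin m)) ℝ}
    {H : ℕ → LnT F → ℕ → MvPolynomial (Option (Fin m)) ℝ}
    {pP : PtT F → ℕ → MvPolynomial (Option (Fin m)) ℝ}
    {pH : LnT F → ℕ → MvPolynomial (Option (Fin m)) ℝ} {k n y : ℕ} {ω : F.Ω} {r : V3} {M : ℝ}
    {Q : MvPolynomial (Option (Fin m)) ℝ},
    Inc F c D N W s v A e g B G H pP pH → N ≤ s → k ≤ N → B ω → Q.totalDegree ≤ D → DepC c 2 Q →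
    0 ≤ M →
    (∀ b, NBx c (G k (ptr F J ω)) (g k) (A k) (F.t ω) 2 b → |eval b Q| ≤ M) →
    A k - W ≤ y → Bx (2 ^ n / 2 ^ y) r →
    |eval (vnr F c W (g 0 1) (pP (ptr F J ω) 1) ω r) Q -
      eval (vnr F c W (g 0 1) (pP (ptr F J ω) 1) ω 0) Q| ≤
        2 ^ (C * (s + v + n + 1)) * M / 2 ^ (y - (A k - W)) := by
  obtain ⟨C₁, hv⟩ := vdlz D
  obtain ⟨C₂, hC₂, hmov⟩ := mov_bx (D * (D + 1))
  obtain ⟨k₂, hk₂⟩ := pow_unbounded_of_one_lt C₂ (one_lt_two (α := ℝ))
  refine ⟨C₁ + k₂ + 1 + D * (D + 1), ?_⟩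
  intro m J F c N W s v A e g B G H pP pH k n y ω r M Q I hNs hk hω hQd hQ hM hQM hy hr
  obtain ⟨M', hM'⟩ : ∃ M' : ℝ, M' = 2 ^ (C₁ * (s + v + 1)) * M := ⟨_, rfl⟩
  obtain ⟨x, hx⟩ : ∃ x, x = A k - W := ⟨_, rfl⟩
  have hM'0 : 0 ≤ M' := by rw [hM']; positivity
  obtain ⟨P, hP⟩ : ∃ P : Po, P = trs (ypt F c W (g 0 1) (pP (ptr F J ω) 1) ω)
      (vpl c W (g 0 1) (slam F W ω).2.2 (pP (ptr F J ω) 1) Q) := ⟨_, rfl⟩
  have hPe : ∀ q, eval q P = eval (vnr F c W (g 0 1) (pP (ptr F J ω) 1) ω q) Q := by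
    intro q
    rw [hP, eval_trs, vpl_eval, add_comm]
    rfl
  have hPd : P.totalDegree ≤ D * (D + 1) := by
    rw [hP]
    exact (deg_trs _ _).trans (vpl_deg c W _ _ (I.pd _ 1) hQd)
  have h1 := hmov P M' (1 / 2 ^ x) (2 ^ n / 2 ^ y) (2 ^ n) hPd (by positivity) (by positivity)
    (one_le_pow₀ (by norm_num)) (by
      rw [mul_one_div]
      exact div_le_div_of_nonneg_left (by positivity) (by positivity)
        (pow_le_pow_right₀ (by norm_num) (by omega))) (fun q hq => by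
      rw [hPe, hM']
      exact hv I hNs hk hω (by rw [← hx]; exact hq) hQd hQ hM hQM) r hr
  rw [hPe, hPe] at h1
  refine h1.trans ?_
  rw [← hx]
  have e1 : (2 : ℝ) ^ n / 2 ^ y / (1 / 2 ^ x) = 2 ^ n / 2 ^ (y - x) := by
    have h2 : (2 : ℝ) ^ y = 2 ^ (y - x) * 2 ^ x := by rw [← pow_add, Nat.sub_add_cancel (by omega)]
    rw [h2]
    field_simp
  rw [e1, hM', ← pow_mul]
  have pw : ∀ {x y : ℕ}, x ≤ y → (2 : ℝ) ^ x ≤ 2 ^ y := fun h => pow_le_pow_right₀ (by norm_num) h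
  calc C₂ * (2 ^ (C₁ * (s + v + 1)) * M) * (2 ^ n / 2 ^ (y - x)) * 2 ^ (n * (D * (D + 1)))
      ≤ 2 ^ k₂ * (2 ^ (C₁ * (s + v + 1)) * M) * (2 ^ n / 2 ^ (y - x)) *
        2 ^ (n * (D * (D + 1))) := by
        refine mul_le_mul_of_nonneg_right (mul_le_mul_of_nonneg_right
          (mul_le_mul_of_nonneg_right hk₂.le ?_) ?_) ?_ <;> positivity
    _ = 2 ^ (k₂ + C₁ * (s + v + 1) + n + n * (D * (D + 1))) * M / 2 ^ (y - x) := by
        rw [pow_add, pow_add, pow_add]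
        ring
    _ ≤ _ := by
        refine div_le_div_of_nonneg_right (mul_le_mul_of_nonneg_right (pw ?_) hM) (by positivity)
        obtain ⟨z, hz⟩ : ∃ z, z = D * (D + 1) := ⟨_, rfl⟩
        rw [← hz]
        nlinarith [Nat.zero_le (C₁ * n), Nat.zero_le (k₂ * (s + v + n)), Nat.zero_le (z * (s + v)),
          Nat.zero_le z, Nat.zero_le (s + v)]

/-- The point of the sample. -/
theorem vnr_zr {F : Fam m J} {c : ℕ → Fin m} {W g : ℕ} {P : MvPolynomial (Option (Fin m)) ℝ}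
    (hW : W ≤ J) (hc : Set.InjOn c (Set.Iio 2)) (hP : DepC c 1 P) (ω : F.Ω)
    {Q : MvPolynomial (Option (Fin m)) ℝ} (hQ : DepC c 2 Q) :
    eval (vnr F c W g P ω 0) Q = eval (bt F ω) Q := by
  have h0 : vnr F c W g P ω 0 none = F.t ω := by
    rw [vnr_none hW, Pi.zero_apply, zero_div, add_zero]
  have h1 : vnr F c W g P ω 0 (some (c 0)) = F.x ω (c 0) := by
    rw [vnr_zero, Pi.zero_apply, zero_div, add_zero]
  have h2 : eval (vnr F c W g P ω 0) P = eval (bt F ω) P := hP _ _ h0 fun l hl => by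
    have : l = 0 := by omega
    subst this
    exact h1
  have h3 : vnr F c W g P ω 0 (some (c 1)) = F.x ω (c 1) := by
    rw [vnr_one hc hP, h2, Pi.zero_apply, zero_div]
    ring
  refine hQ _ _ h0 fun l hl => ?_
  interval_cases l
  · exact h1
  · exact h3

/-- **The closed polynomial of `c 2` minus the label of a ball** moves little near the sample. -/
theorem two_lip (D : ℕ) : ∃ C : ℕ, ∀ {m J : ℕ} {F : Fam m J} {c : ℕ → Fin m} {N W s v : ℕ}
    {A : ℕ → ℕ} {e : ℕ → ℕ} {g : ℕ → ℕ → ℕ} {B : F.Ω → Prop}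
    {G : ℕ → PtT F → ℕ → MvPolynomial (Option (Fin m)) ℝ}
    {H : ℕ → LnT F → ℕ → MvPolynomial (Option (Fin m)) ℝ}
    {pP : PtT F → ℕ → MvPolynomial (Option (Fin m)) ℝ}
    {pH : LnT F → ℕ → MvPolynomial (Option (Fin m)) ℝ} {k n : ℕ} {ω : F.Ω} {r : V3},
    Inc F c D N W s v A e g B G H pP pH → N ≤ s → (∀ k ≤ N, g 0 2 + (A k - W) ≤ g k 2 + s) →
    k ≤ N →
    B ω → Bx (2 ^ n / 2 ^ (A k - W)) r →
    |(eval (vnr F c W (g 0 1) (pP (ptr F J ω) 1) ω r) (pP (ptr F J ω) 2) -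
      eval (vnr F c W (g 0 1) (pP (ptr F J ω) 1) ω r) (G k (ptr F J ω) 2)) -
      (eval (bt F ω) (pP (ptr F J ω) 2) - eval (bt F ω) (G k (ptr F J ω) 2))| ≤
        2 ^ (C * (s + v + n + 1)) / 2 ^ (g 0 2 + (A k - W)) := by
  obtain ⟨C₁, hm⟩ := vnr_mov D
  refine ⟨C₁ + 3, ?_⟩
  intro m J F c N W s v A e g B G H pP pH k n ω r I hNs hn2 hk hω hr
  have pw : ∀ {x y : ℕ}, x ≤ y → (2 : ℝ) ^ x ≤ 2 ^ y := fun h => pow_le_pow_right₀ (by norm_num) h
  have hWk := I.AmW hk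
  have hWJ : W ≤ J := hWk.trans (I.AJ k hk)
  have hc2 : Set.InjOn c (Set.Iio 2) := I.inj.mono fun x (hx : x < 2) => show x < 3 by omega
  obtain ⟨vr, hvr⟩ : ∃ vr, vr = vnr F c W (g 0 1) (pP (ptr F J ω) 1) ω r := ⟨_, rfl⟩
  obtain ⟨a, ha⟩ : ∃ a, a = A k - W := ⟨_, rfl⟩
  obtain ⟨U, hU⟩ : ∃ U : ℝ, U = 2 ^ (C₁ * (s + v + n + 1) + 2 * s + v) / 2 ^ (g 0 2 + a) :=
    ⟨_, rfl⟩
  have hU0 : 0 ≤ U := by rw [hU]; positivity
  rw [← hvr, ← ha]
  have hAm : ∀ j i, j + i ≤ N → A j ≤ A (j + i) := by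
    intro j i
    induction i with
    | zero => intro _; exact le_rfl
    | succ i ih =>
      intro hi
      exact (ih (by omega)).trans (I.Am (j + i) (by omega))
  have one : ∀ (j : ℕ) (Q : MvPolynomial (Option (Fin m)) ℝ), j ≤ k → Q.totalDegree ≤ D →
      DepC c 2 Q → ∀ x y : ℕ, (∀ b, NBx c (G j (ptr F J ω)) (g j) (A j) (F.t ω) 2 b →
        |eval b Q| ≤ 2 ^ s / 2 ^ x) → y ≤ x + s → g 0 2 + (A j - W) ≤ y + v →
      |eval vr Q - eval (bt F ω) Q| ≤ U := by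
    intro j Q hj hQd hQ x y hQM hxy hyj
    have hjk := hAm j (k - j) (by omega)
    rw [show j + (k - j) = k by omega] at hjk
    have h1 := hm (k := j) (n := n) (y := a) (ω := ω) (r := r) (M := 2 ^ s / 2 ^ x) I
      hNs (by omega) hω hQd hQ (by positivity) hQM (by omega) (by rw [ha]; exact hr)
    rw [vnr_zr hWJ hc2 (I.pe _ 1) ω hQ, ← hvr] at h1
    refine h1.trans ?_
    rw [hU, ← mul_div_assoc, ← pow_add, div_div, ← pow_add, div_le_div_iff₀ (by positivity)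
      (by positivity), ← pow_add, ← pow_add]
    exact pw (by omega)
  have key : ∀ j ≤ k, |(eval vr (pP (ptr F J ω) 2) - eval vr (G j (ptr F J ω) 2)) -
      (eval (bt F ω) (pP (ptr F J ω) 2) - eval (bt F ω) (G j (ptr F J ω) 2))| ≤ (j + 1) * U := by
    intro j
    induction j with
    | zero =>
      intro _
      have ok0 := I.ok 0 (Nat.zero_le N)
      have h1 := one 0 (pP (ptr F J ω) 2 - G 0 (ptr F J ω) 2) (Nat.zero_le k)
        ((totalDegree_sub _ _).trans (max_le (I.pd _ _) (ok0.degG _ _)))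
        (fun b b' hn hb => by rw [map_sub, map_sub, I.pe _ 2 b b' hn hb, ok0.depG _ 2 b b' hn hb])
        (g 0 2) (g 0 2) (fun b hb => by
          rw [map_sub]
          exact I.pn ω hω 2 (by norm_num) (by norm_num) b hb) (by omega) (by rw [I.A0]; omega)
      rw [map_sub, map_sub] at h1
      rw [Nat.cast_zero, zero_add, one_mul]
      exact h1
    | succ j ih =>
      intro hj
      have hjN : j < N := by omega
      have ih' := ih (by omega)
      have okj := I.ok j hjN.le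
      have okj' := I.ok (j + 1) (by omega)
      have h1 := one (j + 1) (G (j + 1) (ptr F J ω) 2 - G j (ptr F J ω) 2) hj
        ((totalDegree_sub _ _).trans (max_le (okj'.degG _ _) (okj.degG _ _)))
        (fun b b' hn hb => by
          rw [map_sub, map_sub, okj'.depG _ 2 b b' hn hb, okj.depG _ 2 b b' hn hb])
        (g j 2) (g j 2 + s) (fun b hb => by
          rw [map_sub]
          exact I.uni j hjN 2 (by norm_num) ω hω b hb) le_rfl (by
          have h2 := hn2 j hjN.le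
          have h3 := I.Av j hjN
          have h4 := I.AmW hjN.le
          omega)
      rw [map_sub, map_sub] at h1
      have e1 : (eval vr (pP (ptr F J ω) 2) - eval vr (G (j + 1) (ptr F J ω) 2)) -
          (eval (bt F ω) (pP (ptr F J ω) 2) - eval (bt F ω) (G (j + 1) (ptr F J ω) 2)) =
          ((eval vr (pP (ptr F J ω) 2) - eval vr (G j (ptr F J ω) 2)) -
          (eval (bt F ω) (pP (ptr F J ω) 2) - eval (bt F ω) (G j (ptr F J ω) 2))) -
          (eval vr (G (j + 1) (ptr F J ω) 2) - eval vr (G j (ptr F J ω) 2) -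
            (eval (bt F ω) (G (j + 1) (ptr F J ω) 2) - eval (bt F ω) (G j (ptr F J ω) 2))) := by
        ring
      rw [e1]
      refine (abs_sub _ _).trans ?_
      push_cast
      linarith
  refine (key k le_rfl).trans ?_
  have h1 : ((k : ℝ) + 1) ≤ 2 ^ N := by
    have h2 : k + 1 ≤ 2 ^ N := (Nat.succ_le_succ hk).trans (Nat.lt_two_pow_self (n := N))
    exact_mod_cast h2
  calc ((k : ℝ) + 1) * U ≤ 2 ^ N * U := mul_le_mul_of_nonneg_right h1 hU0
    _ = 2 ^ (N + (C₁ * (s + v + n + 1) + 2 * s + v)) / 2 ^ (g 0 2 + a) := by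
        rw [hU, pow_add 2 N]
        ring
    _ ≤ _ := by
        refine div_le_div_of_nonneg_right (pw ?_) (by positivity)
        nlinarith [Nat.zero_le n]

/-- **The points near the sample** are near the natural box of a ball. -/
theorem vnr_box (D : ℕ) : ∃ C : ℕ, ∀ {m J : ℕ} {F : Fam m J} {c : ℕ → Fin m} {N W s v : ℕ}
    {A : ℕ → ℕ} {e : ℕ → ℕ} {g : ℕ → ℕ → ℕ} {B : F.Ω → Prop}
    {G : ℕ → PtT F → ℕ → MvPolynomial (Option (Fin m)) ℝ}
    {H : ℕ → LnT F → ℕ → MvPolynomial (Option (Fin m)) ℝ}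
    {pP : PtT F → ℕ → MvPolynomial (Option (Fin m)) ℝ}
    {pH : LnT F → ℕ → MvPolynomial (Option (Fin m)) ℝ} {k : ℕ} {ω : F.Ω} {r : V3},
    Inc F c D N W s v A e g B G H pP pH → N ≤ s → k ≤ N → B ω → Bx (1 / 2 ^ (A k - W)) r →
    |vnr F c W (g 0 1) (pP (ptr F J ω) 1) ω r none - F.t ω| ≤ 1 / 2 ^ A k ∧
    ∀ l < 2, |vnr F c W (g 0 1) (pP (ptr F J ω) 1) ω r (some (c l)) -
      eval (vnr F c W (g 0 1) (pP (ptr F J ω) 1) ω r) (G k (ptr F J ω) l)| ≤
        2 ^ (C * (s + v + 1)) / 2 ^ g k l := by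
  obtain ⟨C₁, hcl⟩ := cl_lip0 D
  refine ⟨C₁ + 3, ?_⟩
  intro m J F c N W s v A e g B G H pP pH k ω r I hNs hk hω hr
  have pw : ∀ {x y : ℕ}, x ≤ y → (2 : ℝ) ^ x ≤ 2 ^ y := fun h => pow_le_pow_right₀ (by norm_num) h
  have hok := I.ok k hk
  have hWA := I.AmW hk
  have hWJ : W ≤ J := hWA.trans (I.AJ k hk)
  obtain ⟨b, hb⟩ : ∃ b, b = vnr F c W (g 0 1) (pP (ptr F J ω) 1) ω r := ⟨_, rfl⟩
  have e2 : (1 : ℝ) / 2 ^ (A k - W) / 2 ^ W = 1 / 2 ^ A k := by
    rw [div_div, ← pow_add, Nat.sub_add_cancel hWA]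
  have hbn : |b none - F.t ω| ≤ 1 / 2 ^ A k := by
    rw [hb, vnr_none hWJ, add_sub_cancel_left, abs_div, abs_of_pos (by positivity : (0:ℝ) < 2 ^ W),
      ← e2]
    exact div_le_div_of_nonneg_right (hr 0) (by positivity)
  have hb0 : |b (some (c 0)) - F.x ω (c 0)| ≤ 1 / 2 ^ A k := by
    rw [hb, vnr_zero, add_sub_cancel_left, abs_div, abs_of_pos (by positivity : (0:ℝ) < 2 ^ W),
      ← e2]
    exact div_le_div_of_nonneg_right (hr 1) (by positivity)
  have h1 := I.pln hk hω hbn hb0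
  have h2 := hcl I hNs hk hω le_rfl hbn hb0
  have hb1 : b (some (c 1)) = F.x ω (c 1) + (eval b (pP (ptr F J ω) 1) -
      eval (bt F ω) (pP (ptr F J ω) 1)) + r 2 / 2 ^ g 0 1 := by
    rw [hb]
    exact vnr_one (I.inj.mono fun x (hx : x < 2) => show x < 3 by omega) (I.pe _ 1) ω r
  have h3 : |b (some (c 1)) - eval b (G k (ptr F J ω) 1)| ≤
      2 ^ ((C₁ + 3) * (s + v + 1)) / 2 ^ g k 1 := by
    have h4 := hok.pos ω hω 1 (by norm_num)
    have h5 : |r 2 / 2 ^ g 0 1| ≤ 2 ^ s / 2 ^ g k 1 := by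
      rw [abs_div, abs_of_pos (by positivity : (0:ℝ) < 2 ^ g 0 1)]
      refine (div_le_div_of_nonneg_right (hr 2) (by positivity)).trans ?_
      rw [div_div, ← pow_add, div_le_div_iff₀ (by positivity) (by positivity), one_mul, ← pow_add]
      exact pw (by have := I.n1 k hk; omega)
    have h6 : (2 : ℝ) ^ (C₁ * (s + v + 1)) / 2 ^ (g 0 1 + (A k - W)) ≤
        2 ^ (C₁ * (s + v + 1) + s) / 2 ^ g k 1 := by
      rw [div_le_div_iff₀ (by positivity) (by positivity), ← pow_add, ← pow_add]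
      exact pw (by have := I.n1 k hk; omega)
    have e1 : b (some (c 1)) - eval b (G k (ptr F J ω) 1) =
        (F.x ω (c 1) - eval (bt F ω) (G k (ptr F J ω) 1)) +
        ((eval b (pP (ptr F J ω) 1) - eval b (G k (ptr F J ω) 1)) -
          (eval (bt F ω) (pP (ptr F J ω) 1) - eval (bt F ω) (G k (ptr F J ω) 1))) +
        r 2 / 2 ^ g 0 1 := by
      rw [hb1]
      ring
    rw [e1]
    refine (abs_add_le _ _).trans ?_
    have h7 := abs_add_le (F.x ω (c 1) - eval (bt F ω) (G k (ptr F J ω) 1))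
      ((eval b (pP (ptr F J ω) 1) - eval b (G k (ptr F J ω) 1)) -
          (eval (bt F ω) (pP (ptr F J ω) 1) - eval (bt F ω) (G k (ptr F J ω) 1)))
    have h8 : (1 : ℝ) / 2 ^ g k 1 + 2 ^ (C₁ * (s + v + 1) + s) / 2 ^ g k 1 + 2 ^ s / 2 ^ g k 1 ≤
        2 ^ ((C₁ + 3) * (s + v + 1)) / 2 ^ g k 1 := by
      rw [← add_div, ← add_div]
      refine div_le_div_of_nonneg_right ?_ (by positivity)
      have k1 : (1 : ℝ) ≤ 2 ^ (C₁ * (s + v + 1) + s) := one_le_pow₀ (by norm_num)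
      have k2 : (2 : ℝ) ^ s ≤ 2 ^ (C₁ * (s + v + 1) + s) := pw (by omega)
      have k3 : (2 : ℝ) ^ (C₁ * (s + v + 1) + s + 2) ≤ 2 ^ ((C₁ + 3) * (s + v + 1)) :=
        pw (by nlinarith)
      rw [pow_add 2 (C₁ * (s + v + 1) + s) 2] at k3
      linarith
    linarith
  rw [← hb]
  refine ⟨hbn, fun l hl => ?_⟩
  interval_cases l
  · exact h1.trans (div_le_div_of_nonneg_right (pw (by nlinarith)) (by positivity))
  · exact h3

/-- The absolute coordinates of a point. -/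
noncomputable def abx (F : Fam m J) (c : ℕ → Fin m) (W g : ℕ)
    (P : MvPolynomial (Option (Fin m)) ℝ) (ω : F.Ω) (b : Option (Fin m) → ℝ) : V3 := fun i =>
  if i = 0 then 2 ^ W * (b none - F.t ω) else if i = 1 then 2 ^ W * (b (some (c 0)) - F.x ω (c 0))
  else 2 ^ g * ((b (some (c 1)) - eval b P) - (F.x ω (c 1) - eval (bt F ω) P))

theorem vnr_abx {F : Fam m J} {c : ℕ → Fin m} {W g : ℕ} {P : MvPolynomial (Option (Fin m)) ℝ}
    (hW : W ≤ J) (hc : Set.InjOn c (Set.Iio 2)) (hP : DepC c 1 P) (ω : F.Ω)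
    (b : Option (Fin m) → ℝ) {Q : MvPolynomial (Option (Fin m)) ℝ} (hQ : DepC c 2 Q) :
    eval (vnr F c W g P ω (abx F c W g P ω b)) Q = eval b Q := by
  have h2W : (2 : ℝ) ^ W ≠ 0 := by positivity
  have h2g : (2 : ℝ) ^ g ≠ 0 := by positivity
  have h0 : vnr F c W g P ω (abx F c W g P ω b) none = b none := by
    rw [vnr_none hW]
    show F.t ω + 2 ^ W * (b none - F.t ω) / 2 ^ W = _
    field_simp
    ring
  have h1 : vnr F c W g P ω (abx F c W g P ω b) (some (c 0)) = b (some (c 0)) := by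
    rw [vnr_zero]
    show F.x ω (c 0) + 2 ^ W * (b (some (c 0)) - F.x ω (c 0)) / 2 ^ W = _
    field_simp
    ring
  have h2 : eval (vnr F c W g P ω (abx F c W g P ω b)) P = eval b P := hP _ _ h0 fun l hl => by
    have : l = 0 := by omega
    subst this
    exact h1
  have h3 : vnr F c W g P ω (abx F c W g P ω b) (some (c 1)) = b (some (c 1)) := by
    rw [vnr_one hc hP, h2]
    show F.x ω (c 1) + (eval b P - eval (bt F ω) P) +
      2 ^ g * ((b (some (c 1)) - eval b P) - (F.x ω (c 1) - eval (bt F ω) P)) / 2 ^ g = _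
    field_simp
    ring
  refine hQ _ _ h0 fun l hl => ?_
  interval_cases l
  · exact h1
  · exact h3

/-- **The own line in absolute coordinates.** -/
theorem own_bx (D : ℕ) : ∃ C : ℕ, ∀ {m J : ℕ} {F : Fam m J} {c : ℕ → Fin m} {N W s v : ℕ}
    {A : ℕ → ℕ} {e : ℕ → ℕ} {g : ℕ → ℕ → ℕ} {B : F.Ω → Prop}
    {G : ℕ → PtT F → ℕ → MvPolynomial (Option (Fin m)) ℝ}
    {H : ℕ → LnT F → ℕ → MvPolynomial (Option (Fin m)) ℝ}
    {pP : PtT F → ℕ → MvPolynomial (Option (Fin m)) ℝ}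
    {pH : LnT F → ℕ → MvPolynomial (Option (Fin m)) ℝ} {k : ℕ} {ω : F.Ω} {t : ℝ},
    Inc F c D N W s v A e g B G H pP pH → N ≤ s → k ≤ N → B ω → |t - F.t ω| ≤ 1 / 2 ^ A k →
    |opt F ω t (some (c 1)) - eval (opt F ω t) (G k (ptr F J ω) 1)| ≤ 2 ^ s / 2 ^ g k 1 →
    Bx (2 ^ (C * (s + v + 1)) / 2 ^ (A k - W))
      (abx F c W (g 0 1) (pP (ptr F J ω) 1) ω (opt F ω t)) := by
  obtain ⟨C₁, hcl⟩ := cl_lip0 D
  refine ⟨C₁ + 3, ?_⟩
  intro m J F c N W s v A e g B G H pP pH k ω t I hNs hk hω ht ho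
  have pw : ∀ {x y : ℕ}, x ≤ y → (2 : ℝ) ^ x ≤ 2 ^ y := fun h => pow_le_pow_right₀ (by norm_num) h
  have hWk := I.AmW hk
  obtain ⟨a, ha⟩ : ∃ a, a = A k - W := ⟨_, rfl⟩
  have hak : A k = W + a := by omega
  have hbn : |opt F ω t none - F.t ω| ≤ 1 / 2 ^ A k := by rw [opt_none]; exact ht
  have hb0 : |opt F ω t (some (c 0)) - F.x ω (c 0)| ≤ 1 / 2 ^ A k := by
    rw [opt_some, add_sub_cancel_left, abs_mul]
    calc |t - F.t ω| * |F.d ω (c 0)| ≤ 1 / 2 ^ A k * 1 :=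
          mul_le_mul ht (F.dir ω (c 0)) (abs_nonneg _) (by positivity)
      _ = _ := mul_one _
  have h1 : (1 : ℝ) ≤ 2 ^ ((C₁ + 3) * (s + v + 1)) := one_le_pow₀ (by norm_num)
  have sc : ∀ x : ℝ, |x| ≤ 1 / 2 ^ A k → |2 ^ W * x| ≤ 2 ^ ((C₁ + 3) * (s + v + 1)) / 2 ^ a := by
    intro x hx
    rw [abs_mul, abs_of_pos (by positivity : (0 : ℝ) < 2 ^ W)]
    calc (2 : ℝ) ^ W * |x| ≤ 2 ^ W * (1 / 2 ^ A k) := mul_le_mul_of_nonneg_left hx (by positivity)
      _ = 1 / 2 ^ a := by rw [hak, pow_add]; field_simp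
      _ ≤ _ := div_le_div_of_nonneg_right h1 (by positivity)
  rw [← ha]
  intro i
  fin_cases i
  · exact sc _ hbn
  · exact sc _ hb0
  · show |2 ^ g 0 1 * ((opt F ω t (some (c 1)) - eval (opt F ω t) (pP (ptr F J ω) 1)) -
      (F.x ω (c 1) - eval (bt F ω) (pP (ptr F J ω) 1)))| ≤ _
    have h2 := hcl I hNs hk hω le_rfl hbn hb0
    have h3 := (I.ok k hk).pos ω hω 1 (by norm_num)
    have e1 : (opt F ω t (some (c 1)) - eval (opt F ω t) (pP (ptr F J ω) 1)) -
        (F.x ω (c 1) - eval (bt F ω) (pP (ptr F J ω) 1)) =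
        (opt F ω t (some (c 1)) - eval (opt F ω t) (G k (ptr F J ω) 1)) -
        (F.x ω (c 1) - eval (bt F ω) (G k (ptr F J ω) 1)) -
        ((eval (opt F ω t) (pP (ptr F J ω) 1) - eval (opt F ω t) (G k (ptr F J ω) 1)) -
        (eval (bt F ω) (pP (ptr F J ω) 1) - eval (bt F ω) (G k (ptr F J ω) 1))) := by ring
    rw [abs_mul, abs_of_pos (by positivity : (0 : ℝ) < 2 ^ g 0 1), e1]
    have h4 : (2 : ℝ) ^ s / 2 ^ g k 1 + 1 / 2 ^ g k 1 ≤ 2 ^ (2 * s + 1) / 2 ^ (g 0 1 + a) := by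
      have k1 : (1 : ℝ) ≤ 2 ^ s := one_le_pow₀ (by norm_num)
      calc (2 : ℝ) ^ s / 2 ^ g k 1 + 1 / 2 ^ g k 1 ≤ 2 ^ (s + 1) / 2 ^ g k 1 := by
            rw [← add_div, pow_succ]
            exact div_le_div_of_nonneg_right (by linarith) (by positivity)
        _ ≤ _ := by
            rw [div_le_div_iff₀ (by positivity) (by positivity), ← pow_add, ← pow_add]
            exact pw (by have := I.n1' k hk; omega)
    have h5 : |(opt F ω t (some (c 1)) - eval (opt F ω t) (G k (ptr F J ω) 1)) -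
        (F.x ω (c 1) - eval (bt F ω) (G k (ptr F J ω) 1)) -
        ((eval (opt F ω t) (pP (ptr F J ω) 1) - eval (opt F ω t) (G k (ptr F J ω) 1)) -
        (eval (bt F ω) (pP (ptr F J ω) 1) - eval (bt F ω) (G k (ptr F J ω) 1)))| ≤
        2 ^ (2 * s + 1) / 2 ^ (g 0 1 + a) + 2 ^ (C₁ * (s + v + 1)) / 2 ^ (g 0 1 + a) := by
      rw [ha]
      rw [ha] at h4
      refine (abs_sub _ _).trans ?_
      have := abs_sub (opt F ω t (some (c 1)) - eval (opt F ω t) (G k (ptr F J ω) 1))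
        (F.x ω (c 1) - eval (bt F ω) (G k (ptr F J ω) 1))
      linarith
    calc (2 : ℝ) ^ g 0 1 * _ ≤ 2 ^ g 0 1 * (2 ^ (2 * s + 1) / 2 ^ (g 0 1 + a) +
          2 ^ (C₁ * (s + v + 1)) / 2 ^ (g 0 1 + a)) := mul_le_mul_of_nonneg_left h5 (by positivity)
      _ = (2 ^ (2 * s + 1) + 2 ^ (C₁ * (s + v + 1))) / 2 ^ a := by
          rw [pow_add 2 (g 0 1) a]
          field_simp
      _ ≤ _ := by
          refine div_le_div_of_nonneg_right ?_ (by positivity)
          have k1 : (2 : ℝ) ^ (2 * s + 1) ≤ 2 ^ (C₁ * (s + v + 1) + 2 * s + 1) := pw (by omega)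
          have k2 : (2 : ℝ) ^ (C₁ * (s + v + 1)) ≤ 2 ^ (C₁ * (s + v + 1) + 2 * s + 1) :=
            pw (by omega)
          have k3 : (2 : ℝ) ^ (C₁ * (s + v + 1) + 2 * s + 1 + 1) ≤
            2 ^ ((C₁ + 3) * (s + v + 1)) := pw (by nlinarith)
          rw [pow_succ _ (C₁ * (s + v + 1) + 2 * s + 1)] at k3
          linarith

end Pool.STB65
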