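import Pool.Agent.H65.STB.Jev
import Pool.Agent.H82.STB.Cls

/-!
# The data of the windows

`wind_of`: the output of `jet_ev` is the data `WinD` of all the windows.
-/

set_option autoImplicit false

namespace Pool.STB65

open Finset Real MvPolynomial
open Pool.Agent.H49.Ent Pool.Agent.H32.Dense Pool.STK Pool.KA Pool.KSAT Pool.K2S Pool.PB Pool.S6C
open Pool.GEN Pool.D2Con Pool.D2A Pool.RCD
open Pool.STB (V3 Po Bx Hb)
open Pool.STB82 (WinD)

variable {m J : ℕ}

/-- The direction of the data of a line. -/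
noncomputable def xD (d : V3 × Po) : V3 := open Classical in if Bx 1 d.1 then d.1 else 0

/-- The homogeneous polynomial of the data of a line. -/
noncomputable def pD (b : ℕ) (d : V3 × Po) : Po := open Classical in if Hb b 1 d.2 then d.2 else 0

theorem xD_bx (d : V3 × Po) : Bx 1 (xD d) := by
  unfold xD
  split_ifs with h
  · exact h
  · exact bx_zero zero_le_one

theorem pD_hb (b : ℕ) (d : V3 × Po) : Hb b 1 (pD b d) := by
  unfold pD
  split_ifs with h
  · exact h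
  · refine ⟨isHomogeneous_zero _ _ _, fun q _ => ?_⟩
    rw [map_zero, abs_zero]
    exact zero_le_one

/-- The values of the data. -/
noncomputable def tD (k b : ℕ) : Finset (V3 × Po) := open Classical in grd k ×ˢ fgr k b

theorem log_tD (k b : ℕ) : Real.log (tD k b).card ≤
    (3 + (se b).card) * ((k + 2) * Real.log 2) := by
  classical
  have h1 : (tD k b).card ≤ (2 * 2 ^ k + 1) ^ (3 + (se b).card) := by
    unfold tD
    rw [Finset.card_product, pow_add]
    exact Nat.mul_le_mul (card_grd k) (card_fgr k b)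
  have h2 : ((tD k b).card : ℝ) ≤ (2 ^ (k + 2)) ^ (3 + (se b).card) := by
    have h3 : ((tD k b).card : ℝ) ≤ (2 * 2 ^ k + 1) ^ (3 + (se b).card) := by exact_mod_cast h1
    refine h3.trans (pow_le_pow_left₀ (by positivity) ?_ _)
    rw [pow_add]
    have : (1 : ℝ) ≤ 2 ^ k := one_le_pow₀ (by norm_num)
    linarith
  rcases Nat.eq_zero_or_pos (tD k b).card with h0 | h0
  · rw [h0, Nat.cast_zero, Real.log_zero]
    have := Real.log_nonneg (show (1 : ℝ) ≤ 2 by norm_num)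
    positivity
  · have h3 := Real.log_le_log (by exact_mod_cast h0) h2
    rw [Real.log_pow, Real.log_pow] at h3
    push_cast at h3
    exact h3

/-- **The windows.** -/
theorem wind_of {F : Fam m J} {B : F.Ω → Prop} {W₀ d k n b : ℕ} {σ κ Kp Kc G K : ℝ}
    {y : F.Ω → V3} {h : LnT F → Fin 3 → Polynomial ℝ} {f : ℕ → PtT F → Po} {ji : ℕ → ℕ}
    {ctr xo : ℕ → F.Ω → V3} {D₁ : LnT F → V3} {Jo Ci : ℕ → F.Ω → Po} {Φ₁ : LnT F → Po}
    (hp : PosO F B W₀ d k n σ Kp y h ctr xo D₁)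
    (hj : JetO F B W₀ d k n b σ κ Kc G y f ji ctr xo Jo Ci Φ₁) (hKp : Kp ≤ K) (hKc : Kc ≤ K)
    {i : ℕ} (hi : i < n) : WinD F B (W₀ + d + i * k) k b
      (fun ω => (D₁ (slam F (W₀ + d) ω), Φ₁ (slam F (W₀ + d) ω))) xD (pD b) (xo i) (Jo i) K := by
  have hX : ∀ s, xD (D₁ s, Φ₁ s) = D₁ s := fun s => by
    unfold xD
    exact if_pos (grd_bx (hp.dg s))
  have hΦ : ∀ s, pD b (D₁ s, Φ₁ s) = Φ₁ s := fun s => by
    unfold pD
    exact if_pos (hj.hb s)
  have h2 : ((2 ^ k : ℕ) : ℝ) = 2 ^ k := by push_cast; rfl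
  refine ⟨hp.cx i hi, hj.cJ i hi, hp.x1 i hi, fun ω hω => ⟨(hj.dJ i ω).trans (Nat.sub_le b 1),
    fun q hq => (hj.J1 i hi ω hω q hq).trans hKc⟩, fun ω ω' hω hω' hs => ?_,
    fun ω ω' hω hω' hs q hq => ?_⟩
  · rw [hX, h2]
    exact bxm (hp.pos i hi ω ω' hω hω' hs) (div_le_div_of_nonneg_right hKp (by positivity))
  · rw [hΦ, h2]
    exact (hj.jet i hi ω ω' hω hω' hs q hq).trans
      (div_le_div_of_nonneg_right hKc (by positivity))

theorem mem_tD {F : Fam m J} {B : F.Ω → Prop} {W₀ d k n b : ℕ} {σ κ Kp Kc G : ℝ}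
    {y : F.Ω → V3} {h : LnT F → Fin 3 → Polynomial ℝ} {f : ℕ → PtT F → Po} {ji : ℕ → ℕ}
    {ctr xo : ℕ → F.Ω → V3} {D₁ : LnT F → V3} {Jo Ci : ℕ → F.Ω → Po} {Φ₁ : LnT F → Po}
    (hp : PosO F B W₀ d k n σ Kp y h ctr xo D₁)
    (hj : JetO F B W₀ d k n b σ κ Kc G y f ji ctr xo Jo Ci Φ₁) (s : LnT F) :
    (D₁ s, Φ₁ s) ∈ tD k b := by
  classical
  unfold tD
  exact Finset.mem_product.2 ⟨hp.dg s, hj.ph s⟩

end Pool.STB65
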